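import Pool.Agent.Lib.MP_7bc51d_an_dense.V
import Pool.Agent.Lib.MP_7bc51d_an.Hyp
import Pool.Agent.Lib.MP_7bc51d_an.Uniform

set_option autoImplicit false

/-!
From invariant sets of phase points to line functions.
-/

namespace Pool.Agent.Lib.BilD.Brd57

open Complex MeasureTheory Set Filter Topology
open scoped ComplexConjugate
open Pool.Agent.Lib.Bil Pool.Agent.Lib.BilD

variable {n : ℕ} {v : Fin n → ℂ} {A : Set (ℂ × ℂ)}

theorem lfs_FA (hn : 3 ≤ n) (hv : ConvexIndependent ℝ v) (hA : MeasurableSet A)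
    (H : ∀ᵐ p ∂(volume : Measure (ℂ × ℂ)), HypAt v A p) : LFS v (FA v A) where
  lf := LF_FA hA
  nn := fun w Q => by rcases FA_zero_or_one (v := v) A w Q with h | h <;> rw [h] <;> norm_num
  sym := fun s hs => symAt_FA hn hv (inv_of_hyp hv H) (chord_of_hyp H) (mem_SD.1 hs)

/-- Proportion of the directions at `x` which belong to `A`. -/
noncomputable def frac (A : Set (ℂ × ℂ)) (x : ℂ) : ℝ :=
  (volume {w : ℂ | w ∈ Metric.ball (0 : ℂ) 1 ∧ (x, w) ∈ A}).toReal /
    (volume (Metric.ball (0 : ℂ) 1)).toReal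

theorem slice_meas (hA : MeasurableSet A) (x : ℂ) : MeasurableSet {w : ℂ | (x, w) ∈ A} :=
  measurable_prodMk_left hA

theorem qf_eq (hA : MeasurableSet A) (H : ∀ᵐ p ∂(volume : Measure (ℂ × ℂ)), HypAt v A p) :
    ∀ᵐ x : ℂ, x ∈ PP v → qf (FA v A) x = frac A x := by
  filter_upwards [FA_ae_swap hA (chord_of_hyp H)] with x hx hxP
  unfold qf frac
  have h1 : ∫ w in BV, FA v A w (cr w x) = (volume (BV ∩ {w : ℂ | (x, w) ∈ A})).toReal := by
    have h2 : ∫ w in BV, FA v A w (cr w x) =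
        ∫ w in BV, ({w : ℂ | (x, w) ∈ A}).indicator (1 : ℂ → ℝ) w := by
      apply integral_congr_ae
      refine ae_restrict_of_ae ?_
      filter_upwards [hx] with w hw
      rw [hw hxP]
      rfl
    rw [h2, setIntegral_indicator (slice_meas hA x)]
    simp [Measure.real]
  rw [h1, inv_mul_eq_div]
  rfl

theorem null_of_frac (hA : MeasurableSet A) (h : ∀ᵐ x : ℂ, x ∈ PP v → frac A x = 0) :
    volume (A ∩ PP v ×ˢ Metric.ball (0 : ℂ) 1) = 0 := by
  have hm : MeasurableSet (A ∩ PP v ×ˢ Metric.ball (0 : ℂ) 1) :=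
    hA.inter (isOpen_interior.measurableSet.prod Metric.isOpen_ball.measurableSet)
  have h0 : ((volume : Measure ℂ).prod (volume : Measure ℂ)) (A ∩ PP v ×ˢ Metric.ball (0 : ℂ) 1) = 0
      := by
    rw [Measure.measure_prod_null hm]
    filter_upwards [h] with x hx
    change volume (Prod.mk x ⁻¹' (A ∩ PP v ×ˢ Metric.ball (0 : ℂ) 1)) = 0
    by_cases hxP : x ∈ PP v
    · have h1 := hx hxP
      unfold frac at h1
      have hb : (volume (Metric.ball (0 : ℂ) 1)).toReal ≠ 0 :=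
        (ENNReal.toReal_pos (Metric.measure_ball_pos volume (0 : ℂ) one_pos).ne'
          Metric.isBounded_ball.measure_lt_top.ne).ne'
      have h2 := (div_eq_zero_iff.1 h1).resolve_right hb
      have h3 : volume {w : ℂ | w ∈ Metric.ball (0 : ℂ) 1 ∧ (x, w) ∈ A} = 0 := by
        rcases (ENNReal.toReal_eq_zero_iff _).1 h2 with h4 | h4
        · exact h4
        · exact absurd h4 (((measure_mono (fun w hw => hw.1)).trans_lt
            (Metric.isBounded_ball (x := (0 : ℂ)) (r := 1)).measure_lt_top).ne)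
      refine measure_mono_null ?_ h3
      rintro w ⟨hw1, hw2⟩
      exact ⟨hw2.2, hw1⟩
    · have : Prod.mk x ⁻¹' (A ∩ PP v ×ˢ Metric.ball (0 : ℂ) 1) = ∅ := by
        ext w
        simp only [mem_preimage, mem_inter_iff, mem_prod, mem_empty_iff_false, iff_false]
        rintro ⟨-, h1, -⟩
        exact hxP h1
      rw [this, measure_empty]
  exact h0

theorem frac_compl (hA : MeasurableSet A) (x : ℂ) : frac Aᶜ x = 1 - frac A x := by
  unfold frac
  have hb0 : volume (Metric.ball (0 : ℂ) 1) ≠ 0 :=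
    (Metric.measure_ball_pos volume (0 : ℂ) one_pos).ne'
  have hbt : volume (Metric.ball (0 : ℂ) 1) ≠ ⊤ := Metric.isBounded_ball.measure_lt_top.ne
  have hb : (volume (Metric.ball (0 : ℂ) 1)).toReal ≠ 0 := (ENNReal.toReal_pos hb0 hbt).ne'
  have h1 := measure_inter_add_sdiff (μ := volume) (Metric.ball (0 : ℂ) 1) (slice_meas hA x)
  have e1 : {w : ℂ | w ∈ Metric.ball (0 : ℂ) 1 ∧ (x, w) ∈ A} =
      Metric.ball (0 : ℂ) 1 ∩ {w : ℂ | (x, w) ∈ A} := rfl
  have e2 : {w : ℂ | w ∈ Metric.ball (0 : ℂ) 1 ∧ (x, w) ∈ Aᶜ} =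
      Metric.ball (0 : ℂ) 1 \ {w : ℂ | (x, w) ∈ A} := rfl
  rw [e1, e2, eq_sub_iff_add_eq, ← add_div, div_eq_one_iff_eq hb, add_comm, ← h1,
    ENNReal.toReal_add]
  · exact ((measure_mono inter_subset_left).trans_lt (lt_top_iff_ne_top.2 hbt)).ne
  · exact ((measure_mono sdiff_subset).trans_lt (lt_top_iff_ne_top.2 hbt)).ne

/-- Mixture of the directions near the vertices. -/
noncomputable def mix (v : Fin n → ℂ) (A : Set (ℂ × ℂ)) (r : ℝ) : ℝ :=
  ∫ x in {x | x ∈ PP v ∧ ∃ k, ‖x - v k‖ < r}, frac A x * (1 - frac A x)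

theorem Vr_meas (r : ℝ) : MeasurableSet (Vr v r) := by
  have h1 : Vr v r = PP v ∩ ⋃ k, Metric.ball (v k) r := by
    ext x
    simp only [Vr, mem_ofPred_eq, mem_inter_iff, mem_iUnion, mem_ball_iff_norm]
  rw [h1]
  exact isOpen_interior.measurableSet.inter
    (MeasurableSet.iUnion fun k => Metric.isOpen_ball.measurableSet)

theorem Mm_eq (hA : MeasurableSet A) (H : ∀ᵐ p ∂(volume : Measure (ℂ × ℂ)), HypAt v A p) (r : ℝ) :
    Mm v (FA v A) r = mix v A r := by
  unfold Mm mix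
  change _ = ∫ x in Vr v r, frac A x * (1 - frac A x)
  apply integral_congr_ae
  rw [Filter.EventuallyEq, ae_restrict_iff' (Vr_meas r)]
  filter_upwards [qf_eq hA H] with x hx hxr
  unfold qd
  rw [hx hxr.1]

/-- Nontrivial invariant sets are mixed at the vertices. -/
theorem mixed (hn : 3 ≤ n) (hv : ConvexIndependent ℝ v) (hA : MeasurableSet A)
    (H : ∀ᵐ p ∂(volume : Measure (ℂ × ℂ)), HypAt v A p)
    (h0 : volume (A ∩ PP v ×ˢ Metric.ball (0 : ℂ) 1) ≠ 0)
    (h1 : volume ((PP v ×ˢ Metric.ball (0 : ℂ) 1) \ A) ≠ 0) :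
    ∃ η > 0, ∃ r₀ > 0, ∀ r, 0 < r → r < r₀ → η * r ^ 2 ≤ mix v A r := by
  by_contra hcon
  push Not at hcon
  have hV := rV n v hn hv _ (lfs_FA hn hv hA H) (fun η hη r₀ hr₀ => by
    obtain ⟨r, hr1, hr2, hr3⟩ := hcon η hη r₀ hr₀
    refine ⟨r, hr1, hr2, ?_⟩
    rw [Mm_eq hA H]
    exact hr3.le)
  rcases hV with h2 | h2
  · apply h0
    apply null_of_frac hA
    filter_upwards [h2, qf_eq hA H] with x g1 g2 hx
    rw [← g2 hx, g1 hx]
  · apply h1
    have h3 := null_of_frac (v := v) hA.compl (by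
      filter_upwards [h2, qf_eq hA H] with x g1 g2 hx
      rw [frac_compl hA, ← g2 hx, g1 hx, sub_self])
    have e : (PP v ×ˢ Metric.ball (0 : ℂ) 1) \ A = Aᶜ ∩ PP v ×ˢ Metric.ball (0 : ℂ) 1 := by
      ext p
      exact ⟨fun h => ⟨h.2, h.1⟩, fun h => ⟨h.2, h.1⟩⟩
    rw [e]
    exact h3

end Pool.Agent.Lib.BilD.Brd57
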