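import Pool.Agent.Lib.MP_7bc51d_an_dense.DefsT

set_option autoImplicit false

/-!
Row CLS: two symmetry classes of vertices and Theorem T give transitivity.
-/

namespace Pool.Agent.Lib.BilD.Cls57

open Complex MeasureTheory Set Filter Topology
open scoped ComplexConjugate
open Pool.Agent.Lib.Bil Pool.Agent.Lib.BTop Pool.Agent.Lib.BilU Pool.Agent.Lib.BilD

variable {n : ℕ} {v : Fin n → ℂ} {U W : Set (ℂ × ℝ)} {Φ : ℂ × ℝ → ℂ × ℝ} {σ : Fin n → Fin n}

/-- The regular complement. -/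
theorem reg_compl (hn : 3 ≤ n) (hv : ConvexIndependent ℝ v) (hW : XL v W) (hWo : IsOpen W) :
    XL v (MM v \ closure W) ∧ IsOpen (MM v \ closure W) ∧
      MM v ∩ interior (closure (MM v \ closure W)) ⊆ MM v \ closure W := by
  obtain ⟨-, hMo, hc, -, -, hcl, -⟩ := stmtE n hn v hv
  refine ⟨?_, hMo.sdiff isClosed_closure, ?_⟩
  · have h1 := hc _ (hcl W hW)
    have h2 : MM v \ (MM v ∩ closure W) = MM v \ closure W := by
      ext p
      constructor
      · rintro ⟨g1, g2⟩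
        exact ⟨g1, fun g3 => g2 ⟨g1, g3⟩⟩
      · rintro ⟨g1, g2⟩
        exact ⟨g1, fun g3 => g2 g3.2⟩
    rwa [h2] at h1
  · rintro p ⟨hp1, hp2⟩
    refine ⟨hp1, fun hp3 => ?_⟩
    obtain ⟨q, hq1, hq2⟩ := mem_closure_iff.1 hp3 _ isOpen_interior hp2
    obtain ⟨r, hr1, hr2⟩ := mem_closure_iff.1 (interior_subset hq1) _ hWo hq2
    exact hr2.2 (subset_closure hr1)

/-- Regular open sets with a symmetry up to closure are symmetric. -/
theorem sym_of_reg (hE : IsOpen (MM v)) (hS : Sy v Φ σ) (hU : XL v U) (hUo : IsOpen U)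
    (hreg : MM v ∩ interior (closure U) ⊆ U) : ∀ p, Φ p ∈ U ↔ p ∈ U := by
  have h1 : ∀ p, Φ p ∈ U → p ∈ U := by
    intro p hp
    have hpM : p ∈ MM v := by
      have := hS.mm _ (hU.sub hp)
      rwa [hS.inv] at this
    refine hreg ⟨hpM, ?_⟩
    have hsub : Φ ⁻¹' U ∩ MM v ⊆ closure U := by
      rintro q ⟨hq, -⟩
      have := hS.sy U hU hUo _ hq
      rwa [hS.inv] at this
    exact interior_maximal hsub ((hUo.preimage hS.cont).inter hE) ⟨hp, hpM⟩
  intro p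
  refine ⟨h1 p, fun hp => h1 _ ?_⟩
  rwa [hS.inv]

theorem row (hT : StT) : StCls := by
  intro n hn v hv hirr Φ σ hS hσ ⟨i, j, hij⟩ U₀ W₀ hU₀ hW₀ hU₀o hW₀o hU₀n hW₀n
  by_contra hcon
  rw [Set.not_nonempty_iff_eq_empty] at hcon
  obtain ⟨-, hMo, -⟩ := stmtE n hn v hv
  obtain ⟨hUX, hUo, hUr⟩ := reg_compl hn hv hW₀ hW₀o
  have hU₀U : U₀ ⊆ MM v \ closure W₀ := by
    intro p hp
    refine ⟨hU₀.sub hp, fun h => ?_⟩
    obtain ⟨q, hq1, hq2⟩ := mem_closure_iff.1 h _ hU₀o hp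
    have : q ∈ U₀ ∩ W₀ := ⟨hq1, hq2⟩
    rw [hcon] at this
    exact this
  set U := MM v \ closure W₀ with hUdef
  obtain ⟨hWX, hWo, hWr⟩ := reg_compl hn hv hUX hUo
  have hW₀W : W₀ ⊆ MM v \ closure U := by
    intro p hp
    refine ⟨hW₀.sub hp, fun h => ?_⟩
    obtain ⟨q, hq1, hq2⟩ := mem_closure_iff.1 h _ hW₀o hp
    exact hq2.2 (subset_closure hq1)
  set W := MM v \ closure U with hWdef
  have hdis : Disjoint U W := by
    rw [Set.disjoint_left]
    intro p hp hp2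
    exact hp2.2 (subset_closure hp)
  have hUn : U.Nonempty := hU₀n.mono hU₀U
  have hWn : W.Nonempty := hW₀n.mono hW₀W
  have hUs := sym_of_reg hMo hS hUX hUo hUr
  have hWs := sym_of_reg hMo hS hWX hWo hWr
  obtain ⟨k, hkU, hkW⟩ := hT n hn v hv U W hUX hWX hUo hWo hUn hWn hdis
  -- every nonempty open invariant set has a vertex
  have hex : ∀ S : Set (ℂ × ℝ), XL v S → IsOpen S → S.Nonempty → ∃ k, VX v S k := by
    intro S hSX hSo hSn
    by_contra hno
    push Not at hno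
    have hOF := (stmtD n hn v hv).2.2.1 S hSX hSo
    have hVN : ∀ k, VN v S k := fun k =>
      (stmtB stmtA stmtD n hn v hv hirr S hOF k).resolve_left (hno k)
    have h1 := stmtC n hn v hv S hOF hVN
    obtain ⟨p, hp⟩ := hSn
    obtain ⟨ε, hε, hball⟩ := Metric.isOpen_iff.1 hSo p hp
    have h2 : volume (Metric.ball p.1 ε) = 0 := by
      refine measure_mono_null ?_ (ae_iff.1 h1)
      intro w hw
      rw [Set.mem_ofPred_eq, not_forall]
      refine ⟨p.2, not_not.2 (hball ?_)⟩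
      rw [Metric.mem_ball, Prod.dist_eq, max_lt_iff]
      exact ⟨hw, by simpa using hε⟩
    exact (Metric.measure_ball_pos volume p.1 hε).ne' h2
  obtain ⟨a, ha⟩ := hex U hUX hUo hUn
  obtain ⟨b, hb⟩ := hex W hWX hWo hWn
  have hcl : ∀ S : Set (ℂ × ℝ), (∀ p, Φ p ∈ S ↔ p ∈ S) → ∀ k l, (k = l ∨ k = σ l) →
      VX v S k → VX v S l ∧ VX v S (σ l) := by
    intro S hs k l hkl hk
    rcases hkl with rfl | rfl
    · exact ⟨hk, hS.vert S hs _ hk⟩
    · refine ⟨?_, hk⟩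
      have := hS.vert S hs _ hk
      rwa [hσ] at this
  have hno : ∀ l, ¬ (VX v U l ∧ VX v W l) := by
    rintro l ⟨h1, h2⟩
    obtain ⟨hVi, hVn, -⟩ := stmtV n hn v hv l
    have h3 := hVn _ ((hVi U W).2 ⟨h1, h2⟩)
    rw [Set.disjoint_iff_inter_eq_empty.1 hdis] at h3
    exact Set.not_nonempty_empty h3
  -- the class of `k`
  have hk4 : (k = i ∨ k = σ i) ∨ (k = j ∨ k = σ j) := by
    rcases hij k with h | h | h | h
    · exact Or.inl (Or.inl h)
    · exact Or.inl (Or.inr h)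
    · exact Or.inr (Or.inl h)
    · exact Or.inr (Or.inr h)
  have ha4 : (a = i ∨ a = σ i) ∨ (a = j ∨ a = σ j) := by
    rcases hij a with h | h | h | h
    · exact Or.inl (Or.inl h)
    · exact Or.inl (Or.inr h)
    · exact Or.inr (Or.inl h)
    · exact Or.inr (Or.inr h)
  have hb4 : (b = i ∨ b = σ i) ∨ (b = j ∨ b = σ j) := by
    rcases hij b with h | h | h | h
    · exact Or.inl (Or.inl h)
    · exact Or.inl (Or.inr h)
    · exact Or.inr (Or.inl h)
    · exact Or.inr (Or.inr h)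
  have hfin : ∀ l, (VX v U l ∧ VX v U (σ l)) ∨ (VX v W l ∧ VX v W (σ l)) →
      (k = l ∨ k = σ l) → False := by
    intro l h1 h2
    rcases h1 with ⟨h3, h4⟩ | ⟨h3, h4⟩ <;> rcases h2 with rfl | rfl
    · exact hkU h3
    · exact hkU h4
    · exact hkW h3
    · exact hkW h4
  rcases ha4 with ha4 | ha4 <;> rcases hb4 with hb4 | hb4
  · exact hno i ⟨(hcl U hUs a i ha4 ha).1, (hcl W hWs b i hb4 hb).1⟩
  · rcases hk4 with hk4 | hk4
    · exact hfin i (Or.inl (hcl U hUs a i ha4 ha)) hk4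
    · exact hfin j (Or.inr (hcl W hWs b j hb4 hb)) hk4
  · rcases hk4 with hk4 | hk4
    · exact hfin i (Or.inr (hcl W hWs b i hb4 hb)) hk4
    · exact hfin j (Or.inl (hcl U hUs a j ha4 ha)) hk4
  · exact hno j ⟨(hcl U hUs a j ha4 ha).1, (hcl W hWs b j hb4 hb).1⟩

end Pool.Agent.Lib.BilD.Cls57
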