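import Pool.Agent.Lib.MP_7bc51d_an_dense.Trans57
import Pool.Agent.Lib.MP_7bc51d_an_dense.Cls57

set_option autoImplicit false

/-!
Parallelograms, isosceles triangles, isosceles trapezoids.
-/

namespace Pool.Agent.Lib.BilD.Trans57

open Complex MeasureTheory Set Filter Topology
open scoped ComplexConjugate
open Pool.Agent.Lib.Bil Pool.Agent.Lib.BTop Pool.Agent.Lib.BilU Pool.Agent.Lib.BilD

theorem trans_par (hT : StT) (hP : StPar) {v : Fin 4 → ℂ} (hv : ConvexIndependent ℝ v)
    (hp : v 0 + v 2 = v 1 + v 3) (hirr : Irr v) : TransL v := by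
  refine Cls57.row hT 4 (by norm_num) v hv hirr _ _ (hP v hv hp) ?_ ⟨0, 1, ?_⟩
  · decide
  · decide

theorem rl_swap_of_norm {a b : ℂ} (hne : b - a ≠ 0) (h : ‖a‖ = ‖b‖) : rl (b - a) a = -b := by
  have h1 : conj (b - a) ≠ 0 := (map_ne_zero (starRingEnd ℂ)).2 hne
  have h2 : a * conj a = b * conj b := by
    rw [mul_conj, mul_conj, normSq_eq_norm_sq, normSq_eq_norm_sq, h]
  unfold rl
  rw [div_mul_eq_mul_div, div_eq_iff h1, map_sub]
  linear_combination -h2

theorem trans_iso (hT : StT) (hM : StMir) {v : Fin 3 → ℂ} (hv : ConvexIndependent ℝ v)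
    (h : ‖v 1 - v 0‖ = ‖v 2 - v 0‖) (hirr : Irr v) : TransL v := by
  have hn : 3 ≤ 3 := le_refl 3
  have hinj := hv.injective
  have hne : v 2 - v 1 ≠ 0 := sub_ne_zero.2 (hinj.ne (by decide))
  have hb : (v 2 - v 0) - (v 1 - v 0) = v 2 - v 1 := by ring
  have r1 : rl (v 2 - v 1) (v 1 - v 0) = -(v 2 - v 0) := by
    have := rl_swap_of_norm (a := v 1 - v 0) (b := v 2 - v 0) (by rwa [hb]) h
    rwa [hb] at this
  have r2 : rl (v 2 - v 1) (v 2 - v 0) = -(v 1 - v 0) := by
    have := rl_rl hne (v 1 - v 0)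
    rw [r1, Bil.rl_neg] at this
    linear_combination -this
  set σ : Fin 3 → Fin 3 := ![0, 2, 1] with hσ
  have hσv : ∀ i, v (σ i) = Rm (v 2 - v 1) (v 0) (v i) := by
    intro i
    fin_cases i
    · simp [hσ, Rm, rl]
    · simp only [hσ, Rm]
      change v 2 = v 0 - rl (v 2 - v 1) (v 1 - v 0)
      rw [r1]; ring
    · simp only [hσ, Rm]
      change v 1 = v 0 - rl (v 2 - v 1) (v 2 - v 0)
      rw [r2]; ring
  have hnx : ∀ i, nxt hn hv i ≠ i := fun i => (nxt_side hn hv i).1.symm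
  have hbij := nxt_bijective hn hv
  have hσσ : ∀ k, σ (σ k) = k := by
    intro k; fin_cases k <;> rfl
  have hex : ∃ p q : Fin 3, p ≠ q ∧ ∀ i, i ≠ p → i ≠ q → σ i = nxt hn hv i := by
    by_cases h1 : nxt hn hv 1 = 2
    · refine ⟨0, 2, by decide, fun i hi hi2 => ?_⟩
      have : i = 1 := by
        fin_cases i
        · exact absurd rfl hi
        · rfl
        · exact absurd rfl hi2
      rw [this, h1]; rfl
    · have h10 : nxt hn hv 1 = 0 := by
        have h2 := hnx 1
        generalize nxt hn hv 1 = z at *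
        fin_cases z
        · rfl
        · exact absurd rfl h2
        · exact absurd rfl h1
      have h02 : nxt hn hv 2 = 1 := by
        have h2 := hnx 2
        have h3 : nxt hn hv 2 ≠ 0 := fun h4 => by
          have := hbij.1 (h4.trans h10.symm)
          exact absurd this (by decide)
        generalize nxt hn hv 2 = z at *
        fin_cases z
        · exact absurd rfl h3
        · rfl
        · exact absurd rfl h2
      refine ⟨0, 1, by decide, fun i hi hi2 => ?_⟩
      have : i = 2 := by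
        fin_cases i
        · exact absurd rfl hi
        · exact absurd rfl hi2
        · rfl
      rw [this, h02]; rfl
  obtain ⟨p, q, hpq, hpq2⟩ := hex
  refine Cls57.row hT 3 hn v hv hirr _ _ (hM 3 hn v hv _ (v 0) hne σ hσv p q hpq hpq2) hσσ
    ⟨0, 1, ?_⟩
  intro k
  fin_cases k
  · exact Or.inl rfl
  · exact Or.inr (Or.inr (Or.inl rfl))
  · exact Or.inr (Or.inr (Or.inr rfl))

theorem trans_trap (hT : StT) (hM : StMir) {v : Fin 4 → ℂ} (hv : ConvexIndependent ℝ v)
    (hs : ∀ i, IsSide v i (i + 1)) (hpar : cr (v 1 - v 0) (v 2 - v 3) = 0)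
    (hd : ‖v 2 - v 0‖ = ‖v 3 - v 1‖) (hirr : Irr v) : TransL v := by
  have hn : 3 ≤ 4 := by norm_num
  have hinj := hv.injective
  have hne : v 1 - v 0 ≠ 0 := sub_ne_zero.2 (hinj.ne (by decide))
  obtain ⟨r, hr⟩ := (cr_eq_zero_iff hne).1 hpar
  set e := v 1 - v 0 with he
  -- middle points
  set c := (v 0 + v 1) / 2 with hc
  set u := (v 2 + v 3) / 2 - c with hu
  have h20 : v 2 - v 0 = u + (((1 + r) / 2 : ℝ) : ℂ) * e := by
    rw [hu, hc]; push_cast
    linear_combination (1 / 2 : ℂ) * hr + (1 / 2 : ℂ) * he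
  have h31 : v 3 - v 1 = u - (((1 + r) / 2 : ℝ) : ℂ) * e := by
    rw [hu, hc]; push_cast
    linear_combination -(1 / 2 : ℂ) * hr - (1 / 2 : ℂ) * he
  have hr1 : 1 + r ≠ 0 := by
    intro h0
    have h1 := (hs 0).2 2 (by decide) (by decide)
    have h2 := (hs 1).2 3 (by decide) (by decide)
    have e1 : v 2 - v 0 = u := by rw [h20, h0]; simp
    have e2 : v 3 - v 1 = u := by rw [h31, h0]; simp
    have h3 : (0 : Fin 4) + 1 = 1 := rfl
    have h4 : (1 : Fin 4) + 1 = 2 := rfl
    rw [h3] at h1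
    rw [h4] at h2
    have e3 : v 2 - v 1 = u - e := by rw [he]; linear_combination e1
    rw [e1] at h1
    rw [e2, e3, cr_sub_left, cr_self] at h2
    linarith
  have hperp : (e * conj u).re = 0 := by
    have h1 : normSq (v 2 - v 0) = normSq (v 3 - v 1) := by
      rw [normSq_eq_norm_sq, normSq_eq_norm_sq, hd]
    rw [h20, h31, normSq_add u ((((1 + r) / 2 : ℝ) : ℂ) * e),
      normSq_sub u ((((1 + r) / 2 : ℝ) : ℂ) * e)] at h1
    have h2 : (u * conj ((((1 + r) / 2 : ℝ) : ℂ) * e)).re = 0 := by linarith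
    rw [map_mul, conj_ofReal] at h2
    have h3 : (u * ((((1 + r) / 2 : ℝ) : ℂ) * conj e)).re = (1 + r) / 2 * (e * conj u).re := by
      simp only [mul_re, mul_im, ofReal_re, ofReal_im, conj_re, conj_im]; ring
    rw [h3] at h2
    rcases mul_eq_zero.1 h2 with h4 | h4
    · exact absurd (by linarith) hr1
    · exact h4
  have hrlu : rl e u = -u := by
    have h1 : conj e ≠ 0 := by simpa using hne
    unfold rl
    rw [div_mul_eq_mul_div, div_eq_iff h1]
    have h2 : e * conj u + conj e * u = 0 := by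
      apply Complex.ext
      · simp only [add_re, mul_re, conj_re, conj_im, zero_re] at hperp ⊢
        linarith
      · simp only [add_im, mul_im, conj_re, conj_im, zero_im]
        ring
    linear_combination h2
  have hRm : ∀ (s t : ℝ), Rm e c (c + (s : ℂ) * u + (t : ℂ) * e) = c + (s : ℂ) * u - (t : ℂ) * e := by
    intro s t
    unfold Rm
    have h1 : c + (s : ℂ) * u + (t : ℂ) * e - c = (s : ℂ) * u + (t : ℂ) * e := by ring
    rw [h1, rl_add, rl_smul, rl_smul, rl_self hne, hrlu]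
    ring
  have p0 : v 0 = c + ((0 : ℝ) : ℂ) * u + ((-1 / 2 : ℝ) : ℂ) * e := by
    rw [hc, he]; push_cast; ring
  have p1 : v 1 = c + ((0 : ℝ) : ℂ) * u + ((1 / 2 : ℝ) : ℂ) * e := by
    rw [hc, he]; push_cast; ring
  have p2 : v 2 = c + ((1 : ℝ) : ℂ) * u + ((r / 2 : ℝ) : ℂ) * e := by
    rw [hu, hc]; push_cast
    linear_combination (1 / 2 : ℂ) * hr
  have p3 : v 3 = c + ((1 : ℝ) : ℂ) * u + ((-(r / 2) : ℝ) : ℂ) * e := by
    rw [hu, hc]; push_cast
    linear_combination -(1 / 2 : ℂ) * hr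
  set σ : Fin 4 → Fin 4 := ![1, 0, 3, 2] with hσ
  have hσv : ∀ i, v (σ i) = Rm e c (v i) := by
    intro i
    fin_cases i
    · change v 1 = Rm e c (v 0)
      rw [p0, hRm, p1]; push_cast; ring
    · change v 0 = Rm e c (v 1)
      rw [p1, hRm, p0]; push_cast; ring
    · change v 3 = Rm e c (v 2)
      rw [p2, hRm, p3]; push_cast; ring
    · change v 2 = Rm e c (v 3)
      rw [p3, hRm, p2]; push_cast; ring
  have hnx : ∀ i, nxt hn hv i = i + 1 := fun i => next_unique (nxt_side hn hv i) (hs i)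
  have hσσ : ∀ k, σ (σ k) = k := by
    intro k; fin_cases k <;> rfl
  refine Cls57.row hT 4 hn v hv hirr _ _ (hM 4 hn v hv e c hne σ hσv 1 3 (by decide) ?_) hσσ
    ⟨0, 2, ?_⟩
  · intro i h1 h3
    rw [hnx]
    fin_cases i
    · rfl
    · exact absurd rfl h1
    · rfl
    · exact absurd rfl h3
  · intro k
    fin_cases k
    · exact Or.inl rfl
    · exact Or.inr (Or.inl rfl)
    · exact Or.inr (Or.inr (Or.inl rfl))
    · exact Or.inr (Or.inr (Or.inr rfl))

end Pool.Agent.Lib.BilD.Trans57
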