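import Pool.Agent.Lib.MP_7bc51d_an_dense.DefsT
import Pool.Agent.Lib.MP_7bc51d_an_slice.OrbGlue

set_option autoImplicit false

/-!
Row MIR: the mirror symmetry with time reversal is a symmetry of the open invariant sets of lines.
-/

namespace Pool.Agent.Lib.BilD.Mir16

open Complex MeasureTheory Set Filter Topology
open scoped ComplexConjugate
open Pool.Agent.Lib.Bil Pool.Agent.Lib.BTop Pool.Agent.Lib.BilU Pool.Agent.Lib.BilD

variable {n : ℕ} {v : Fin n → ℂ}

/-- A symmetry of all bounded invariant functions is a symmetry of the open invariant sets. -/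
theorem sy_of (hn : 3 ≤ n) (hv : ConvexIndependent ℝ v) {Φ : ℂ × ℝ → ℂ × ℝ} {T : ℂ × ℂ → ℂ × ℂ}
    (hc : Continuous Φ) (hmm : ∀ p, p ∈ MM v → Φ p ∈ MM v)
    (hlin : ∀ r : ℝ, 0 < r → ∀ p : ℂ × ℝ,
      Φ ((r : ℂ) * p.1, r * p.2) = ((r : ℂ) * (Φ p).1, r * (Φ p).2))
    (hT : ∀ z, ln (T z) = Φ (ln z))
    (hae : ∀ f : ℂ × ℂ → ℝ, Measurable f → (∀ p, |f p| ≤ 1) → (∀ c : ℝ, IA v {p | c < f p}) →
      ∀ᵐ z : ℂ × ℂ, z ∈ PP v ×ˢ Metric.ball (0 : ℂ) 1 → f (T z) = f z)
    {U : Set (ℂ × ℝ)} (hU : XL v U) (hUo : IsOpen U) {p : ℂ × ℝ} (hp : p ∈ U) :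
    Φ p ∈ closure U := by
  by_contra hcon
  obtain ⟨-, -, -, -, -, hcl, -⟩ := stmtE n hn v hv
  obtain ⟨-, hEI, -⟩ := stmtG stmtE n hn v hv
  have hA := hEI U hU
  set A := PA v U with hAdef
  have hlnc : Continuous (ln : ℂ × ℂ → ℂ × ℝ) :=
    continuous_snd.prodMk (continuous_cr.comp (continuous_snd.prodMk continuous_fst))
  have hPhO : IsOpen (Ph v) := (stmtG' n hn v hv).1
  have hAo : IsOpen A := hPhO.inter (hUo.preimage hlnc)
  have hIA : IA v A := ⟨hAo.measurableSet, hA.1,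
    inv_of_hyp hv (Filter.Eventually.of_forall hA.2),
    chord_of_hyp (Filter.Eventually.of_forall hA.2)⟩
  have h1 := hae (A.indicator 1) (measurable_one.indicator hAo.measurableSet)
    (fun q => by
      by_cases hq : q ∈ A
      · rw [indicator_of_mem hq]; simp
      · rw [indicator_of_notMem hq]; simp) (IA_ind hIA)
  obtain ⟨hw, x, hx, hxq⟩ := hU.sub hp
  have hw0 : 0 < ‖p.1‖ := norm_pos_iff.2 hw
  set r : ℝ := 1 / (2 * ‖p.1‖) with hr
  have hr0 : 0 < r := by positivity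
  have hrw : ‖(r : ℂ) * p.1‖ < 1 := by
    rw [norm_mul, norm_real, Real.norm_of_nonneg hr0.le, hr]
    field_simp
    norm_num
  set O : Set (ℂ × ℂ) := A ∩ ((PP v ×ˢ Metric.ball (0 : ℂ) 1) ∩ (fun z => Φ (ln z)) ⁻¹' (closure U)ᶜ)
    with hO
  have hOo : IsOpen O := hAo.inter ((isOpen_PP.prod Metric.isOpen_ball).inter
    (isClosed_closure.isOpen_compl.preimage (hc.comp hlnc)))
  have hmem : ((x, (r : ℂ) * p.1) : ℂ × ℂ) ∈ O := by
    have e1 : ln ((x, (r : ℂ) * p.1) : ℂ × ℂ) = ((r : ℂ) * p.1, r * p.2) := by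
      unfold ln
      rw [cr_smul_left, hxq]
    refine ⟨⟨⟨hx, mul_ne_zero (by exact_mod_cast hr0.ne') hw⟩, ?_⟩, ⟨hx, ?_⟩, ?_⟩
    · rw [e1]; exact (hU.cone r hr0 p).2 hp
    · rw [Metric.mem_ball, dist_zero_right]; exact hrw
    · rw [mem_preimage, e1, mem_compl_iff, hlin r hr0]
      intro h2
      have h3 : Φ p ∈ MM v := hmm p (hU.sub hp)
      have hM := (stmtE n hn v hv).1
      have h4 : ((((r : ℂ) * (Φ p).1, r * (Φ p).2)) : ℂ × ℝ) ∈ MM v ∩ closure U :=
        ⟨(hM.cone r hr0 _).2 h3, h2⟩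
      exact hcon (((hcl U hU).cone r hr0 _).1 h4).2
  have hpos : 0 < volume O := hOo.measure_pos volume ⟨_, hmem⟩
  have hzero : volume O = 0 := by
    refine measure_mono_null ?_ (ae_iff.1 h1)
    intro z hz
    rw [Set.mem_ofPred_eq, Classical.not_imp]
    refine ⟨hz.2.1, fun h => ?_⟩
    have h2 : T z ∈ A := by
      by_contra h2
      rw [indicator_of_mem hz.1, indicator_of_notMem h2] at h
      simp at h
    apply hz.2.2
    change Φ (ln z) ∈ closure U
    rw [← hT]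
    exact subset_closure h2.2
  exact hpos.ne' hzero

theorem row : StMir := by
  intro n hn v hv b c hb σ hσ p q hpq hex
  have hss : ∀ a, σ (σ a) = a := by
    intro a
    apply hv.injective
    rw [hσ, hσ, Rm_Rm hb]
  have hcont : Continuous (fun p : ℂ × ℝ => ((rl b p.1, cr (rl b p.1) c + p.2 - cr p.1 c) : ℂ × ℝ)) := by
    have h0 : Continuous (fun p : ℂ × ℝ => rl b p.1) := (continuous_rl b).comp continuous_fst
    have h2 : Continuous (fun p : ℂ × ℝ => cr (rl b p.1) c) :=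
      continuous_cr.comp (h0.prodMk continuous_const)
    have h3 : Continuous (fun p : ℂ × ℝ => cr p.1 c) :=
      continuous_cr.comp (continuous_fst.prodMk continuous_const)
    exact h0.prodMk ((h2.add continuous_snd).sub h3)
  have hinv : ∀ p : ℂ × ℝ, ((rl b (rl b p.1), cr (rl b (rl b p.1)) c +
      (cr (rl b p.1) c + p.2 - cr p.1 c) - cr (rl b p.1) c) : ℂ × ℝ) = p := by
    intro p
    rw [rl_rl hb]
    refine Prod.ext rfl ?_
    change cr p.1 c + (cr (rl b p.1) c + p.2 - cr p.1 c) - cr (rl b p.1) c = p.2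
    ring
  have hmm : ∀ p : ℂ × ℝ, p ∈ MM v →
      ((rl b p.1, cr (rl b p.1) c + p.2 - cr p.1 c) : ℂ × ℝ) ∈ MM v := by
    rintro p ⟨hw, x, hx, hxq⟩
    refine ⟨?_, Rm b c x, Rm_mem_PP hb hσ hv hx, ?_⟩
    · intro h
      apply hw
      change rl b p.1 = 0 at h
      have h2 := rl_rl hb p.1
      rw [h] at h2
      rw [← h2]
      unfold rl
      simp
    · change cr (rl b p.1) (Rm b c x) = cr (rl b p.1) c + p.2 - cr p.1 c
      rw [← hxq, cr_Rm hb]
  have hout : ∀ k θ, Out v (σ k) θ → Out v k (-rl b θ) := by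
    rintro k θ ⟨ε, hε, h⟩
    refine ⟨ε, hε, fun t ht htε => ?_⟩
    have h1 := Rm_mem_PP hb hσ hv (h t ht htε)
    convert h1 using 1
    have h2 : v k = Rm b c (v (σ k)) := by rw [hσ, Rm_Rm hb]
    rw [h2]
    unfold Rm
    have e : v (σ k) + (t : ℂ) * θ - c = (v (σ k) - c) + (t : ℂ) * θ := by ring
    rw [e, rl_add, rl_smul]
    ring
  refine ⟨hcont, hinv, hmm, ?_, ?_⟩
  · intro U hUs k hk
    have h1 := (mp_rl hb).quasiMeasurePreserving.ae hk
    filter_upwards [h1] with θ hθ ho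
    rw [← hUs]
    have e : cr (rl b θ) c + cr θ (v (σ k)) - cr θ c = cr (rl b θ) (v k) := by
      rw [cr_Rm hb, hσ, Rm_Rm hb]
    change ((rl b θ, cr (rl b θ) c + cr θ (v (σ k)) - cr θ c) : ℂ × ℝ) ∈ U
    rw [e]
    apply hθ
    rcases ho with ho | ho
    · exact Or.inr (hout k θ ho)
    · left
      have := hout k (-θ) ho
      rwa [rl_neg, neg_neg] at this
  · intro U hU hUo p' hp'
    refine sy_of (T := fun z => (Rm b c z.1, rl b z.2)) hn hv hcont hmm ?_ ?_ ?_ hU hUo hp'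
    · intro r hr p
      refine Prod.ext (rl_smul b p.1 r) ?_
      change cr (rl b ((r : ℂ) * p.1)) c + r * p.2 - cr ((r : ℂ) * p.1) c =
        r * (cr (rl b p.1) c + p.2 - cr p.1 c)
      rw [rl_smul, cr_smul_left, cr_smul_left]
      ring
    · intro z
      refine Prod.ext rfl ?_
      change cr (rl b z.2) (Rm b c z.1) = cr (rl b z.2) c + cr z.2 z.1 - cr z.2 c
      rw [cr_Rm hb]
    · intro f hfm hfb hf
      exact mir_symmetric hn hv hb hσ hpq hex hfm hfb hf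

end Pool.Agent.Lib.BilD.Mir16
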