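import Pool.Agent.Lib.MP_7bc51d_an_dense.DefsT
import Pool.Agent.Lib.MP_7bc51d_an_slice.OrbGlue

set_option autoImplicit false

/-!
Row PAR: an almost everywhere symmetry of the invariant functions gives a symmetry of the open
invariant sets of lines up to closure; the central symmetry of a parallelogram.
-/

namespace Pool.Agent.Lib.BilD.Par7

open Complex MeasureTheory Set Filter Topology
open scoped ComplexConjugate
open Pool.Agent.Lib.Bil Pool.Agent.Lib.BTop Pool.Agent.Lib.BilU Pool.Agent.Lib.BilD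

variable {n : ℕ} {v : Fin n → ℂ}

theorem continuous_ln : Continuous (ln : ℂ × ℂ → ℂ × ℝ) :=
  continuous_snd.prodMk (continuous_cr.comp (continuous_snd.prodMk continuous_fst))

/-- The phase points of an open invariant set of lines. -/
theorem IA_PA (hn : 3 ≤ n) (hv : ConvexIndependent ℝ v) {U : Set (ℂ × ℝ)} (hU : XL v U)
    (hUo : IsOpen U) : IsOpen (PA v U) ∧ IA v (PA v U) := by
  have hE := (stmtG stmtE n hn v hv).2.1 U hU
  have hPo : IsOpen (Ph v) := (stmtG' n hn v hv).1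
  have ho : IsOpen (PA v U) := hPo.inter (hUo.preimage continuous_ln)
  exact ⟨ho, ho.measurableSet, hE.1, inv_of_hyp hv (Eventually.of_forall hE.2),
    chord_of_hyp (Eventually.of_forall hE.2)⟩

theorem ind_le (A : Set (ℂ × ℂ)) (p : ℂ × ℂ) : |A.indicator (1 : ℂ × ℂ → ℝ) p| ≤ 1 := by
  by_cases hp : p ∈ A
  · rw [indicator_of_mem hp]; simp
  · rw [indicator_of_notMem hp]; simp

/-- An almost everywhere symmetry of the invariant functions gives a symmetry up to closure. -/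
theorem sy_of_ae (hn : 3 ≤ n) (hv : ConvexIndependent ℝ v) {Φ : ℂ × ℝ → ℂ × ℝ}
    (hc : Continuous Φ) (hm : ∀ p, p ∈ MM v → Φ p ∈ MM v)
    (hr : ∀ r : ℝ, 0 < r → ∀ p : ℂ × ℝ,
      Φ ((r : ℂ) * p.1, r * p.2) = ((r : ℂ) * (Φ p).1, r * (Φ p).2))
    (T : ℂ × ℂ → ℂ × ℂ) (hT : ∀ z, ln (T z) = Φ (ln z))
    (hae : ∀ f : ℂ × ℂ → ℝ, Measurable f → (∀ p, |f p| ≤ 1) → (∀ c : ℝ, IA v {p | c < f p}) →
      ∀ᵐ z : ℂ × ℂ, z ∈ PP v ×ˢ Metric.ball (0 : ℂ) 1 → f (T z) = f z)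
    {U : Set (ℂ × ℝ)} (hU : XL v U) (hUo : IsOpen U) : ∀ p ∈ U, Φ p ∈ closure U := by
  intro p hp
  by_contra hcl
  obtain ⟨hAo, hA⟩ := IA_PA hn hv hU hUo
  obtain ⟨hMX, hMo, -, -, -, hclX, -⟩ := stmtE n hn v hv
  have hpM := hU.sub hp
  obtain ⟨hw, x, hx, hxq⟩ := hU.sub hp
  have hn1 : 0 < ‖p.1‖ := norm_pos_iff.2 hw
  obtain ⟨r, hr0, hr1⟩ : ∃ r : ℝ, 0 < r ∧ r * ‖p.1‖ < 1 := by
    refine ⟨(2 * ‖p.1‖)⁻¹, by positivity, ?_⟩
    rw [mul_inv, mul_assoc, inv_mul_cancel₀ hn1.ne']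
    norm_num
  have hrc : (r : ℂ) ≠ 0 := by exact_mod_cast hr0.ne'
  set O : Set (ℂ × ℂ) := (PA v U ∩ (fun z => Φ (ln z)) ⁻¹' (closure U)ᶜ) ∩
    Prod.snd ⁻¹' Metric.ball (0 : ℂ) 1 with hO
  have hOo : IsOpen O := (hAo.inter (isClosed_closure.isOpen_compl.preimage
    (hc.comp continuous_ln))).inter (Metric.isOpen_ball.preimage continuous_snd)
  have e : ln (x, (r : ℂ) * p.1) = ((r : ℂ) * p.1, r * p.2) := by
    simp only [ln]
    rw [cr_smul_left, hxq]
  have hOn : (x, (r : ℂ) * p.1) ∈ O := by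
    refine ⟨⟨⟨⟨hx, mul_ne_zero hrc hw⟩, ?_⟩, ?_⟩, ?_⟩
    · rw [e]
      exact (hU.cone r hr0 p).2 hp
    · intro h1
      have h1' : Φ (ln (x, (r : ℂ) * p.1)) ∈ closure U := h1
      rw [e, hr r hr0] at h1'
      have h2 := ((hclX U hU).cone r hr0 (Φ p)).1
        ⟨(hMX.cone r hr0 (Φ p)).2 (hm p hpM), h1'⟩
      exact hcl h2.2
    · change (r : ℂ) * p.1 ∈ Metric.ball (0 : ℂ) 1
      rw [mem_ball_zero_iff, norm_mul, Complex.norm_real, Real.norm_eq_abs, abs_of_pos hr0]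
      exact hr1
  have h1 := hae ((PA v U).indicator 1) (measurable_one.indicator hA.meas) (ind_le _) (IA_ind hA)
  have h2 : volume O = 0 := by
    refine measure_mono_null ?_ (ae_iff.1 h1)
    rintro z ⟨⟨hz1, hz2⟩, hz3⟩ hcon
    have h3 := hcon ⟨hz1.1.1, hz3⟩
    have h4 : T z ∉ PA v U := by
      intro h5
      apply hz2
      have h6 := h5.2
      rw [hT] at h6
      exact subset_closure h6
    rw [indicator_of_mem hz1, indicator_of_notMem h4] at h3
    simp at h3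
  exact (hOo.measure_pos volume ⟨_, hOn⟩).ne' h2

theorem refl_PP_iff {c : ℂ} {σ : Fin n → Fin n} (hσ : ∀ i, v (σ i) = 2 * c - v i)
    (hv : ConvexIndependent ℝ v) {k : Fin n} {w : ℂ} (h : Out v (σ k) w) : Out v k (-w) := by
  obtain ⟨ε, hε, h1⟩ := h
  refine ⟨ε, hε, fun t ht0 ht1 => ?_⟩
  have h2 := refl_mem_PP hσ hv (h1 t ht0 ht1)
  rw [hσ] at h2
  have e : v k + (t : ℂ) * -w = 2 * c - (2 * c - v k + (t : ℂ) * w) := by ring
  rw [e]
  exact h2

/-- (PAR) -/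
theorem row : StPar := by
  intro v hv hp
  have hn : 3 ≤ 4 := by norm_num
  have hσ : ∀ i, v ((fun i : Fin 4 => i + 2) i) = 2 * cen v - v i := par_sym hp
  have hcr : ∀ w : ℂ, ∀ x : ℂ, cr w (2 * cen v - x) = 2 * cr w (cen v) - cr w x := by
    intro w x
    have : (2 * cen v - x) = ((2 : ℝ) : ℂ) * cen v - x := by push_cast; ring
    rw [this, cr_sub_right, cr_smul_right]
  have hc : Continuous (fun p : ℂ × ℝ => ((p.1, 2 * cr p.1 (cen v) - p.2) : ℂ × ℝ)) := by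
    have h1 : Continuous (fun p : ℂ × ℝ => cr p.1 (cen v)) :=
      continuous_cr.comp (continuous_fst.prodMk continuous_const)
    exact continuous_fst.prodMk ((continuous_const.mul h1).sub continuous_snd)
  have hm : ∀ p : ℂ × ℝ, p ∈ MM v → ((p.1, 2 * cr p.1 (cen v) - p.2) : ℂ × ℝ) ∈ MM v := by
    rintro p ⟨hw, x, hx, hq⟩
    refine ⟨hw, 2 * cen v - x, refl_mem_PP hσ hv hx, ?_⟩
    rw [hcr, hq]
  refine ⟨hc, fun p => ?_, hm, fun U hU k hk => ?_, fun U hU hUo => ?_⟩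
  · apply Prod.ext
    · rfl
    · change 2 * cr p.1 (cen v) - (2 * cr p.1 (cen v) - p.2) = p.2
      ring
  · unfold VX at hk ⊢
    filter_upwards [hk] with θ h1 h2
    have h3 : Out v k θ ∨ Out v k (-θ) := by
      rcases h2 with h2 | h2
      · exact Or.inr (refl_PP_iff hσ hv h2)
      · have := refl_PP_iff hσ hv h2
        rw [neg_neg] at this
        exact Or.inl this
    have h4 := (hU (θ, cr θ (v k))).2 (h1 h3)
    change ((θ, 2 * cr θ (cen v) - cr θ (v k)) : ℂ × ℝ) ∈ U at h4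
    rw [← hcr, ← hσ k] at h4
    exact h4
  · refine sy_of_ae hn hv hc hm (fun r hr0 p => ?_) (fun z => (2 * cen v - z.1, z.2))
      (fun z => ?_) (fun f hfm hfb hf => par_symmetric hn hv hp hfm hfb hf) hU hUo
    · apply Prod.ext
      · rfl
      · change 2 * cr ((r : ℂ) * p.1) (cen v) - r * p.2 = r * (2 * cr p.1 (cen v) - p.2)
        rw [cr_smul_left]
        ring
    · apply Prod.ext
      · rfl
      · change cr z.2 (2 * cen v - z.1) = 2 * cr z.2 (cen v) - cr z.2 z.1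
        exact hcr _ _

end Pool.Agent.Lib.BilD.Par7
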