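import Pool.Agent.Lib.MP_7bc51d_an_dense.DefsT
import Pool.Agent.Lib.MP_7bc51d_an_top.E

/-!
# Right triangles by doubling
-/

set_option autoImplicit false

namespace Pool.Agent.Lib.BilD.Right98

open Complex MeasureTheory Set Filter Topology
open scoped ComplexConjugate
open Pool.Agent.Lib.Bil Pool.Agent.Lib.BTop Pool.Agent.Lib.BilU Pool.Agent.Lib.BilD

/-! ### Convex independence of three points -/

theorem convInd {u : Fin 3 → ℂ} (h : cr (u 1 - u 0) (u 2 - u 0) ≠ 0) : ConvexIndependent ℝ u := by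
  have key : ∀ x y z : Fin 3, (∀ k, k ≠ x → k = y ∨ k = z) → cr (u z - u y) (u x - u y) ≠ 0 →
      ∀ s : Set (Fin 3), u x ∈ convexHull ℝ (u '' s) → x ∈ s := by
    intro x y z hk hc s hx
    by_contra hxs
    apply hc
    have hconv : Convex ℝ {p : ℂ | cr (u z - u y) (p - u y) = 0} := by
      intro p hp q hq a b _ _ hab
      simp only [mem_ofPred_eq] at hp hq ⊢
      have e : a • p + b • q - u y = (a : ℂ) * (p - u y) + (b : ℂ) * (q - u y) := by
        have hab' : (a : ℂ) + (b : ℂ) = 1 := by exact_mod_cast hab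
        simp only [real_smul]
        linear_combination (u y) * hab'
      rw [e, cr_add_right, cr_smul_right, cr_smul_right, hp, hq]
      ring
    have hsub : u '' s ⊆ {p : ℂ | cr (u z - u y) (p - u y) = 0} := by
      rintro _ ⟨k, hks, rfl⟩
      have hkx : k ≠ x := fun h => hxs (h ▸ hks)
      simp only [mem_ofPred_eq]
      rcases hk k hkx with rfl | rfl
      · rw [sub_self, cr_zero_right]
      · exact cr_self _
    exact convexHull_min hsub hconv hx
  have h' : (u 1 - u 0).re * (u 2 - u 0).im - (u 1 - u 0).im * (u 2 - u 0).re ≠ 0 := h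
  simp only [sub_re, sub_im] at h'
  intro s x hx
  fin_cases x
  · refine key 0 1 2 (by decide) ?_ s hx
    intro h0
    apply h'
    simp only [cr, sub_re, sub_im] at h0
    linarith
  · refine key 1 2 0 (by decide) ?_ s hx
    intro h0
    apply h'
    simp only [cr, sub_re, sub_im] at h0
    linarith
  · refine key 2 0 1 (by decide) ?_ s hx
    exact h

theorem sides_pos {u : Fin 3 → ℂ} (h : 0 < cr (u 1 - u 0) (u 2 - u 0)) :
    IsSide u 0 1 ∧ IsSide u 1 2 ∧ IsSide u 2 0 := by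
  have h' : 0 < (u 1 - u 0).re * (u 2 - u 0).im - (u 1 - u 0).im * (u 2 - u 0).re := h
  simp only [sub_re, sub_im] at h'
  refine ⟨⟨by decide, ?_⟩, ⟨by decide, ?_⟩, ⟨by decide, ?_⟩⟩
  · intro k h1 h2
    fin_cases k
    · exact absurd rfl h1
    · exact absurd rfl h2
    · exact h
  · intro k h1 h2
    fin_cases k
    · simp only [cr, sub_re, sub_im]
      change 0 < ((u 2).re - (u 1).re) * ((u 0).im - (u 1).im) -
        ((u 2).im - (u 1).im) * ((u 0).re - (u 1).re)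
      nlinarith
    · exact absurd rfl h1
    · exact absurd rfl h2
  · intro k h1 h2
    fin_cases k
    · exact absurd rfl h2
    · simp only [cr, sub_re, sub_im]
      change 0 < ((u 0).re - (u 2).re) * ((u 1).im - (u 2).im) -
        ((u 0).im - (u 2).im) * ((u 1).re - (u 2).re)
      nlinarith
    · exact absurd rfl h1

theorem sides_neg {u : Fin 3 → ℂ} (h : cr (u 1 - u 0) (u 2 - u 0) < 0) :
    IsSide u 1 0 ∧ IsSide u 0 2 ∧ IsSide u 2 1 := by
  have h' : (u 1 - u 0).re * (u 2 - u 0).im - (u 1 - u 0).im * (u 2 - u 0).re < 0 := h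
  simp only [sub_re, sub_im] at h'
  refine ⟨⟨by decide, ?_⟩, ⟨by decide, ?_⟩, ⟨by decide, ?_⟩⟩
  · intro k h1 h2
    fin_cases k
    · exact absurd rfl h2
    · exact absurd rfl h1
    · simp only [cr, sub_re, sub_im]
      change 0 < ((u 0).re - (u 1).re) * ((u 2).im - (u 1).im) -
        ((u 0).im - (u 1).im) * ((u 2).re - (u 1).re)
      nlinarith
  · intro k h1 h2
    fin_cases k
    · exact absurd rfl h1
    · simp only [cr, sub_re, sub_im]
      change 0 < ((u 2).re - (u 0).re) * ((u 1).im - (u 0).im) -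
        ((u 2).im - (u 0).im) * ((u 1).re - (u 0).re)
      nlinarith
    · exact absurd rfl h2
  · intro k h1 h2
    fin_cases k
    · simp only [cr, sub_re, sub_im]
      change 0 < ((u 1).re - (u 2).re) * ((u 0).im - (u 2).im) -
        ((u 1).im - (u 2).im) * ((u 0).re - (u 2).re)
      nlinarith
    · exact absurd rfl h2
    · exact absurd rfl h1

/-! ### Reflections of lines -/

/-- Reflection of oriented lines in the line through `a` with direction `e`. -/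
noncomputable def RG (a e : ℂ) (p : ℂ × ℝ) : ℂ × ℝ :=
  (rl e p.1, cr (rl e p.1) a + cr p.1 a - p.2)

theorem RL_RG {n : ℕ} (v : Fin n → ℂ) (s : Fin n × Fin n) (p : ℂ × ℝ) :
    RL v s p = RG (v s.1) (v s.2 - v s.1) p := rfl

theorem rl_scale {r : ℝ} (hr : r ≠ 0) (e w : ℂ) : rl ((r : ℂ) * e) w = rl e w := by
  have hr' : (r : ℂ) ≠ 0 := by exact_mod_cast hr
  by_cases he : e = 0
  · rw [he, mul_zero]
  · have hce : conj e ≠ 0 := by simpa using he
    simp only [rl, map_mul, conj_ofReal]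
    field_simp

theorem RG_scale {r : ℝ} (hr : r ≠ 0) (a e : ℂ) (p : ℂ × ℝ) :
    RG a ((r : ℂ) * e) p = RG a e p := by
  simp only [RG, rl_scale hr]

theorem cr_rl_dir {e : ℂ} (he : e ≠ 0) (w : ℂ) : cr (rl e w) e = - cr w e := by
  have h := cr_rl he w e
  rw [rl_self he] at h
  exact h

theorem RG_shift {e : ℂ} (he : e ≠ 0) (a : ℂ) (t : ℝ) (p : ℂ × ℝ) :
    RG (a + (t : ℂ) * e) e p = RG a e p := by
  simp only [RG]
  rw [cr_add_right, cr_add_right, cr_smul_right, cr_smul_right, cr_rl_dir he]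
  ext
  · rfl
  · simp only; ring

theorem RG_RG {e : ℂ} (he : e ≠ 0) (a : ℂ) (p : ℂ × ℝ) : RG a e (RG a e p) = p := by
  simp only [RG, rl_rl he]
  ext
  · rfl
  · simp only; ring

theorem continuous_RG (a e : ℂ) : Continuous (RG a e) := by
  unfold RG
  have h1 : Continuous (fun p : ℂ × ℝ => rl e p.1) := (continuous_rl _).comp continuous_fst
  have h2 : Continuous (fun p : ℂ × ℝ => cr (rl e p.1) a) :=
    continuous_cr.comp (h1.prodMk continuous_const)
  have h3 : Continuous (fun p : ℂ × ℝ => cr p.1 a) :=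
    continuous_cr.comp (continuous_fst.prodMk continuous_const)
  exact h1.prodMk ((h2.add h3).sub continuous_snd)

theorem RG_sc (a e : ℂ) (r : ℝ) (p : ℂ × ℝ) :
    RG a e (((r : ℂ) * p.1, r * p.2) : ℂ × ℝ) =
      (((r : ℂ) * (RG a e p).1, r * (RG a e p).2) : ℂ × ℝ) := by
  simp only [RG, rl_smul, cr_smul_left]
  ext
  · rfl
  · simp only; ring

/-- Reflection of points. -/
noncomputable def RP (a e x : ℂ) : ℂ := a + rl e (x - a)

theorem cr_RP {e : ℂ} (he : e ≠ 0) (a x : ℂ) (p : ℂ × ℝ) :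
    cr (RG a e p).1 (RP a e x) - (RG a e p).2 = -(cr p.1 x - p.2) := by
  simp only [RG, RP]
  rw [cr_add_right, cr_rl he, cr_sub_right]
  ring

/-- Conjugation of a reflection by a reflection. -/
theorem RG_conj {a e d : ℂ} (he : e ≠ 0) (hd : d ≠ 0) (c : ℂ) (p : ℂ × ℝ) :
    RG (RP a e c) (rl e d) (RG a e p) = RG a e (RG c d p) := by
  have hce : conj e ≠ 0 := by simpa using he
  have hcd : conj d ≠ 0 := by simpa using hd
  have e1 : rl (rl e d) (rl e p.1) = rl e (rl d p.1) := by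
    simp only [rl, map_mul, map_div₀, conj_conj]
    field_simp
  have h1 : ∀ w x : ℂ, cr (rl e w) (RP a e x) = cr (rl e w) a - (cr w x - cr w a) := by
    intro w x
    unfold RP
    rw [cr_add_right, cr_rl he, cr_sub_right]
    ring
  simp only [RG, e1]
  rw [h1, h1]
  ext
  · rfl
  · simp only; ring


/-! ### Invariance up to a nowhere dense set -/

section dense

variable {X : Type*} [TopologicalSpace X]

theorem inv_closure {O E D : Set X} {T : X → X} (hO : IsOpen O) (hE : IsOpen E)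
    (hD : Dense D) (hT : Continuous T) (hTT : ∀ p, T (T p) = p)
    (hinv : ∀ p ∈ E, p ∈ D → (T p ∈ O ↔ p ∈ O)) {p : X} (hp : p ∈ E) :
    T p ∈ closure O ↔ p ∈ closure O := by
  constructor
  · intro h
    rw [mem_closure_iff] at h ⊢
    intro N hN hpN
    have h1 : IsOpen (T ⁻¹' (N ∩ E)) := (hN.inter hE).preimage hT
    obtain ⟨q, hq1, hq2⟩ := h _ h1 (by
      show T (T p) ∈ N ∩ E
      rw [hTT]; exact ⟨hpN, hp⟩)
    have h2 : IsOpen ((N ∩ E) ∩ T ⁻¹' O) := (hN.inter hE).inter (hO.preimage hT)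
    obtain ⟨r, hr1, hr2⟩ := hD.inter_open_nonempty _ h2 ⟨T q, hq1, by
      show T (T q) ∈ O
      rw [hTT]; exact hq2⟩
    exact ⟨r, hr1.1.1, (hinv r hr1.1.2 hr2).1 hr1.2⟩
  · intro h
    rw [mem_closure_iff] at h ⊢
    intro N hN hpN
    have h1 : IsOpen (T ⁻¹' N ∩ E) := (hN.preimage hT).inter hE
    obtain ⟨q, hq1, hq2⟩ := h _ h1 ⟨hpN, hp⟩
    obtain ⟨r, hr1, hr2⟩ := hD.inter_open_nonempty _ (h1.inter hO) ⟨q, hq1, hq2⟩
    exact ⟨T r, hr1.1.1, (hinv r hr1.1.2 hr2).2 hr1.2⟩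

theorem inv_interior {O E D : Set X} {T : X → X} (hO : IsOpen O) (hE : IsOpen E)
    (hD : Dense D) (hT : Continuous T) (hTT : ∀ p, T (T p) = p)
    (hinv : ∀ p ∈ E, p ∈ D → (T p ∈ O ↔ p ∈ O)) {p : X} (hp : p ∈ E) :
    T p ∈ interior (closure O) ↔ p ∈ interior (closure O) := by
  have hc : ∀ q ∈ E, (T q ∈ closure O ↔ q ∈ closure O) := fun q hq =>
    inv_closure hO hE hD hT hTT hinv hq
  constructor
  · intro h
    rw [mem_interior] at h ⊢
    obtain ⟨N, hN1, hN2, hN3⟩ := h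
    refine ⟨T ⁻¹' N ∩ E, ?_, (hN2.preimage hT).inter hE, hN3, hp⟩
    rintro q ⟨hq1, hq2⟩
    exact (hc q hq2).1 (hN1 hq1)
  · intro h
    rw [mem_interior] at h ⊢
    obtain ⟨N, hN1, hN2, hN3⟩ := h
    refine ⟨T ⁻¹' (N ∩ E), ?_, (hN2.inter hE).preimage hT, ?_⟩
    · intro q hq
      have h1 := (hc (T q) hq.2).2 (hN1 hq.1)
      rwa [hTT] at h1
    · show T (T p) ∈ N ∩ E
      rw [hTT]; exact ⟨hN3, hp⟩

theorem meet_of_reg {O O' : Set X} (hO : IsOpen O)
    (h : (interior (closure O) ∩ interior (closure O')).Nonempty) : (O ∩ O').Nonempty := by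
  obtain ⟨p, h1, h2⟩ := h
  have h3 : p ∈ closure O := interior_subset h1
  rw [mem_closure_iff] at h3
  obtain ⟨q, hq1, hq2⟩ := h3 _ isOpen_interior h2
  have h4 : q ∈ closure O' := interior_subset hq1
  rw [mem_closure_iff] at h4
  obtain ⟨r, hr1, hr2⟩ := h4 _ hO hq2
  exact ⟨r, hr1, hr2⟩

end dense

/-- Scaling invariance passes to interiors of closures. -/
theorem sc_reg {O : Set (ℂ × ℝ)}
    (hO : ∀ r : ℝ, 0 < r → ∀ p : ℂ × ℝ, p ∈ O → (((r : ℂ) * p.1, r * p.2) : ℂ × ℝ) ∈ O)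
    (r : ℝ) (hr : 0 < r) (p : ℂ × ℝ) :
    (((r : ℂ) * p.1, r * p.2) : ℂ × ℝ) ∈ interior (closure O) ↔ p ∈ interior (closure O) := by
  have hcont : ∀ t : ℝ, Continuous (fun p : ℂ × ℝ => (((t : ℂ) * p.1, t * p.2) : ℂ × ℝ)) :=
    fun t => (continuous_const.mul continuous_fst).prodMk (continuous_const.mul continuous_snd)
  have hinv : ∀ t : ℝ, 0 < t → ∀ p : ℂ × ℝ,
      (fun p : ℂ × ℝ => (((t : ℂ) * p.1, t * p.2) : ℂ × ℝ))
        ((fun p : ℂ × ℝ => (((t⁻¹ : ℝ) : ℂ) * p.1, t⁻¹ * p.2)) p) = p := by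
    intro t ht p
    have h1 : (t : ℂ) ≠ 0 := by exact_mod_cast ht.ne'
    ext
    · simp only
      push_cast
      field_simp
    · simp only
      field_simp
  have key : ∀ t : ℝ, 0 < t → ∀ p : ℂ × ℝ, p ∈ interior (closure O) →
      (((t : ℂ) * p.1, t * p.2) : ℂ × ℝ) ∈ interior (closure O) := by
    intro t ht p hp
    rw [mem_interior]
    refine ⟨(fun p : ℂ × ℝ => ((((t⁻¹ : ℝ) : ℂ) * p.1, t⁻¹ * p.2) : ℂ × ℝ)) ⁻¹'
      (interior (closure O)), ?_, isOpen_interior.preimage (hcont _), ?_⟩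
    · intro q hq
      have h1 : (fun p : ℂ × ℝ => ((((t⁻¹ : ℝ) : ℂ) * p.1, t⁻¹ * p.2) : ℂ × ℝ)) q ∈ closure O :=
        interior_subset hq
      have h2 : (fun p : ℂ × ℝ => (((t : ℂ) * p.1, t * p.2) : ℂ × ℝ))
          ((fun p : ℂ × ℝ => ((((t⁻¹ : ℝ) : ℂ) * p.1, t⁻¹ * p.2) : ℂ × ℝ)) q) ∈ closure O :=
        map_mem_closure (f := fun p : ℂ × ℝ => (((t : ℂ) * p.1, t * p.2) : ℂ × ℝ))
          (hcont t) h1 (fun a ha => hO t ht a ha)
      rwa [hinv t ht q] at h2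
    · have h3 := hinv t⁻¹ (inv_pos.2 ht) p
      rw [inv_inv] at h3
      show (fun p : ℂ × ℝ => ((((t⁻¹ : ℝ) : ℂ) * p.1, t⁻¹ * p.2) : ℂ × ℝ))
        (((t : ℂ) * p.1, t * p.2) : ℂ × ℝ) ∈ interior (closure O)
      rw [h3]
      exact hp
  constructor
  · intro h
    have h1 := key r⁻¹ (inv_pos.2 hr) _ h
    have h3 := hinv r⁻¹ (inv_pos.2 hr) p
    rw [inv_inv] at h3
    change (fun p : ℂ × ℝ => ((((r⁻¹ : ℝ) : ℂ) * p.1, r⁻¹ * p.2) : ℂ × ℝ))
        (((r : ℂ) * p.1, r * p.2) : ℂ × ℝ) ∈ interior (closure O) at h1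
    rw [h3] at h1
    exact h1
  · exact key r hr p

/-- Lines not through the point `a` are dense. -/
theorem dense_off (a : ℂ) : Dense {p : ℂ × ℝ | cr p.1 a - p.2 ≠ 0} := by
  intro p
  by_cases h : cr p.1 a - p.2 = 0
  · have h1 : Tendsto (fun t : ℝ => ((p.1, p.2 + t) : ℂ × ℝ)) (𝓝[≠] 0) (𝓝 p) := by
      have h2 : Continuous (fun t : ℝ => ((p.1, p.2 + t) : ℂ × ℝ)) := by fun_prop
      have h3 := h2.tendsto 0
      rw [add_zero] at h3
      exact h3.mono_left nhdsWithin_le_nhds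
    refine mem_closure_of_tendsto h1 ?_
    filter_upwards [self_mem_nhdsWithin] with t ht
    show cr p.1 a - (p.2 + t) ≠ 0
    intro h4
    apply ht
    show t = 0
    linarith
  · exact subset_closure h


/-! ### The doubled triangle -/

/-- The doubled triangle. -/
noncomputable def dbl (v : Fin 3 → ℂ) : Fin 3 → ℂ := ![v 1, v 2, 2 * v 0 - v 2]

variable {v : Fin 3 → ℂ}

theorem dbl0 : dbl v 0 = v 1 := rfl
theorem dbl1 : dbl v 1 = v 2 := rfl
theorem dbl2 : dbl v 2 = 2 * v 0 - v 2 := rfl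

theorem perp_rl {e f : ℂ} (he : e ≠ 0) (h : (e * conj f).re = 0) : rl e f = -f := by
  have hce : conj e ≠ 0 := by simpa using he
  have h1 : e * conj f = -(conj e * f) := by
    apply Complex.ext
    · simp only [mul_re, neg_re, conj_re, conj_im] at h ⊢
      linarith
    · simp only [mul_im, neg_im, conj_re, conj_im]
      ring
  unfold rl
  rw [div_mul_eq_mul_div, h1]
  field_simp

theorem perp_rl2 {e f : ℂ} (he : e ≠ 0) (hf : f ≠ 0) (h : (e * conj f).re = 0) (y : ℂ) :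
    rl e y = - rl f y := by
  have hce : conj e ≠ 0 := by simpa using he
  have hcf : conj f ≠ 0 := by simpa using hf
  have h1 : e * conj f = -(conj e * f) := by
    apply Complex.ext
    · simp only [mul_re, neg_re, conj_re, conj_im] at h ⊢
      linarith
    · simp only [mul_im, neg_im, conj_re, conj_im]
      ring
  unfold rl
  rw [div_mul_eq_mul_div, div_mul_eq_mul_div, ← neg_div, div_eq_div_iff hce hcf]
  linear_combination (conj y) * h1

theorem cr_dbl : cr (dbl v 1 - dbl v 0) (dbl v 2 - dbl v 0) =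
    2 * cr (v 1 - v 0) (v 2 - v 0) := by
  rw [dbl0, dbl1, dbl2]
  simp only [cr, sub_re, sub_im, mul_re, mul_im]
  norm_num
  ring

theorem hE (hv : ConvexIndependent ℝ v) : v 1 - v 0 ≠ 0 := v_sub_ne hv (by decide)
theorem hF (hv : ConvexIndependent ℝ v) : v 2 - v 0 ≠ 0 := v_sub_ne hv (by decide)

theorem D_ne (hv : ConvexIndependent ℝ v) : cr (v 1 - v 0) (v 2 - v 0) ≠ 0 :=
  noncol hv (by decide) (by decide) (by decide)

theorem dbl_conv (hv : ConvexIndependent ℝ v) : ConvexIndependent ℝ (dbl v) := by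
  apply convInd
  rw [cr_dbl]
  exact mul_ne_zero two_ne_zero (D_ne hv)

theorem PP_dbl : PP v ⊆ PP (dbl v) := by
  apply interior_mono
  apply convexHull_min _ (convex_convexHull ℝ _)
  rintro _ ⟨i, rfl⟩
  fin_cases i
  · show v 0 ∈ convexHull ℝ (Set.range (dbl v))
    have h1 : dbl v 1 ∈ convexHull ℝ (Set.range (dbl v)) := subset_convexHull ℝ _ ⟨1, rfl⟩
    have h2 : dbl v 2 ∈ convexHull ℝ (Set.range (dbl v)) := subset_convexHull ℝ _ ⟨2, rfl⟩
    have h3 := (convex_convexHull ℝ (Set.range (dbl v))) h1 h2 (a := 1 / 2) (b := 1 / 2)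
      (by norm_num) (by norm_num) (by norm_num)
    have e : (1 / 2 : ℝ) • dbl v 1 + (1 / 2 : ℝ) • dbl v 2 = v 0 := by
      rw [dbl1, dbl2, real_smul, real_smul]
      push_cast
      ring
    rwa [e] at h3
  · exact subset_convexHull ℝ _ ⟨0, rfl⟩
  · exact subset_convexHull ℝ _ ⟨1, rfl⟩

theorem MM_dbl {p : ℂ × ℝ} (hp : p ∈ MM v) : p ∈ MM (dbl v) := by
  obtain ⟨h1, x, hx, h2⟩ := hp
  exact ⟨h1, x, PP_dbl hx, h2⟩

/-- The mirror acting on lines. -/
noncomputable def Mi (v : Fin 3 → ℂ) (p : ℂ × ℝ) : ℂ × ℝ := RG (v 0) (v 1 - v 0) p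

/-- The mirror. -/
noncomputable def mi (v : Fin 3 → ℂ) (x : ℂ) : ℂ := RP (v 0) (v 1 - v 0) x

theorem Mi_Mi (hv : ConvexIndependent ℝ v) (p : ℂ × ℝ) : Mi v (Mi v p) = p := RG_RG (hE hv) _ _

theorem mi_mi (hv : ConvexIndependent ℝ v) (x : ℂ) : mi v (mi v x) = x := by
  unfold mi RP
  rw [add_sub_cancel_left, rl_rl (hE hv)]
  ring

theorem cr_mi (hv : ConvexIndependent ℝ v) (x : ℂ) (p : ℂ × ℝ) :
    cr (Mi v p).1 (mi v x) - (Mi v p).2 = -(cr p.1 x - p.2) := cr_RP (hE hv) _ _ _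

theorem cr_mi' (hv : ConvexIndependent ℝ v) (x : ℂ) (p : ℂ × ℝ) :
    cr (Mi v p).1 x - (Mi v p).2 = -(cr p.1 (mi v x) - p.2) := by
  have h := cr_mi hv (mi v x) p
  rwa [mi_mi hv] at h

theorem mi0 : mi v (v 0) = v 0 := by
  unfold mi RP
  rw [sub_self]
  simp [rl]

theorem mi1 (hv : ConvexIndependent ℝ v) : mi v (v 1) = v 1 := by
  unfold mi RP
  rw [rl_self (hE hv)]
  ring

theorem mi2 (hv : ConvexIndependent ℝ v) (hr : ((v 1 - v 0) * conj (v 2 - v 0)).re = 0) :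
    mi v (v 2) = 2 * v 0 - v 2 := by
  unfold mi RP
  rw [perp_rl (hE hv) hr]
  ring

theorem mi2' (hv : ConvexIndependent ℝ v) (hr : ((v 1 - v 0) * conj (v 2 - v 0)).re = 0) :
    mi v (2 * v 0 - v 2) = v 2 := by
  rw [← mi2 hv hr, mi_mi hv]

theorem mi_Rm (hv : ConvexIndependent ℝ v) (hr : ((v 1 - v 0) * conj (v 2 - v 0)).re = 0)
    (x : ℂ) : mi v x = Rm (v 2 - v 0) (v 0) x := by
  unfold mi RP Rm
  rw [perp_rl2 (hE hv) (hF hv) hr]
  ring

/-- The symmetry of the vertices. -/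
def sg3 : Fin 3 → Fin 3 := ![0, 2, 1]

theorem dbl_sg (hv : ConvexIndependent ℝ v) (hr : ((v 1 - v 0) * conj (v 2 - v 0)).re = 0)
    (i : Fin 3) : dbl v (sg3 i) = Rm (v 2 - v 0) (v 0) (dbl v i) := by
  rw [← mi_Rm hv hr]
  fin_cases i
  · show v 1 = mi v (v 1)
    rw [mi1 hv]
  · show 2 * v 0 - v 2 = mi v (v 2)
    rw [mi2 hv hr]
  · show v 2 = mi v (2 * v 0 - v 2)
    rw [mi2' hv hr]

theorem mi_PP (hv : ConvexIndependent ℝ v) (hr : ((v 1 - v 0) * conj (v 2 - v 0)).re = 0)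
    {x : ℂ} (hx : x ∈ PP (dbl v)) : mi v x ∈ PP (dbl v) := by
  rw [mi_Rm hv hr]
  exact Rm_mem_PP (hF hv) (dbl_sg hv hr) (dbl_conv hv) hx

theorem Mi_MM (hv : ConvexIndependent ℝ v) (hr : ((v 1 - v 0) * conj (v 2 - v 0)).re = 0)
    {p : ℂ × ℝ} (hp : Mi v p ∈ MM v) : p ∈ MM (dbl v) := by
  obtain ⟨h1, x, hx, h2⟩ := hp
  refine ⟨?_, mi v x, mi_PP hv hr (PP_dbl hx), ?_⟩
  · intro h0
    apply h1
    unfold Mi RG
    simp [rl, h0]
  · have h3 := cr_mi' hv x p
    rw [h2, sub_self] at h3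
    linarith


/-- Orientation of the triangle. -/
theorem orient (hv : ConvexIndependent ℝ v) :
    (0 < cr (v 1 - v 0) (v 2 - v 0) ∧ IsSide v 0 1 ∧ IsSide v 1 2 ∧ IsSide v 2 0 ∧
      IsSide (dbl v) 0 1 ∧ IsSide (dbl v) 1 2 ∧ IsSide (dbl v) 2 0) ∨
    (cr (v 1 - v 0) (v 2 - v 0) < 0 ∧ IsSide v 1 0 ∧ IsSide v 0 2 ∧ IsSide v 2 1 ∧
      IsSide (dbl v) 1 0 ∧ IsSide (dbl v) 0 2 ∧ IsSide (dbl v) 2 1) := by
  rcases lt_or_gt_of_ne (D_ne hv) with h | h
  · right
    have h1 := sides_neg h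
    have h2 := sides_neg (u := dbl v) (by rw [cr_dbl]; linarith)
    exact ⟨h, h1.1, h1.2.1, h1.2.2, h2.1, h2.2.1, h2.2.2⟩
  · left
    have h1 := sides_pos h
    have h2 := sides_pos (u := dbl v) (by rw [cr_dbl]; linarith)
    exact ⟨h, h1.1, h1.2.1, h1.2.2, h2.1, h2.2.1, h2.2.2⟩

/-- Points of the axis inside the doubled triangle are inside the leg. -/
theorem axis_mem (hv : ConvexIndependent ℝ v) {τ : ℝ}
    (h : v 0 + (τ : ℂ) * (v 1 - v 0) ∈ PP (dbl v)) : 0 < τ ∧ τ < 1 := by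
  have hu := dbl_conv hv
  set e := v 1 - v 0 with he
  set f := v 2 - v 0 with hf
  have e1 : v 1 = v 0 + e := by rw [he]; ring
  have e2 : v 2 = v 0 + f := by rw [hf]; ring
  have k1 : cr (dbl v 1 - dbl v 0) (v 0 + (τ : ℂ) * e - dbl v 0) = (1 - τ) * cr e f := by
    rw [dbl0, dbl1, e1, e2]
    simp only [cr, sub_re, sub_im, add_re, add_im, mul_re, mul_im, ofReal_re, ofReal_im]
    ring
  have k2 : cr (dbl v 2 - dbl v 1) (v 0 + (τ : ℂ) * e - dbl v 1) = 2 * τ * cr e f := by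
    rw [dbl2, dbl1, e2]
    have hx : 2 * v 0 - (v 0 + f) - (v 0 + f) = ((-2 : ℝ) : ℂ) * f := by push_cast; ring
    have hy : v 0 + (τ : ℂ) * e - (v 0 + f) = (τ : ℂ) * e - f := by ring
    rw [hx, hy, cr_smul_left, cr_sub_right, cr_self, cr_smul_right, cr_swap f e]
    ring
  rcases orient hv with ⟨hD, -, -, -, s1, s2, -⟩ | ⟨hD, -, -, -, s1, -, s2⟩
  · have h1 := s1.cr_pos hu h
    have h2 := s2.cr_pos hu h
    rw [k1] at h1
    rw [k2] at h2
    constructor
    · by_contra hc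
      push Not at hc
      nlinarith
    · by_contra hc
      push Not at hc
      nlinarith
  · have h1 := s1.cr_pos hu h
    have h2 := s2.cr_pos hu h
    have k1' : cr (dbl v 0 - dbl v 1) (v 0 + (τ : ℂ) * e - dbl v 1) = -((1 - τ) * cr e f) := by
      rw [← k1]
      simp only [cr, sub_re, sub_im]
      ring
    have k2' : cr (dbl v 1 - dbl v 2) (v 0 + (τ : ℂ) * e - dbl v 2) = -(2 * τ * cr e f) := by
      rw [← k2]
      simp only [cr, sub_re, sub_im]
      ring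
    rw [k1'] at h1
    rw [k2'] at h2
    constructor
    · by_contra hc
      push Not at hc
      nlinarith
    · by_contra hc
      push Not at hc
      nlinarith

/-- A line meeting both halves crosses the leg. -/
theorem crosses (hv : ConvexIndependent ℝ v)
    (hr : ((v 1 - v 0) * conj (v 2 - v 0)).re = 0) {p : ℂ × ℝ} (hp : p ∈ MM v)
    (hq : Mi v p ∈ MM v) :
    (cr p.1 (v 0) < p.2 ∧ p.2 < cr p.1 (v 1)) ∨ (cr p.1 (v 1) < p.2 ∧ p.2 < cr p.1 (v 0)) := by
  obtain ⟨hw, x, hx, hx2⟩ := hp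
  obtain ⟨-, y, hy, hy2⟩ := hq
  set e := v 1 - v 0 with he
  have hy3 : cr p.1 (mi v y) = p.2 := by
    have h3 := cr_mi' hv y p
    rw [hy2, sub_self] at h3
    linarith
  -- signs of the two points
  have g1 : cr e (mi v y - v 0) = - cr e (y - v 0) := by
    have h4 : mi v y - v 0 = rl e (y - v 0) := by unfold mi RP; ring
    have h5 := cr_rl (hE hv) e (y - v 0)
    rw [rl_self (hE hv)] at h5
    rw [h4, h5]
  have g2 : cr e (x - v 0) * cr e (mi v y - v 0) < 0 := by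
    rw [g1]
    rcases orient hv with ⟨-, s1, -⟩ | ⟨-, s1, -⟩
    · have a1 := s1.cr_pos hv hx
      have a2 := s1.cr_pos hv hy
      rw [← he] at a1 a2
      nlinarith
    · have a1 := s1.cr_pos hv hx
      have a2 := s1.cr_pos hv hy
      have b : ∀ z : ℂ, cr (v 0 - v 1) (z - v 1) = - cr e (z - v 0) := by
        intro z
        rw [he]
        simp only [cr, sub_re, sub_im]
        ring
      rw [b] at a1 a2
      nlinarith
  set A := cr e (x - v 0) with hA
  set B := cr e (mi v y - v 0) with hB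
  have hAB : A - B ≠ 0 := by
    intro h0
    have : A = B := by linarith
    rw [this] at g2
    nlinarith [mul_self_nonneg B]
  set s : ℝ := A / (A - B) with hs
  have hs0 : 0 < s ∧ s < 1 := by
    rcases lt_trichotomy A 0 with h1 | h1 | h1
    · have hB1 : 0 < B := by
        by_contra hc; push Not at hc; nlinarith
      have hd : A - B < 0 := by linarith
      exact ⟨div_pos_of_neg_of_neg h1 hd, by rw [hs, div_lt_one_of_neg hd]; linarith⟩
    · rw [h1, zero_mul] at g2; exact absurd g2 (lt_irrefl _)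
    · have hB1 : B < 0 := by
        by_contra hc; push Not at hc; nlinarith
      have hd : 0 < A - B := by linarith
      exact ⟨div_pos h1 hd, by rw [hs, div_lt_one hd]; linarith⟩
  set z : ℂ := x + (s : ℂ) * (mi v y - x) with hz
  have hzP : z ∈ PP (dbl v) := by
    have h1 := convex_PP (v := dbl v) (PP_dbl hx) (mi_PP hv hr (PP_dbl hy)) (a := 1 - s) (b := s)
      (by linarith [hs0.2]) hs0.1.le (by ring)
    have e1 : (1 - s) • x + s • mi v y = z := by
      rw [hz, real_smul, real_smul]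
      push_cast
      ring
    rwa [e1] at h1
  have hzQ : cr p.1 z = p.2 := by
    rw [hz, cr_add_right, cr_smul_right, cr_sub_right, hx2, hy3]
    ring
  have hz0 : cr e (z - v 0) = 0 := by
    have e1 : z - v 0 = (x - v 0) + (s : ℂ) * ((mi v y - v 0) - (x - v 0)) := by rw [hz]; ring
    rw [e1, cr_add_right, cr_smul_right, cr_sub_right e (mi v y - v 0) (x - v 0), ← hA, ← hB, hs]
    field_simp
    ring
  obtain ⟨τ, hτ⟩ := (cr_eq_zero_iff (hE hv)).1 hz0
  have hz1 : z = v 0 + (τ : ℂ) * e := by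
    rw [← hτ]; ring
  rw [hz1] at hzP hzQ
  obtain ⟨t0, t1⟩ := axis_mem hv hzP
  rw [cr_add_right, cr_smul_right] at hzQ
  have hwe : cr p.1 e ≠ 0 := by
    intro h0
    obtain ⟨r, hr'⟩ := (cr_eq_zero_iff hw).1 h0
    have hr0 : r ≠ 0 := by
      rintro rfl
      apply hE hv
      rw [← he, hr']
      simp
    have h6 : cr p.1 (x - mi v y) = 0 := by rw [cr_sub_right, hx2, hy3, sub_self]
    obtain ⟨q, hq'⟩ := (cr_eq_zero_iff hw).1 h6
    have h7 : A - B = 0 := by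
      rw [hA, hB, ← cr_sub_right]
      have e1 : x - v 0 - (mi v y - v 0) = x - mi v y := by ring
      rw [e1, hq', hr', cr_smul_left, cr_smul_right, cr_self]
      ring
    exact hAB h7
  have e1 : cr p.1 (v 1) = cr p.1 (v 0) + cr p.1 e := by
    rw [he, cr_sub_right]; ring
  rcases lt_or_gt_of_ne hwe with h | h
  · right
    rw [e1]
    constructor
    · nlinarith
    · nlinarith
  · left
    rw [e1]
    constructor
    · nlinarith
    · nlinarith

theorem RL_swap {n : ℕ} {v : Fin n → ℂ} (i j : Fin n) (hne : v j - v i ≠ 0) (p : ℂ × ℝ) :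
    RL v (j, i) p = RL v (i, j) p := by
  rw [RL_RG, RL_RG]
  simp only
  have e1 : v i - v j = ((-1 : ℝ) : ℂ) * (v j - v i) := by push_cast; ring
  have e2 : v j = v i + ((1 : ℝ) : ℂ) * (v j - v i) := by push_cast; ring
  rw [e1, RG_scale (by norm_num)]
  conv_lhs => rw [e2]
  have e3 : v i + ((1 : ℝ) : ℂ) * (v j - v i) - v i = v j - v i := by push_cast; ring
  rw [e3, RG_shift hne]

/-- Invariant sets do not distinguish a crossing line and its mirror image. -/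
theorem lemA (hv : ConvexIndependent ℝ v) (hr : ((v 1 - v 0) * conj (v 2 - v 0)).re = 0)
    {L : Set (ℂ × ℝ)} (hL : XL v L) {p : ℂ × ℝ} (hp : p ∈ MM v) (hq : Mi v p ∈ MM v) :
    p ∈ L ↔ Mi v p ∈ L := by
  have hM : ∀ p, RL v (0, 1) p = Mi v p := fun _ => rfl
  have hM' : ∀ p, RL v (1, 0) p = Mi v p := fun p => by
    rw [RL_swap 0 1 (hE hv) p]; rfl
  have hhq := crosses hv hr hq (by rw [Mi_Mi hv]; exact hp)
  have hc := crosses hv hr hp hq
  have c0 := cr_mi hv (v 0) p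
  have c1 := cr_mi hv (v 1) p
  rw [mi0] at c0
  rw [mi1 hv] at c1
  rcases orient hv with ⟨-, s1, -⟩ | ⟨-, s1, -⟩
  · rcases hc with h | h
    · have h1 := hL.sym (0, 1) s1 p h
      rw [hM] at h1
      exact h1.symm
    · have h2 : Mi v p ∈ EX v (0, 1) := by
        constructor
        · show cr (Mi v p).1 (v 0) < (Mi v p).2
          linarith [h.2]
        · show (Mi v p).2 < cr (Mi v p).1 (v 1)
          linarith [h.1]
      have h1 := hL.sym (0, 1) s1 _ h2
      rw [hM, Mi_Mi hv] at h1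
      exact h1
  · rcases hc with h | h
    · have h2 : Mi v p ∈ EX v (1, 0) := by
        constructor
        · show cr (Mi v p).1 (v 1) < (Mi v p).2
          linarith [h.2]
        · show (Mi v p).2 < cr (Mi v p).1 (v 0)
          linarith [h.1]
      have h1 := hL.sym (1, 0) s1 _ h2
      rw [hM', Mi_Mi hv] at h1
      exact h1
    · have h1 := hL.sym (1, 0) s1 p h
      rw [hM'] at h1
      exact h1.symm


/-- The lifted set. -/
def Lf (v : Fin 3 → ℂ) (L : Set (ℂ × ℝ)) : Set (ℂ × ℝ) := {p | p ∈ L ∨ Mi v p ∈ L}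

theorem lemB (hv : ConvexIndependent ℝ v) (hr : ((v 1 - v 0) * conj (v 2 - v 0)).re = 0)
    {L : Set (ℂ × ℝ)} (hL : XL v L) {p : ℂ × ℝ} (hp : p ∈ MM v) : p ∈ Lf v L ↔ p ∈ L := by
  constructor
  · rintro (h | h)
    · exact h
    · exact (lemA hv hr hL hp (hL.sub h)).2 h
  · exact fun h => Or.inl h

theorem lemB' (hv : ConvexIndependent ℝ v) (hr : ((v 1 - v 0) * conj (v 2 - v 0)).re = 0)
    {L : Set (ℂ × ℝ)} (hL : XL v L) {p : ℂ × ℝ} (hp : Mi v p ∈ MM v) :
    p ∈ Lf v L ↔ Mi v p ∈ L := by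
  constructor
  · rintro (h | h)
    · exact (lemA hv hr hL (hL.sub h) hp).1 h
    · exact h
  · exact fun h => Or.inr h

theorem invA (hv : ConvexIndependent ℝ v) (hr : ((v 1 - v 0) * conj (v 2 - v 0)).re = 0)
    {L : Set (ℂ × ℝ)} (hL : XL v L) {s : Fin 3 × Fin 3} (hs : IsSide v s.1 s.2) {p q : ℂ × ℝ}
    (hp : p ∈ EX v s) (hq : RL v s p = q) : q ∈ Lf v L ↔ p ∈ Lf v L := by
  have hne := v_sub_ne hv hs.1
  have h1 : p ∈ MM v := EAux.ex_sub_MM (by norm_num) hv hs hp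
  have h2 : q ∈ MM v := by
    rw [← hq]
    exact EAux.en_sub_MM (by norm_num) hv hs (EAux.RL_en hne hp)
  rw [lemB hv hr hL h1, lemB hv hr hL h2, ← hq]
  exact hL.sym s hs p hp

theorem invB (hv : ConvexIndependent ℝ v) (hr : ((v 1 - v 0) * conj (v 2 - v 0)).re = 0)
    {L : Set (ℂ × ℝ)} (hL : XL v L) {s : Fin 3 × Fin 3} (hs : IsSide v s.1 s.2) {p q : ℂ × ℝ}
    (hp : Mi v p ∈ EX v s) (hq : RL v s (Mi v p) = Mi v q) : q ∈ Lf v L ↔ p ∈ Lf v L := by
  have hne := v_sub_ne hv hs.1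
  have h1 : Mi v p ∈ MM v := EAux.ex_sub_MM (by norm_num) hv hs hp
  have h2 : Mi v q ∈ MM v := by
    rw [← hq]
    exact EAux.en_sub_MM (by norm_num) hv hs (EAux.RL_en hne hp)
  rw [lemB' hv hr hL h1, lemB' hv hr hL h2, ← hq]
  exact hL.sym s hs _ hp

/-- Conjugation by the mirror. -/
theorem Mi_conj (hv : ConvexIndependent ℝ v) {c d : ℂ} (hd : d ≠ 0) (p : ℂ × ℝ) :
    RG (mi v c) (rl (v 1 - v 0) d) (Mi v p) = Mi v (RG c d p) :=
  RG_conj (hE hv) hd c p

/-- The lifted set is invariant, except at lines through the right angle. -/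
theorem inv0 (hv : ConvexIndependent ℝ v) (hr : ((v 1 - v 0) * conj (v 2 - v 0)).re = 0)
    {L : Set (ℂ × ℝ)} (hL : XL v L) {s : Fin 3 × Fin 3} (hs : IsSide (dbl v) s.1 s.2)
    {p : ℂ × ℝ} (hp : p ∈ EX (dbl v) s) (hz : cr p.1 (v 0) - p.2 ≠ 0) :
    RL (dbl v) s p ∈ Lf v L ↔ p ∈ Lf v L := by
  have hu := dbl_conv hv
  have he := hE hv
  have hf := hF hv
  have hM : ∀ x, cr (Mi v p).1 x - (Mi v p).2 = -(cr p.1 (mi v x) - p.2) := fun x => cr_mi' hv x p
  have m1 := hM (v 1)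
  have m2 := hM (v 2)
  have m0 := hM (v 0)
  rw [mi1 hv] at m1
  rw [mi2 hv hr] at m2
  rw [mi0] at m0
  obtain ⟨s1, s2⟩ := s
  -- reflections in the legs
  have r12 : ∀ q, RL (dbl v) (0, 1) q = RL v (1, 2) q := fun q => rfl
  have r21 : ∀ q, RL (dbl v) (1, 0) q = RL v (2, 1) q := fun q => rfl
  have hbase : ∀ q, RL (dbl v) (1, 2) q = RG (v 2) (v 0 - v 2) q := by
    intro q
    rw [RL_RG]
    simp only
    rw [dbl1, dbl2]
    have e1 : 2 * v 0 - v 2 - v 2 = ((2 : ℝ) : ℂ) * (v 0 - v 2) := by push_cast; ring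
    rw [e1, RG_scale (by norm_num)]
  have hbase' : ∀ q, RL (dbl v) (2, 1) q = RG (v 2) (v 0 - v 2) q := by
    intro q
    rw [RL_swap (v := dbl v) 1 2 (v_sub_ne hu (by decide)), hbase]
  have v20 : v 0 - v 2 ≠ 0 := by
    intro h0; apply hf; rw [← neg_sub, h0, neg_zero]
  have b20 : ∀ q, RL v (2, 0) q = RG (v 2) (v 0 - v 2) q := fun q => rfl
  have b02 : ∀ q, RL v (0, 2) q = RG (v 2) (v 0 - v 2) q := fun q => by
    rw [RL_swap (v := v) 2 0 v20, b20]
  -- the base is mapped to itself by the mirror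
  have cb : ∀ q, RG (v 2) (v 0 - v 2) (Mi v q) = Mi v (RG (v 2) (v 0 - v 2) q) := by
    intro q
    have h1 := Mi_conj hv (c := v 2) v20 q
    have e1 : rl (v 1 - v 0) (v 0 - v 2) = ((-1 : ℝ) : ℂ) * (v 0 - v 2) := by
      have : v 0 - v 2 = -(v 2 - v 0) := by ring
      rw [this, EAux.rl_neg, perp_rl he hr]
      push_cast; ring
    have e2 : mi v (v 2) = v 2 + ((2 : ℝ) : ℂ) * (v 0 - v 2) := by
      rw [mi2 hv hr]; push_cast; ring
    rw [e1, RG_scale (by norm_num), e2, RG_shift v20] at h1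
    exact h1
  have c12 : ∀ q, RL v (1, 2) (Mi v q) = Mi v (RL (dbl v) (2, 0) q) := by
    intro q
    have hne : dbl v 2 - dbl v 0 ≠ 0 := v_sub_ne hu (by decide)
    rw [RL_swap (v := dbl v) 0 2 hne, RL_RG, RL_RG]
    simp only
    rw [← Mi_conj hv hne, dbl0, dbl2, mi1 hv]
    congr 1
    have : 2 * v 0 - v 2 - v 1 = -(v 2 - v 0) - (v 1 - v 0) := by ring
    rw [this, rl_sub, EAux.rl_neg, perp_rl he hr, rl_self he]
    ring
  have c12' : ∀ q, RL v (2, 1) (Mi v q) = Mi v (RL (dbl v) (0, 2) q) := by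
    intro q
    have hne : dbl v 2 - dbl v 0 ≠ 0 := v_sub_ne hu (by decide)
    rw [RL_swap (v := v) 1 2 (v_sub_ne hv (by decide)), c12,
      RL_swap (v := dbl v) 0 2 hne]
  rcases orient hv with ⟨-, a01, a12, a20, d01, d12, d20⟩ | ⟨-, a10, a02, a21, d10, d02, d21⟩
  · -- positive orientation
    have hcase : (s1 = 0 ∧ s2 = 1) ∨ (s1 = 1 ∧ s2 = 2) ∨ (s1 = 2 ∧ s2 = 0) := by
      simp only at hs
      fin_cases s1
      · left; exact ⟨rfl, next_unique hs d01⟩
      · right; left; exact ⟨rfl, next_unique hs d12⟩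
      · right; right; exact ⟨rfl, next_unique hs d20⟩
    rcases hcase with ⟨rfl, rfl⟩ | ⟨rfl, rfl⟩ | ⟨rfl, rfl⟩
    · exact invA hv hr hL (s := (1, 2)) a12 hp (r12 p).symm
    · obtain ⟨h1, h2⟩ := hp
      simp only [dbl1, dbl2] at h1 h2
      rcases lt_or_gt_of_ne hz with h | h
      · -- p beyond v 0
        refine invB hv hr hL (s := (2, 0)) a20 (q := RL (dbl v) (1, 2) p) ⟨?_, ?_⟩ ?_
        · show cr (Mi v p).1 (v 2) < (Mi v p).2
          linarith
        · show (Mi v p).2 < cr (Mi v p).1 (v 0)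
          linarith
        · rw [b20, hbase, cb]
      · refine invA hv hr hL (s := (2, 0)) a20 (q := RL (dbl v) (1, 2) p) ⟨?_, ?_⟩ ?_
        · exact h1
        · show p.2 < cr p.1 (v 0)
          linarith
        · rw [b20, hbase]
    · obtain ⟨h1, h2⟩ := hp
      simp only [dbl0, dbl2] at h1 h2
      refine invB hv hr hL (s := (1, 2)) a12 (q := RL (dbl v) (2, 0) p) ⟨?_, ?_⟩ (c12 p)
      · show cr (Mi v p).1 (v 1) < (Mi v p).2
        linarith
      · show (Mi v p).2 < cr (Mi v p).1 (v 2)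
        linarith
  · have hcase : (s1 = 1 ∧ s2 = 0) ∨ (s1 = 0 ∧ s2 = 2) ∨ (s1 = 2 ∧ s2 = 1) := by
      simp only at hs
      fin_cases s1
      · right; left; exact ⟨rfl, next_unique hs d02⟩
      · left; exact ⟨rfl, next_unique hs d10⟩
      · right; right; exact ⟨rfl, next_unique hs d21⟩
    rcases hcase with ⟨rfl, rfl⟩ | ⟨rfl, rfl⟩ | ⟨rfl, rfl⟩
    · exact invA hv hr hL (s := (2, 1)) a21 hp (r21 p).symm
    · obtain ⟨h1, h2⟩ := hp
      simp only [dbl0, dbl2] at h1 h2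
      refine invB hv hr hL (s := (2, 1)) a21 (q := RL (dbl v) (0, 2) p) ⟨?_, ?_⟩ (c12' p)
      · show cr (Mi v p).1 (v 2) < (Mi v p).2
        linarith
      · show (Mi v p).2 < cr (Mi v p).1 (v 1)
        linarith
    · obtain ⟨h1, h2⟩ := hp
      simp only [dbl1, dbl2] at h1 h2
      rcases lt_or_gt_of_ne hz with h | h
      · refine invA hv hr hL (s := (0, 2)) a02 (q := RL (dbl v) (2, 1) p) ⟨?_, ?_⟩ ?_
        · show cr p.1 (v 0) < p.2
          linarith
        · exact h2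
        · rw [b02, hbase']
      · refine invB hv hr hL (s := (0, 2)) a02 (q := RL (dbl v) (2, 1) p) ⟨?_, ?_⟩ ?_
        · show cr (Mi v p).1 (v 0) < (Mi v p).2
          linarith
        · show (Mi v p).2 < cr (Mi v p).1 (v 2)
          linarith
        · rw [b02, hbase', cb]

/-- The regularised lifted set. -/
def Lr (v : Fin 3 → ℂ) (L : Set (ℂ × ℝ)) : Set (ℂ × ℝ) :=
  MM (dbl v) ∩ interior (closure (Lf v L))

theorem isOpen_Lf {L : Set (ℂ × ℝ)} (hL : IsOpen L) : IsOpen (Lf v L) :=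
  hL.union (hL.preimage (continuous_RG _ _))

theorem xl_Lr (hv : ConvexIndependent ℝ v) (hr : ((v 1 - v 0) * conj (v 2 - v 0)).re = 0)
    {L : Set (ℂ × ℝ)} (hL : XL v L) (ho : IsOpen L) : XL (dbl v) (Lr v L) where
  sub := inter_subset_left
  cone := fun r hr' p => by
    unfold Lr
    rw [mem_inter_iff, mem_inter_iff, EAux.sc_mem_MM hr' p]
    have h1 : ∀ r : ℝ, 0 < r → ∀ p : ℂ × ℝ, p ∈ Lf v L →
        (((r : ℂ) * p.1, r * p.2) : ℂ × ℝ) ∈ Lf v L := by
      rintro t ht q (hq | hq)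
      · left; exact (hL.cone t ht q).2 hq
      · right
        have h2 := RG_sc (v 0) (v 1 - v 0) t q
        show Mi v (((t : ℂ) * q.1, t * q.2) : ℂ × ℝ) ∈ L
        unfold Mi
        rw [h2]
        exact (hL.cone t ht _).2 hq
    rw [sc_reg h1 r hr' p]
  sym := fun s hs p hp => by
    have hu := dbl_conv hv
    have hne := v_sub_ne hu hs.1
    have h1 : p ∈ MM (dbl v) := EAux.ex_sub_MM (by norm_num) hu hs hp
    have h2 : RL (dbl v) s p ∈ MM (dbl v) :=
      EAux.en_sub_MM (by norm_num) hu hs (EAux.RL_en hne hp)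
    have h3 := inv_interior (isOpen_Lf (v := v) ho) (EAux.isOpen_EX (v := dbl v) s) (dense_off (v 0))
      (EAux.continuous_RL (v := dbl v) s) (EAux.RL_RL hne)
      (fun q hq hq2 => inv0 hv hr hL hs hq hq2) hp
    unfold Lr
    rw [mem_inter_iff, mem_inter_iff, h3]
    exact ⟨fun h => ⟨h1, h.2⟩, fun h => ⟨h2, h.2⟩⟩

/-- Transitivity of the doubled triangle gives transitivity. -/
theorem trans_of_dbl (hv : ConvexIndependent ℝ v)
    (hr : ((v 1 - v 0) * conj (v 2 - v 0)).re = 0) (hT : TransL (dbl v)) : TransL v := by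
  intro U W hU hW hoU hoW hnU hnW
  have key : ∀ L : Set (ℂ × ℝ), XL v L → IsOpen L → L.Nonempty →
      IsOpen (Lr v L) ∧ (Lr v L).Nonempty := by
    intro L hL ho hn
    refine ⟨EAux.isOpen_MM.inter isOpen_interior, ?_⟩
    obtain ⟨p, hp⟩ := hn
    exact ⟨p, MM_dbl (hL.sub hp), interior_maximal subset_closure (isOpen_Lf ho) (Or.inl hp)⟩
  obtain ⟨q, hq1, hq2⟩ := hT (Lr v U) (Lr v W) (xl_Lr hv hr hU hoU) (xl_Lr hv hr hW hoW)
    (key U hU hoU hnU).1 (key W hW hoW hnW).1 (key U hU hoU hnU).2 (key W hW hoW hnW).2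
  obtain ⟨p, hp1, hp2⟩ := meet_of_reg (isOpen_Lf (v := v) hoU) ⟨q, hq1.2, hq2.2⟩
  rcases hp1 with h1 | h1
  · rcases hp2 with h2 | h2
    · exact ⟨p, h1, h2⟩
    · exact ⟨p, h1, (lemA hv hr hW (hU.sub h1) (hW.sub h2)).2 h2⟩
  · rcases hp2 with h2 | h2
    · exact ⟨p, (lemA hv hr hU (hW.sub h2) (hU.sub h1)).2 h1, h2⟩
    · exact ⟨_, h1, h2⟩


/-! ### Irrational angles -/

theorem im_pow2 {z : ℂ} {m : ℕ} (h : (z ^ m).im = 0) : (z ^ (2 * m)).im = 0 := by
  rw [mul_comm, pow_mul, pow_two, mul_im, h]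
  ring

theorem irrA {z r : ℂ} {c : ℝ} {k : ℕ} (hz : ∀ m : ℕ, 0 < m → (z ^ m).im ≠ 0) (hc : c ≠ 0)
    (hk : 0 < k) (h : r ^ 2 * z ^ k = (c : ℂ)) : ∀ m : ℕ, 0 < m → (r ^ m).im ≠ 0 := by
  intro m hm h0
  have h1 := im_pow2 h0
  have hr : r ≠ 0 := by
    rintro rfl
    apply hc
    have : (c : ℂ) = 0 := by rw [← h]; simp
    exact_mod_cast this
  have h2 : r ^ (2 * m) * z ^ (k * m) = ((c ^ m : ℝ) : ℂ) := by
    rw [pow_mul, pow_mul, ← mul_pow, h]
    push_cast
    rfl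
  have h3 : (r ^ (2 * m)) = (((r ^ (2 * m)).re : ℝ) : ℂ) := by
    apply Complex.ext
    · simp
    · simp [h1]
  have h4 : (r ^ (2 * m)).re ≠ 0 := by
    intro h5
    rw [h5] at h3
    exact pow_ne_zero _ hr (by simpa using h3)
  apply hz (k * m) (Nat.mul_pos hk hm)
  have h6 : z ^ (k * m) = ((c ^ m / (r ^ (2 * m)).re : ℝ) : ℂ) := by
    rw [ofReal_div, ← h2, ← h3]
    have : r ^ (2 * m) ≠ 0 := pow_ne_zero _ hr
    field_simp
  rw [h6, ofReal_im]

theorem irrB {z r : ℂ} {c : ℝ} {k : ℕ} (hz : ∀ m : ℕ, 0 < m → (z ^ m).im ≠ 0) (hc : c ≠ 0)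
    (hk : 0 < k) (h : r ^ 2 = (c : ℂ) * z ^ k) : ∀ m : ℕ, 0 < m → (r ^ m).im ≠ 0 := by
  intro m hm h0
  have h1 := im_pow2 h0
  apply hz (k * m) (Nat.mul_pos hk hm)
  have h2 : r ^ (2 * m) = ((c ^ m : ℝ) : ℂ) * z ^ (k * m) := by
    rw [pow_mul, pow_mul, h, mul_pow]
    push_cast
    rfl
  rw [h2, im_ofReal_mul] at h1
  rcases mul_eq_zero.1 h1 with h3 | h3
  · exact absurd h3 (pow_ne_zero _ hc)
  · exact h3

/-- Algebra: angles of the doubled triangle. -/
theorem irr_dbl (hv : ConvexIndependent ℝ v) (hr : ((v 1 - v 0) * conj (v 2 - v 0)).re = 0)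
    (hz : ∀ m : ℕ, 0 < m → (((v 0 - v 1) / (v 2 - v 1)) ^ m).im ≠ 0) : Irr (dbl v) := by
  have he := hE hv
  have hf := hF hv
  have h21 : v 2 - v 1 ≠ 0 := v_sub_ne hv (by decide)
  set e := v 1 - v 0 with hee
  set f := v 2 - v 0 with hff
  have hef : e - f ≠ 0 := by
    have : e - f = -(v 2 - v 1) := by rw [hee, hff]; ring
    rw [this]; exact neg_ne_zero.2 h21
  -- `g = f / e` is purely imaginary
  set g := f / e with hg
  have hfg : f = g * e := by rw [hg]; field_simp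
  have hg0 : g ≠ 0 := div_ne_zero hf he
  have hgre : g.re = 0 := by
    have h1 : e * conj f = conj g * ((normSq e : ℝ) : ℂ) := by
      rw [hfg, map_mul, ← mul_conj]; ring
    rw [h1, mul_comm, re_ofReal_mul, conj_re] at hr
    rcases mul_eq_zero.1 hr with h2 | h2
    · exact absurd (normSq_eq_zero.1 h2) he
    · exact h2
  have hgim : g.im ≠ 0 := by
    intro h0
    exact hg0 (Complex.ext hgre h0)
  set t := g.im with ht
  have hgI : g = (t : ℂ) * I := by
    apply Complex.ext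
    · simp [hgre]
    · simp [ht]
  have ht0 : (t : ℂ) ≠ 0 := by exact_mod_cast hgim
  have h1g : (1 : ℂ) - g ≠ 0 := by
    intro h0; apply hef; rw [hfg]; linear_combination e * h0
  have h1g' : (1 : ℂ) + g ≠ 0 := by
    intro h0
    have := congrArg Complex.re h0
    rw [hgI] at this
    simp at this
  have hI : (I : ℂ) ^ 2 = -1 := I_sq
  -- the two unit data
  have hz1 : ∀ m : ℕ, 0 < m → ((1 - g)⁻¹ ^ m).im ≠ 0 := by
    intro m hm
    have e1 : (v 0 - v 1) / (v 2 - v 1) = (1 - g)⁻¹ := by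
      have a1 : v 0 - v 1 = -e := by rw [hee]; ring
      have a2 : v 2 - v 1 = -(e * (1 - g)) := by
        have : v 2 - v 1 = f - e := by rw [hee, hff]; ring
        rw [this, hfg]; ring
      rw [a1, a2]
      field_simp
    have h2 := hz m hm
    rwa [e1] at h2
  have hcj : conj (1 - g) = 1 + g := by
    rw [map_sub, map_one, hgI]
    simp
  have hz2 : ∀ m : ℕ, 0 < m → ((1 + g)⁻¹ ^ m).im ≠ 0 := by
    intro m hm h0
    apply hz1 m hm
    have : (1 + g)⁻¹ ^ m = conj ((1 - g)⁻¹ ^ m) := by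
      rw [map_pow, map_inv₀, hcj]
    rw [this, conj_im] at h0
    linarith
  have hN : (1 - g) * (1 + g) = ((1 + t ^ 2 : ℝ) : ℂ) := by
    rw [hgI]
    push_cast
    linear_combination (-(t : ℂ) ^ 2) * hI
  have hN0 : (1 + t ^ 2 : ℝ) ≠ 0 := by positivity
  have hg2 : g ^ 2 = ((-t ^ 2 : ℝ) : ℂ) := by
    rw [hgI, mul_pow, hI]; push_cast; ring
  have ht2 : (-t ^ 2 : ℝ) ≠ 0 := neg_ne_zero.2 (pow_ne_zero _ hgim)
  -- edge vectors
  have u10 : dbl v 1 - dbl v 0 = -(e * (1 - g)) := by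
    rw [dbl0, dbl1]
    have : v 2 - v 1 = f - e := by rw [hee, hff]; ring
    rw [this, hfg]; ring
  have u20 : dbl v 2 - dbl v 0 = -(e * (1 + g)) := by
    rw [dbl0, dbl2]
    have : 2 * v 0 - v 2 - v 1 = -(f + e) := by rw [hee, hff]; ring
    rw [this, hfg]; ring
  have u21 : dbl v 2 - dbl v 1 = -(2 * (g * e)) := by
    rw [dbl1, dbl2, ← hfg, hff]; ring
  have n01 : dbl v 0 - dbl v 1 = e * (1 - g) := by rw [← neg_sub, u10, neg_neg]
  have n02 : dbl v 0 - dbl v 2 = e * (1 + g) := by rw [← neg_sub, u20, neg_neg]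
  have n12 : dbl v 1 - dbl v 2 = 2 * (g * e) := by rw [← neg_sub, u21, neg_neg]
  have c0 : ((1 + t ^ 2) ^ 2 : ℝ) ≠ 0 := pow_ne_zero _ hN0
  -- apex
  have q0 : ∀ m : ℕ, 0 < m → ((((dbl v 1 - dbl v 0) / (dbl v 2 - dbl v 0))) ^ m).im ≠ 0 := by
    refine irrB (c := (((1 + t ^ 2) ^ 2)⁻¹ : ℝ)) (k := 4) ?_ (inv_ne_zero c0) (by norm_num) ?_ (z := 1 - g)
    · intro m hm h0
      apply hz1 m hm
      rw [inv_pow, inv_im, h0]; simp
    · rw [u10, u20]
      push_cast
      have hN' : ((1 : ℂ) + (t : ℂ) ^ 2) = (1 - g) * (1 + g) := by rw [hN]; push_cast; ring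
      rw [hN']
      field_simp
  have q0' : ∀ m : ℕ, 0 < m → ((((dbl v 2 - dbl v 0) / (dbl v 1 - dbl v 0))) ^ m).im ≠ 0 := by
    intro m hm h0
    apply q0 m hm
    have : (dbl v 1 - dbl v 0) / (dbl v 2 - dbl v 0) =
      ((dbl v 2 - dbl v 0) / (dbl v 1 - dbl v 0))⁻¹ := by rw [inv_div]
    rw [this, inv_pow, inv_im, h0]; simp
  have q1 : ∀ m : ℕ, 0 < m → ((((dbl v 0 - dbl v 1) / (dbl v 2 - dbl v 1))) ^ m).im ≠ 0 := by
    refine irrA (c := ((4 * (-t ^ 2))⁻¹ : ℝ)) (k := 2) hz1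
      (inv_ne_zero (mul_ne_zero (by norm_num) ht2)) (by norm_num) ?_
    rw [n01, u21]
    push_cast
    have hg2' : (-(t : ℂ) ^ 2) = g ^ 2 := by rw [hg2]; push_cast; ring
    rw [hg2']
    field_simp
    norm_num
  have q1' : ∀ m : ℕ, 0 < m → ((((dbl v 2 - dbl v 1) / (dbl v 0 - dbl v 1))) ^ m).im ≠ 0 := by
    intro m hm h0
    apply q1 m hm
    have : (dbl v 0 - dbl v 1) / (dbl v 2 - dbl v 1) =
      ((dbl v 2 - dbl v 1) / (dbl v 0 - dbl v 1))⁻¹ := by rw [inv_div]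
    rw [this, inv_pow, inv_im, h0]; simp
  have q2 : ∀ m : ℕ, 0 < m → ((((dbl v 0 - dbl v 2) / (dbl v 1 - dbl v 2))) ^ m).im ≠ 0 := by
    refine irrA (c := ((4 * (-t ^ 2))⁻¹ : ℝ)) (k := 2) hz2
      (inv_ne_zero (mul_ne_zero (by norm_num) ht2)) (by norm_num) ?_
    rw [n02, n12]
    push_cast
    have hg2' : (-(t : ℂ) ^ 2) = g ^ 2 := by rw [hg2]; push_cast; ring
    rw [hg2']
    field_simp
    norm_num
  have q2' : ∀ m : ℕ, 0 < m → ((((dbl v 1 - dbl v 2) / (dbl v 0 - dbl v 2))) ^ m).im ≠ 0 := by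
    intro m hm h0
    apply q2 m hm
    have : (dbl v 0 - dbl v 2) / (dbl v 1 - dbl v 2) =
      ((dbl v 1 - dbl v 2) / (dbl v 0 - dbl v 2))⁻¹ := by rw [inv_div]
    rw [this, inv_pow, inv_im, h0]; simp
  have hu := dbl_conv hv
  intro p k q hkq hpk m hm
  have hpq : p ≠ q := by
    rintro rfl
    have hex : ∀ a b : Fin 3, ∃ l : Fin 3, l ≠ a ∧ l ≠ b := by decide
    obtain ⟨l, hl1, hl2⟩ := hex k p
    have h1 := hkq.2 l hl1 hl2
    have h2 := hpk.2 l hl2 hl1
    simp only [cr, sub_re, sub_im] at h1 h2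
    nlinarith
  have hkq' := hkq.1
  have hpk' := hpk.1
  fin_cases k <;> fin_cases p <;> fin_cases q <;>
    first
    | exact absurd rfl hpq
    | exact absurd rfl hkq'
    | exact absurd rfl hpk'
    | exact q0 m hm
    | exact q0' m hm
    | exact q1 m hm
    | exact q1' m hm
    | exact q2 m hm
    | exact q2' m hm

theorem row (hC : StCls) (hM : StMir) : StRight := by
  intro v hv hr hz
  have hu := dbl_conv hv
  refine trans_of_dbl hv hr ?_
  have hsg := dbl_sg hv hr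
  have hss : ∀ k, sg3 (sg3 k) = k := by decide
  have hcl : ∃ i j, ∀ k, k = i ∨ k = sg3 i ∨ k = j ∨ k = sg3 j := ⟨0, 1, by decide⟩
  have hn : (3 : ℕ) ≤ 3 := le_rfl
  rcases orient hv with ⟨-, -, -, -, -, d12, -⟩ | ⟨-, -, -, -, -, -, d21⟩
  · have hS := hM 3 hn (dbl v) hu (v 2 - v 0) (v 0) (hF hv) sg3 hsg 0 2 (by decide) (by
      intro i h0 h2
      have hi : i = 1 := by
        fin_cases i
        · exact absurd rfl h0
        · rfl
        · exact absurd rfl h2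
      rw [hi]
      exact next_unique d12 (nxt_side hn hu 1))
    exact hC 3 hn (dbl v) hu (irr_dbl hv hr hz) _ sg3 hS hss hcl
  · have hS := hM 3 hn (dbl v) hu (v 2 - v 0) (v 0) (hF hv) sg3 hsg 0 1 (by decide) (by
      intro i h0 h1
      have hi : i = 2 := by
        fin_cases i
        · exact absurd rfl h0
        · exact absurd rfl h1
        · rfl
      rw [hi]
      exact next_unique d21 (nxt_side hn hu 2))
    exact hC 3 hn (dbl v) hu (irr_dbl hv hr hz) _ sg3 hS hss hcl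

end Pool.Agent.Lib.BilD.Right98
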