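import Pool.Agent.Lib.MP_7bc51d_an_dense.Null40

set_option autoImplicit false

/-!
Row T: two disjoint nonempty open invariant sets leave out a vertex.
-/

namespace Pool.Agent.Lib.BilD.T57

open Complex MeasureTheory Set Filter Topology
open scoped ComplexConjugate
open Pool.Agent.Lib.Bil Pool.Agent.Lib.BTop Pool.Agent.Lib.BilD Pool.Agent.Lib.BilD.Null40

variable {n : ℕ} {v : Fin n → ℂ}

theorem not_null (hv : ConvexIndependent ℝ v) {L : Set (ℂ × ℝ)} (hL : XL v L)
    (ho : IsOpen L) (hne : L.Nonempty) (h : ∀ᵐ x, x ∈ PP v → qf (ind L) x = 0) : False := by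
  have h1 := ae_not hv hL ho.measurableSet h
  obtain ⟨l, hl⟩ := hne
  obtain ⟨hl0, x, hx, hxl⟩ := hL.sub hl
  have hopen : IsOpen (Ph v ∩ ln ⁻¹' L) :=
    GpAux.isOpen_Ph.inter (ho.preimage GpAux.continuous_ln)
  have hmem : ((x, l.1) : ℂ × ℂ) ∈ Ph v ∩ ln ⁻¹' L := by
    refine ⟨⟨hx, hl0⟩, ?_⟩
    change ln (x, l.1) ∈ L
    unfold ln
    simp only
    rw [hxl]
    exact hl
  have h2 := hopen.measure_pos volume ⟨_, hmem⟩
  have h3 : volume (Ph v ∩ ln ⁻¹' L) = 0 := by
    refine measure_mono_null ?_ (ae_iff.1 h1)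
    rintro p ⟨hp1, hp2⟩
    rw [mem_ofPred_eq]
    exact fun h4 => h4 hp1 hp2
  exact h2.ne' h3

theorem row (hV : StV) (hC : StCor) (hD : StDom) : StT := by
  intro n hn v hv U W hU hW hUo hWo hUn hWn hdis
  by_contra hcon
  push Not at hcon
  have hF := lfs_ind hv hU hUo.measurableSet
  have hdis' : ∀ p, p ∈ U → p ∉ W := fun p hp hp2 => Set.disjoint_left.1 hdis hp hp2
  have hk : ∀ k, (∀ᵐ w : ℂ, ∃ δ > 0, ∀ x ∈ PP v, ‖x - v k‖ < δ → ind U w (cr w x) = 0) ∨
      (∀ᵐ w : ℂ, ∃ δ > 0, ∀ x ∈ PP v, ‖x - v k‖ < δ → ind U w (cr w x) = 1) := by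
    intro k
    by_cases hkU : VX v U k
    · right
      filter_upwards [hC n hn v hv U hU hUo k hkU] with w ⟨δ, hδ, hw⟩
      exact ⟨δ, hδ, fun x hx hxk => ind_of_mem (hw x hx hxk)⟩
    · left
      have hkW : VX v W k := hcon k hkU
      filter_upwards [hC n hn v hv W hW hWo k hkW] with w ⟨δ, hδ, hw⟩
      exact ⟨δ, hδ, fun x hx hxk => ind_of_notMem (fun h => hdis' _ h (hw x hx hxk))⟩
  rcases hV n v hn hv _ hF (hD n hn v hv _ hF hk) with h | h
  · exact not_null hv hU hUo hUn h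
  · apply not_null hv hW hWo hWn
    filter_upwards [h] with x hx hxP
    have h1 := ae_one hF (hx hxP)
    unfold qf
    have h2 : ∫ w in BV, ind W w (cr w x) = 0 := by
      have hBm : MeasurableSet BV := Metric.isOpen_ball.measurableSet
      rw [← integral_zero ℂ ℝ (μ := volume.restrict BV)]
      apply integral_congr_ae
      rw [Filter.EventuallyEq, ae_restrict_iff' hBm]
      filter_upwards [h1] with w hw hwB
      have h3 : ‖w‖ < 1 := by simpa [BV] using hwB
      exact ind_of_notMem (hdis' _ (mem_of_ind (by rw [hw h3]; exact one_ne_zero)))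
    rw [h2, mul_zero]

end Pool.Agent.Lib.BilD.T57
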