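import Pool.Agent.Lib.MP_7bc51d_an_dense.DefsT

set_option autoImplicit false

/-!
Row TRA: transitivity for lines gives transitivity in the phase space.
-/

namespace Pool.Agent.Lib.BilD.Tra57

open Complex MeasureTheory Set Filter Topology
open scoped ComplexConjugate
open Pool.Agent.Lib.Bil Pool.Agent.Lib.BTop Pool.Agent.Lib.BTop.GpAux Pool.Agent.Lib.BilU
  Pool.Agent.Lib.BilD

variable {n : ℕ} {v : Fin n → ℂ}

theorem isOpen_LA {A : Set (ℂ × ℂ)} (hA : IsOpen (A ∩ Ph v)) : IsOpen (LA v A) := by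
  rw [isOpen_iff_mem_nhds]
  rintro l ⟨p, hp, hpA, rfl⟩
  have h1 : sec p.1 ⁻¹' (A ∩ Ph v) ∈ 𝓝 (ln p) := tendsto_sec hp.2 (hA.mem_nhds ⟨hpA, hp⟩)
  have h2 : {l : ℂ × ℝ | l.1 ≠ 0} ∈ 𝓝 (ln p) :=
    (isOpen_ne_fun continuous_fst continuous_const).mem_nhds hp.2
  filter_upwards [h1, h2] with l h3 h4
  exact ⟨sec p.1 l, h3.2, h3.1, ln_sec h4⟩

theorem row : StTra := by
  intro n hn v hv hirr hT
  obtain ⟨e1, e2, e3, e4, e5, e6, -⟩ := stmtE n hn v hv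
  obtain ⟨g1, g2, g3⟩ := stmtG stmtE n hn v hv
  obtain ⟨o1, o2, o3, o4, o5⟩ := orbit_closures hn hv hirr
  have hF := stmtF (stmtB stmtA stmtD) stmtC stmtD stmtV stmtE n hn v hv hirr
  obtain ⟨f1, -⟩ := hF
  have hfull : ∀ k, ∀ p ∈ Ph v, p ∈ interior (CP v k) → Ph v ⊆ CP v k := by
    intro k p hp hpi
    obtain ⟨c1, c2, -⟩ := f1 k
    have h1 : ln p ∈ interior (CC v k) := ln_interior hn hv stmtG' c2 hp hpi
    have hM : MM v ⊆ CC v k := by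
      intro q hq
      by_contra hqn
      have h2 : MM v \ CC v k = MM v \ closure (CC v k) := by
        ext z
        constructor
        · rintro ⟨z1, z2⟩
          exact ⟨z1, fun z3 => z2 (c2 ⟨z1, z3⟩)⟩
        · rintro ⟨z1, z2⟩
          exact ⟨z1, fun z3 => z2 (subset_closure z3)⟩
      have h3 : IsOpen (MM v \ CC v k) := by
        rw [h2]
        exact e2.sdiff isClosed_closure
      obtain ⟨z, hz1, hz2⟩ := hT _ _ (e5 _ c1) (e3 _ c1) isOpen_interior h3 ⟨_, h1⟩ ⟨q, hq, hqn⟩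
      exact hz2.2 (interior_subset hz1)
    intro q hq
    exact subset_closure ⟨hq, hM (ln_mem_MM hq)⟩
  refine ⟨?_, ?_, ?_⟩
  · intro A B hA hB hAo hBo hAn hBn
    obtain ⟨a1, a2⟩ := g1 A hA
    obtain ⟨b1, b2⟩ := g1 B hB
    have hA2 : (LA v A).Nonempty := by
      obtain ⟨p, hp1, hp2⟩ := hAn
      exact ⟨ln p, p, hp2, hp1, rfl⟩
    have hB2 : (LA v B).Nonempty := by
      obtain ⟨p, hp1, hp2⟩ := hBn
      exact ⟨ln p, p, hp2, hp1, rfl⟩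
    obtain ⟨l, hl1, hl2⟩ := hT _ _ a1 b1 (isOpen_LA hAo) (isOpen_LA hBo) hA2 hB2
    obtain ⟨p, hp1, hp2, rfl⟩ := hl1
    exact ⟨p, ⟨hp2, (b2 p hp1).2 hl2⟩, hp1⟩
  · obtain ⟨G, hG1, hG2, hG3⟩ := o4
    refine ⟨G, hG1, hG2, fun p hp hpP => ?_⟩
    obtain ⟨k, hk1, hk2⟩ := hG3 p hp hpP
    rw [hk1]
    exact hfull k p hpP hk2
  · obtain ⟨G, hG1, hG2, hG3⟩ := o4
    obtain ⟨x, hx⟩ := PP_nonempty hn hv
    have h1 : ((x, 1) : ℂ × ℂ) ∈ Ph v := ⟨hx, one_ne_zero⟩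
    obtain ⟨p, hp1, hp2⟩ := mem_closure_iff.1 (hG2 h1) _ isOpen_Ph h1
    obtain ⟨k, hk1, hk2⟩ := hG3 p hp2 hp1
    refine ⟨k, ?_⟩
    obtain ⟨-, -, -, q4⟩ := o1 k
    filter_upwards [q4] with y hy hyP
    rw [hy hyP]
    exact hfull k p hp1 hk2

end Pool.Agent.Lib.BilD.Tra57
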