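import Pool.Agent.Lib.MP_7bc51d_an_dense.V
import Pool.Agent.Lib.MP_7bc51d_an_dense.T57
import Pool.Agent.Lib.MP_7bc51d_an_dense.Cls57
import Pool.Agent.Lib.MP_7bc51d_an_dense.Par7
import Pool.Agent.Lib.MP_7bc51d_an_dense.Mir16
import Pool.Agent.Lib.MP_7bc51d_an_dense.Right98
import Pool.Agent.Lib.MP_7bc51d_an_dense.Four57
import Pool.Agent.Lib.MP_7bc51d_an_dense.Tra57
import Pool.Agent.Lib.MP_7bc51d_an_dense.Brd57

set_option autoImplicit false

/-!
Theorem T and its consequences: assembly.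
-/

namespace Pool.Agent.Lib.BilD

open Complex MeasureTheory Set Filter Topology
open Pool.Agent.Lib.Bil Pool.Agent.Lib.BTop

theorem rT : StT := T57.row rV cor57 DomNull85.dom

theorem rCls : StCls := Cls57.row rT

theorem rRight : StRight := Right98.row rCls Mir16.row

/-- Parallelograms. -/
theorem par_trans {v : Fin 4 → ℂ} (hv : ConvexIndependent ℝ v) (hp : v 0 + v 2 = v 1 + v 3)
    (hirr : Irr v) : TransP v :=
  Tra57.row 4 (by norm_num) v hv hirr (Trans57.trans_par rT Par7.row hv hp hirr)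

/-- Isosceles triangles. -/
theorem iso_trans {v : Fin 3 → ℂ} (hv : ConvexIndependent ℝ v) (h : ‖v 1 - v 0‖ = ‖v 2 - v 0‖)
    (hirr : Irr v) : TransP v :=
  Tra57.row 3 le_rfl v hv hirr (Trans57.trans_iso rT Mir16.row hv h hirr)

/-- Isosceles trapezoids. -/
theorem trap_trans {v : Fin 4 → ℂ} (hv : ConvexIndependent ℝ v) (hs : ∀ i, IsSide v i (i + 1))
    (hpar : cr (v 1 - v 0) (v 2 - v 3) = 0) (hd : ‖v 2 - v 0‖ = ‖v 3 - v 1‖) (hirr : Irr v) :
    TransP v :=
  Tra57.row 4 (by norm_num) v hv hirr (Trans57.trans_trap rT Mir16.row hv hs hpar hd hirr)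

/-- Right triangles. -/
theorem right_trans {v : Fin 3 → ℂ} (hv : ConvexIndependent ℝ v)
    (hr : ((v 1 - v 0) * (starRingEnd ℂ) (v 2 - v 0)).re = 0)
    (hirr : ∀ m : ℕ, 0 < m → (((v 0 - v 1) / (v 2 - v 1)) ^ m).im ≠ 0) : Trans57.TransQ v :=
  Trans57.transQ le_rfl hv (rRight v hv hr hirr)

/-- If all sets `CP v k` have interior points, they are everything. -/
theorem alt_CP {n : ℕ} {v : Fin n → ℂ} (hn : 3 ≤ n) (hv : ConvexIndependent ℝ v) (hirr : Irr v)
    (hint : ∀ k, (interior (CP v k)).Nonempty) : ∀ k, Ph v ⊆ CP v k := by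
  have hF := stmtF (stmtB stmtA stmtD) stmtC stmtD stmtV stmtE n hn v hv hirr
  obtain ⟨f1, -⟩ := hF
  have h1 : ∀ k, (interior (CC v k)).Nonempty := by
    intro k
    obtain ⟨p, hp⟩ := hint k
    have h2 : p ∈ closure (PA v (CC v k)) := interior_subset hp
    obtain ⟨q, hq1, hq2⟩ := mem_closure_iff.1 h2 _ isOpen_interior hp
    exact ⟨_, ln_interior hn hv stmtG' (f1 k).2.1 hq2.1 hq1⟩
  intro k p hp
  exact subset_closure ⟨hp, Trans57.alt rT hn hv hirr h1 k (GpAux.ln_mem_MM hp)⟩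

end Pool.Agent.Lib.BilD
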