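import Pool.Agent.Lib.MP_7bc51d_an_dense.Defs

/-!
Row AREA: the area of the polygon near a vertex.
-/

set_option autoImplicit false

namespace Pool.Agent.Lib.BilD.Area5

open Complex MeasureTheory Set Filter Topology
open scoped ComplexConjugate ENNReal
open Pool.Agent.Lib.Bil Pool.Agent.Lib.BilD

variable {n : ℕ} {v : Fin n → ℂ}

theorem homothety_PP {k : Fin n} {t : ℝ} (ht0 : 0 < t) (ht1 : t ≤ 1) :
    AffineMap.homothety (v k) t '' PP v ⊆ PP v := by
  rintro _ ⟨x, hx, rfl⟩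
  have hvk : v k ∈ KK v := subset_convexHull ℝ _ (mem_range_self k)
  have := convex_KK.combo_interior_self_mem_interior (x := x) (y := v k) hx hvk ht0
    (sub_nonneg.2 ht1) (by ring)
  have e : (AffineMap.homothety (v k) t) x = t • x + (1 - t) • v k := by
    rw [AffineMap.homothety_apply, vsub_eq_sub, vadd_eq_add, smul_sub, sub_smul, one_smul]
    ring
  rw [e]
  exact this

/-- AREA, one vertex. -/
theorem area (hn : 3 ≤ n) (hv : ConvexIndependent ℝ v) :
    ∃ c r1 : ℝ, 0 < c ∧ 0 < r1 ∧ ∀ k : Fin n, ∀ r : ℝ, 0 < r → r < r1 →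
      c * r ^ 2 ≤ (volume {x | x ∈ PP v ∧ ‖x - v k‖ < r}).toReal := by
  have hb : Bornology.IsBounded (KK v) := isCompact_KK.isBounded
  obtain ⟨D, hD, hDb⟩ := hb.subset_closedBall_lt 0 0
  have hpos : 0 < (volume (PP v)).toReal := by
    refine ENNReal.toReal_pos (isOpen_PP.measure_pos volume (PP_nonempty hn hv)).ne' ?_
    exact isBounded_PP.measure_lt_top.ne
  have hD3 : 0 < 3 * D := by positivity
  refine ⟨(volume (PP v)).toReal / (3 * D) ^ 2, 3 * D, by positivity, hD3, ?_⟩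
  intro k r hr hr1
  set t : ℝ := r / (3 * D) with ht
  have ht0 : 0 < t := by positivity
  have ht1 : t ≤ 1 := by rw [ht, div_le_one hD3]; exact hr1.le
  have hsub : AffineMap.homothety (v k) t '' PP v ⊆ {x | x ∈ PP v ∧ ‖x - v k‖ < r} := by
    rintro y hy
    refine ⟨homothety_PP ht0 ht1 hy, ?_⟩
    obtain ⟨x, hx, rfl⟩ := hy
    have e : (AffineMap.homothety (v k) t) x - v k = t • (x - v k) := by
      rw [AffineMap.homothety_apply, vsub_eq_sub, vadd_eq_add, add_sub_cancel_right]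
    rw [e, norm_smul, Real.norm_eq_abs, abs_of_pos ht0]
    have h1 : ‖x‖ ≤ D := mem_closedBall_zero_iff.1 (hDb (PP_sub_KK hx))
    have h2 : ‖v k‖ ≤ D :=
      mem_closedBall_zero_iff.1 (hDb (subset_convexHull ℝ _ (mem_range_self k)))
    have h3 : ‖x - v k‖ ≤ 2 * D := (norm_sub_le _ _).trans (by linarith)
    calc t * ‖x - v k‖ ≤ t * (2 * D) := by gcongr
      _ < t * (3 * D) := by
        apply mul_lt_mul_of_pos_left _ ht0
        linarith
      _ = r := by rw [ht]; field_simp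
  have hfin : volume {x | x ∈ PP v ∧ ‖x - v k‖ < r} ≠ ∞ :=
    ((measure_mono (fun x hx => hx.1)).trans_lt isBounded_PP.measure_lt_top).ne
  have h1 := ENNReal.toReal_mono hfin (measure_mono (μ := volume) hsub)
  refine le_trans (le_of_eq ?_) h1
  rw [Measure.addHaar_image_homothety, Complex.finrank_real_complex, ENNReal.toReal_mul,
    ENNReal.toReal_ofReal (abs_nonneg _), abs_of_pos (by positivity), ht]
  field_simp

/-- AREA, all vertices. -/
theorem area_Vr (hn : 3 ≤ n) (hv : ConvexIndependent ℝ v) :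
    ∃ c r1 : ℝ, 0 < c ∧ 0 < r1 ∧ ∀ r : ℝ, 0 < r → r < r1 →
      c * r ^ 2 ≤ (volume (Vr v r)).toReal := by
  obtain ⟨c, r1, hc, hr1, h⟩ := area hn hv
  refine ⟨c, r1, hc, hr1, fun r hr0 hr => ?_⟩
  refine (h ⟨0, by omega⟩ r hr0 hr).trans ?_
  apply ENNReal.toReal_mono
  · exact ((measure_mono (fun x hx => hx.1)).trans_lt (isBounded_PP (v := v)).measure_lt_top).ne
  · exact measure_mono (fun x hx => ⟨hx.1, _, hx.2⟩)

end Pool.Agent.Lib.BilD.Area5
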