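import Pool.Agent.Lib.MP_7bc51d_an_dense.Defs

set_option autoImplicit false

namespace Pool.Agent.Lib.BilD

open Complex MeasureTheory Set Filter Topology
open scoped ComplexConjugate
open Pool.Agent.Lib.Bil

variable {n : ℕ} {v : Fin n → ℂ} {F : ℂ → ℝ → ℝ} {C e0 ε : ℝ}

theorem meas_PP : MeasurableSet (PP v) := isOpen_PP.measurableSet

theorem cont_Rs (s : Fin n × Fin n) : Continuous (Rs v s) := continuous_RR v s.1 s.2

theorem isOpen_OO (s : Fin n × Fin n) : IsOpen (OO v s) := isOpen_PP.preimage (cont_Rs s)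

theorem meas_OO (s : Fin n × Fin n) : MeasurableSet (OO v s) := (isOpen_OO s).measurableSet

theorem gx_nonneg (hF : LFS v F) (x w : ℂ) : 0 ≤ gx v F x w := by
  unfold gx
  apply add_nonneg
  · exact indicator_nonneg (fun _ _ => hF.nn _ _) _
  · exact Finset.sum_nonneg (fun s _ => indicator_nonneg (fun _ _ => hF.nn _ _) _)

theorem gx_le (hF : LFS v F) (x w : ℂ) : gx v F x w ≤ (n : ℝ) ^ 2 + 1 := by
  have h1 : ∀ w Q, F w Q ≤ 1 := fun w Q => (le_abs_self _).trans (hF.lf.bd w Q)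
  unfold gx
  have h2 : ∀ (S : Set ℂ) (g : ℂ → ℝ), (∀ y, g y ≤ 1) → S.indicator g x ≤ 1 := by
    intro S g hg
    by_cases h : x ∈ S
    · rw [indicator_of_mem h]; exact hg x
    · rw [indicator_of_notMem h]; exact zero_le_one
  have h3 : ∑ s ∈ SD v, (OO v s).indicator
      (fun x => F (rl (ed v s) w) (cr (rl (ed v s) w) (Rs v s x))) x ≤ ∑ s ∈ SD v, (1 : ℝ) :=
    Finset.sum_le_sum (fun s _ => h2 _ _ (fun y => h1 _ _))
  have h4 : ∑ s ∈ SD v, (1 : ℝ) ≤ (n : ℝ) ^ 2 := by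
    rw [Finset.sum_const, nsmul_eq_mul, mul_one]
    have : (SD v).card ≤ n ^ 2 := by
      calc (SD v).card ≤ Fintype.card (Fin n × Fin n) := Finset.card_le_univ _
        _ = n ^ 2 := by simp [sq]
    exact_mod_cast this
  have h5 := h2 (PP v) (fun x => F w (cr w x)) (fun y => h1 _ _)
  linarith

theorem gx_meas (hF : LF F) : Measurable (fun p : ℂ × ℂ => gx v F p.1 p.2) := by
  have hcr : Measurable (fun p : ℂ × ℂ => cr p.1 p.2) := continuous_cr.measurable
  unfold gx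
  apply Measurable.add
  · have h1 : Measurable (fun p : ℂ × ℂ => F p.2 (cr p.2 p.1)) :=
      hF.meas.comp (measurable_snd.prodMk (hcr.comp (measurable_snd.prodMk measurable_fst)))
    exact h1.indicator (measurable_fst meas_PP)
  · apply Finset.measurable_fun_sum
    intro s _
    have h2 : Measurable (fun p : ℂ × ℂ => rl (ed v s) p.2) :=
      (continuous_rl (ed v s)).measurable.comp measurable_snd
    have h3 : Measurable (fun p : ℂ × ℂ => Rs v s p.1) := (cont_Rs s).measurable.comp measurable_fst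
    have h1 : Measurable (fun p : ℂ × ℂ => F (rl (ed v s) p.2) (cr (rl (ed v s) p.2) (Rs v s p.1))) :=
      hF.meas.comp (h2.prodMk (hcr.comp (h2.prodMk h3)))
    exact h1.indicator (measurable_fst (meas_OO s))

theorem gx_meas_w (hF : LF F) (x : ℂ) : Measurable (fun w : ℂ => gx v F x w) :=
  (gx_meas hF).comp (measurable_const.prodMk measurable_id)

theorem gx_meas_x (hF : LF F) (w : ℂ) : Measurable (fun x : ℂ => gx v F x w) :=
  (gx_meas hF).comp (measurable_id.prodMk measurable_const)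

/-- bounded support -/
theorem exists_bound (hn : ∀ s ∈ SD v, ed v s ≠ 0) :
    ∃ M : ℝ, 0 < M ∧ ∀ F : ℂ → ℝ → ℝ, ∀ x w : ℂ, gx v F x w ≠ 0 → ‖x‖ ≤ M := by
  obtain ⟨M0, hM0⟩ := (isBounded_PP (v := v)).exists_norm_le
  have hR : ∀ s ∈ SD v, ∀ x, ‖x‖ ≤ ‖Rs v s x‖ + 2 * ‖v s.1‖ := by
    intro s hs x
    have h1 : Rs v s x = v s.1 + rl (v s.2 - v s.1) (x - v s.1) := rfl
    have h2 : ‖rl (v s.2 - v s.1) (x - v s.1)‖ = ‖x - v s.1‖ := norm_rl (hn s hs) _
    have h3 : ‖rl (v s.2 - v s.1) (x - v s.1)‖ ≤ ‖Rs v s x‖ + ‖v s.1‖ := by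
      have : rl (v s.2 - v s.1) (x - v s.1) = Rs v s x - v s.1 := by rw [h1]; ring
      rw [this]
      exact norm_sub_le _ _
    have h4 : ‖x‖ ≤ ‖x - v s.1‖ + ‖v s.1‖ := by
      have := norm_add_le (x - v s.1) (v s.1)
      rwa [sub_add_cancel] at this
    linarith
  refine ⟨|M0| + 2 * ∑ k, ‖v k‖ + 1, by positivity, ?_⟩
  intro F x w hx
  have hk : ∀ k, ‖v k‖ ≤ ∑ k, ‖v k‖ := fun k =>
    Finset.single_le_sum (f := fun k => ‖v k‖) (fun i _ => norm_nonneg _) (Finset.mem_univ k)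
  have hsum : (0 : ℝ) ≤ ∑ k, ‖v k‖ := Finset.sum_nonneg (fun _ _ => norm_nonneg _)
  have h0 : x ∈ PP v ∨ ∃ s ∈ SD v, x ∈ OO v s := by
    by_contra hcon
    push Not at hcon
    apply hx
    unfold gx
    rw [indicator_of_notMem hcon.1, zero_add]
    apply Finset.sum_eq_zero
    intro s hs
    rw [indicator_of_notMem (hcon.2 s hs)]
  rcases h0 with h | ⟨s, hs, h⟩
  · have := hM0 x h
    have := le_abs_self M0
    linarith
  · have h1 := hM0 _ h
    have h2 := hR s hs x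
    have := le_abs_self M0
    have := hk s.1
    linarith

/-! ### modes -/

theorem em_meas (m : ℕ) : Measurable (em m) := by
  unfold em
  have h1 : Measurable (fun w : ℂ => ((‖w‖ : ℝ) : ℂ)) := measurable_ofReal.comp measurable_norm
  exact (((continuous_conj.measurable).div h1).pow_const m)

theorem em_norm (m : ℕ) (w : ℂ) : ‖em m w‖ ≤ 1 := by
  unfold em
  rw [norm_pow]
  apply pow_le_one₀ (norm_nonneg _)
  rw [norm_div, RCLike.norm_conj]
  have h2 : ‖((‖w‖ : ℝ) : ℂ)‖ = ‖w‖ := by simp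
  rw [h2]
  exact div_self_le_one _

theorem em_norm_eq (m : ℕ) {w : ℂ} (hw : w ≠ 0) : ‖em m w‖ = 1 := by
  unfold em
  have h1 : ‖w‖ ≠ 0 := by simpa using hw
  rw [norm_pow, norm_div, RCLike.norm_conj]
  have h2 : ‖((‖w‖ : ℝ) : ℂ)‖ = ‖w‖ := by simp
  rw [h2, div_self h1, one_pow]

theorem em_le (m : ℕ) {w : ℂ} (_ : w ∈ BV) : ‖em m w‖ ≤ 1 := em_norm m w

theorem vol_BV : (volume BV : ENNReal) < ⊤ := measure_ball_lt_top

theorem int_gx (hF : LFS v F) (x : ℂ) : IntegrableOn (fun w => gx v F x w) BV := by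
  apply intOn_ball (gx_meas_w hF.lf x) (C := (n : ℝ) ^ 2 + 1)
  intro w _
  rw [abs_of_nonneg (gx_nonneg hF x w)]
  exact gx_le hF x w

theorem am_bound (hF : LFS v F) (m : ℕ) (x : ℂ) :
    ‖am v F m x‖ ≤ ((n : ℝ) ^ 2 + 1) * (volume BV).toReal := by
  unfold am
  refine norm_setIntegral_le_of_norm_le_const vol_BV ?_
  intro w hw
  rw [norm_mul, norm_real, Real.norm_eq_abs, abs_of_nonneg (gx_nonneg hF x w)]
  calc gx v F x w * ‖em m w‖ ≤ ((n : ℝ) ^ 2 + 1) * 1 :=
        mul_le_mul (gx_le hF x w) (em_le m hw) (norm_nonneg _) (by positivity)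
    _ = _ := mul_one _

theorem am_meas (hF : LF F) (m : ℕ) : Measurable (am v F m) := by
  unfold am
  have h1 : Measurable (fun p : ℂ × ℂ => (gx v F p.1 p.2 : ℂ) * em m p.2) :=
    (measurable_ofReal.comp (gx_meas hF)).mul ((em_meas m).comp measurable_snd)
  have h2 : StronglyMeasurable
      (Function.uncurry (fun (x w : ℂ) => (gx v F x w : ℂ) * em m w)) := h1.stronglyMeasurable
  exact h2.integral_prod_right.measurable

theorem am_supp {M : ℝ} (hM : ∀ F : ℂ → ℝ → ℝ, ∀ x w : ℂ, gx v F x w ≠ 0 → ‖x‖ ≤ M)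
    (m : ℕ) {x : ℂ} (hx : M < ‖x‖) : am v F m x = 0 := by
  unfold am
  have : ∀ w, gx v F x w = 0 := by
    intro w
    by_contra hcon
    exact absurd (hM F x w hcon) (not_le.2 hx)
  simp [this]

/-! ### the bump -/

theorem et_contDiff (ε : ℝ) : ContDiff ℝ (⊤ : ℕ∞) (et ε) := by
  unfold et
  apply contDiff_const.mul
  apply Real.smoothTransition.contDiff.comp
  exact contDiff_const.sub ((contDiff_norm_sq ℝ).div_const _)

theorem et_nonneg (ε : ℝ) (h : ℂ) : 0 ≤ et ε h :=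
  mul_nonneg (by positivity) (Real.smoothTransition.nonneg _)

theorem et_le (ε : ℝ) (h : ℂ) : et ε h ≤ (ε ^ 2)⁻¹ := by
  unfold et
  calc (ε ^ 2)⁻¹ * _ ≤ (ε ^ 2)⁻¹ * 1 :=
        mul_le_mul_of_nonneg_left (Real.smoothTransition.le_one _) (by positivity)
    _ = _ := mul_one _

theorem et_zero (hε : 0 < ε) {h : ℂ} (hh : ε ≤ ‖h‖) : et ε h = 0 := by
  unfold et
  have h1 : 1 ≤ ‖h‖ ^ 2 / ε ^ 2 := by
    rw [le_div_iff₀ (by positivity), one_mul]
    exact pow_le_pow_left₀ hε.le hh 2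
  rw [Real.smoothTransition.zero_of_nonpos (by linarith), mul_zero]

theorem et_pos (hε : 0 < ε) {h : ℂ} (hh : ‖h‖ < ε) : 0 < et ε h := by
  unfold et
  have h1 : ‖h‖ ^ 2 / ε ^ 2 < 1 := by
    rw [div_lt_one (by positivity)]
    exact pow_lt_pow_left₀ hh (norm_nonneg _) two_ne_zero
  exact mul_pos (by positivity) (Real.smoothTransition.pos_of_pos (by linarith))

theorem et_supp (hε : 0 < ε) : Function.support (et ε) = Metric.ball 0 ε := by
  ext h
  rw [Function.mem_support, mem_ball_zero_iff]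
  constructor
  · intro h1
    by_contra hcon
    exact h1 (et_zero hε (not_lt.1 hcon))
  · intro h1
    exact (et_pos hε h1).ne'

theorem et_compact (hε : 0 < ε) : HasCompactSupport (et ε) := by
  rw [HasCompactSupport, tsupport, et_supp hε]
  exact (isCompact_closedBall (0 : ℂ) ε).of_isClosed_subset isClosed_closure
    (closure_minimal Metric.ball_subset_closedBall Metric.isClosed_closedBall)

theorem et_neg (ε : ℝ) (h : ℂ) : et ε (-h) = et ε h := by simp [et]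

theorem et_norm (ε : ℝ) {h h' : ℂ} (hh : ‖h‖ = ‖h'‖) : et ε h = et ε h' := by simp [et, hh]

/-- scaling -/
theorem et_scale (hε : 0 < ε) (h : ℂ) : et ε h = (ε ^ 2)⁻¹ * et 1 ((ε⁻¹ : ℝ) • h) := by
  unfold et
  rw [norm_smul]
  congr 2
  have : ‖(ε⁻¹ : ℝ)‖ = ε⁻¹ := by rw [Real.norm_eq_abs, abs_of_pos (inv_pos.2 hε)]
  rw [this]
  field_simp

theorem fderiv_et_scale (hε : 0 < ε) (h k : ℂ) :
    fderiv ℝ (et ε) h k = (ε ^ 3)⁻¹ * fderiv ℝ (et 1) ((ε⁻¹ : ℝ) • h) k := by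
  have h1 : et ε = fun h => (ε ^ 2)⁻¹ * et 1 ((ε⁻¹ : ℝ) • h) := funext (et_scale hε)
  have hd : Differentiable ℝ (et 1) := (et_contDiff 1).differentiable (by simp)
  have h2 : HasFDerivAt (fun h : ℂ => (ε⁻¹ : ℝ) • h) ((ε⁻¹ : ℝ) • (ContinuousLinearMap.id ℝ ℂ)) h :=
    ((ε⁻¹ : ℝ) • (ContinuousLinearMap.id ℝ ℂ)).hasFDerivAt
  have h3 := ((hd ((ε⁻¹ : ℝ) • h)).hasFDerivAt.comp h h2).const_mul ((ε ^ 2)⁻¹)
  have h4 : fderiv ℝ (et ε) h = ((ε ^ 2)⁻¹ : ℝ) • ((fderiv ℝ (et 1) ((ε⁻¹ : ℝ) • h)).comp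
      ((ε⁻¹ : ℝ) • (ContinuousLinearMap.id ℝ ℂ))) := by
    rw [h1]
    exact h3.fderiv
  rw [h4]
  simp only [ContinuousLinearMap.smul_apply, ContinuousLinearMap.comp_apply,
    ContinuousLinearMap.id_apply, map_smul, smul_eq_mul]
  field_simp

theorem exists_fderiv_et_bound : ∃ B : ℝ, 0 < B ∧ ∀ ε, 0 < ε → ∀ h k : ℂ,
    |fderiv ℝ (et ε) h k| ≤ B / ε ^ 3 * ‖k‖ := by
  have hc : Continuous (fderiv ℝ (et 1)) := (et_contDiff 1).continuous_fderiv (by simp)
  have hs : HasCompactSupport (fderiv ℝ (et 1)) := (et_compact one_pos).fderiv ℝ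
  obtain ⟨B, hB⟩ := hc.bounded_above_of_compact_support hs
  have hB0 : 0 ≤ B := (norm_nonneg _).trans (hB 0)
  refine ⟨B + 1, by linarith, ?_⟩
  intro ε hε h k
  rw [fderiv_et_scale hε, abs_mul, abs_of_pos (by positivity : (0 : ℝ) < (ε ^ 3)⁻¹)]
  have h1 : |fderiv ℝ (et 1) ((ε⁻¹ : ℝ) • h) k| ≤ B * ‖k‖ := by
    rw [← Real.norm_eq_abs]
    exact ((fderiv ℝ (et 1) ((ε⁻¹ : ℝ) • h)).le_opNorm k).trans
      (mul_le_mul_of_nonneg_right (hB _) (norm_nonneg _))
  calc (ε ^ 3)⁻¹ * |fderiv ℝ (et 1) ((ε⁻¹ : ℝ) • h) k| ≤ (ε ^ 3)⁻¹ * (B * ‖k‖) :=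
        mul_le_mul_of_nonneg_left h1 (by positivity)
    _ ≤ (ε ^ 3)⁻¹ * ((B + 1) * ‖k‖) := by
        apply mul_le_mul_of_nonneg_left _ (by positivity)
        exact mul_le_mul_of_nonneg_right (by linarith) (norm_nonneg _)
    _ = _ := by ring

theorem fderiv_et_zero (hε : 0 < ε) {h : ℂ} (hh : ε < ‖h‖) : fderiv ℝ (et ε) h = 0 := by
  have : (et ε) =ᶠ[𝓝 h] fun _ => 0 := by
    have hopen : IsOpen {y : ℂ | ε < ‖y‖} := isOpen_lt continuous_const continuous_norm
    filter_upwards [hopen.mem_nhds hh] with y hy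
    exact et_zero hε (le_of_lt hy)
  rw [this.fderiv_eq]
  simp

/-! ### means and mixtures -/

theorem vol_BV_pos : 0 < (volume BV).toReal :=
  ENNReal.toReal_pos (Metric.measure_ball_pos volume _ one_pos).ne' vol_BV.ne

theorem Hm_meas (hF : LF F) : Measurable (fun x => ∫ w in BV, F w (cr w x)) := by
  have hcr : Measurable (fun p : ℂ × ℂ => cr p.1 p.2) := continuous_cr.measurable
  have h1 : Measurable (fun p : ℂ × ℂ => F p.2 (cr p.2 p.1)) :=
    hF.meas.comp (measurable_snd.prodMk (hcr.comp (measurable_snd.prodMk measurable_fst)))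
  have h2 : StronglyMeasurable (Function.uncurry (fun (x w : ℂ) => F w (cr w x))) :=
    h1.stronglyMeasurable
  exact h2.integral_prod_right.measurable

theorem Hm_nonneg (hF : LFS v F) (x : ℂ) : 0 ≤ ∫ w in BV, F w (cr w x) :=
  integral_nonneg (fun _ => hF.nn _ _)

theorem Hm_le (hF : LFS v F) (x : ℂ) : ∫ w in BV, F w (cr w x) ≤ (volume BV).toReal := by
  have := norm_setIntegral_le_of_norm_le_const (μ := volume) (s := BV)
    (f := fun w => F w (cr w x)) (C := 1) vol_BV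
    (fun w _ => by rw [Real.norm_eq_abs]; exact hF.lf.bd _ _)
  rw [Real.norm_eq_abs, one_mul] at this
  exact (le_abs_self _).trans this

theorem qf_meas (hF : LF F) : Measurable (qf F) := (Hm_meas hF).const_mul _

theorem qf_nonneg (hF : LFS v F) (x : ℂ) : 0 ≤ qf F x :=
  mul_nonneg (by positivity) (Hm_nonneg hF x)

theorem qf_le (hF : LFS v F) (x : ℂ) : qf F x ≤ 1 := by
  unfold qf
  rw [inv_mul_le_iff₀ vol_BV_pos, mul_one]
  exact Hm_le hF x

theorem qd_meas (hF : LF F) : Measurable (qd F) :=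
  (qf_meas hF).mul (measurable_const.sub (qf_meas hF))

theorem qd_nonneg (hF : LFS v F) (x : ℂ) : 0 ≤ qd F x :=
  mul_nonneg (qf_nonneg hF x) (by linarith [qf_le hF x])

theorem qd_le_qf (hF : LFS v F) (x : ℂ) : qd F x ≤ qf F x := by
  unfold qd
  nlinarith [qf_nonneg hF x, qf_le hF x]

theorem qd_le (hF : LFS v F) (x : ℂ) : qd F x ≤ 1 := (qd_le_qf hF x).trans (qf_le hF x)

theorem qx_meas (hF : LF F) : Measurable (qx v F) := by
  unfold qx
  apply Measurable.add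
  · exact (qd_meas hF).indicator meas_PP
  · apply Finset.measurable_fun_sum
    intro s _
    exact ((qd_meas hF).comp (cont_Rs s).measurable).indicator (meas_OO s)

theorem qx_nonneg (hF : LFS v F) (x : ℂ) : 0 ≤ qx v F x := by
  unfold qx
  apply add_nonneg
  · exact indicator_nonneg (fun _ _ => qd_nonneg hF _) _
  · exact Finset.sum_nonneg (fun s _ => indicator_nonneg (fun _ _ => qd_nonneg hF _) _)

theorem qx_le (hF : LFS v F) (x : ℂ) : qx v F x ≤ (n : ℝ) ^ 2 + 1 := by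
  unfold qx
  have h2 : ∀ (S : Set ℂ) (g : ℂ → ℝ), (∀ y, g y ≤ 1) → S.indicator g x ≤ 1 := by
    intro S g hg
    by_cases h : x ∈ S
    · rw [indicator_of_mem h]; exact hg x
    · rw [indicator_of_notMem h]; exact zero_le_one
  have h3 : ∑ s ∈ SD v, (OO v s).indicator (fun y => qd F (Rs v s y)) x ≤
      ∑ s ∈ SD v, (1 : ℝ) :=
    Finset.sum_le_sum (fun s _ => h2 _ _ (fun y => qd_le hF _))
  have h4 : ∑ s ∈ SD v, (1 : ℝ) ≤ (n : ℝ) ^ 2 := by
    rw [Finset.sum_const, nsmul_eq_mul, mul_one]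
    have : (SD v).card ≤ n ^ 2 := by
      calc (SD v).card ≤ Fintype.card (Fin n × Fin n) := Finset.card_le_univ _
        _ = n ^ 2 := by simp [sq]
    exact_mod_cast this
  have h5 := h2 (PP v) (qd F) (fun y => qd_le hF _)
  linarith

theorem Nn_nonneg (hF : LFS v F) (ε : ℝ) (x : ℂ) : 0 ≤ Nn v F ε x := by
  unfold Nn
  exact mul_nonneg (by positivity) (integral_nonneg (fun y => qx_nonneg hF y))

theorem Nn_eq (ε : ℝ) (x : ℂ) : Nn v F ε x =
    (ε ^ 2)⁻¹ * ∫ y, ({p : ℂ × ℂ | ‖p.2 - p.1‖ < ε}.indicator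
      (fun p => qx v F p.2)) (x, y) := by
  unfold Nn
  congr 1
  rw [← integral_indicator measurableSet_ball]
  apply integral_congr_ae
  refine Eventually.of_forall (fun y => ?_)
  simp only [indicator, Metric.mem_ball, mem_ofPred_eq, dist_eq_norm]

theorem Nn_meas (hF : LF F) (ε : ℝ) : Measurable (Nn v F ε) := by
  have h0 : Nn v F ε = fun x => (ε ^ 2)⁻¹ * ∫ y, ({p : ℂ × ℂ | ‖p.2 - p.1‖ < ε}.indicator
      (fun p => qx v F p.2)) (x, y) := funext (Nn_eq ε)
  rw [h0]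
  apply Measurable.const_mul
  have hm : MeasurableSet {p : ℂ × ℂ | ‖p.2 - p.1‖ < ε} :=
    (isOpen_lt (by fun_prop) continuous_const).measurableSet
  have h1 : Measurable ({p : ℂ × ℂ | ‖p.2 - p.1‖ < ε}.indicator
      (fun p => qx v F p.2)) :=
    ((qx_meas hF).comp measurable_snd).indicator hm
  have h2 : StronglyMeasurable (Function.uncurry (fun (x y : ℂ) =>
    ({p : ℂ × ℂ | ‖p.2 - p.1‖ < ε}.indicator
      (fun p => qx v F p.2)) (x, y))) := h1.stronglyMeasurable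
  exact h2.integral_prod_right.measurable

theorem Nn_le (hF : LFS v F) (ε : ℝ) (x : ℂ) :
    Nn v F ε x ≤ (ε ^ 2)⁻¹ * (((n : ℝ) ^ 2 + 1) * (volume (Metric.ball x ε)).toReal) := by
  unfold Nn
  apply mul_le_mul_of_nonneg_left _ (by positivity)
  have := norm_setIntegral_le_of_norm_le_const (μ := volume) (s := Metric.ball x ε)
    (f := fun y => qx v F y) (C := ((n : ℝ) ^ 2 + 1))
    measure_ball_lt_top
    (fun y _ => by
      rw [Real.norm_eq_abs, abs_of_nonneg (qx_nonneg hF y)]; exact qx_le hF y)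
  rw [Real.norm_eq_abs] at this
  exact (le_abs_self _).trans this

theorem Nn_le' (hF : LFS v F) (ε : ℝ) : ∃ B : ℝ, 0 ≤ B ∧ ∀ x, Nn v F ε x ≤ B := by
  refine ⟨(ε ^ 2)⁻¹ * (((n : ℝ) ^ 2 + 1) * (volume (Metric.ball (0 : ℂ) ε)).toReal),
      by positivity, ?_⟩
  intro x
  have h := Nn_le hF ε x
  have h1 : volume (Metric.ball x ε) = volume (Metric.ball (0 : ℂ) ε) := by
    rw [Measure.addHaar_ball_center]
  rwa [h1] at h

theorem Nn_intOn (hF : LFS v F) (ε : ℝ) {Z : Set ℂ} (hZ : volume Z < ⊤) :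
    IntegrableOn (Nn v F ε) Z := by
  obtain ⟨B, hB0, hB⟩ := Nn_le' hF ε
  refine Measure.integrableOn_of_bounded (M := B) hZ.ne
    (Nn_meas hF.lf ε).aestronglyMeasurable ?_
  refine Eventually.of_forall (fun x => ?_)
  rw [Real.norm_eq_abs, abs_of_nonneg (Nn_nonneg hF ε x)]
  exact hB x

/-! ### mixture near the vertices -/

theorem Vr_eq (r : ℝ) : Vr v r = PP v ∩ ⋃ k, Metric.ball (v k) r := by
  ext x
  simp only [Vr, mem_ofPred_eq, mem_inter_iff, mem_iUnion, Metric.mem_ball, dist_eq_norm]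

theorem Vr_meas (r : ℝ) : MeasurableSet (Vr v r) := by
  rw [Vr_eq]
  exact meas_PP.inter (MeasurableSet.iUnion (fun k => measurableSet_ball))

theorem vol_PP_lt : volume (PP v) < ⊤ := (isBounded_PP (v := v)).measure_lt_top

theorem vol_Vr_lt (r : ℝ) : volume (Vr v r) < ⊤ :=
  (measure_mono (fun _ h => h.1)).trans_lt vol_PP_lt

theorem qf_intOn (hF : LFS v F) {Z : Set ℂ} (hZ : volume Z < ⊤) : IntegrableOn (qf F) Z := by
  refine Measure.integrableOn_of_bounded (M := 1) hZ.ne (qf_meas hF.lf).aestronglyMeasurable ?_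
  refine Eventually.of_forall (fun x => ?_)
  rw [Real.norm_eq_abs, abs_of_nonneg (qf_nonneg hF x)]
  exact qf_le hF x

theorem qd_intOn (hF : LFS v F) {Z : Set ℂ} (hZ : volume Z < ⊤) : IntegrableOn (qd F) Z := by
  refine Measure.integrableOn_of_bounded (M := 1) hZ.ne (qd_meas hF.lf).aestronglyMeasurable ?_
  refine Eventually.of_forall (fun x => ?_)
  rw [Real.norm_eq_abs, abs_of_nonneg (qd_nonneg hF x)]
  exact qd_le hF x

theorem qx_intOn (hF : LFS v F) {Z : Set ℂ} (hZ : volume Z < ⊤) : IntegrableOn (qx v F) Z := by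
  refine Measure.integrableOn_of_bounded (M := (n : ℝ) ^ 2 + 1) hZ.ne
    (qx_meas hF.lf).aestronglyMeasurable ?_
  refine Eventually.of_forall (fun x => ?_)
  rw [Real.norm_eq_abs, abs_of_nonneg (qx_nonneg hF x)]
  exact qx_le hF x

theorem Mm_nonneg (hF : LFS v F) (r : ℝ) : 0 ≤ Mm v F r :=
  integral_nonneg (fun x => qd_nonneg hF x)

theorem Mm_mono (hF : LFS v F) {r r' : ℝ} (h : r ≤ r') : Mm v F r ≤ Mm v F r' := by
  unfold Mm
  apply setIntegral_mono_set (qd_intOn hF (vol_Vr_lt r'))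
  · exact Eventually.of_forall (fun x => qd_nonneg hF x)
  · apply LE.le.eventuallyLE
    intro x hx
    obtain ⟨h1, k, hk⟩ := hx
    exact ⟨h1, k, hk.trans_le h⟩

end Pool.Agent.Lib.BilD
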