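import Pool.Agent.Lib.MP_7bc51d_an_dense.Defs

/-!
Row REFL: reflection of the mollified modes at a side.
-/

set_option autoImplicit false

namespace Pool.Agent.Lib.BilD.Refl5

open Complex MeasureTheory Set Filter Topology
open scoped ComplexConjugate
open Pool.Agent.Lib.Bil Pool.Agent.Lib.BilD

variable {n : ℕ} {v : Fin n → ℂ}

theorem Rs_def (s : Fin n × Fin n) (x : ℂ) : Rs v s x = v s.1 + rl (ed v s) (x - v s.1) := rfl

theorem Rs_Rs {s : Fin n × Fin n} (h : ed v s ≠ 0) (x : ℂ) : Rs v s (Rs v s x) = x :=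
  RR_RR v h x

theorem mp_Rs {s : Fin n × Fin n} (h : ed v s ≠ 0) :
    MeasurePreserving (Rs v s) volume volume := mp_RR h

theorem norm_Rs_sub {s : Fin n × Fin n} (h : ed v s ≠ 0) (x y : ℂ) :
    ‖Rs v s x - Rs v s y‖ = ‖x - y‖ := by
  rw [Rs_def, Rs_def]
  have : v s.1 + rl (ed v s) (x - v s.1) - (v s.1 + rl (ed v s) (y - v s.1)) =
      rl (ed v s) (x - y) := by
    rw [add_sub_add_left_eq_sub, ← rl_sub]; congr 1; ring
  rw [this, norm_rl h]

theorem ds_sub_le {s : Fin n × Fin n} (x y : ℂ) : |ds v s x - ds v s y| ≤ ‖x - y‖ := by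
  unfold ds
  by_cases h : ed v s = 0
  · rw [h, cr_zero_left, cr_zero_left]; simp
  have hn : 0 < ‖ed v s‖ := norm_pos_iff.2 h
  rw [← sub_div, ← cr_sub_right, sub_sub_sub_cancel_right, abs_div, abs_norm,
    div_le_iff₀ hn]
  rw [cr_eq_im]
  calc |(conj (ed v s) * (x - y)).im| ≤ ‖conj (ed v s) * (x - y)‖ := abs_im_le_norm _
    _ = ‖x - y‖ * ‖ed v s‖ := by rw [norm_mul, RCLike.norm_conj, mul_comm]

theorem ds_Rs {s : Fin n × Fin n} (h : ed v s ≠ 0) (x : ℂ) : ds v s (Rs v s x) = - ds v s x := by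
  unfold ds
  rw [Rs_def, add_sub_cancel_left, ← neg_div]
  congr 1
  have := cr_rl h (ed v s) (x - v s.1)
  rwa [rl_self h] at this

theorem sub_Rs {s : Fin n × Fin n} (h : ed v s ≠ 0) (x : ℂ) :
    ‖x - Rs v s x‖ = 2 * |ds v s x| := by
  have hn : 0 < ‖ed v s‖ := norm_pos_iff.2 h
  have hc : conj (ed v s) ≠ 0 := by simpa using h
  rw [Rs_def]
  set e := ed v s with he
  set z := x - v s.1 with hz
  have e1 : x - (v s.1 + rl e z) = z - rl e z := by rw [hz]; ring
  have e2 : z - rl e z = (2 * ((cr e z : ℝ) : ℂ) * I) / conj e := by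
    rw [cr_eq_im, rl]
    have h3 : ((2 * (conj e * z).im : ℝ) : ℂ) * I = conj e * z - conj (conj e * z) := by
      rw [Complex.sub_conj]
    push_cast at h3
    rw [h3, map_mul, conj_conj]
    field_simp
  rw [e1, e2, norm_div, norm_mul, norm_mul, norm_I, mul_one, norm_real, RCLike.norm_conj,
    Real.norm_eq_abs]
  unfold ds
  rw [abs_div, abs_norm, ← hz, ← he]
  rw [Complex.norm_ofNat]
  ring

/-- Formula for the extended function near a side. -/
theorem gx_near {C e0 : ℝ} (G : Geo v C e0) {F : ℂ → ℝ → ℝ} {s : Fin n × Fin n} (hs : s ∈ SD v)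
    {y w : ℂ} (h1 : ∀ t ∈ SD v, t ≠ s → 0 < ds v t y)
    (h2 : ∀ t ∈ SD v, t ≠ s → 0 < ds v t (Rs v s y)) :
    gx v F y w = (if 0 < ds v s y then F w (cr w y) else 0) +
      (if ds v s y < 0 then F (rl (ed v s) w) (cr (rl (ed v s) w) (Rs v s y)) else 0) := by
  have hP : y ∈ PP v ↔ 0 < ds v s y := by
    rw [G.pp]
    constructor
    · intro h; exact h s hs
    · intro h t ht
      by_cases hts : t = s
      · rw [hts]; exact h
      · exact h1 t ht hts
  have hO : y ∈ OO v s ↔ ds v s y < 0 := by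
    unfold OO
    rw [mem_ofPred_eq, G.pp]
    constructor
    · intro h
      have := h s hs
      rw [ds_Rs (G.edn s hs)] at this
      linarith
    · intro h t ht
      by_cases hts : t = s
      · rw [hts, ds_Rs (G.edn s hs)]; linarith
      · exact h2 t ht hts
  have hO' : ∀ t ∈ SD v, t ≠ s → y ∉ OO v t := by
    intro t ht hts h
    unfold OO at h
    rw [mem_ofPred_eq, G.pp] at h
    have := h t ht
    rw [ds_Rs (G.edn t ht)] at this
    have := h1 t ht hts
    linarith
  unfold gx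
  congr 1
  · by_cases h : 0 < ds v s y
    · rw [indicator_of_mem (hP.2 h), if_pos h]
    · rw [indicator_of_notMem (fun h3 => h (hP.1 h3)), if_neg h]
  · rw [Finset.sum_eq_single s]
    · by_cases h : ds v s y < 0
      · rw [indicator_of_mem (hO.2 h), if_pos h]
      · rw [indicator_of_notMem (fun h3 => h (hO.1 h3)), if_neg h]
    · intro t ht hts
      rw [indicator_of_notMem (hO' t ht hts)]
    · intro h; exact absurd hs h

/-- The extended function is symmetric near a side. -/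
theorem gx_refl {C e0 : ℝ} (G : Geo v C e0) {F : ℂ → ℝ → ℝ} {s : Fin n × Fin n} (hs : s ∈ SD v)
    {y w : ℂ} (h1 : ∀ t ∈ SD v, t ≠ s → 0 < ds v t y)
    (h2 : ∀ t ∈ SD v, t ≠ s → 0 < ds v t (Rs v s y)) :
    gx v F (Rs v s y) (rl (ed v s) w) = gx v F y w := by
  have he := G.edn s hs
  rw [gx_near G hs h1 h2, gx_near G hs h2 (by rw [Rs_Rs he]; exact h1), ds_Rs he, Rs_Rs he,
    rl_rl he, add_comm]
  congr 1
  · by_cases h : 0 < ds v s y
    · rw [if_pos h, if_pos (by linarith)]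
    · rw [if_neg h, if_neg (by intro h3; apply h; linarith)]
  · by_cases h : ds v s y < 0
    · rw [if_pos h, if_pos (by linarith)]
    · rw [if_neg h, if_neg (by intro h3; apply h; linarith)]

theorem Nr_ball {C e0 ε : ℝ} (G : Geo v C e0) (hε : 0 < ε) {s : Fin n × Fin n} (hs : s ∈ SD v)
    {x : ℂ} (hx : x ∈ Nr v ε s) {y : ℂ} (hy : ‖x - y‖ < ε) :
    (∀ t ∈ SD v, t ≠ s → 0 < ds v t y) ∧ (∀ t ∈ SD v, t ≠ s → 0 < ds v t (Rs v s y)) := by
  have key : ∀ t ∈ SD v, t ≠ s → 8 * ε < ds v t y := by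
    intro t ht hts
    have h1 := hx.2 t ht hts
    have h2 := (abs_le.1 (ds_sub_le (v := v) (s := t) x y)).2
    linarith
  refine ⟨fun t ht hts => by have := key t ht hts; linarith, fun t ht hts => ?_⟩
  have h1 := key t ht hts
  have h2 := (abs_le.1 (ds_sub_le (v := v) (s := t) y (Rs v s y))).2
  have h3 := sub_Rs (G.edn s hs) y
  have h4 : |ds v s y| < 3 * ε := by
    have h5 := ds_sub_le (v := v) (s := s) x y
    have h6 := hx.1
    rw [abs_le] at h5
    rw [abs_lt] at h6 ⊢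
    constructor <;> linarith
  linarith

theorem em_rl {e : ℂ} (he : e ≠ 0) (m : ℕ) (w : ℂ) :
    em m (rl e w) = (conj e / e) ^ m * conj (em m w) := by
  unfold em
  rw [norm_rl he]
  have h1 : conj (rl e w) = conj e / e * w := by
    simp only [rl, map_mul, map_div₀, conj_conj]
  rw [h1, map_pow, map_div₀, conj_conj, conj_ofReal, mul_div_assoc, mul_pow]

theorem am_refl {C e0 : ℝ} (G : Geo v C e0) {F : ℂ → ℝ → ℝ} {s : Fin n × Fin n} (hs : s ∈ SD v)
    {y : ℂ} (h1 : ∀ t ∈ SD v, t ≠ s → 0 < ds v t y)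
    (h2 : ∀ t ∈ SD v, t ≠ s → 0 < ds v t (Rs v s y)) (m : ℕ) :
    am v F m (Rs v s y) = (conj (ed v s) / ed v s) ^ m * conj (am v F m y) := by
  have he := G.edn s hs
  unfold am
  have e1 := (mp_rl_BV he).integral_comp (rl_emb he)
    (fun w => (gx v F (Rs v s y) w : ℂ) * em m w)
  rw [← e1]
  have e2 : ∀ w, (gx v F (Rs v s y) (rl (ed v s) w) : ℂ) * em m (rl (ed v s) w) =
      (conj (ed v s) / ed v s) ^ m * conj ((gx v F y w : ℂ) * em m w) := by
    intro w
    rw [gx_refl G hs h1 h2, em_rl he, map_mul, conj_ofReal]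
    ring
  simp_rw [e2]
  rw [integral_const_mul, integral_conj]

theorem et_zero {ε : ℝ} (hε : 0 < ε) {h : ℂ} (hh : ε ≤ ‖h‖) : et ε h = 0 := by
  unfold et
  have h1 : 1 ≤ ‖h‖ ^ 2 / ε ^ 2 := by
    rw [one_le_div (by positivity)]
    exact pow_le_pow_left₀ hε.le hh 2
  rw [Real.smoothTransition.zero_of_nonpos (by linarith), mul_zero]

theorem et_norm {ε : ℝ} {h h' : ℂ} (hh : ‖h‖ = ‖h'‖) : et ε h = et ε h' := by
  unfold et
  rw [hh]

theorem row : StRefl := by
  intro n v C e0 G F hF ε hε hε0 s hs x hx m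
  have he := G.edn s hs
  unfold um
  have hemb : MeasurableEmbedding (Rs v s) := by
    have hc : Continuous (Rs v s) := by
      have : Rs v s = fun x => v s.1 + rl (ed v s) (x - v s.1) := rfl
      rw [this]
      exact continuous_const.add ((continuous_rl _).comp (continuous_id.sub continuous_const))
    let E : ℂ ≃ₜ ℂ :=
      { toFun := Rs v s, invFun := Rs v s, left_inv := Rs_Rs he, right_inv := Rs_Rs he
        continuous_toFun := hc, continuous_invFun := hc }
    exact E.measurableEmbedding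
  have e1 := (mp_Rs he).integral_comp hemb
    (fun y => (et ε (Rs v s x - y) : ℂ) * am v F m y)
  rw [← e1]
  have e2 : ∀ y, (et ε (Rs v s x - Rs v s y) : ℂ) * am v F m (Rs v s y) =
      (conj (ed v s) / ed v s) ^ m * conj ((et ε (x - y) : ℂ) * am v F m y) := by
    intro y
    rw [et_norm (norm_Rs_sub he x y), map_mul, conj_ofReal]
    by_cases hy : ‖x - y‖ < ε
    · obtain ⟨h1, h2⟩ := Nr_ball G hε hs hx hy
      rw [am_refl G hs h1 h2]
      ring
    · rw [et_zero hε (not_lt.1 hy)]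
      simp
  simp_rw [e2]
  rw [integral_const_mul, integral_conj]

end Pool.Agent.Lib.BilD.Refl5
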