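import Pool.Agent.Lib.MP_7bc51d_an_mode.Ladder
import Pool.Agent.Lib.MP_7bc51d_an_dense.Basic
import Pool.Agent.Lib.MP_7bc51d_an_dense.Refl5

set_option autoImplicit false

/-!
Row BES: Bessel's inequality for the angular harmonics on the unit disc of velocities, and the
Bessel inequalities for the mollified modes.
-/

namespace Pool.Agent.Lib.BilD.Bes85

open Complex MeasureTheory Set Filter
open scoped ComplexConjugate Topology ENNReal
open Pool.Agent.Lib.Bil Pool.Agent.Lib.BilH Pool.Agent.Lib.BilD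

/-- Angular harmonics. -/
noncomputable def ps (k : ℕ) (w : ℂ) : ℂ := (conj w / (‖w‖ : ℂ)) ^ k

theorem measurable_ps (k : ℕ) : Measurable (ps k) := by
  unfold ps
  have h1 : Measurable (fun w : ℂ => conj w) := continuous_conj.measurable
  have h2 : Measurable (fun w : ℂ => ((‖w‖ : ℝ) : ℂ)) :=
    Complex.measurable_ofReal.comp measurable_norm
  exact (h1.div h2).pow_const k

theorem norm_ps {w : ℂ} (hw : w ≠ 0) (k : ℕ) : ‖ps k w‖ = 1 := by
  unfold ps
  rw [norm_pow, norm_div, RCLike.norm_conj, norm_real, norm_norm,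
    div_self (norm_ne_zero_iff.2 hw), one_pow]

theorem norm_ps_le (k : ℕ) (w : ℂ) : ‖ps k w‖ ≤ 1 := by
  rcases eq_or_ne w 0 with rfl | hw
  · unfold ps
    rw [map_zero, zero_div, norm_pow, norm_zero]
    exact pow_le_one₀ le_rfl zero_le_one
  · exact (norm_ps hw k).le

theorem ps_zero (w : ℂ) : ps 0 w = 1 := by unfold ps; rw [pow_zero]

theorem ps_rot (k : ℕ) {u : ℂ} (hu : ‖u‖ = 1) (w : ℂ) : ps k (u * w) = conj u ^ k * ps k w := by
  unfold ps
  rw [norm_mul, hu, one_mul, map_mul, mul_div_assoc, mul_pow]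

theorem ps_mul_conj {k l : ℕ} (hkl : l ≤ k) {w : ℂ} (hw : w ≠ 0) :
    ps k w * conj (ps l w) = ps (k - l) w := by
  obtain ⟨m, rfl⟩ := Nat.exists_eq_add_of_le hkl
  have h1 : ps (l + m) w = ps m w * ps l w := by
    unfold ps
    rw [pow_add, mul_comm]
  have h2 : ps l w * conj (ps l w) = 1 := by
    rw [mul_conj, normSq_eq_norm_sq, norm_ps hw, one_pow, ofReal_one]
  rw [h1, mul_assoc, h2, mul_one, Nat.add_sub_cancel_left]

theorem preimage_rot_BV {u : ℂ} (hu : ‖u‖ = 1) : (fun w : ℂ => u * w) ⁻¹' BV = BV := by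
  ext w
  simp only [mem_preimage, Metric.mem_ball, dist_zero_right, norm_mul, hu, one_mul]

theorem int_ps {m : ℕ} (hm : m ≠ 0) : ∫ w in BV, ps m w = 0 := by
  set u : ℂ := cexp (((Real.pi / m : ℝ) : ℂ) * I) with hu
  have hu1 : ‖u‖ = 1 := norm_exp_ofReal_mul_I _
  have hum : conj u ^ m = -1 := by
    rw [← map_pow, hu, ← Complex.exp_nat_mul]
    have hm' : (m : ℂ) ≠ 0 := by exact_mod_cast hm
    have e : (m : ℂ) * (((Real.pi / m : ℝ) : ℂ) * I) = Real.pi * I := by
      push_cast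
      field_simp
    rw [e, exp_pi_mul_I, map_neg, map_one]
  have h1 : ∫ w in BV, ps m (u * w) = ∫ w in BV, ps m w := by
    have h2 := (mp_mul hu1).setIntegral_preimage_emb
      (mulEquiv u hu1).toHomeomorph.measurableEmbedding (ps m) BV
    rwa [preimage_rot_BV hu1] at h2
  have h3 : ∫ w in BV, ps m (u * w) = - ∫ w in BV, ps m w := by
    have e : ∀ w : ℂ, ps m (u * w) = - ps m w := by
      intro w
      rw [ps_rot m hu1, hum]; ring
    simp_rw [e]
    rw [integral_neg]
  have h4 : ∫ w in BV, ps m w = - ∫ w in BV, ps m w := h1.symm.trans h3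
  have h5 : (2 : ℂ) * ∫ w in BV, ps m w = 0 := by linear_combination h4
  exact (mul_eq_zero.1 h5).resolve_left two_ne_zero

theorem ae_ne_zero : ∀ᵐ w : ℂ ∂(volume.restrict BV), w ≠ 0 := by
  apply ae_restrict_of_ae
  simp [ae_iff, measure_singleton]

theorem int_ps_conj (k l : ℕ) : ∫ w in BV, ps k w * conj (ps l w) =
    if k = l then (Real.pi : ℂ) else 0 := by
  have key : ∀ {k l : ℕ}, l ≤ k → ∫ w in BV, ps k w * conj (ps l w) =
      if k = l then (Real.pi : ℂ) else 0 := by
    intro k l hkl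
    have h1 : ∫ w in BV, ps k w * conj (ps l w) = ∫ w in BV, ps (k - l) w := by
      apply integral_congr_ae
      filter_upwards [ae_ne_zero] with w hw
      exact ps_mul_conj hkl hw
    rw [h1]
    split_ifs with h
    · rw [h, Nat.sub_self]
      simp_rw [ps_zero]
      rw [setIntegral_const]
      simp [Measure.real, Complex.volume_ball]
    · exact int_ps (by omega)
  rcases le_total l k with h | h
  · exact key h
  · have h1 := key h
    have h2 : ∫ w in BV, ps k w * conj (ps l w) = conj (∫ w in BV, ps l w * conj (ps k w)) := by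
      rw [← integral_conj]
      apply integral_congr_ae
      refine Eventually.of_forall (fun w => ?_)
      simp only [map_mul, conj_conj]
      ring
    rw [h2, h1]
    split_ifs with h3 h4 h4
    · rw [conj_ofReal]
    · exact absurd h3.symm h4
    · exact absurd h4.symm h3
    · rw [map_zero]

/-- Bessel's inequality. -/
theorem bessel {g : ℂ → ℝ} (hg : Measurable g) {B : ℝ} (hb : ∀ w ∈ BV, |g w| ≤ B)
    (S : Finset ℕ) :
    ∑ k ∈ S, ‖∫ w in BV, ((g w : ℝ) : ℂ) * ps k w‖ ^ 2 ≤ Real.pi * ∫ w in BV, g w ^ 2 := by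
  set c : ℕ → ℂ := fun k => ∫ w in BV, ((g w : ℝ) : ℂ) * ps k w with hc
  have hgc : Measurable (fun w => ((g w : ℝ) : ℂ)) := Complex.measurable_ofReal.comp hg
  have hgps : ∀ k, IntegrableOn (fun w => ((g w : ℝ) : ℂ) * ps k w) BV := by
    intro k
    refine cintOn_ball (hgc.mul (measurable_ps k)) (C := B) (fun w hw => ?_)
    rw [norm_mul, norm_real, Real.norm_eq_abs]
    calc |g w| * ‖ps k w‖ ≤ B * 1 :=
          mul_le_mul (hb w hw) (norm_ps_le k w) (norm_nonneg _) ((abs_nonneg _).trans (hb w hw))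
      _ = B := mul_one B
  have hpp : ∀ k l, IntegrableOn (fun w => ps k w * conj (ps l w)) BV := by
    intro k l
    refine cintOn_ball ((measurable_ps k).mul (continuous_conj.measurable.comp (measurable_ps l)))
      (C := 1) (fun w _ => ?_)
    rw [norm_mul, RCLike.norm_conj]
    calc _ ≤ (1 : ℝ) * 1 := mul_le_mul (norm_ps_le k w) (norm_ps_le l w) (norm_nonneg _) one_pos.le
      _ = 1 := one_mul 1
  set T : ℂ → ℂ := fun w => ∑ k ∈ S, c k * conj (ps k w) with hT
  have hpi : (0 : ℝ) < Real.pi := Real.pi_pos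
  -- the three integrals
  have i1 : ∫ w in BV, ((g w : ℝ) : ℂ) * conj (T w) = ((∑ k ∈ S, ‖c k‖ ^ 2 : ℝ) : ℂ) := by
    have e : ∀ w, ((g w : ℝ) : ℂ) * conj (T w) =
        ∑ k ∈ S, conj (c k) * (((g w : ℝ) : ℂ) * ps k w) := by
      intro w
      simp only [hT, map_sum, map_mul, conj_conj, Finset.mul_sum]
      refine Finset.sum_congr rfl (fun k _ => ?_)
      ring
    simp_rw [e]
    rw [integral_finsetSum _ (fun k _ => (hgps k).const_mul _)]
    push_cast
    refine Finset.sum_congr rfl (fun k _ => ?_)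
    rw [integral_const_mul]
    show conj (c k) * c k = _
    rw [mul_comm, mul_conj, normSq_eq_norm_sq]
    push_cast
    rfl
  have i2 : ∫ w in BV, T w * conj (T w) = ((Real.pi * ∑ k ∈ S, ‖c k‖ ^ 2 : ℝ) : ℂ) := by
    have e : ∀ w, T w * conj (T w) =
        ∑ k ∈ S, ∑ l ∈ S, (c k * conj (c l)) * (ps l w * conj (ps k w)) := by
      intro w
      simp only [hT, map_sum, map_mul, conj_conj]
      rw [Finset.sum_mul_sum]
      refine Finset.sum_congr rfl (fun k _ => Finset.sum_congr rfl (fun l _ => ?_))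
      ring
    simp_rw [e]
    rw [integral_finsetSum _ (fun k _ => integrable_finsetSum _
      (fun l _ => (hpp l k).const_mul _))]
    push_cast
    rw [Finset.mul_sum]
    refine Finset.sum_congr rfl (fun k hk => ?_)
    rw [integral_finsetSum _ (fun l _ => (hpp l k).const_mul _)]
    simp_rw [integral_const_mul, int_ps_conj]
    rw [Finset.sum_eq_single k]
    · rw [if_pos rfl, mul_conj, normSq_eq_norm_sq]
      push_cast
      ring
    · intro l _ hl
      rw [if_neg hl, mul_zero]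
    · intro h; exact absurd hk h
  have hTm : Measurable T := by
    apply Finset.measurable_fun_sum
    intro k _
    exact measurable_const.mul (continuous_conj.measurable.comp (measurable_ps k))
  have hTb : ∀ w, ‖T w‖ ≤ ∑ k ∈ S, ‖c k‖ := by
    intro w
    refine (norm_sum_le _ _).trans (Finset.sum_le_sum (fun k _ => ?_))
    rw [norm_mul, RCLike.norm_conj]
    calc _ ≤ ‖c k‖ * 1 := mul_le_mul_of_nonneg_left (norm_ps_le k w) (norm_nonneg _)
      _ = _ := mul_one _
  -- positivity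
  have hpos : 0 ≤ ∫ w in BV, ‖((g w : ℝ) : ℂ) - ((Real.pi⁻¹ : ℝ) : ℂ) * T w‖ ^ 2 :=
    integral_nonneg (fun w => by positivity)
  have hB0 : ∀ w ∈ BV, 0 ≤ B := fun w hw => (abs_nonneg _).trans (hb w hw)
  have hi1 : IntegrableOn (fun w => g w ^ 2) BV := by
    refine intOn_ball (hg.pow_const 2) (C := B ^ 2) (fun w hw => ?_)
    rw [abs_of_nonneg (by positivity), ← sq_abs]
    have := hb w hw
    gcongr
  have hi2 : IntegrableOn (fun w => (((g w : ℝ) : ℂ) * conj (T w)).re) BV := by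
    refine intOn_ball (measurable_re.comp
      (hgc.mul (continuous_conj.measurable.comp hTm))) (C := B * ∑ k ∈ S, ‖c k‖) (fun w hw => ?_)
    refine (abs_re_le_norm _).trans ?_
    rw [norm_mul, norm_real, Real.norm_eq_abs, RCLike.norm_conj]
    exact mul_le_mul (hb w hw) (hTb w) (norm_nonneg _) (hB0 w hw)
  have hi3 : IntegrableOn (fun w => ‖T w‖ ^ 2) BV := by
    refine intOn_ball (hTm.norm.pow_const 2) (C := (∑ k ∈ S, ‖c k‖) ^ 2) (fun w _ => ?_)
    rw [abs_of_nonneg (by positivity)]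
    have := hTb w
    gcongr
  have e2 : ∀ w, ‖((g w : ℝ) : ℂ) - ((Real.pi⁻¹ : ℝ) : ℂ) * T w‖ ^ 2 =
      g w ^ 2 - 2 * Real.pi⁻¹ * (((g w : ℝ) : ℂ) * conj (T w)).re +
        Real.pi⁻¹ ^ 2 * ‖T w‖ ^ 2 := by
    intro w
    rw [← normSq_eq_norm_sq, ← normSq_eq_norm_sq, normSq_apply, normSq_apply]
    simp only [sub_re, sub_im, ofReal_re, ofReal_im, re_ofReal_mul, im_ofReal_mul, conj_re]
    ring
  simp_rw [e2] at hpos
  have e6 : ∫ w in BV, (g w ^ 2 - 2 * Real.pi⁻¹ * (((g w : ℝ) : ℂ) * conj (T w)).re +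
      Real.pi⁻¹ ^ 2 * ‖T w‖ ^ 2) = (∫ w in BV, g w ^ 2) -
        2 * Real.pi⁻¹ * (∫ w in BV, (((g w : ℝ) : ℂ) * conj (T w)).re) +
        Real.pi⁻¹ ^ 2 * ∫ w in BV, ‖T w‖ ^ 2 := by
    have a1 := hi2.const_mul (2 * Real.pi⁻¹)
    have a2 := hi3.const_mul (Real.pi⁻¹ ^ 2)
    have a3 := integral_add (hi1.sub a1) a2
    have a4 := integral_sub hi1 a1
    simp only [Pi.sub_apply] at a3
    rw [a3, a4, integral_const_mul, integral_const_mul]
  rw [e6] at hpos
  have j1 : ∫ w in BV, (((g w : ℝ) : ℂ) * conj (T w)).re = ∑ k ∈ S, ‖c k‖ ^ 2 := by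
    have hint : IntegrableOn (fun w => ((g w : ℝ) : ℂ) * conj (T w)) BV := by
      refine cintOn_ball (hgc.mul (continuous_conj.measurable.comp hTm))
        (C := B * ∑ k ∈ S, ‖c k‖) (fun w hw => ?_)
      rw [norm_mul, norm_real, Real.norm_eq_abs, RCLike.norm_conj]
      exact mul_le_mul (hb w hw) (hTb w) (norm_nonneg _) (hB0 w hw)
    have := integral_re hint
    simp only [RCLike.re_eq_complex_re] at this
    rw [this, i1, ofReal_re]
  have j2 : ∫ w in BV, ‖T w‖ ^ 2 = Real.pi * ∑ k ∈ S, ‖c k‖ ^ 2 := by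
    have e3 : ∀ w, T w * conj (T w) = ((‖T w‖ ^ 2 : ℝ) : ℂ) := by
      intro w
      rw [mul_conj, normSq_eq_norm_sq]
    simp_rw [e3] at i2
    rw [integral_complex_ofReal] at i2
    exact_mod_cast i2
  rw [j1, j2] at hpos
  have h5 : 0 ≤ Real.pi * (∫ w in BV, g w ^ 2) - ∑ k ∈ S, ‖c k‖ ^ 2 := by
    have h6 := mul_nonneg hpi.le hpos
    have e4 : Real.pi * ((∫ w in BV, g w ^ 2) - 2 * Real.pi⁻¹ * ∑ k ∈ S, ‖c k‖ ^ 2 +
        Real.pi⁻¹ ^ 2 * (Real.pi * ∑ k ∈ S, ‖c k‖ ^ 2)) =
        Real.pi * (∫ w in BV, g w ^ 2) - ∑ k ∈ S, ‖c k‖ ^ 2 := by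
      field_simp
      ring
    linarith
  linarith

variable {n : ℕ} {v : Fin n → ℂ} {F : ℂ → ℝ → ℝ}

theorem em_eq : em = ps := rfl

theorem vol_BV_pi : (volume BV).toReal = Real.pi := by
  simp [Complex.volume_ball]

theorem real_vol_BV : (volume : Measure ℂ).real BV = Real.pi := vol_BV_pi

/-- Bessel's inequality for the nonzero modes of a function with values in `[0,1]`. -/
theorem bessel_var {g : ℂ → ℝ} (hg : Measurable g) (h0 : ∀ w, 0 ≤ g w) (h1 : ∀ w, g w ≤ 1)
    {S : Finset ℕ} (hS : 0 ∉ S) {q : ℝ} (hq : q = Real.pi⁻¹ * ∫ w in BV, g w) :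
    ∑ k ∈ S, ‖∫ w in BV, ((g w : ℝ) : ℂ) * ps k w‖ ^ 2 ≤ Real.pi ^ 2 * (q * (1 - q)) := by
  have hpi := Real.pi_pos
  have hgi : IntegrableOn g BV := by
    refine intOn_ball hg (C := 1) (fun w _ => ?_)
    rw [abs_of_nonneg (h0 w)]; exact h1 w
  have hgi2 : IntegrableOn (fun w => g w ^ 2) BV := by
    refine intOn_ball (hg.pow_const 2) (C := 1) (fun w _ => ?_)
    rw [abs_of_nonneg (by positivity)]
    exact pow_le_one₀ (h0 w) (h1 w)
  have hI : ∫ w in BV, g w = Real.pi * q := by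
    rw [hq]; field_simp
  have hB := bessel (g := fun w => g w - q) (hg.sub measurable_const) (B := 1 + |q|)
    (fun w _ => by
      refine (abs_sub _ _).trans ?_
      rw [abs_of_nonneg (h0 w)]
      have := h1 w
      linarith) S
  have e1 : ∀ k ∈ S, ∫ w in BV, (((g w - q : ℝ)) : ℂ) * ps k w =
      ∫ w in BV, ((g w : ℝ) : ℂ) * ps k w := by
    intro k hk
    have hk0 : k ≠ 0 := fun h => hS (h ▸ hk)
    have a1 : IntegrableOn (fun w => ((g w : ℝ) : ℂ) * ps k w) BV := by
      refine cintOn_ball ((Complex.measurable_ofReal.comp hg).mul (measurable_ps k)) (C := 1)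
        (fun w _ => ?_)
      rw [norm_mul, norm_real, Real.norm_eq_abs, abs_of_nonneg (h0 w)]
      calc _ ≤ (1 : ℝ) * 1 := mul_le_mul (h1 w) (norm_ps_le k w) (norm_nonneg _) zero_le_one
        _ = 1 := one_mul 1
    have a2 : IntegrableOn (fun w => ((q : ℝ) : ℂ) * ps k w) BV := by
      refine Integrable.const_mul ?_ _
      exact cintOn_ball (measurable_ps k) (C := 1) (fun w _ => norm_ps_le k w)
    have e : ∀ w, (((g w - q : ℝ)) : ℂ) * ps k w =
        ((g w : ℝ) : ℂ) * ps k w - ((q : ℝ) : ℂ) * ps k w := by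
      intro w; push_cast; ring
    simp_rw [e]
    rw [integral_sub a1 a2, integral_const_mul, int_ps hk0, mul_zero, sub_zero]
  have e2 : ∑ k ∈ S, ‖∫ w in BV, ((g w : ℝ) : ℂ) * ps k w‖ ^ 2 =
      ∑ k ∈ S, ‖∫ w in BV, (((g w - q : ℝ)) : ℂ) * ps k w‖ ^ 2 :=
    Finset.sum_congr rfl (fun k hk => by rw [e1 k hk])
  rw [e2]
  refine hB.trans ?_
  have e3 : ∫ w in BV, (g w - q) ^ 2 ≤ Real.pi * (q * (1 - q)) := by
    have b1 : IntegrableOn (fun _ : ℂ => q ^ 2) BV := integrableOn_const measure_ball_lt_top.ne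
    have e : ∀ w, (g w - q) ^ 2 = g w ^ 2 - 2 * q * g w + q ^ 2 := by intro w; ring
    simp_rw [e]
    have c1 := integral_add (hgi2.sub (hgi.const_mul (2 * q))) b1
    have c2 := integral_sub hgi2 (hgi.const_mul (2 * q))
    simp only [Pi.sub_apply] at c1
    rw [c1, c2, integral_const_mul, hI, setIntegral_const, real_vol_BV, smul_eq_mul]
    have d1 : ∫ w in BV, g w ^ 2 ≤ ∫ w in BV, g w := by
      refine setIntegral_mono hgi2 hgi (fun w => ?_)
      have := h0 w
      have := h1 w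
      simp only
      nlinarith
    rw [hI] at d1
    nlinarith
  have := mul_le_mul_of_nonneg_left e3 hpi.le
  calc _ ≤ Real.pi * (Real.pi * (q * (1 - q))) := this
    _ = _ := by ring

/-! ### Pointwise form -/

theorem OO_neg {C e0 : ℝ} (G : Geo v C e0) {s : Fin n × Fin n} (hs : s ∈ SD v) {y : ℂ}
    (hy : y ∈ OO v s) : ds v s y < 0 := by
  have h1 := (G.pp _).1 hy s hs
  rw [Refl5.ds_Rs (G.edn s hs)] at h1
  linarith

theorem sum_OO_zero {T : Finset (Fin n × Fin n)} {f : Fin n × Fin n → ℂ → ℝ} {y : ℂ}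
    (h : ∀ t ∈ T, y ∉ OO v t) : ∑ t ∈ T, (OO v t).indicator (f t) y = 0 :=
  Finset.sum_eq_zero (fun t ht => indicator_of_notMem (h t ht) _)

theorem sum_OO_one {f : Fin n × Fin n → ℂ → ℝ} {y : ℂ} {s : Fin n × Fin n} (hs : s ∈ SD v)
    (hy : y ∈ OO v s) (h : ∀ t ∈ SD v, t ≠ s → y ∉ OO v t) :
    ∑ t ∈ SD v, (OO v t).indicator (f t) y = f s y := by
  rw [Finset.sum_eq_single s (fun t ht hts => indicator_of_notMem (h t ht hts) _)
    (fun h => absurd hs h), indicator_of_mem hy]

theorem bes_pt (hF : LFS v F) (y : ℂ) {S : Finset ℕ} (hS : 0 ∉ S) :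
    ∑ k ∈ S, ‖∫ w in BV, ((F w (cr w y) : ℝ) : ℂ) * em k w‖ ^ 2 ≤ Real.pi ^ 2 * qd F y := by
  have h1 := bessel_var (g := fun w => F w (cr w y)) (F_meas_x hF.lf y) (fun w => hF.nn _ _)
    (fun w => (le_abs_self _).trans (hF.lf.bd _ _)) hS (q := qf F y) (by
      unfold qf; rw [vol_BV_pi])
  exact h1

theorem bes_pt_refl (hF : LFS v F) {e : ℂ} (he : e ≠ 0) (z : ℂ) {S : Finset ℕ} (hS : 0 ∉ S) :
    ∑ k ∈ S, ‖∫ w in BV, ((F (rl e w) (cr (rl e w) z) : ℝ) : ℂ) * em k w‖ ^ 2 ≤
      Real.pi ^ 2 * qd F z := by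
  have hm : Measurable (fun w => F (rl e w) (cr (rl e w) z)) :=
    (F_meas_x hF.lf z).comp (continuous_rl e).measurable
  have hq : qf F z = Real.pi⁻¹ * ∫ w in BV, F (rl e w) (cr (rl e w) z) := by
    unfold qf
    rw [vol_BV_pi]
    congr 1
    exact (rl_integral he (fun w => F w (cr w z))).symm
  exact bessel_var (g := fun w => F (rl e w) (cr (rl e w) z)) hm (fun w => hF.nn _ _)
    (fun w => (le_abs_self _).trans (hF.lf.bd _ _)) hS hq

/-- The pointwise Bessel inequality at good points. -/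
theorem pointwise {C e0 : ℝ} (G : Geo v C e0) (hF : LFS v F) {ε : ℝ} (hε : 0 < ε) (hε0 : ε < e0)
    {x : ℂ} (hx : x ∈ Gd v C ε) {y : ℂ} (hy : ‖x - y‖ < ε) {S : Finset ℕ} (hS : 0 ∉ S) :
    ∑ k ∈ S, ‖am v F k y‖ ^ 2 ≤ Real.pi ^ 2 * qx v F y := by
  have inP : y ∈ PP v → ∑ k ∈ S, ‖am v F k y‖ ^ 2 ≤ Real.pi ^ 2 * qx v F y := by
    intro hP
    have hO : ∀ t ∈ SD v, y ∉ OO v t := by
      intro t ht h
      have h1 := OO_neg G ht h
      have h2 := (G.pp y).1 hP t ht
      linarith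
    have e1 : ∀ k, am v F k y = ∫ w in BV, ((F w (cr w y) : ℝ) : ℂ) * em k w := by
      intro k
      unfold am
      refine integral_congr_ae (Eventually.of_forall (fun w => ?_))
      have : gx v F y w = F w (cr w y) := by
        unfold gx
        rw [indicator_of_mem hP, sum_OO_zero hO, add_zero]
      simp only [this]
    have e2 : qx v F y = qd F y := by
      unfold qx
      rw [indicator_of_mem hP, sum_OO_zero hO, add_zero]
    rw [e2]
    simp_rw [e1]
    exact bes_pt hF y hS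
  rcases G.dic ε hε hε0 x hx with h | ⟨s, hs, h⟩
  · apply inP
    rw [G.pp]
    intro s hs
    have h1 := h s hs
    have h2 := (abs_le.1 (Refl5.ds_sub_le (v := v) (s := s) x y)).2
    linarith
  · obtain ⟨h1, h2⟩ := Refl5.Nr_ball G hε hs h hy
    have hOt : ∀ t ∈ SD v, t ≠ s → y ∉ OO v t := by
      intro t ht hts hO
      have := OO_neg G ht hO
      have := h1 t ht hts
      linarith
    rcases lt_trichotomy (ds v s y) 0 with h3 | h3 | h3
    · have hP : y ∉ PP v := fun hP => by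
        have := (G.pp y).1 hP s hs
        linarith
      have hO : y ∈ OO v s := by
        show Rs v s y ∈ PP v
        rw [G.pp]
        intro t ht
        rcases eq_or_ne t s with rfl | hts
        · rw [Refl5.ds_Rs (G.edn t hs)]; linarith
        · exact h2 t ht hts
      have e1 : ∀ k, am v F k y = ∫ w in BV, ((F (rl (ed v s) w)
          (cr (rl (ed v s) w) (Rs v s y)) : ℝ) : ℂ) * em k w := by
        intro k
        unfold am
        refine integral_congr_ae (Eventually.of_forall (fun w => ?_))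
        have : gx v F y w = F (rl (ed v s) w) (cr (rl (ed v s) w) (Rs v s y)) := by
          unfold gx
          rw [indicator_of_notMem hP, zero_add]
          exact sum_OO_one (f := fun s x => F (rl (ed v s) w) (cr (rl (ed v s) w) (Rs v s x)))
            hs hO hOt
        simp only [this]
      have e2 : qx v F y = qd F (Rs v s y) := by
        unfold qx
        rw [indicator_of_notMem hP, zero_add]
        exact sum_OO_one (f := fun s y => qd F (Rs v s y)) hs hO hOt
      rw [e2]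
      simp_rw [e1]
      exact bes_pt_refl hF (G.edn s hs) _ hS
    · have hP : y ∉ PP v := fun hP => by
        have := (G.pp y).1 hP s hs
        linarith
      have hO : ∀ t ∈ SD v, y ∉ OO v t := by
        intro t ht hO
        rcases eq_or_ne t s with rfl | hts
        · have := OO_neg G ht hO
          linarith
        · exact hOt t ht hts hO
      have e1 : ∀ k, am v F k y = 0 := by
        intro k
        unfold am
        have : ∀ w, gx v F y w = 0 := by
          intro w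
          unfold gx
          rw [indicator_of_notMem hP, zero_add]
          exact sum_OO_zero (f := fun s x => F (rl (ed v s) w)
            (cr (rl (ed v s) w) (Rs v s x))) hO
        simp [this]
      simp only [e1, norm_zero]
      have := qx_nonneg hF y (v := v)
      simp only [ne_eq, OfNat.ofNat_ne_zero, not_false_eq_true, zero_pow, Finset.sum_const_zero]
      positivity
    · apply inP
      rw [G.pp]
      intro t ht
      rcases eq_or_ne t s with rfl | hts
      · exact h3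
      · exact h1 t ht hts

/-! ### Cauchy–Schwarz and the sum -/

theorem cs_ball {f : ℂ → ℝ} {x : ℂ} {ε : ℝ} (hε : 0 < ε) (hf : IntegrableOn f (Metric.ball x ε))
    (hf2 : IntegrableOn (fun y => f y ^ 2) (Metric.ball x ε)) :
    (∫ y in Metric.ball x ε, f y) ^ 2 ≤ Real.pi * ε ^ 2 * ∫ y in Metric.ball x ε, f y ^ 2 := by
  set V : ℝ := Real.pi * ε ^ 2 with hV
  have hV0 : 0 < V := by positivity
  have hvol : (volume : Measure ℂ).real (Metric.ball x ε) = V := by
    rw [Measure.real, Complex.volume_ball, ENNReal.toReal_mul, ENNReal.toReal_pow,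
      ENNReal.toReal_ofReal hε.le, hV, mul_comm]
    rfl
  set J : ℝ := ∫ y in Metric.ball x ε, f y with hJ
  have h1 : 0 ≤ ∫ y in Metric.ball x ε, (V * f y - J) ^ 2 :=
    integral_nonneg (fun y => by positivity)
  have e : ∀ y, (V * f y - J) ^ 2 = V ^ 2 * f y ^ 2 - 2 * V * J * f y + J ^ 2 := by
    intro y; ring
  simp_rw [e] at h1
  have b1 : IntegrableOn (fun _ : ℂ => J ^ 2) (Metric.ball x ε) :=
    integrableOn_const measure_ball_lt_top.ne
  have c1 := integral_add ((hf2.const_mul (V ^ 2)).sub (hf.const_mul (2 * V * J))) b1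
  have c2 := integral_sub (hf2.const_mul (V ^ 2)) (hf.const_mul (2 * V * J))
  simp only [Pi.sub_apply] at c1
  rw [c1, c2, integral_const_mul, integral_const_mul, setIntegral_const, hvol, smul_eq_mul,
    ← hJ] at h1
  have h2 : 0 ≤ V * (V * (∫ y in Metric.ball x ε, f y ^ 2) - J ^ 2) := by
    have : V ^ 2 * (∫ y in Metric.ball x ε, f y ^ 2) - 2 * V * J * J + V * J ^ 2 =
        V * (V * (∫ y in Metric.ball x ε, f y ^ 2) - J ^ 2) := by ring
    linarith
  have h3 := nonneg_of_mul_nonneg_right h2 hV0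
  linarith

theorem bes_main {C e0 : ℝ} (G : Geo v C e0) (hF : LFS v F) {φ : ℂ → ℝ} (hφ : Measurable φ)
    {c : ℝ} (hc : 0 ≤ c) {x : ℂ} {ε : ℝ} (hε : 0 < ε) (hε0 : ε < e0) (hx : x ∈ Gd v C ε)
    (hb : ∀ y, |φ y| ≤ c) (h0 : ∀ y, y ∉ Metric.ball x ε → φ y = 0) {S : Finset ℕ} (hS : 0 ∉ S) :
    ∑ k ∈ S, ‖∫ y, (φ y : ℂ) * am v F k y‖ ^ 2 ≤
      Real.pi ^ 3 * (c * ε ^ 2) ^ 2 * Nn v F ε x := by
  obtain ⟨B, hB⟩ : ∃ B : ℝ, ∀ k y, ‖am v F k y‖ ≤ B := ⟨_, fun k y => am_bound hF k y⟩
  have hB0 : 0 ≤ B := (norm_nonneg _).trans (hB 0 0)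
  have hint : ∀ k, IntegrableOn (fun y => ‖am v F k y‖) (Metric.ball x ε) := by
    intro k
    refine Measure.integrableOn_of_bounded (M := B) measure_ball_lt_top.ne
      (am_meas hF.lf k).norm.aestronglyMeasurable (Eventually.of_forall (fun y => ?_))
    rw [norm_norm]; exact hB k y
  have hint2 : ∀ k, IntegrableOn (fun y => ‖am v F k y‖ ^ 2) (Metric.ball x ε) := by
    intro k
    refine Measure.integrableOn_of_bounded (M := B ^ 2) measure_ball_lt_top.ne
      ((am_meas hF.lf k).norm.pow_const 2).aestronglyMeasurable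
      (Eventually.of_forall (fun y => ?_))
    rw [Real.norm_eq_abs, abs_of_nonneg (by positivity)]
    have := hB k y
    gcongr
  have h1 : ∀ k, ‖∫ y, (φ y : ℂ) * am v F k y‖ ^ 2 ≤
      c ^ 2 * (Real.pi * ε ^ 2) * ∫ y in Metric.ball x ε, ‖am v F k y‖ ^ 2 := by
    intro k
    have e : ∫ y, (φ y : ℂ) * am v F k y = ∫ y in Metric.ball x ε, (φ y : ℂ) * am v F k y := by
      rw [← integral_indicator measurableSet_ball]
      refine integral_congr_ae (Eventually.of_forall (fun y => ?_))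
      by_cases hy : y ∈ Metric.ball x ε
      · simp only [indicator_of_mem hy]
      · simp only [indicator_of_notMem hy, h0 y hy, ofReal_zero, zero_mul]
    have h2 : ‖∫ y, (φ y : ℂ) * am v F k y‖ ≤ c * ∫ y in Metric.ball x ε, ‖am v F k y‖ := by
      rw [e, ← integral_const_mul]
      refine (norm_integral_le_integral_norm _).trans ?_
      refine integral_mono_of_nonneg (Eventually.of_forall (fun y => norm_nonneg _))
        ((hint k).const_mul c) (Eventually.of_forall (fun y => ?_))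
      simp only [norm_mul, norm_real, Real.norm_eq_abs]
      exact mul_le_mul_of_nonneg_right (hb y) (norm_nonneg _)
    have h3 : ‖∫ y, (φ y : ℂ) * am v F k y‖ ^ 2 ≤
        (c * ∫ y in Metric.ball x ε, ‖am v F k y‖) ^ 2 := by gcongr
    refine h3.trans ?_
    rw [mul_pow]
    have h4 := cs_ball hε (hint k) (hint2 k)
    calc _ ≤ c ^ 2 * (Real.pi * ε ^ 2 * ∫ y in Metric.ball x ε, ‖am v F k y‖ ^ 2) :=
          mul_le_mul_of_nonneg_left h4 (by positivity)
      _ = _ := by ring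
  have h2 : ∑ k ∈ S, ∫ y in Metric.ball x ε, ‖am v F k y‖ ^ 2 ≤
      Real.pi ^ 2 * ∫ y in Metric.ball x ε, qx v F y := by
    rw [← integral_finsetSum _ (fun k _ => hint2 k), ← integral_const_mul]
    refine setIntegral_mono_on (integrable_finsetSum _ (fun k _ => hint2 k))
      ((qx_intOn hF measure_ball_lt_top).const_mul _) measurableSet_ball (fun y hy => ?_)
    rw [Metric.mem_ball, dist_comm, dist_eq_norm] at hy
    exact pointwise G hF hε hε0 hx hy hS
  calc _ ≤ ∑ k ∈ S, c ^ 2 * (Real.pi * ε ^ 2) * ∫ y in Metric.ball x ε, ‖am v F k y‖ ^ 2 :=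
        Finset.sum_le_sum (fun k _ => h1 k)
    _ = c ^ 2 * (Real.pi * ε ^ 2) * ∑ k ∈ S, ∫ y in Metric.ball x ε, ‖am v F k y‖ ^ 2 := by
        rw [Finset.mul_sum]
    _ ≤ c ^ 2 * (Real.pi * ε ^ 2) * (Real.pi ^ 2 * ∫ y in Metric.ball x ε, qx v F y) :=
        mul_le_mul_of_nonneg_left h2 (by positivity)
    _ = _ := by
        unfold Nn
        have : ε ^ 2 ≠ 0 := by positivity
        field_simp

theorem fderiv_et_zero' {ε : ℝ} (hε : 0 < ε) {h : ℂ} (hh : ε ≤ ‖h‖) : fderiv ℝ (et ε) h = 0 := by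
  apply IsLocalMin.fderiv_eq_zero
  exact Eventually.of_forall (fun z => by rw [BilD.et_zero hε hh]; exact et_nonneg ε z)

theorem norm_clm_le (L : ℂ →L[ℝ] ℂ) : ‖L‖ ≤ ‖L 1‖ + ‖L I‖ := by
  refine L.opNorm_le_bound (by positivity) (fun z => ?_)
  have h1 : L z = z.re • L 1 + z.im • L I := by
    conv_lhs => rw [← re_add_im z]
    rw [map_add]
    congr 1
    · rw [← map_smul]; simp
    · rw [← map_smul]; simp
  rw [h1]
  refine (norm_add_le _ _).trans ?_
  rw [norm_smul, norm_smul, Real.norm_eq_abs, Real.norm_eq_abs]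
  have h2 := abs_re_le_norm z
  have h3 := abs_im_le_norm z
  have h4 := mul_le_mul_of_nonneg_right h2 (norm_nonneg (L 1))
  have h5 := mul_le_mul_of_nonneg_right h3 (norm_nonneg (L I))
  nlinarith [h4, h5]

/-- The even modes `2, 4, …, 2N`. -/
def EV (N : ℕ) : Finset ℕ := (Finset.range N).image (fun j => 2 * (j + 1))

theorem zero_notMem_EV (N : ℕ) : 0 ∉ EV N := by
  unfold EV
  simp

theorem sum_EV (f : ℕ → ℝ) (N : ℕ) :
    ∑ j ∈ Finset.range N, f (2 * (j + 1)) = ∑ k ∈ EV N, f k := by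
  unfold EV
  rw [Finset.sum_image]
  intro a _ b _ h
  simp only at h
  omega

/-- (BES) Bessel inequalities for the mollified modes. -/
theorem row (hS : StSmo) : StBes := by
  intro n v C e0 hG
  obtain ⟨K, hK, hKb⟩ := exists_fderiv_et_bound
  have hpi := Real.pi_pos
  refine ⟨Real.pi ^ 3 * (1 + 4 * K ^ 2), by positivity, fun F hF ε hε hε0 x hx N => ?_⟩
  have hN := Nn_nonneg (v := v) hF ε x
  have hε2 : ε ^ 2 ≠ 0 := by positivity
  have hball : ∀ y, y ∉ Metric.ball x ε → ε ≤ ‖x - y‖ := by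
    intro y hy
    rw [Metric.mem_ball, dist_comm, dist_eq_norm, not_lt] at hy
    exact hy
  constructor
  · have h1 := bes_main hG hF (φ := fun y => et ε (x - y)) (c := (ε ^ 2)⁻¹)
      (((et_contDiff ε).continuous.comp (continuous_const.sub continuous_id)).measurable)
      (by positivity) (x := x) hε hε0 hx (fun y => by
        rw [abs_of_nonneg (et_nonneg ε _)]; exact et_le ε _)
      (fun y hy => BilD.et_zero hε (hball y hy)) (zero_notMem_EV N)
    rw [← sum_EV (fun k => ‖∫ y, (((fun y => et ε (x - y)) y : ℝ) : ℂ) * am v F k y‖ ^ 2)] at h1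
    rw [inv_mul_cancel₀ hε2, one_pow, mul_one] at h1
    refine h1.trans ?_
    apply mul_le_mul_of_nonneg_right _ hN
    have : 0 ≤ Real.pi ^ 3 * (4 * K ^ 2) := by positivity
    linarith
  · have hder : ∀ h : ℂ, ‖h‖ ≤ 1 → ∑ j ∈ Finset.range N,
        ‖fderiv ℝ (um v F (2 * (j + 1)) ε) x h‖ ^ 2 ≤
          Real.pi ^ 3 * (K ^ 2 / ε ^ 2) * Nn v F ε x := by
      intro h hh
      have hc1 : Continuous (fun y => fderiv ℝ (et ε) (x - y) h) := by
        have h2 : Continuous (fderiv ℝ (et ε)) := (et_contDiff ε).continuous_fderiv (by simp)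
        exact (h2.comp (continuous_const.sub continuous_id)).clm_apply continuous_const
      have hb1 : ∀ y, |fderiv ℝ (et ε) (x - y) h| ≤ K / ε ^ 3 := by
        intro y
        refine (hKb ε hε (x - y) h).trans ?_
        calc _ ≤ K / ε ^ 3 * 1 := mul_le_mul_of_nonneg_left hh (by positivity)
          _ = _ := mul_one _
      have h01 : ∀ y, y ∉ Metric.ball x ε → fderiv ℝ (et ε) (x - y) h = 0 := by
        intro y hy
        rw [fderiv_et_zero' hε (hball y hy)]
        rfl
      have h1 := bes_main hG hF (φ := fun y => fderiv ℝ (et ε) (x - y) h)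
        (c := K / ε ^ 3) hc1.measurable (by positivity) (x := x) hε hε0 hx hb1 h01
        (zero_notMem_EV N)
      rw [← sum_EV (fun k => ‖∫ y, (((fun y => fderiv ℝ (et ε) (x - y) h) y : ℝ) : ℂ) *
        am v F k y‖ ^ 2)] at h1
      have e1 : ∀ j, ‖fderiv ℝ (um v F (2 * (j + 1)) ε) x h‖ ^ 2 =
          ‖∫ y, (((fun y => fderiv ℝ (et ε) (x - y) h) y : ℝ) : ℂ) *
            am v F (2 * (j + 1)) y‖ ^ 2 := by
        intro j
        rw [(hS n v C e0 hG F hF ε hε (2 * (j + 1))).2 x h]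
      simp_rw [e1]
      refine h1.trans (le_of_eq ?_)
      have e2 : K / ε ^ 3 * ε ^ 2 = K / ε := by
        field_simp
      rw [e2, div_pow]
    have h1 := hder 1 (by rw [norm_one])
    have h2 := hder I (by rw [norm_I])
    have h3 : ∑ j ∈ Finset.range N, ‖fderiv ℝ (um v F (2 * (j + 1)) ε) x‖ ^ 2 ≤
        2 * (∑ j ∈ Finset.range N, ‖fderiv ℝ (um v F (2 * (j + 1)) ε) x 1‖ ^ 2 +
          ∑ j ∈ Finset.range N, ‖fderiv ℝ (um v F (2 * (j + 1)) ε) x I‖ ^ 2) := by
      rw [← Finset.sum_add_distrib, Finset.mul_sum]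
      refine Finset.sum_le_sum (fun j _ => ?_)
      have h4 := norm_clm_le (fderiv ℝ (um v F (2 * (j + 1)) ε) x)
      have h5 : ‖fderiv ℝ (um v F (2 * (j + 1)) ε) x‖ ^ 2 ≤
          (‖fderiv ℝ (um v F (2 * (j + 1)) ε) x 1‖ +
            ‖fderiv ℝ (um v F (2 * (j + 1)) ε) x I‖) ^ 2 := by
        gcongr
      nlinarith [sq_nonneg (‖fderiv ℝ (um v F (2 * (j + 1)) ε) x 1‖ -
        ‖fderiv ℝ (um v F (2 * (j + 1)) ε) x I‖)]
    refine h3.trans ?_
    have h6 : 2 * (Real.pi ^ 3 * (K ^ 2 / ε ^ 2) * Nn v F ε x +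
        Real.pi ^ 3 * (K ^ 2 / ε ^ 2) * Nn v F ε x) ≤
        Real.pi ^ 3 * (1 + 4 * K ^ 2) / ε ^ 2 * Nn v F ε x := by
      have e3 : 2 * (Real.pi ^ 3 * (K ^ 2 / ε ^ 2) * Nn v F ε x +
        Real.pi ^ 3 * (K ^ 2 / ε ^ 2) * Nn v F ε x) =
        Real.pi ^ 3 * (4 * K ^ 2) / ε ^ 2 * Nn v F ε x := by ring
      rw [e3]
      apply mul_le_mul_of_nonneg_right _ hN
      gcongr
      linarith
    linarith

end Pool.Agent.Lib.BilD.Bes85
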