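import Pool.Agent.Lib.MP_7bc51d_an.Green
import Pool.Agent.Lib.MP_7bc51d_an.Potential

set_option autoImplicit false

/-!
Local geometry of a convex polygon off the vertices: a small ball lies in the polygon or meets
exactly one side.
-/

namespace Pool.Agent.Lib.BilD.Geo85

open Complex MeasureTheory Set Filter
open scoped ComplexConjugate Topology ENNReal
open Pool.Agent.Lib.Bil

variable {n : ℕ} {v : Fin n → ℂ}

/-- A point strictly to the left of all sides lies in the open polygon. -/
theorem mem_PP_of_cr (hn : 3 ≤ n) (hv : ConvexIndependent ℝ v) {y : ℂ}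
    (h : ∀ i, 0 < cr (v (nxt hn hv i) - v i) (y - v i)) : y ∈ PP v := by
  obtain ⟨z, hz⟩ := PP_nonempty hn hv
  have hseg : IsPreconnected (segment ℝ z y) := (convex_segment z y).isPreconnected
  refine hseg.subset_of_closure_inter_subset isOpen_PP ⟨z, left_mem_segment ℝ z y, hz⟩ ?_
    (right_mem_segment ℝ z y)
  rintro p ⟨hpc, hp⟩
  have hpK : p ∈ KK v := closure_minimal PP_sub_KK isClosed_KK hpc
  by_contra hpP
  obtain ⟨a, b, ha, hb, hab, rfl⟩ := hp
  have hpos : ∀ i, 0 < cr (v (nxt hn hv i) - v i) (a • z + b • y - v i) := by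
    intro i
    have e : a • z + b • y - v i = (a : ℂ) * (z - v i) + (b : ℂ) * (y - v i) := by
      have h1 : (a : ℂ) + (b : ℂ) = 1 := by rw [← ofReal_add, hab, ofReal_one]
      simp only [real_smul]
      linear_combination (v i) * h1
    rw [e, cr_add_right, cr_smul_right, cr_smul_right]
    have h1 := (nxt_side hn hv i).cr_pos hv hz
    have h2 := h i
    rcases eq_or_lt_of_le ha with h3 | h3
    · have hb1 : b = 1 := by linarith
      rw [← h3, hb1]; linarith
    · have := mul_pos h3 h1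
      have := mul_nonneg hb h2.le
      linarith
  by_cases hpv : a • z + b • y ∈ Set.range v
  · obtain ⟨i, hi⟩ := hpv
    have h1 := hpos i
    rw [← hi, sub_self, cr_zero_right] at h1
    exact lt_irrefl _ h1
  · obtain ⟨i, j, hij, s, hs0, hs1, hs⟩ := exists_side hn hv hpK hpP hpv
    have hj : j = nxt hn hv i := next_unique hij (nxt_side hn hv i)
    have h1 := hpos i
    rw [hs, ← hj, add_sub_cancel_left, cr_smul_right, cr_self, mul_zero] at h1
    exact lt_irrefl _ h1

/-- Two different sides have at most one common vertex. -/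
theorem common_vertex (hn : 3 ≤ n) (hv : ConvexIndependent ℝ v) {i l : Fin n} (hil : i ≠ l) :
    ∃ j, ∀ k, k ≠ j → (k ≠ i ∧ k ≠ nxt hn hv i) ∨ (k ≠ l ∧ k ≠ nxt hn hv l) := by
  have hinj := (nxt_bijective hn hv).1
  by_cases h1 : l = nxt hn hv i
  · refine ⟨l, fun k hk => ?_⟩
    by_cases h2 : k = nxt hn hv l
    · left
      refine ⟨fun h3 => ?_, h1 ▸ hk⟩
      have a1 := nxt_side hn hv i
      have a2 := nxt_side hn hv l
      rw [← h1] at a1
      rw [← h2, h3] at a2
      exact not_both_sides hn a1 a2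
    · exact Or.inr ⟨hk, h2⟩
  · refine ⟨i, fun k hk => ?_⟩
    by_cases h2 : k = nxt hn hv i
    · right
      refine ⟨fun h3 => h1 (h3 ▸ h2), fun h3 => hil (hinj (h2 ▸ h3))⟩
    · exact Or.inl ⟨hk, h2⟩

theorem near_vertex (hn : 3 ≤ n) (hv : ConvexIndependent ℝ v) : ∃ C : ℝ, 0 < C ∧
    ∀ i l : Fin n, i ≠ l → ∃ j, ∀ x ∈ KK v, ‖x - v j‖ ≤
      C * (cr (v (nxt hn hv i) - v i) (x - v i) + cr (v (nxt hn hv l) - v l) (x - v l)) := by
  -- lower bound for the distances of the vertices to the sides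
  obtain ⟨c, hc, hcb⟩ : ∃ c : ℝ, 0 < c ∧ ∀ i k : Fin n, k ≠ i → k ≠ nxt hn hv i →
      c ≤ cr (v (nxt hn hv i) - v i) (v k - v i) := by
    have hfin : ∃ c : ℝ, 0 < c ∧ ∀ q ∈ (Finset.univ : Finset (Fin n × Fin n)), q.2 ≠ q.1 →
        q.2 ≠ nxt hn hv q.1 → c ≤ cr (v (nxt hn hv q.1) - v q.1) (v q.2 - v q.1) := by
      induction (Finset.univ : Finset (Fin n × Fin n)) using Finset.induction with
      | empty => exact ⟨1, one_pos, fun q hq => absurd hq (Finset.notMem_empty q)⟩
      | insert q S _ ih =>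
        obtain ⟨c, hc, hS⟩ := ih
        by_cases hq : q.2 ≠ q.1 ∧ q.2 ≠ nxt hn hv q.1
        · have h1 := (nxt_side hn hv q.1).2 q.2 hq.1 hq.2
          refine ⟨min c (cr (v (nxt hn hv q.1) - v q.1) (v q.2 - v q.1)), lt_min hc h1,
            fun r hr h2 h3 => ?_⟩
          rcases Finset.mem_insert.1 hr with rfl | hr
          · exact min_le_right _ _
          · exact (min_le_left _ _).trans (hS r hr h2 h3)
        · refine ⟨c, hc, fun r hr h2 h3 => ?_⟩
          rcases Finset.mem_insert.1 hr with rfl | hr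
          · exact absurd ⟨h2, h3⟩ hq
          · exact hS r hr h2 h3
    obtain ⟨c, hc, h⟩ := hfin
    exact ⟨c, hc, fun i k => h (i, k) (Finset.mem_univ _)⟩
  obtain ⟨D, hD, hDb⟩ : ∃ D : ℝ, 0 < D ∧ ∀ j k : Fin n, ‖v k - v j‖ ≤ D := by
    refine ⟨∑ q : Fin n × Fin n, ‖v q.2 - v q.1‖ + 1, by positivity, fun j k => ?_⟩
    have := Finset.single_le_sum (f := fun q : Fin n × Fin n => ‖v q.2 - v q.1‖)
      (fun q _ => norm_nonneg _) (Finset.mem_univ (j, k))
    simp only at this
    linarith
  refine ⟨D / c, div_pos hD hc, fun i l hil => ?_⟩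
  obtain ⟨j, hj⟩ := common_vertex hn hv hil
  refine ⟨j, fun x hx => ?_⟩
  set f : ℂ → ℝ := fun x => ‖x - v j‖ - D / c * (cr (v (nxt hn hv i) - v i) (x - v i) +
    cr (v (nxt hn hv l) - v l) (x - v l)) with hf
  have hconv : Convex ℝ {x : ℂ | f x ≤ 0} := by
    intro x hx y hy a b ha hb hab
    simp only [mem_ofPred_eq, hf] at hx hy ⊢
    have h1 : (a : ℂ) + (b : ℂ) = 1 := by rw [← ofReal_add, hab, ofReal_one]
    have e : ∀ p : ℂ, a • x + b • y - p = (a : ℂ) * (x - p) + (b : ℂ) * (y - p) := by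
      intro p
      simp only [real_smul]
      linear_combination p * h1
    rw [e, e, e]
    simp only [cr_add_right, cr_smul_right]
    have h2 : ‖(a : ℂ) * (x - v j) + (b : ℂ) * (y - v j)‖ ≤ a * ‖x - v j‖ + b * ‖y - v j‖ := by
      refine (norm_add_le _ _).trans ?_
      rw [norm_mul, norm_mul, norm_real, norm_real, Real.norm_eq_abs, Real.norm_eq_abs,
        abs_of_nonneg ha, abs_of_nonneg hb]
    have h3 := mul_nonneg ha (sub_nonneg.2 hx)
    have h4 := mul_nonneg hb (sub_nonneg.2 hy)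
    nlinarith [h2, h3, h4]
  have hvert : ∀ k, f (v k) ≤ 0 := by
    intro k
    have p1 := (nxt_side hn hv i).cr_nonneg_vert k
    have p2 := (nxt_side hn hv l).cr_nonneg_vert k
    have hDc : 0 < D / c := div_pos hD hc
    simp only [hf]
    rcases eq_or_ne k j with rfl | hk
    · rw [sub_self, norm_zero]
      have := mul_nonneg hDc.le (add_nonneg p1 p2)
      linarith
    · have h1 : c ≤ cr (v (nxt hn hv i) - v i) (v k - v i) +
          cr (v (nxt hn hv l) - v l) (v k - v l) := by
        rcases hj k hk with h2 | h2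
        · have := hcb i k h2.1 h2.2; linarith
        · have := hcb l k h2.1 h2.2; linarith
      have h2 := mul_le_mul_of_nonneg_left h1 hDc.le
      have h3 : D / c * c = D := by field_simp
      have h4 := hDb j k
      linarith
  have hmem : x ∈ {x : ℂ | f x ≤ 0} :=
    convexHull_min (by rintro _ ⟨k, rfl⟩; exact hvert k) hconv hx
  have : f x ≤ 0 := hmem
  simp only [hf] at this
  linarith

/-- The displacement of a point by the reflection at a side. -/
theorem norm_RR_sub {i j : Fin n} (hne : v j - v i ≠ 0) (x : ℂ) :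
    ‖RR v i j x - x‖ * ‖v j - v i‖ = 2 * |cr (v j - v i) (x - v i)| := by
  have h1 : conj (v j - v i) ≠ 0 := (map_ne_zero _).2 hne
  have e : RR v i j x - x = -2 * I * ((cr (v j - v i) (x - v i) : ℝ) : ℂ) / conj (v j - v i) := by
    rw [eq_div_iff h1, RR, rl]
    have h2 : ((cr (v j - v i) (x - v i) : ℝ) : ℂ) =
        (conj (v j - v i) * (x - v i) - (v j - v i) * conj (x - v i)) / (2 * I) := by
      rw [cr_eq_im, im_eq_sub_conj, map_mul, conj_conj]
    rw [h2]
    have h3 : (I : ℂ) ≠ 0 := I_ne_zero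
    field_simp
    ring
  rw [e, norm_div, RCLike.norm_conj, norm_mul, norm_mul, norm_real, Real.norm_eq_abs, norm_I]
  have h4 : ‖v j - v i‖ ≠ 0 := norm_ne_zero_iff.2 hne
  rw [div_mul_cancel₀ _ h4]
  simp

theorem cr_RR {i j : Fin n} (hne : v j - v i ≠ 0) (x : ℂ) :
    cr (v j - v i) (RR v i j x - v i) = - cr (v j - v i) (x - v i) := by
  have h1 : RR v i j x - v i = rl (v j - v i) (x - v i) := by
    rw [RR]; ring
  rw [h1]
  have h2 := cr_rl hne (v j - v i) (x - v i)
  rwa [rl_self hne] at h2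

/-- A small ball around a point of the closed polygon off the vertices lies in the open polygon
or meets exactly one side. -/
theorem geo (hn : 3 ≤ n) (hv : ConvexIndependent ℝ v) : ∃ M : ℝ, 0 < M ∧
    ∀ ε : ℝ, 0 < ε → ∀ x ∈ KK v, (∀ j, M * ε ≤ ‖x - v j‖) →
      Metric.ball x ε ⊆ PP v ∨ ∃ i, ∀ y ∈ Metric.ball x ε,
        (∀ l, l ≠ i → 0 < cr (v (nxt hn hv l) - v l) (y - v l)) ∧
        (0 < cr (v (nxt hn hv i) - v i) (y - v i) → y ∈ PP v) ∧
        (cr (v (nxt hn hv i) - v i) (y - v i) < 0 → RR v i (nxt hn hv i) y ∈ PP v) := by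
  obtain ⟨C, hC, hCb⟩ := near_vertex hn hv
  set E : ℝ := ∑ l, ‖v (nxt hn hv l) - v l‖ + 1 with hE
  have hE0 : 0 < E := by positivity
  have hEb : ∀ l, ‖v (nxt hn hv l) - v l‖ ≤ E := by
    intro l
    have := Finset.single_le_sum (f := fun l => ‖v (nxt hn hv l) - v l‖)
      (fun q _ => norm_nonneg _) (Finset.mem_univ l)
    rw [hE]; linarith
  refine ⟨8 * C * E, by positivity, fun ε hε x hx hxv => ?_⟩
  have hpert : ∀ (l : Fin n) (r : ℝ) (y : ℂ), ‖y - x‖ < r →
      cr (v (nxt hn hv l) - v l) (x - v l) - E * r ≤ cr (v (nxt hn hv l) - v l) (y - v l) := by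
    intro l r y hy
    have e : y - v l = (x - v l) + (y - x) := by ring
    rw [e, cr_add_right]
    have h1 := abs_cr_le (v (nxt hn hv l) - v l) (y - x)
    have h2 : ‖v (nxt hn hv l) - v l‖ * ‖y - x‖ ≤ E * r :=
      mul_le_mul (hEb l) hy.le (norm_nonneg _) hE0.le
    have h3 := neg_abs_le (cr (v (nxt hn hv l) - v l) (y - x))
    linarith
  by_cases hall : ∀ l, E * ε < cr (v (nxt hn hv l) - v l) (x - v l)
  · left
    intro y hy
    rw [Metric.mem_ball, dist_eq_norm] at hy
    refine mem_PP_of_cr hn hv (fun l => ?_)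
    have := hpert l ε y hy
    have := hall l
    linarith
  · right
    push Not at hall
    obtain ⟨i, hi⟩ := hall
    have hfar : ∀ l, l ≠ i → 3 * (E * ε) < cr (v (nxt hn hv l) - v l) (x - v l) := by
      intro l hl
      obtain ⟨j, hj⟩ := hCb i l (Ne.symm hl)
      have h1 := (hxv j).trans (hj x hx)
      have h2 : C * (8 * E * ε) ≤ C * (cr (v (nxt hn hv i) - v i) (x - v i) +
          cr (v (nxt hn hv l) - v l) (x - v l)) := by
        calc C * (8 * E * ε) = 8 * C * E * ε := by ring
          _ ≤ _ := h1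
      have h3 := le_of_mul_le_mul_left h2 hC
      have h4 : 0 < E * ε := mul_pos hE0 hε
      linarith
    have hEε : 0 < E * ε := mul_pos hE0 hε
    refine ⟨i, fun y hy => ?_⟩
    rw [Metric.mem_ball, dist_eq_norm] at hy
    have hl : ∀ l, l ≠ i → 0 < cr (v (nxt hn hv l) - v l) (y - v l) := by
      intro l hl
      have := hpert l ε y hy
      have := hfar l hl
      linarith
    refine ⟨hl, fun h1 => mem_PP_of_cr hn hv (fun l => ?_), fun h1 => ?_⟩
    · rcases eq_or_ne l i with rfl | h2
      · exact h1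
      · exact hl l h2
    · have hne := v_sub_ne hv (nxt_side hn hv i).ne
      have hne0 : 0 < ‖v (nxt hn hv i) - v i‖ := norm_pos_iff.2 (by
        have := v_sub_ne hv (nxt_side hn hv i).ne
        exact this)
      have h2 := norm_RR_sub (v := v) (i := i) (j := nxt hn hv i) hne y
      have h3 : |cr (v (nxt hn hv i) - v i) (y - v i)| ≤ ‖v (nxt hn hv i) - v i‖ * ε := by
        have h4 : 0 ≤ cr (v (nxt hn hv i) - v i) (x - v i) := (nxt_side hn hv i).cr_nonneg hx
        have e : y - v i = (x - v i) + (y - x) := by ring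
        have h5 : cr (v (nxt hn hv i) - v i) (y - v i) =
            cr (v (nxt hn hv i) - v i) (x - v i) + cr (v (nxt hn hv i) - v i) (y - x) := by
          rw [e, cr_add_right]
        rw [abs_of_neg h1]
        have h6 := abs_cr_le (v (nxt hn hv i) - v i) (y - x)
        have h7 := neg_abs_le (cr (v (nxt hn hv i) - v i) (y - x))
        have h8 : ‖v (nxt hn hv i) - v i‖ * ‖y - x‖ ≤ ‖v (nxt hn hv i) - v i‖ * ε :=
          mul_le_mul_of_nonneg_left hy.le (norm_nonneg _)
        linarith
      have h4 : ‖RR v i (nxt hn hv i) y - y‖ ≤ 2 * ε := by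
        have h5 : ‖RR v i (nxt hn hv i) y - y‖ * ‖v (nxt hn hv i) - v i‖ ≤
            (2 * ε) * ‖v (nxt hn hv i) - v i‖ := by
          rw [h2]; linarith
        exact le_of_mul_le_mul_right h5 hne0
      have h5 : ‖RR v i (nxt hn hv i) y - x‖ < 3 * ε := by
        have e : RR v i (nxt hn hv i) y - x = (RR v i (nxt hn hv i) y - y) + (y - x) := by ring
        rw [e]
        have := norm_add_le (RR v i (nxt hn hv i) y - y) (y - x)
        linarith
      refine mem_PP_of_cr hn hv (fun l => ?_)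
      rcases eq_or_ne l i with rfl | h6
      · rw [cr_RR hne]
        linarith
      · have := hpert l (3 * ε) _ h5
        have := hfar l h6
        linarith

end Pool.Agent.Lib.BilD.Geo85
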