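import Pool.Agent.Lib.MP_7bc51d_an_dense.Defs2
import Pool.Agent.Lib.MP_7bc51d_an_dense.Geo85
import Pool.Agent.Lib.MP_7bc51d_an_mode.Corner
import Pool.Agent.Lib.MP_7bc51d_an.Generic
import Pool.Agent.Lib.MP_7bc51d_an.Label

set_option autoImplicit false

/-!
Row COR: lines close to a vertex.
-/

namespace Pool.Agent.Lib.BilD

open Complex MeasureTheory Set Filter Topology
open scoped ComplexConjugate
open Pool.Agent.Lib.Bil Pool.Agent.Lib.BTop

variable {n : ℕ} {v : Fin n → ℂ} {S : Set (ℂ × ℝ)}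

/-- All lines of direction `w` close to the vertex `k` belong to `S`. -/
def NV (v : Fin n → ℂ) (S : Set (ℂ × ℝ)) (k : Fin n) (w : ℂ) : Prop :=
  ∃ δ > 0, ∀ x ∈ PP v, ‖x - v k‖ < δ → (w, cr w x) ∈ S

theorem refl_step (hn : 3 ≤ n) (hv : ConvexIndependent ℝ v) (hS : XL v S) {i j k : Fin n}
    (hij : IsSide v i j) {w : ℂ} (hw : cr (v j - v i) w < 0)
    (h : NV v S k (rl (v j - v i) w)) : ∃ δ > 0, ∀ σ : ℝ, 0 < σ → σ < 1 →
      ‖v i + (σ : ℂ) * (v j - v i) - v k‖ < δ → (w, cr w (v i + (σ : ℂ) * (v j - v i))) ∈ S := by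
  obtain ⟨δ, hδ, h⟩ := h
  have hne : v j - v i ≠ 0 := v_sub_ne hv hij.1
  refine ⟨δ, hδ, fun σ h0 h1 hn1 => ?_⟩
  set e := v j - v i with he
  set y := v i + (σ : ℂ) * e with hy
  have hD : 0 < cr w e := by rw [cr_swap]; linarith
  have hex : (w, cr w y) ∈ EX v (i, j) := by
    have e1 : cr w y = cr w (v i) + σ * cr w e := by
      rw [hy, cr_add_right, cr_smul_right]
    have e2 : cr w (v j) = cr w (v i) + cr w e := by
      rw [he, cr_sub_right]; ring
    constructor
    · change cr w (v i) < cr w y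
      rw [e1]
      have := mul_pos h0 hD
      linarith
    · change cr w y < cr w (v j)
      rw [e1, e2]
      nlinarith
  rw [← hS.sym (i, j) hij _ hex]
  have hRL : RL v (i, j) (w, cr w y) = (rl e w, cr (rl e w) y) := by
    unfold RL
    have h2 := rfh_eq (v := v) (i, j) hne w y
    have h3 : RR v i j y = y := by
      rw [hy, he]
      exact RR_line hne σ
    simp only at h2 ⊢
    rw [← h2, h3]
  rw [hRL]
  obtain ⟨ρ, hρ, hh⟩ := BilH.half_plane hn hv hij h0 h1 (y := y) rfl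
  set w' := rl e w with hw'
  have hcw : 0 < cr e w' := by
    have h2 := cr_rl hne e w
    rw [rl_self hne] at h2
    rw [hw', h2]
    linarith
  set m := min ρ (δ - ‖y - v k‖) with hm
  have hm0 : 0 < m := lt_min hρ (by linarith)
  have hN : 0 < ‖w'‖ + 1 := by positivity
  set τ := m / (‖w'‖ + 1) with hτ
  have hτ0 : 0 < τ := div_pos hm0 hN
  have hnorm : ‖(τ : ℂ) * w'‖ < m := by
    rw [norm_mul, norm_real, Real.norm_eq_abs, abs_of_pos hτ0, hτ, div_mul_eq_mul_div,
      div_lt_iff₀ hN]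
    nlinarith [norm_nonneg w']
  have hx : y + (τ : ℂ) * w' ∈ PP v := by
    rw [hh _ (by
      rw [mem_ball_iff_norm, add_sub_cancel_left]
      exact hnorm.trans_le (min_le_left _ _)), add_sub_cancel_left, cr_smul_right]
    exact mul_pos hτ0 hcw
  have hx2 : ‖y + (τ : ℂ) * w' - v k‖ < δ := by
    have h2 : y + (τ : ℂ) * w' - v k = (y - v k) + (τ : ℂ) * w' := by ring
    rw [h2]
    have h3 := norm_add_le (y - v k) ((τ : ℂ) * w')
    have h4 : m ≤ δ - ‖y - v k‖ := min_le_right _ _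
    linarith
  have h5 := h _ hx hx2
  have h6 : cr w' (y + (τ : ℂ) * w') = cr w' y := by
    rw [cr_add_right, cr_smul_right, cr_self, mul_zero, add_zero]
  rwa [h6] at h5

/-- Plücker identity. -/
theorem cr_pl (a b w z : ℂ) : cr a b * cr w z = cr z b * cr w a + cr a z * cr w b := by
  simp only [cr]; ring

section corner

variable {k p q : Fin n}

theorem delta_pos (hn : 3 ≤ n) (hkq : IsSide v k q) (hpk : IsSide v p k) :
    0 < cr (v q - v k) (v p - v k) := by
  have hpq : p ≠ q := by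
    rintro rfl
    exact not_both_sides hn hkq hpk
  exact hkq.2 p hpk.1 hpq

theorem corner_coords (hv : ConvexIndependent ℝ v) (hkq : IsSide v k q) (hpk : IsSide v p k)
    {x : ℂ} (hx : x ∈ PP v) : 0 < cr (v q - v k) (x - v k) ∧ 0 < cr (x - v k) (v p - v k) := by
  refine ⟨hkq.cr_pos hv hx, ?_⟩
  have h := hpk.cr_pos hv hx
  have e : cr (v k - v p) (x - v p) = cr (x - v k) (v p - v k) := by
    simp only [cr, sub_re, sub_im]; ring
  rwa [e] at h

theorem step1 (hn : 3 ≤ n) (hv : ConvexIndependent ℝ v) (hS : XL v S) (hkq : IsSide v k q)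
    (hpk : IsSide v p k) {w : ℂ} (h1 : cr (v q - v k) w < 0) (h2 : 0 < cr w (v p - v k))
    (h : NV v S k (rl (v q - v k) w)) : NV v S k w := by
  obtain ⟨δ', hδ', hs⟩ := refl_step hn hv hS hkq h1 h
  have hΔ := delta_pos hn hkq hpk
  set a := v q - v k with ha
  set b := v p - v k with hb
  have hD : 0 < cr w a := by rw [cr_swap]; linarith
  have hw : 0 < ‖w‖ + 1 := by positivity
  have hA : 0 < ‖a‖ + 1 := by positivity
  refine ⟨min (cr w a / (‖w‖ + 1)) (δ' * cr w a / ((‖w‖ + 1) * (‖a‖ + 1))),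
    lt_min (by positivity) (by positivity), fun x hx hxk => ?_⟩
  obtain ⟨c1, c2⟩ := corner_coords hv hkq hpk hx
  have hpl := cr_pl a b w (x - v k)
  have ht : 0 < cr w (x - v k) := by
    have : 0 < cr a b * cr w (x - v k) := by
      rw [hpl]
      have := mul_pos c2 hD
      have := mul_pos c1 h2
      linarith
    exact (pos_iff_pos_of_mul_pos this).1 hΔ
  have hle : cr w (x - v k) ≤ ‖w‖ * ‖x - v k‖ := (le_abs_self _).trans (abs_cr_le _ _)
  have h3 : ‖x - v k‖ < cr w a / (‖w‖ + 1) := hxk.trans_le (min_le_left _ _)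
  have h4 : ‖x - v k‖ < δ' * cr w a / ((‖w‖ + 1) * (‖a‖ + 1)) := hxk.trans_le (min_le_right _ _)
  rw [lt_div_iff₀ hw] at h3
  rw [lt_div_iff₀ (by positivity)] at h4
  set σ := cr w (x - v k) / cr w a with hσ
  have hσ0 : 0 < σ := div_pos ht hD
  have hσ1 : σ < 1 := by
    rw [hσ, div_lt_one hD]
    nlinarith [norm_nonneg (x - v k)]
  have hσ2 : ‖v k + (σ : ℂ) * a - v k‖ < δ' := by
    rw [add_sub_cancel_left, norm_mul, norm_real, Real.norm_eq_abs, abs_of_pos hσ0, hσ,
      div_mul_eq_mul_div, div_lt_iff₀ hD]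
    have h5 : cr w (x - v k) * ‖a‖ ≤ ‖w‖ * ‖x - v k‖ * ‖a‖ :=
      mul_le_mul_of_nonneg_right hle (norm_nonneg _)
    nlinarith [norm_nonneg (x - v k), norm_nonneg a, norm_nonneg w,
      mul_nonneg (norm_nonneg (x - v k)) (norm_nonneg a),
      mul_nonneg (norm_nonneg (x - v k)) (norm_nonneg w)]
  have h6 := hs σ hσ0 hσ1 hσ2
  have h7 : cr w (v k + (σ : ℂ) * a) = cr w x := by
    rw [cr_add_right, cr_smul_right, hσ, div_mul_cancel₀ _ hD.ne', cr_sub_right]; ring
  rwa [h7] at h6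

theorem step2 (hn : 3 ≤ n) (hv : ConvexIndependent ℝ v) (hS : XL v S) (hkq : IsSide v k q)
    (hpk : IsSide v p k) {w : ℂ} (h1 : 0 < cr (v q - v k) w) (h2 : cr w (v p - v k) < 0)
    (h : NV v S k (rl (v p - v k) w)) : NV v S k w := by
  have hrl : rl (v p - v k) w = rl (v k - v p) w := by
    have : v p - v k = -(v k - v p) := by ring
    rw [this]
    unfold rl
    rw [map_neg, neg_div_neg_eq]
  rw [hrl] at h
  have h1' : cr (v k - v p) w < 0 := by
    have : cr (v k - v p) w = cr w (v p - v k) := by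
      simp only [cr, sub_re, sub_im]; ring
    rw [this]; exact h2
  obtain ⟨δ', hδ', hs⟩ := refl_step hn hv hS hpk h1' h
  have hΔ := delta_pos hn hkq hpk
  set a := v q - v k with ha
  set b := v p - v k with hb
  have hwa : cr w a < 0 := by rw [cr_swap]; linarith
  have hD : 0 < -cr w b := by linarith
  have hw : 0 < ‖w‖ + 1 := by positivity
  have hA : 0 < ‖b‖ + 1 := by positivity
  refine ⟨min (-cr w b / (‖w‖ + 1)) (δ' * (-cr w b) / ((‖w‖ + 1) * (‖b‖ + 1))),
    lt_min (by positivity) (by positivity), fun x hx hxk => ?_⟩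
  obtain ⟨c1, c2⟩ := corner_coords hv hkq hpk hx
  have hpl := cr_pl a b w (x - v k)
  have ht : cr w (x - v k) < 0 := by
    have : cr a b * cr w (x - v k) < 0 := by
      rw [hpl]
      have := mul_neg_of_pos_of_neg c2 hwa
      have := mul_neg_of_pos_of_neg c1 h2
      linarith
    exact (neg_iff_pos_of_mul_neg (by rw [mul_comm]; exact this)).2 hΔ
  have hle : -cr w (x - v k) ≤ ‖w‖ * ‖x - v k‖ := (neg_le_abs _).trans (abs_cr_le _ _)
  have h3 : ‖x - v k‖ < -cr w b / (‖w‖ + 1) := hxk.trans_le (min_le_left _ _)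
  have h4 : ‖x - v k‖ < δ' * (-cr w b) / ((‖w‖ + 1) * (‖b‖ + 1)) := hxk.trans_le (min_le_right _ _)
  rw [lt_div_iff₀ hw] at h3
  rw [lt_div_iff₀ (by positivity)] at h4
  set σ := cr w (x - v k) / cr w b with hσ
  have hσ0 : 0 < σ := div_pos_of_neg_of_neg ht h2
  have hσe : σ = -cr w (x - v k) / (-cr w b) := by rw [hσ, neg_div_neg_eq]
  have hσ1 : σ < 1 := by
    rw [hσe, div_lt_one hD]
    nlinarith [norm_nonneg (x - v k)]
  have hpt : v p + ((1 - σ : ℝ) : ℂ) * (v k - v p) = v k + (σ : ℂ) * b := by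
    rw [hb]; push_cast; ring
  have hσ2 : ‖v p + ((1 - σ : ℝ) : ℂ) * (v k - v p) - v k‖ < δ' := by
    rw [hpt, add_sub_cancel_left, norm_mul, norm_real, Real.norm_eq_abs, abs_of_pos hσ0, hσe,
      div_mul_eq_mul_div, div_lt_iff₀ hD]
    have h5 : -cr w (x - v k) * ‖b‖ ≤ ‖w‖ * ‖x - v k‖ * ‖b‖ :=
      mul_le_mul_of_nonneg_right hle (norm_nonneg _)
    nlinarith [norm_nonneg (x - v k), norm_nonneg b, norm_nonneg w,
      mul_nonneg (norm_nonneg (x - v k)) (norm_nonneg b),
      mul_nonneg (norm_nonneg (x - v k)) (norm_nonneg w)]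
  have h6 := hs (1 - σ) (by linarith) (by linarith) hσ2
  rw [hpt] at h6
  have h7 : cr w (v k + (σ : ℂ) * b) = cr w x := by
    rw [cr_add_right, cr_smul_right, hσ, div_mul_cancel₀ _ h2.ne, cr_sub_right]; ring
  rwa [h7] at h6

/-- Outgoing directions. -/
theorem out_of_signs (hn : 3 ≤ n) (hv : ConvexIndependent ℝ v) (hkq : IsSide v k q)
    (hpk : IsSide v p k) {w : ℂ} (h1 : 0 < cr (v q - v k) w) (h2 : 0 < cr w (v p - v k)) :
    Out v k w := by
  have hev : ∀ i, ∀ᶠ t : ℝ in 𝓝[>] 0, 0 < cr (v (nxt hn hv i) - v i) (v k + (t : ℂ) * w - v i) := by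
    intro i
    have hi := nxt_side hn hv i
    by_cases hik : i = k
    · subst hik
      have hq : nxt hn hv i = q := next_unique hi hkq
      filter_upwards [self_mem_nhdsWithin] with t ht
      rw [hq, add_sub_cancel_left, cr_smul_right]
      exact mul_pos ht h1
    · by_cases hik2 : nxt hn hv i = k
      · have hip : i = p := by
          rw [hik2] at hi
          exact prev_unique hi hpk
        filter_upwards [self_mem_nhdsWithin] with t ht
        rw [hik2, hip]
        have e : cr (v k - v p) (v k + (t : ℂ) * w - v p) = t * cr w (v p - v k) := by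
          have : v k + (t : ℂ) * w - v p = (t : ℂ) * w + (v k - v p) := by ring
          rw [this, cr_add_right, cr_self, add_zero, cr_smul_right]
          have : v p - v k = -(v k - v p) := by ring
          rw [this, cr_neg_right, ← cr_swap]
        rw [e]
        exact mul_pos ht h2
      · have h3 := hi.2 k (Ne.symm hik) (Ne.symm hik2)
        have hcont : Continuous (fun t : ℝ => cr (v (nxt hn hv i) - v i) (v k + (t : ℂ) * w - v i)) := by
          have h5 : Continuous (fun t : ℝ => (v (nxt hn hv i) - v i, v k + (t : ℂ) * w - v i)) := by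
            fun_prop
          exact continuous_cr.comp h5
        have h4 := hcont.tendsto 0
        apply Filter.Eventually.filter_mono nhdsWithin_le_nhds
        apply h4.eventually_const_lt
        simpa using h3
  have hall : ∀ᶠ t : ℝ in 𝓝[>] 0, ∀ i,
      0 < cr (v (nxt hn hv i) - v i) (v k + (t : ℂ) * w - v i) := eventually_all.2 hev
  rw [eventually_nhdsWithin_iff, Metric.eventually_nhds_iff] at hall
  obtain ⟨ε, hε, hall⟩ := hall
  refine ⟨ε / 2, by linarith, fun t ht ht2 => Geo85.mem_PP_of_cr hn hv (hall ?_ ht)⟩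
  rw [Real.dist_eq, sub_zero, abs_of_pos ht]
  linarith

theorem good0 (hSo : IsOpen S) (hk : VX v S k) :
    ∀ᵐ w : ℂ, (Out v k w ∨ Out v k (-w)) → NV v S k w := by
  filter_upwards [hk] with w hw hO
  have h1 := hw hO
  have hc : Continuous (fun x : ℂ => ((w, cr w x) : ℂ × ℝ)) := by
    apply Continuous.prodMk continuous_const
    unfold cr
    fun_prop
  have h2 : {x | ((w, cr w x) : ℂ × ℝ) ∈ S} ∈ 𝓝 (v k) := (hSo.preimage hc).mem_nhds h1
  obtain ⟨δ, hδ, hb⟩ := Metric.mem_nhds_iff.1 h2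
  exact ⟨δ, hδ, fun x _ hx => hb (mem_ball_iff_norm.2 hx)⟩

/-- A rotation of order at least two leaves no open half plane of small multiples. -/
theorem no_cone {c w b : ℂ} {κ : ℝ} (hc : ‖c‖ = 1) (hc1 : c ≠ 1) (hκ : 0 < κ)
    (h : ∀ j : ℕ, κ ≤ cr (c ^ j * w) b) : False := by
  have h1 : ∀ N : ℕ, (N : ℝ) * κ ≤ cr ((∑ j ∈ Finset.range N, c ^ j) * w) b := by
    intro N
    induction N with
    | zero => simp [cr]
    | succ N ih =>
      rw [Finset.sum_range_succ, add_mul, cr_add_left]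
      have := h N
      push_cast
      linarith
  have hc2 : 0 < ‖c - 1‖ := norm_pos_iff.2 (sub_ne_zero.2 hc1)
  have h2 : ∀ N : ℕ, ‖∑ j ∈ Finset.range N, c ^ j‖ ≤ 2 / ‖c - 1‖ := by
    intro N
    rw [geom_sum_eq hc1, norm_div]
    apply div_le_div_of_nonneg_right _ hc2.le
    calc ‖c ^ N - 1‖ ≤ ‖c ^ N‖ + ‖(1 : ℂ)‖ := norm_sub_le _ _
      _ = 2 := by rw [norm_pow, hc]; norm_num
  have h3 : ∀ N : ℕ, (N : ℝ) * κ ≤ 2 / ‖c - 1‖ * ‖w‖ * ‖b‖ := by
    intro N
    refine (h1 N).trans ((le_abs_self _).trans ((abs_cr_le _ _).trans ?_))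
    rw [norm_mul]
    exact mul_le_mul_of_nonneg_right (mul_le_mul_of_nonneg_right (h2 N) (norm_nonneg _))
      (norm_nonneg _)
  obtain ⟨N, hN⟩ := exists_nat_gt (2 / ‖c - 1‖ * ‖w‖ * ‖b‖ / κ)
  rw [div_lt_iff₀ hκ] at hN
  have := h3 N
  linarith

theorem cor1 (hn : 3 ≤ n) (hv : ConvexIndependent ℝ v) (hS : XL v S) (hSo : IsOpen S)
    (hkq : IsSide v k q) (hpk : IsSide v p k) (hk : VX v S k) : ∀ᵐ w : ℂ, NV v S k w := by
  have hΔ := delta_pos hn hkq hpk
  have hout : ∀ w : ℂ, 0 < cr (v q - v k) w → 0 < cr w (v p - v k) → Out v k w :=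
    fun w h1 h2 => out_of_signs hn hv hkq hpk h1 h2
  have hs1 : ∀ w : ℂ, cr (v q - v k) w < 0 → 0 < cr w (v p - v k) →
      NV v S k (rl (v q - v k) w) → NV v S k w :=
    fun w h1 h2 h3 => step1 hn hv hS hkq hpk h1 h2 h3
  have hs2 : ∀ w : ℂ, 0 < cr (v q - v k) w → cr w (v p - v k) < 0 →
      NV v S k (rl (v p - v k) w) → NV v S k w :=
    fun w h1 h2 h3 => step2 hn hv hS hkq hpk h1 h2 h3
  have ha0 : v q - v k ≠ 0 := v_sub_ne hv hkq.1
  have hb0 : v p - v k ≠ 0 := v_sub_ne hv (Ne.symm hpk.1)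
  generalize v q - v k = a at *
  generalize v p - v k = b at *
  have hG : ∀ᵐ w : ℂ, ((Out v k w ∨ Out v k (-w)) → NV v S k w) ∧ cr w a ≠ 0 ∧ cr w b ≠ 0 := by
    filter_upwards [good0 hSo hk, ae_cr_ne a ha0, ae_cr_ne b hb0] with w h1 h2 h3
    exact ⟨h1, h2, h3⟩
  have hGa : ∀ᵐ w : ℂ, ((Out v k (rl a w) ∨ Out v k (-(rl a w))) → NV v S k (rl a w)) ∧
      cr (rl a w) a ≠ 0 ∧ cr (rl a w) b ≠ 0 := (mp_rl ha0).quasiMeasurePreserving.ae hG
  have hGb : ∀ᵐ w : ℂ, ((Out v k (rl b w) ∨ Out v k (-(rl b w))) → NV v S k (rl b w)) ∧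
      cr (rl b w) a ≠ 0 ∧ cr (rl b w) b ≠ 0 := (mp_rl hb0).quasiMeasurePreserving.ae hG
  have hGab : ∀ᵐ w : ℂ, ((Out v k (rl b (rl a w)) ∨ Out v k (-(rl b (rl a w)))) →
      NV v S k (rl b (rl a w))) ∧ cr (rl b (rl a w)) a ≠ 0 ∧ cr (rl b (rl a w)) b ≠ 0 :=
    (mp_rl ha0).quasiMeasurePreserving.ae hGb
  -- one turn
  have hP : ∀ᵐ w : ℂ, (cr a w < 0 ∧ 0 < cr w b ∧ ¬ NV v S k w) →
      (cr a (rl b (rl a w)) < 0 ∧ 0 < cr (rl b (rl a w)) b ∧ ¬ NV v S k (rl b (rl a w))) := by
    filter_upwards [hG, hGa, hGab] with w g1 g2 g3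
    rintro ⟨t1, t2, t3⟩
    have e1 : cr a (rl a w) = - cr a w := by
      have := cr_rl ha0 a w
      rwa [rl_self ha0] at this
    have p1 : 0 < cr a (rl a w) := by rw [e1]; linarith
    have n1 : ¬ NV v S k (rl a w) := fun h => t3 (hs1 w t1 t2 h)
    have p2 : cr (rl a w) b < 0 := by
      rcases lt_trichotomy (cr (rl a w) b) 0 with h | h | h
      · exact h
      · exact absurd h g2.2.2
      · exact absurd (g2.1 (Or.inl (hout _ p1 h))) n1
    have n2 : ¬ NV v S k (rl b (rl a w)) := fun h => n1 (hs2 _ p1 p2 h)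
    have e2 : cr (rl b (rl a w)) b = - cr (rl a w) b := by
      have := cr_rl hb0 (rl a w) b
      rwa [rl_self hb0] at this
    have p3 : 0 < cr (rl b (rl a w)) b := by rw [e2]; linarith
    refine ⟨?_, p3, n2⟩
    rcases lt_trichotomy (cr a (rl b (rl a w))) 0 with h | h | h
    · exact h
    · exact absurd (by rw [cr_swap, h, neg_zero] : cr (rl b (rl a w)) a = 0) g3.2.1
    · exact absurd (g3.1 (Or.inl (hout _ h p3))) n2
  set ρ : ℂ → ℂ := fun w => rl b (rl a w) with hρ
  have hmp : MeasurePreserving ρ volume volume := (mp_rl hb0).comp (mp_rl ha0)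
  set c : ℂ := (b / conj b) * (conj a / a) with hc
  have hca : conj a ≠ 0 := by simpa using ha0
  have hcb : conj b ≠ 0 := by simpa using hb0
  have hρc : ∀ w, ρ w = c * w := by
    intro w
    simp only [hρ, hc, rl, map_mul, map_div₀, conj_conj]
    ring
  have hnc : ‖c‖ = 1 := by
    have h1 : ‖a‖ ≠ 0 := by simpa using ha0
    have h2 : ‖b‖ ≠ 0 := by simpa using hb0
    rw [hc]
    simp only [norm_mul, norm_div, RCLike.norm_conj]
    field_simp
  have hc1 : c ≠ 1 := by
    intro h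
    have h1 : b * conj a = a * conj b := by
      rw [hc] at h
      field_simp at h
      linear_combination h
    have h2 : (conj a * b).im = 0 := by
      have h3 := congrArg Complex.im h1
      simp only [mul_im, conj_re, conj_im] at h3 ⊢
      linarith
    rw [← cr_eq_im] at h2
    linarith
  have hiter : ∀ (j : ℕ) (w : ℂ), ρ^[j] w = c ^ j * w := by
    intro j
    induction j with
    | zero => intro w; simp
    | succ j ih =>
      intro w
      rw [Function.iterate_succ_apply', ih, hρc, pow_succ]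
      ring
  have hPj : ∀ᵐ w : ℂ, ∀ j : ℕ, (cr a (c ^ j * w) < 0 ∧ 0 < cr (c ^ j * w) b ∧
      ¬ NV v S k (c ^ j * w)) → (cr a (c ^ (j + 1) * w) < 0 ∧ 0 < cr (c ^ (j + 1) * w) b ∧
      ¬ NV v S k (c ^ (j + 1) * w)) := by
    rw [ae_all_iff]
    intro j
    have h1 := (hmp.iterate j).quasiMeasurePreserving.ae hP
    filter_upwards [h1] with w h2
    rw [hiter] at h2
    have h3 : rl b (rl a (c ^ j * w)) = c ^ (j + 1) * w := by
      have h4 := hρc (c ^ j * w)
      have h5 : ρ (c ^ j * w) = rl b (rl a (c ^ j * w)) := rfl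
      rw [← h5, h4, pow_succ]
      ring
    rwa [h3] at h2
  have hT1 : ∀ᵐ w : ℂ, cr a w < 0 → 0 < cr w b → NV v S k w := by
    filter_upwards [hPj] with w hw t1 t2
    by_contra t3
    have hall : ∀ j : ℕ, cr a (c ^ j * w) < 0 ∧ 0 < cr (c ^ j * w) b ∧ ¬ NV v S k (c ^ j * w) := by
      intro j
      induction j with
      | zero => simpa using ⟨t1, t2, t3⟩
      | succ j ih => exact hw j ih
    have hw0 : 0 < ‖w‖ := by
      rw [norm_pos_iff]
      rintro rfl
      rw [cr_zero_right] at t1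
      exact lt_irrefl _ t1
    have hM : 0 < ‖a‖ + ‖b‖ := by
      have := norm_pos_iff.2 ha0
      positivity
    have hκ : 0 < cr a b * ‖w‖ / (‖a‖ + ‖b‖) := by positivity
    refine no_cone (w := w) (b := a + b) hnc hc1 hκ fun j => ?_
    obtain ⟨u1, u2, -⟩ := hall j
    have hu : ‖c ^ j * w‖ = ‖w‖ := by rw [norm_mul, norm_pow, hnc, one_pow, one_mul]
    generalize c ^ j * w = u at *
    have u3 : 0 < cr u a := by rw [cr_swap]; linarith
    rw [div_le_iff₀ hM, cr_add_right, ← hu]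
    have hpl : ((cr a b : ℝ) : ℂ) * u = ((cr u b : ℝ) : ℂ) * a - ((cr u a : ℝ) : ℂ) * b := by
      apply Complex.ext
      · simp only [cr, mul_re, sub_re, ofReal_re, ofReal_im]; ring
      · simp only [cr, mul_im, sub_im, ofReal_re, ofReal_im]; ring
    have h5 := congrArg norm hpl
    rw [norm_mul, norm_real, Real.norm_eq_abs, abs_of_pos hΔ] at h5
    rw [h5]
    refine (norm_sub_le _ _).trans ?_
    rw [norm_mul, norm_mul, norm_real, norm_real, Real.norm_eq_abs, Real.norm_eq_abs,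
      abs_of_pos u2, abs_of_pos u3]
    have := mul_nonneg u3.le (norm_nonneg a)
    have := mul_nonneg u2.le (norm_nonneg b)
    nlinarith
  have hT1b : ∀ᵐ w : ℂ, cr a (rl b w) < 0 → 0 < cr (rl b w) b → NV v S k (rl b w) :=
    (mp_rl hb0).quasiMeasurePreserving.ae hT1
  filter_upwards [hG, hT1, hT1b, hGb] with w g1 g2 g3 g4
  rcases lt_trichotomy (cr a w) 0 with h1 | h1 | h1
  · rcases lt_trichotomy (cr w b) 0 with h2 | h2 | h2
    · apply g1.1
      right
      apply hout
      · rw [cr_neg_right]; linarith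
      · rw [cr_neg_left]; linarith
    · exact absurd h2 g1.2.2
    · exact g2 h1 h2
  · exact absurd (by rw [cr_swap, h1, neg_zero] : cr w a = 0) g1.2.1
  · rcases lt_trichotomy (cr w b) 0 with h2 | h2 | h2
    · apply hs2 w h1 h2
      have e2 : cr (rl b w) b = - cr w b := by
        have := cr_rl hb0 w b
        rwa [rl_self hb0] at this
      have p3 : 0 < cr (rl b w) b := by rw [e2]; linarith
      rcases lt_trichotomy (cr a (rl b w)) 0 with h3 | h3 | h3
      · exact g3 h3 p3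
      · exact absurd (by rw [cr_swap, h3, neg_zero] : cr (rl b w) a = 0) g4.2.1
      · exact g4.1 (Or.inl (hout _ h3 p3))
    · exact absurd h2 g1.2.2
    · exact g1.1 (Or.inl (hout w h1 h2))

end corner

/-- (COR) one vertex at a time. -/
theorem cor57 : StCor := by
  intro n hn v hv S hS hSo k hk
  obtain ⟨q, hkq⟩ := exists_next hn hv k
  have hprev : ∃ p, IsSide v p k := by
    obtain ⟨p, hp⟩ := (nxt_bijective hn hv).2 k
    exact ⟨p, by have := nxt_side hn hv p; rwa [hp] at this⟩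
  obtain ⟨p, hpk⟩ := hprev
  exact cor1 hn hv hS hSo hkq hpk hk

end Pool.Agent.Lib.BilD
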