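import Pool.Agent.Lib.MP_7bc51d_an.Symm
import Pool.Agent.Lib.MP_7bc51d_an.LineFn

/-!
# Vertex energy of invariant sets of polygonal billiards: definitions and row statements
-/

set_option autoImplicit false

namespace Pool.Agent.Lib.BilD

open Complex MeasureTheory Set Filter Topology
open scoped ComplexConjugate
open Pool.Agent.Lib.Bil

variable {n : ℕ}

/-- The counterclockwise sides. -/
noncomputable def SD (v : Fin n → ℂ) : Finset (Fin n × Fin n) := by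
  classical exact Finset.univ.filter (fun s => IsSide v s.1 s.2)

theorem mem_SD {v : Fin n → ℂ} {s : Fin n × Fin n} : s ∈ SD v ↔ IsSide v s.1 s.2 := by
  classical
  unfold SD
  simp

/-- Edge vector of the side `s`. -/
def ed (v : Fin n → ℂ) (s : Fin n × Fin n) : ℂ := v s.2 - v s.1

/-- Signed distance to the line of the side `s` (positive inside the polygon). -/
noncomputable def ds (v : Fin n → ℂ) (s : Fin n × Fin n) (x : ℂ) : ℝ :=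
  cr (ed v s) (x - v s.1) / ‖ed v s‖

/-- Reflection at the line of the side `s`. -/
noncomputable def Rs (v : Fin n → ℂ) (s : Fin n × Fin n) (x : ℂ) : ℂ := RR v s.1 s.2 x

/-- Mirror image of the open polygon at the side `s`. -/
def OO (v : Fin n → ℂ) (s : Fin n × Fin n) : Set ℂ := {x | Rs v s x ∈ PP v}

/-- The line function `F`, as a function on the phase space, extended by reflection. -/
noncomputable def gx (v : Fin n → ℂ) (F : ℂ → ℝ → ℝ) (x w : ℂ) : ℝ :=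
  (PP v).indicator (fun x => F w (cr w x)) x +
    ∑ s ∈ SD v, (OO v s).indicator
      (fun x => F (rl (ed v s) w) (cr (rl (ed v s) w) (Rs v s x))) x

/-- Angular modes. -/
noncomputable def em (m : ℕ) (w : ℂ) : ℂ := (conj w / (‖w‖ : ℂ)) ^ m

/-- Modes of the extended function. -/
noncomputable def am (v : Fin n → ℂ) (F : ℂ → ℝ → ℝ) (m : ℕ) (x : ℂ) : ℂ :=
  ∫ w in BV, (gx v F x w : ℂ) * em m w

/-- Smooth bump of radius `ε`, height `ε⁻²`. -/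
noncomputable def et (ε : ℝ) (h : ℂ) : ℝ := (ε ^ 2)⁻¹ * Real.smoothTransition (1 - ‖h‖ ^ 2 / ε ^ 2)

/-- Mollified modes. -/
noncomputable def um (v : Fin n → ℂ) (F : ℂ → ℝ → ℝ) (m : ℕ) (ε : ℝ) (x : ℂ) : ℂ :=
  ∫ y, (et ε (x - y) : ℂ) * am v F m y

noncomputable def dz (u : ℂ → ℂ) (x : ℂ) : ℂ := (fderiv ℝ u x 1 - I * fderiv ℝ u x I) / 2

noncomputable def dzb (u : ℂ → ℂ) (x : ℂ) : ℂ := (fderiv ℝ u x 1 + I * fderiv ℝ u x I) / 2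

/-- Boundary density of the energy identity. -/
noncomputable def Jf (W : ℂ → ℝ) (u : ℂ → ℂ) (x : ℂ) : ℝ :=
  (fderiv ℝ W x I) * (conj (u x) * fderiv ℝ u x 1).im -
    (fderiv ℝ W x 1) * (conj (u x) * fderiv ℝ u x I).im

/-- Vertex factor of the weight. -/
noncomputable def qv (v : Fin n → ℂ) (C ε : ℝ) (k : Fin n) (x : ℂ) : ℝ :=
  Real.smoothTransition (‖x - v k‖ ^ 2 / (C * ε) ^ 2 - 1)

/-- The weight. -/
noncomputable def WW (v : Fin n → ℂ) (C ε : ℝ) (x : ℂ) : ℝ := ∏ k, qv v C ε k x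

/-- Points of the closed polygon away from the vertices. -/
def Gd (v : Fin n → ℂ) (C ε : ℝ) : Set ℂ :=
  {x | (∀ s ∈ SD v, 0 ≤ ds v s x) ∧ ∀ k, C * ε ≤ ‖x - v k‖}

/-- Interior type. -/
def Int1 (v : Fin n → ℂ) (ε : ℝ) : Set ℂ := {x | ∀ s ∈ SD v, 2 * ε ≤ ds v s x}

/-- Near the side `s` and far from all other side lines (an open set). -/
def Nr (v : Fin n → ℂ) (ε : ℝ) (s : Fin n × Fin n) : Set ℂ :=
  {x | |ds v s x| < 2 * ε ∧ ∀ t ∈ SD v, t ≠ s → 9 * ε < ds v t x}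

/-- Geometry of the polygon at scale `ε < e0`. -/
structure Geo (v : Fin n → ℂ) (C e0 : ℝ) : Prop where
  C1 : 1 ≤ C
  e0p : 0 < e0
  e01 : e0 ≤ 1
  edn : ∀ s ∈ SD v, ed v s ≠ 0
  pp : ∀ x, x ∈ PP v ↔ ∀ s ∈ SD v, 0 < ds v s x
  dic : ∀ ε, 0 < ε → ε < e0 → ∀ x ∈ Gd v C ε, x ∈ Int1 v ε ∨ ∃ s ∈ SD v, x ∈ Nr v ε s
  far : ∀ ε, 0 < ε → ε < e0 → ∀ s ∈ SD v, ∀ k, k ≠ s.1 → k ≠ s.2 → ∀ x, ds v s x < 10 * ε →
    4 * C * ε ≤ ‖x - v k‖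
  onside : ∀ s ∈ SD v, ∀ x, ds v s x = 0 → (∀ t ∈ SD v, t ≠ s → 0 < ds v t x) →
    ∃ τ ∈ Ioo (0 : ℝ) 1, x = v s.1 + (τ : ℂ) * ed v s

/-- All admissible line functions: measurable, values in `[0,1]`, symmetric at the sides. -/
structure LFS (v : Fin n → ℂ) (F : ℂ → ℝ → ℝ) : Prop where
  lf : LF F
  nn : ∀ w Q, 0 ≤ F w Q
  sym : ∀ s ∈ SD v, SymAt F (v s.1) (ed v s)

/-- Mean value of `F` over all directions at `y`. -/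
noncomputable def qf (F : ℂ → ℝ → ℝ) (y : ℂ) : ℝ :=
  (volume BV).toReal⁻¹ * ∫ w in BV, F w (cr w y)

/-- Mixture of the directions at `y`. -/
noncomputable def qd (F : ℂ → ℝ → ℝ) (y : ℂ) : ℝ := qf F y * (1 - qf F y)

/-- Reflected extension of the mixture. -/
noncomputable def qx (v : Fin n → ℂ) (F : ℂ → ℝ → ℝ) (y : ℂ) : ℝ :=
  (PP v).indicator (qd F) y + ∑ s ∈ SD v, (OO v s).indicator (fun y => qd F (Rs v s y)) y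

/-- Local mixture of the extended function at scale `ε`. -/
noncomputable def Nn (v : Fin n → ℂ) (F : ℂ → ℝ → ℝ) (ε : ℝ) (x : ℂ) : ℝ :=
  (ε ^ 2)⁻¹ * ∫ y in Metric.ball x ε, qx v F y

/-- Points of the polygon at distance `< r` from the vertices. -/
def Vr (v : Fin n → ℂ) (r : ℝ) : Set ℂ := {x | x ∈ PP v ∧ ∃ k, ‖x - v k‖ < r}

/-- Mixture near the vertices. -/
noncomputable def Mm (v : Fin n → ℂ) (F : ℂ → ℝ → ℝ) (r : ℝ) : ℝ := ∫ x in Vr v r, qd F x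

/-! ### Row statements -/

/-- (GEO) -/
def StGeo : Prop := ∀ (n : ℕ), 3 ≤ n → ∀ v : Fin n → ℂ, ConvexIndependent ℝ v →
  ∃ C e0 : ℝ, Geo v C e0

/-- (TI) weak invariance of the extended function at good points. -/
def StTI : Prop := ∀ (n : ℕ) (v : Fin n → ℂ) (C e0 : ℝ), Geo v C e0 → ∀ F, LFS v F →
  ∀ ε, 0 < ε → ε < e0 → ∀ x ∈ Gd v C ε, ∀ᵐ w : ℂ,
    ∫ y, gx v F y w * fderiv ℝ (et ε) (x - y) w = 0

/-- (MODE) the ladder for the mollified modes at good points. -/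
def StMode : Prop := ∀ (n : ℕ) (v : Fin n → ℂ) (C e0 : ℝ), Geo v C e0 → ∀ F, LFS v F →
  ∀ ε, 0 < ε → ε < e0 → ∀ x ∈ Gd v C ε, ∀ m : ℕ,
    dz (um v F m ε) x + dzb (um v F (m + 2) ε) x = 0

/-- (SMO) regularity of the mollified modes. -/
def StSmo : Prop := ∀ (n : ℕ) (v : Fin n → ℂ) (C e0 : ℝ), Geo v C e0 → ∀ F, LFS v F →
  ∀ ε, 0 < ε → ∀ m : ℕ, ContDiff ℝ 2 (um v F m ε) ∧
    ∀ x h : ℂ, fderiv ℝ (um v F m ε) x h = ∫ y, (fderiv ℝ (et ε) (x - y) h : ℂ) * am v F m y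

/-- (REFL) reflection of the mollified modes at a side. -/
def StRefl : Prop := ∀ (n : ℕ) (v : Fin n → ℂ) (C e0 : ℝ), Geo v C e0 → ∀ F, LFS v F →
  ∀ ε, 0 < ε → ε < e0 → ∀ s ∈ SD v, ∀ x ∈ Nr v ε s, ∀ m : ℕ,
    um v F m ε (Rs v s x) = (conj (ed v s) / ed v s) ^ m * conj (um v F m ε x)

/-- (BES) Bessel inequalities. -/
def StBes : Prop := ∀ (n : ℕ) (v : Fin n → ℂ) (C e0 : ℝ), Geo v C e0 →
  ∃ C2 : ℝ, 0 < C2 ∧ ∀ F, LFS v F → ∀ ε, 0 < ε → ε < e0 → ∀ x ∈ Gd v C ε, ∀ N : ℕ,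
    (∑ j ∈ Finset.range N, ‖um v F (2 * (j + 1)) ε x‖ ^ 2 ≤ C2 * Nn v F ε x) ∧
    (∑ j ∈ Finset.range N, ‖fderiv ℝ (um v F (2 * (j + 1)) ε) x‖ ^ 2 ≤
      C2 / ε ^ 2 * Nn v F ε x)

/-- (EI) energy identity on the polygon. -/
def StEI : Prop := ∀ (n : ℕ), 3 ≤ n → ∀ v : Fin n → ℂ, ConvexIndependent ℝ v →
  ∀ (u : ℂ → ℂ) (W : ℂ → ℝ), ContDiff ℝ 2 u → ContDiff ℝ 1 W →
    (∀ s ∈ SD v, ∀ t ∈ Ioo (0 : ℝ) 1,
      W (v s.1 + (t : ℂ) * ed v s) * (conj (u (v s.1 + (t : ℂ) * ed v s)) *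
        fderiv ℝ u (v s.1 + (t : ℂ) * ed v s) (ed v s)).im = 0) →
    (∫ x in PP v, W x * ‖dz u x‖ ^ 2) - (∫ x in PP v, W x * ‖dzb u x‖ ^ 2) =
      2⁻¹ * ∫ x in PP v, Jf W u x

/-- (SIDE) the mollified modes satisfy the boundary condition of (EI). -/
def StSide : Prop := ∀ (n : ℕ) (v : Fin n → ℂ) (C e0 : ℝ), Geo v C e0 →
  ConvexIndependent ℝ v → ∀ F, LFS v F → ∀ ε, 0 < ε → ε < e0 → ∀ s ∈ SD v, ∀ t ∈ Ioo (0 : ℝ) 1, ∀ m : ℕ,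
    WW v C ε (v s.1 + (t : ℂ) * ed v s) * (conj (um v F m ε (v s.1 + (t : ℂ) * ed v s)) *
        fderiv ℝ (um v F m ε) (v s.1 + (t : ℂ) * ed v s) (ed v s)).im = 0

/-- (WP) the weight. -/
def StWP : Prop := ∀ (n : ℕ) (v : Fin n → ℂ) (C e0 : ℝ), Geo v C e0 →
  (∀ ε, 0 < ε → ContDiff ℝ 2 (WW v C ε) ∧
    (∀ x, 0 ≤ WW v C ε x ∧ WW v C ε x ≤ 1) ∧
    (∀ x, WW v C ε x ≠ 0 → ∀ k, C * ε ≤ ‖x - v k‖) ∧
    (∀ x, (∀ k, 2 * C * ε ≤ ‖x - v k‖) → WW v C ε x = 1)) ∧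
  ∃ C3 : ℝ, 0 < C3 ∧ ∀ ε, 0 < ε → ∀ (u : ℂ → ℂ) (x : ℂ),
    |Jf (WW v C ε) u x| ≤
      (C3 / ε) * ({x | (∃ k, ‖x - v k‖ ≤ 2 * C * ε) ∧ ∀ k, C * ε ≤ ‖x - v k‖}.indicator
        (fun x => ‖u x‖ * ‖fderiv ℝ u x‖)) x

/-- (FOLD) mass near the vertices. -/
def StFold : Prop := ∀ (n : ℕ) (v : Fin n → ℂ) (C e0 : ℝ), Geo v C e0 →
  ∃ C5 e1 : ℝ, 1 ≤ C5 ∧ 0 < e1 ∧ e1 ≤ e0 ∧ ∀ F, LFS v F → ∀ ε, 0 < ε → ε < e1 →
    ∫ x in {x | ∃ k, ‖x - v k‖ ≤ 2 * C * ε}, Nn v F ε x ≤ C5 * Mm v F (C5 * ε)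

/-- (TEL) the vertex energy estimate. -/
def StTel : Prop := ∀ (n : ℕ) (v : Fin n → ℂ) (C e0 : ℝ), 3 ≤ n → ConvexIndependent ℝ v →
  Geo v C e0 →
  ∃ C5 e1 : ℝ, 1 ≤ C5 ∧ 0 < e1 ∧ e1 ≤ e0 ∧ ∀ F, LFS v F → ∀ ε, 0 < ε → ε < e1 →
    ∫ x in PP v, WW v C ε x * ‖dz (um v F 0 ε) x‖ ^ 2 ≤ C5 / ε ^ 2 * Mm v F (C5 * ε)

/-- (LIM) -/
def StLim : Prop := ∀ (n : ℕ) (v : Fin n → ℂ) (C e0 : ℝ), 3 ≤ n → ConvexIndependent ℝ v →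
  Geo v C e0 → ∀ F, LFS v F → ∀ C5 e1 : ℝ, 1 ≤ C5 → 0 < e1 → e1 ≤ e0 →
    (∀ ε, 0 < ε → ε < e1 →
      ∫ x in PP v, WW v C ε x * ‖dz (um v F 0 ε) x‖ ^ 2 ≤ C5 / ε ^ 2 * Mm v F (C5 * ε)) →
    (∀ η > 0, ∀ r0 > 0, ∃ r, 0 < r ∧ r < r0 ∧ Mm v F r ≤ η * r ^ 2) →
    (∀ᵐ x, x ∈ PP v → qf F x = 0) ∨ (∀ᵐ x, x ∈ PP v → qf F x = 1)

/-- (AREA) -/
def StArea : Prop := ∀ (n : ℕ) (v : Fin n → ℂ), 3 ≤ n → ConvexIndependent ℝ v →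
  ∃ c r1 : ℝ, 0 < c ∧ 0 < r1 ∧ ∀ r, 0 < r → r < r1 → c * r ^ 2 ≤ (volume (Vr v r)).toReal

/-- (V) an invariant function which is not mixed at the vertices is constant. -/
def StV : Prop := ∀ (n : ℕ) (v : Fin n → ℂ), 3 ≤ n → ConvexIndependent ℝ v → ∀ F, LFS v F →
    (∀ η > 0, ∀ r0 > 0, ∃ r, 0 < r ∧ r < r0 ∧ Mm v F r ≤ η * r ^ 2) →
    (∀ᵐ x, x ∈ PP v → qf F x = 0) ∨ (∀ᵐ x, x ∈ PP v → qf F x = 1)

end Pool.Agent.Lib.BilD
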