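import Pool.Agent.Lib.MP_7bc51d_an_dense.Defs
import Pool.Agent.Lib.MP_7bc51d_an_top.All

/-!
# Almost every orbit closure contains all rays of a vertex; transitivity: row statements
-/

set_option autoImplicit false

namespace Pool.Agent.Lib.BilD

open Complex MeasureTheory Set Filter Topology
open scoped ComplexConjugate
open Pool.Agent.Lib.Bil Pool.Agent.Lib.BTop

/-- (COR) an open invariant set of lines containing almost all rays of a vertex contains, for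
almost every direction, all lines close to the vertex. -/
def StCor : Prop := ∀ (n : ℕ), 3 ≤ n → ∀ v : Fin n → ℂ, ConvexIndependent ℝ v →
  ∀ S : Set (ℂ × ℝ), XL v S → IsOpen S → ∀ k, VX v S k →
    ∀ᵐ w : ℂ, ∃ δ > 0, ∀ x ∈ PP v, ‖x - v k‖ < δ → (w, cr w x) ∈ S

/-- (DOM) a function with limit `0` or `1` at every vertex is not mixed at the vertices. -/
def StDom : Prop := ∀ (n : ℕ), 3 ≤ n → ∀ v : Fin n → ℂ, ConvexIndependent ℝ v →
  ∀ F, LFS v F →
    (∀ k, (∀ᵐ w : ℂ, ∃ δ > 0, ∀ x ∈ PP v, ‖x - v k‖ < δ → F w (cr w x) = 0) ∨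
      (∀ᵐ w : ℂ, ∃ δ > 0, ∀ x ∈ PP v, ‖x - v k‖ < δ → F w (cr w x) = 1)) →
    ∀ η > 0, ∀ r0 > 0, ∃ r, 0 < r ∧ r < r0 ∧ Mm v F r ≤ η * r ^ 2

/-- (NULL) an open invariant set of lines containing almost all rays of every vertex is conull. -/
def StNull : Prop := ∀ (n : ℕ), 3 ≤ n → ∀ v : Fin n → ℂ, ConvexIndependent ℝ v →
  ∀ S : Set (ℂ × ℝ), XL v S → IsOpen S → (∀ k, VX v S k) →
    ∀ᵐ p : ℂ × ℂ, p ∈ Ph v → ln p ∈ S

/-- (TOP) almost every orbit closure contains the generic orbit closure of some vertex. -/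
def StTop : Prop := ∀ (n : ℕ), 3 ≤ n → ∀ v : Fin n → ℂ, ConvexIndependent ℝ v → Irr v →
  ∀ᵐ p : ℂ × ℂ, p ∈ Ph v → ∃ k, CP v k ⊆ closure (orb v p)

/-- (T) two disjoint nonempty open invariant sets leave out a vertex. -/
def StT : Prop := ∀ (n : ℕ), 3 ≤ n → ∀ v : Fin n → ℂ, ConvexIndependent ℝ v →
  ∀ U W : Set (ℂ × ℝ), XL v U → XL v W → IsOpen U → IsOpen W → U.Nonempty → W.Nonempty →
    Disjoint U W → ∃ k, ¬ VX v U k ∧ ¬ VX v W k

end Pool.Agent.Lib.BilD
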