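import Pool.Agent.Lib.MP_7bc51d_an_dense.Defs2
import Pool.Agent.Lib.MP_7bc51d_an_slice.Mir57
import Pool.Agent.Lib.MP_7bc51d_an_slice.Sym57

/-!
# Topological transitivity for polygons with a hidden symmetry: row statements
-/

set_option autoImplicit false

namespace Pool.Agent.Lib.BilD

open Complex MeasureTheory Set Filter Topology
open scoped ComplexConjugate
open Pool.Agent.Lib.Bil Pool.Agent.Lib.BTop Pool.Agent.Lib.BilU

/-- Any two nonempty open invariant sets of lines meet. -/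
def TransL {n : ℕ} (v : Fin n → ℂ) : Prop := ∀ U W : Set (ℂ × ℝ), XL v U → XL v W →
  IsOpen U → IsOpen W → U.Nonempty → W.Nonempty → (U ∩ W).Nonempty

/-- `Φ` is a symmetry of all open invariant sets of lines, and moves the vertices by `σ`. -/
structure Sy {n : ℕ} (v : Fin n → ℂ) (Φ : ℂ × ℝ → ℂ × ℝ) (σ : Fin n → Fin n) : Prop where
  cont : Continuous Φ
  inv : ∀ p, Φ (Φ p) = p
  mm : ∀ p, p ∈ MM v → Φ p ∈ MM v
  vert : ∀ U : Set (ℂ × ℝ), (∀ p, Φ p ∈ U ↔ p ∈ U) → ∀ k, VX v U k → VX v U (σ k)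
  sy : ∀ U : Set (ℂ × ℝ), XL v U → IsOpen U → ∀ p ∈ U, Φ p ∈ closure U

/-- (CLS) two symmetry classes of vertices. -/
def StCls : Prop := ∀ (n : ℕ), 3 ≤ n → ∀ v : Fin n → ℂ, ConvexIndependent ℝ v → Irr v →
  ∀ (Φ : ℂ × ℝ → ℂ × ℝ) (σ : Fin n → Fin n), Sy v Φ σ → (∀ k, σ (σ k) = k) →
    (∃ i j, ∀ k, k = i ∨ k = σ i ∨ k = j ∨ k = σ j) → TransL v

/-- (PAR) parallelograms. -/
def StPar : Prop := ∀ v : Fin 4 → ℂ, ConvexIndependent ℝ v → v 0 + v 2 = v 1 + v 3 →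
  Sy v (fun p => (p.1, 2 * cr p.1 (cen v) - p.2)) (fun i => i + 2)

/-- (MIR) isosceles triangles and trapezoids. -/
def StMir : Prop := ∀ (n : ℕ) (hn : 3 ≤ n) (v : Fin n → ℂ) (hv : ConvexIndependent ℝ v)
  (b c : ℂ), b ≠ 0 → ∀ σ : Fin n → Fin n, (∀ i, v (σ i) = Rm b c (v i)) →
    ∀ p q : Fin n, p ≠ q → (∀ i, i ≠ p → i ≠ q → σ i = nxt hn hv i) →
    Sy v (fun p => (rl b p.1, cr (rl b p.1) c + p.2 - cr p.1 c)) σ

/-- Transitivity in the phase space. -/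
def TransP {n : ℕ} (v : Fin n → ℂ) : Prop :=
  (∀ A B : Set (ℂ × ℂ), EI v A → EI v B → IsOpen (A ∩ Ph v) → IsOpen (B ∩ Ph v) →
    (A ∩ Ph v).Nonempty → (B ∩ Ph v).Nonempty → (A ∩ B ∩ Ph v).Nonempty) ∧
  (∃ G : Set (ℂ × ℂ), IsGδ G ∧ Ph v ⊆ closure G ∧ ∀ p ∈ G, p ∈ Ph v →
    Ph v ⊆ closure (orb v p)) ∧
  ∃ k, ∀ᵐ x : ℂ, x ∈ PP v → Ph v ⊆ closure (orb v (x, x - v k))

/-- (TRA) from lines to the phase space. -/
def StTra : Prop := ∀ (n : ℕ), 3 ≤ n → ∀ v : Fin n → ℂ, ConvexIndependent ℝ v → Irr v →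
  TransL v → TransP v

/-- (RIGHT) right triangles, by doubling. -/
def StRight : Prop := ∀ v : Fin 3 → ℂ, ConvexIndependent ℝ v →
  ((v 1 - v 0) * conj (v 2 - v 0)).re = 0 →
    (∀ m : ℕ, 0 < m → (((v 0 - v 1) / (v 2 - v 1)) ^ m).im ≠ 0) → TransL v

end Pool.Agent.Lib.BilD
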