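import Pool.Agent.Lib.MP_7bc51d_an_dense.Basic
import Pool.Agent.Lib.MP_7bc51d_an_dense.Defs2
import Pool.Agent.Lib.MP_7bc51d_an_dense.Area5

set_option autoImplicit false

/-!
Rows DOM and NULL.
-/

namespace Pool.Agent.Lib.BilD.DomNull85

open Complex MeasureTheory Set Filter Topology
open scoped ComplexConjugate ENNReal
open Pool.Agent.Lib.Bil Pool.Agent.Lib.BTop Pool.Agent.Lib.BilD

variable {n : ℕ} {v : Fin n → ℂ} {F : ℂ → ℝ → ℝ}

/-- Points of the polygon at distance `< r` from the vertex `k`. -/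
def Vk (v : Fin n → ℂ) (k : Fin n) (r : ℝ) : Set ℂ := {x | x ∈ PP v ∧ ‖x - v k‖ < r}

theorem Vk_eq (k : Fin n) (r : ℝ) : Vk v k r = PP v ∩ Metric.ball (v k) r := by
  ext x
  simp only [Vk, mem_ofPred_eq, mem_inter_iff, Metric.mem_ball, dist_eq_norm]

theorem Vk_meas (k : Fin n) (r : ℝ) : MeasurableSet (Vk v k r) := by
  rw [Vk_eq]
  exact meas_PP.inter measurableSet_ball

theorem vol_Vk_lt (k : Fin n) (r : ℝ) : volume (Vk v k r) < ⊤ :=
  (measure_mono (fun _ h => h.1)).trans_lt vol_PP_lt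

theorem vol_Vk (k : Fin n) {r : ℝ} (hr : 0 < r) :
    (volume (Vk v k r)).toReal ≤ Real.pi * r ^ 2 := by
  have h1 : volume (Vk v k r) ≤ volume (Metric.ball (v k) r) := by
    rw [Vk_eq]
    exact measure_mono inter_subset_right
  have h3 := ENNReal.toReal_mono measure_ball_lt_top.ne h1
  rw [Complex.volume_ball, ENNReal.toReal_mul, ENNReal.toReal_pow,
    ENNReal.toReal_ofReal hr.le] at h3
  have e : ((NNReal.pi : ENNReal)).toReal = Real.pi := rfl
  rw [e] at h3
  linarith

/-- Admissible densities. -/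
structure DH (H : ℂ → ℝ → ℝ) : Prop where
  lf : LF H
  nn : ∀ w Q, 0 ≤ H w Q

variable {H : ℂ → ℝ → ℝ}

theorem meas_F2 (hF : LF H) : Measurable (fun p : ℂ × ℂ => H p.1 (cr p.1 p.2)) :=
  hF.meas.comp (measurable_fst.prodMk (continuous_cr.measurable))

theorem F_le (hF : LF H) (w : ℂ) (Q : ℝ) : H w Q ≤ 1 := (le_abs_self _).trans (hF.bd w Q)

theorem int_slice (hF : LF H) {Z : Set ℂ} (hZ : volume Z < ⊤) (w : ℂ) :
    IntegrableOn (fun x => H w (cr w x)) Z := by
  refine Measure.integrableOn_of_bounded (M := 1) hZ.ne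
    ((meas_F2 hF).comp (measurable_const.prodMk measurable_id)).aestronglyMeasurable
    (Eventually.of_forall (fun x => ?_))
  rw [Real.norm_eq_abs]
  exact hF.bd _ _

theorem qf_swap (hF : LF H) {Z : Set ℂ} (hZ : volume Z < ⊤) :
    ∫ x in Z, qf H x = (volume BV).toReal⁻¹ * ∫ w in BV, ∫ x in Z, H w (cr w x) := by
  unfold qf
  rw [integral_const_mul]
  congr 1
  rw [integral_integral_swap]
  have h1 : IsFiniteMeasure ((volume : Measure ℂ).restrict Z) :=
    ⟨by rw [Measure.restrict_apply_univ]; exact hZ⟩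
  have h2 : IsFiniteMeasure ((volume : Measure ℂ).restrict BV) :=
    ⟨by rw [Measure.restrict_apply_univ]; exact vol_BV⟩
  exact Integrable.of_bound (C := 1)
    ((meas_F2 hF).comp measurable_swap).aestronglyMeasurable
    (Eventually.of_forall (fun p => by
      rw [Real.norm_eq_abs]
      exact hF.bd _ _))

/-- Dominated convergence at one vertex. -/
theorem dom_one (hF : DH H) (k : Fin n)
    (h : ∀ᵐ w : ℂ, ∃ δ > 0, ∀ x ∈ PP v, ‖x - v k‖ < δ → H w (cr w x) = 0) {rj : ℕ → ℝ}
    (hrj0 : ∀ j, 0 < rj j) (hlim : Tendsto rj atTop (𝓝 0)) :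
    Tendsto (fun j => (rj j ^ 2)⁻¹ * ∫ x in Vk v k (rj j), qf H x) atTop (𝓝 0) := by
  set G : ℕ → ℂ → ℝ := fun j w => (rj j ^ 2)⁻¹ * ∫ x in Vk v k (rj j), H w (cr w x) with hG
  have hGm : ∀ j, AEStronglyMeasurable (G j) (volume.restrict BV) := by
    intro j
    have h1 : StronglyMeasurable (fun p : ℂ × ℂ => H p.1 (cr p.1 p.2)) :=
      (meas_F2 hF.lf).stronglyMeasurable
    exact ((h1.integral_prod_right (ν := volume.restrict (Vk v k (rj j)))).const_mul
      _).aestronglyMeasurable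
  have hGb : ∀ j w, ‖G j w‖ ≤ Real.pi := by
    intro j w
    have hr := hrj0 j
    have h1 : 0 ≤ ∫ x in Vk v k (rj j), H w (cr w x) := integral_nonneg (fun x => hF.nn _ _)
    have h2 : ∫ x in Vk v k (rj j), H w (cr w x) ≤ (volume (Vk v k (rj j))).toReal := by
      have h3 : ∫ x in Vk v k (rj j), H w (cr w x) ≤ ∫ _ in Vk v k (rj j), (1 : ℝ) :=
        setIntegral_mono (int_slice hF.lf (vol_Vk_lt k _) w)
          (integrableOn_const (vol_Vk_lt (v := v) k _).ne) (fun x => F_le hF.lf _ _)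
      rw [setIntegral_const, smul_eq_mul, mul_one] at h3
      exact h3
    have h3 := vol_Vk (v := v) k hr
    simp only [hG, Real.norm_eq_abs]
    rw [abs_of_nonneg (mul_nonneg (by positivity) h1), inv_mul_le_iff₀ (by positivity)]
    linarith
  have hG0 : ∀ᵐ w ∂(volume.restrict BV), Tendsto (fun j => G j w) atTop (𝓝 0) := by
    apply ae_restrict_of_ae
    filter_upwards [h] with w hw
    obtain ⟨δ, hδ, hw⟩ := hw
    have h1 : ∀ᶠ j in atTop, rj j < δ := hlim.eventually (gt_mem_nhds hδ)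
    refine tendsto_const_nhds.congr' ?_
    filter_upwards [h1] with j hj
    simp only [hG]
    have h2 : ∫ x in Vk v k (rj j), H w (cr w x) = 0 := by
      have h3 : ∫ x in Vk v k (rj j), H w (cr w x) = ∫ x in Vk v k (rj j), (0 : ℝ) := by
        refine setIntegral_congr_fun (Vk_meas k _) (fun x hx => ?_)
        exact hw x hx.1 (hx.2.trans hj)
      rw [h3, integral_zero]
    rw [h2, mul_zero]
  have hint : Tendsto (fun j => ∫ w in BV, G j w) atTop (𝓝 0) := by
    have h1 := tendsto_integral_of_dominated_convergence (fun _ => Real.pi)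
      hGm (integrableOn_const vol_BV.ne) (fun j => Eventually.of_forall (fun w => hGb j w)) hG0
    rwa [integral_zero] at h1
  have h2 := hint.const_mul ((volume BV).toReal⁻¹)
  rw [mul_zero] at h2
  refine h2.congr (fun j => ?_)
  rw [qf_swap hF.lf (vol_Vk_lt k _)]
  simp only [hG]
  rw [integral_const_mul]
  ring

theorem dh_of (hF : LFS v F) : DH F := ⟨hF.lf, hF.nn⟩

theorem dh_compl (hF : LFS v F) : DH (fun w Q => 1 - F w Q) where
  lf := ⟨measurable_const.sub hF.lf.meas, fun w Q => by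
    have h1 := hF.nn w Q
    have h2 := F_le hF.lf w Q
    rw [abs_of_nonneg (by linarith)]
    linarith⟩
  nn := fun w Q => by
    have h2 := F_le hF.lf w Q
    linarith

theorem qf_compl (hF : LFS v F) (x : ℂ) : qf (fun w Q => 1 - F w Q) x = 1 - qf F x := by
  have hpos := vol_BV_pos
  have h1 : IntegrableOn (fun w => F w (cr w x)) BV :=
    intOn_ball (F_meas_x hF.lf x) (C := 1) (fun w _ => hF.lf.bd _ _)
  have h2 : IntegrableOn (fun _ : ℂ => (1 : ℝ)) BV := integrableOn_const vol_BV.ne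
  unfold qf
  rw [integral_sub h2 h1, setIntegral_const, smul_eq_mul, mul_one, Measure.real, mul_sub,
    inv_mul_cancel₀ hpos.ne']

theorem qf_nn (hF : DH H) (x : ℂ) : 0 ≤ qf H x := by
  unfold qf
  exact mul_nonneg (by positivity) (integral_nonneg (fun w => hF.nn _ _))

theorem qf_int (hF : LF H) {Z : Set ℂ} (hZ : volume Z < ⊤) : IntegrableOn (qf H) Z := by
  have hm : Measurable (qf H) := by
    have h1 : StronglyMeasurable (fun p : ℂ × ℂ => H p.2 (cr p.2 p.1)) :=
      ((meas_F2 hF).comp measurable_swap).stronglyMeasurable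
    have h2 : Measurable (fun x => ∫ w in BV, H w (cr w x)) :=
      (h1.integral_prod_right (ν := volume.restrict BV)).measurable
    exact h2.const_mul _
  refine Measure.integrableOn_of_bounded (M := 1) hZ.ne hm.aestronglyMeasurable
    (Eventually.of_forall (fun x => ?_))
  have hpos := vol_BV_pos
  unfold qf
  rw [norm_mul, norm_inv, Real.norm_eq_abs, abs_of_pos hpos, inv_mul_le_iff₀ hpos, mul_one]
  have h3 := norm_setIntegral_le_of_norm_le_const (μ := volume) (s := BV)
    (f := fun w => H w (cr w x)) (C := 1) vol_BV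
    (fun w _ => by rw [Real.norm_eq_abs]; exact hF.bd _ _)
  rw [one_mul] at h3
  exact h3

/-- (DOM) -/
theorem dom : StDom := by
  intro n hn v hv F hF h η hη r0 hr0
  set rj : ℕ → ℝ := fun j => r0 / ((j : ℝ) + 2) with hrj
  have hrj0 : ∀ j, 0 < rj j := fun j => by simp only [hrj]; positivity
  have hrjlt : ∀ j, rj j < r0 := by
    intro j
    simp only [hrj]
    rw [div_lt_iff₀ (by positivity)]
    have : (0 : ℝ) ≤ j := Nat.cast_nonneg j
    nlinarith
  have hlim : Tendsto rj atTop (𝓝 0) := by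
    simp only [hrj]
    apply Tendsto.div_atTop tendsto_const_nhds
    exact tendsto_atTop_add_const_right _ _ tendsto_natCast_atTop_atTop
  -- one density for every vertex
  have hk : ∀ k, ∃ H : ℂ → ℝ → ℝ, DH H ∧ (∀ x, qd F x ≤ qf H x) ∧
      ∀ᵐ w : ℂ, ∃ δ > 0, ∀ x ∈ PP v, ‖x - v k‖ < δ → H w (cr w x) = 0 := by
    intro k
    rcases h k with h1 | h1
    · exact ⟨F, dh_of hF, fun x => qd_le_qf hF x, h1⟩
    · refine ⟨_, dh_compl hF, fun x => ?_, ?_⟩
      · rw [qf_compl hF]
        unfold qd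
        have a1 := qf_nonneg hF x
        have a2 := qf_le hF x
        nlinarith
      · filter_upwards [h1] with w hw
        obtain ⟨δ, hδ, hw⟩ := hw
        exact ⟨δ, hδ, fun x hx hxk => by rw [hw x hx hxk, sub_self]⟩
  choose Hk hDH hle hae using hk
  have hsum : Tendsto (fun j => ∑ k, (rj j ^ 2)⁻¹ * ∫ x in Vk v k (rj j), qf (Hk k) x) atTop
      (𝓝 0) := by
    have h1 := tendsto_finsetSum (Finset.univ : Finset (Fin n))
      (fun k _ => dom_one (hDH k) k (hae k) hrj0 hlim)
    rwa [Finset.sum_const_zero] at h1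
  obtain ⟨j, hj⟩ := (hsum.eventually (gt_mem_nhds hη)).exists
  refine ⟨rj j, hrj0 j, hrjlt j, ?_⟩
  have hr := hrj0 j
  rw [← Finset.mul_sum, inv_mul_lt_iff₀ (by positivity)] at hj
  have hfin : Mm v F (rj j) ≤ ∑ k, ∫ x in Vk v k (rj j), qf (Hk k) x := by
    have e1 : Vr v (rj j) ⊆ ⋃ k ∈ (Finset.univ : Finset (Fin n)), Vk v k (rj j) := by
      rintro x ⟨hx, k, hk⟩
      simp only [Finset.mem_univ, iUnion_true, mem_iUnion]
      exact ⟨k, hx, hk⟩
    have h1 : Mm v F (rj j) ≤ ∑ k, ∫ x in Vk v k (rj j), qd F x := by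
      unfold Mm
      have e2 : ∀ k, ∫ x in Vk v k (rj j), qd F x = ∫ x, (Vk v k (rj j)).indicator (qd F) x :=
        fun k => (integral_indicator (Vk_meas k _)).symm
      have e3 : ∀ k, Integrable ((Vk v k (rj j)).indicator (qd F)) := fun k =>
        (integrable_indicator_iff (Vk_meas k _)).2 (qd_intOn hF (vol_Vk_lt k _))
      simp_rw [e2]
      rw [← integral_finsetSum _ (fun k _ => e3 k), ← integral_indicator (Vr_meas _)]
      refine integral_mono ((integrable_indicator_iff (Vr_meas _)).2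
        (qd_intOn hF (vol_Vr_lt _))) (integrable_finsetSum _ (fun k _ => e3 k)) (fun x => ?_)
      simp only
      have hnn : ∀ k, 0 ≤ (Vk v k (rj j)).indicator (qd F) x := fun k =>
        indicator_nonneg (fun y _ => qd_nonneg hF y) x
      by_cases hx : x ∈ Vr v (rj j)
      · rw [indicator_of_mem hx]
        obtain ⟨hxP, k, hk⟩ := hx
        have h5 : (Vk v k (rj j)).indicator (qd F) x = qd F x :=
          indicator_of_mem (show x ∈ Vk v k (rj j) from ⟨hxP, hk⟩) _
        rw [← h5]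
        exact Finset.single_le_sum (f := fun k => (Vk v k (rj j)).indicator (qd F) x)
          (fun k _ => hnn k) (Finset.mem_univ k)
      · rw [indicator_of_notMem hx]
        exact Finset.sum_nonneg (fun k _ => hnn k)
    refine h1.trans (Finset.sum_le_sum (fun k _ => ?_))
    exact setIntegral_mono (qd_intOn hF (vol_Vk_lt k _)) (qf_int (hDH k).lf (vol_Vk_lt k _))
      (hle k)
  linarith

/-! ### NULL -/

/-- The line function of the complement of `S`. -/
noncomputable def FS (v : Fin n → ℂ) (S : Set (ℂ × ℝ)) (w : ℂ) (Q : ℝ) : ℝ :=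
  (MM v \ S).indicator 1 (w, Q)

theorem FS_congr {S : Set (ℂ × ℝ)} {p q : ℂ × ℝ} (h : p ∈ MM v \ S ↔ q ∈ MM v \ S) :
    FS v S p.1 p.2 = FS v S q.1 q.2 := by
  unfold FS
  by_cases hp : p ∈ MM v \ S
  · rw [indicator_of_mem (show (p.1, p.2) ∈ MM v \ S from hp),
      indicator_of_mem (show (q.1, q.2) ∈ MM v \ S from h.1 hp)]
    rfl
  · rw [indicator_of_notMem (show (p.1, p.2) ∉ MM v \ S from hp),
      indicator_of_notMem (show (q.1, q.2) ∉ MM v \ S from fun hq => hp (h.2 hq))]

theorem FS_sym (hn : 3 ≤ n) (hv : ConvexIndependent ℝ v) {S : Set (ℂ × ℝ)} (hS : XL v S)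
    {s : Fin n × Fin n} (hs : IsSide v s.1 s.2) {w : ℂ} (hw : cr w (ed v s) ≠ 0) {τ : ℝ}
    (hτ : τ ∈ Ioo (0 : ℝ) 1) :
    FS v S (rl (ed v s) w) (cr (rl (ed v s) w) (v s.1 + (τ : ℂ) * ed v s)) =
      FS v S w (cr w (v s.1 + (τ : ℂ) * ed v s)) := by
  have hne : v s.2 - v s.1 ≠ 0 := v_sub_ne hv hs.ne
  obtain ⟨-, -, h3, -⟩ := BTop.stmtE n hn v hv
  have hL : XL v (MM v \ S) := h3 S hS
  have hfix : RR v s.1 s.2 (v s.1 + (τ : ℂ) * ed v s) = v s.1 + (τ : ℂ) * ed v s := RR_line hne τ
  have key : ∀ w : ℂ, 0 < cr w (ed v s) →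
      FS v S (rl (ed v s) w) (cr (rl (ed v s) w) (v s.1 + (τ : ℂ) * ed v s)) =
        FS v S w (cr w (v s.1 + (τ : ℂ) * ed v s)) := by
    intro w hw
    have e1 : RL v s (w, cr w (v s.1 + (τ : ℂ) * ed v s)) =
        (rl (ed v s) w, cr (rl (ed v s) w) (v s.1 + (τ : ℂ) * ed v s)) := by
      unfold RL
      simp only
      rw [← rfh_eq s hne w, hfix]
      rfl
    have hex : (w, cr w (v s.1 + (τ : ℂ) * ed v s)) ∈ EX v s := by
      refine ⟨?_, ?_⟩
      · simp only
        rw [cr_add_right, cr_smul_right]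
        have := mul_pos hτ.1 hw
        linarith
      · simp only
        have e2 : v s.2 = v s.1 + ed v s := by unfold ed; ring
        rw [cr_add_right, cr_smul_right]
        conv_rhs => rw [e2, cr_add_right]
        have := mul_lt_mul_of_pos_right hτ.2 hw
        linarith
    have h1 := hL.sym s hs _ hex
    rw [e1] at h1
    exact FS_congr h1
  rcases lt_or_gt_of_ne hw with h | h
  · have h4 : 0 < cr (rl (ed v s) w) (ed v s) := by
      have := cr_rl_left (e := ed v s) hne w
      rw [this]; linarith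
    have h5 := key (rl (ed v s) w) h4
    rw [rl_rl (a := ed v s) hne] at h5
    exact h5.symm
  · exact key w h

theorem lfs_FS (hn : 3 ≤ n) (hv : ConvexIndependent ℝ v) {S : Set (ℂ × ℝ)} (hS : XL v S)
    (ho : IsOpen S) : LFS v (FS v S) := by
  obtain ⟨-, hMM, -⟩ := BTop.stmtE n hn v hv
  have hm : MeasurableSet (MM v \ S) := hMM.measurableSet.diff ho.measurableSet
  have h01 : ∀ w Q, FS v S w Q = 0 ∨ FS v S w Q = 1 := by
    intro w Q
    unfold FS
    by_cases h : (w, Q) ∈ MM v \ S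
    · right; rw [indicator_of_mem h]; rfl
    · left; rw [indicator_of_notMem h]
  refine ⟨⟨?_, fun w Q => ?_⟩, fun w Q => ?_, fun s hs => ?_⟩
  · have e : (fun p : ℂ × ℝ => FS v S p.1 p.2) = (MM v \ S).indicator 1 := by
      funext p; rfl
    rw [e]
    exact measurable_one.indicator hm
  · rcases h01 w Q with h | h
    · rw [h]; simp
    · rw [h]; simp
  · rcases h01 w Q with h | h
    · rw [h]
    · rw [h]; exact zero_le_one
  · have hs' := mem_SD.1 hs
    have hne : v s.2 - v s.1 ≠ 0 := v_sub_ne hv hs'.ne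
    have h1 : ∀ᵐ w : ℂ, cr w (ed v s) ≠ 0 := ae_cr_ne _ hne
    unfold SymAt
    filter_upwards [h1] with w hw
    exact Eventually.of_forall (fun τ hτ => FS_sym hn hv hS hs' hw hτ)

/-- (NULL) -/
theorem null (hV : StV) (hC : StCor) (hD : StDom) : StNull := by
  intro n hn v hv S hS ho hk
  have hF := lfs_FS hn hv hS ho
  have h0k : ∀ k, ∀ᵐ w : ℂ, ∃ δ > 0, ∀ x ∈ PP v, ‖x - v k‖ < δ → FS v S w (cr w x) = 0 := by
    intro k
    filter_upwards [hC n hn v hv S hS ho k (hk k)] with w hw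
    obtain ⟨δ, hδ, hw⟩ := hw
    refine ⟨δ, hδ, fun x hx hxk => ?_⟩
    unfold FS
    exact indicator_of_notMem (fun h => h.2 (hw x hx hxk)) _
  have hpos := vol_BV_pos
  have h2 : ∀ᵐ x, x ∈ PP v → ∫ w in BV, FS v S w (cr w x) = 0 := by
    rcases hV n v hn hv _ hF (hD n hn v hv _ hF (fun k => Or.inl (h0k k))) with h | h
    · filter_upwards [h] with x hx hxP
      have h3 := hx hxP
      unfold qf at h3
      exact (mul_eq_zero.1 h3).resolve_left (inv_ne_zero hpos.ne')
    · -- impossible: near a vertex the density vanishes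
      exfalso
      have k : Fin n := ⟨0, by omega⟩
      obtain ⟨c, r1, hc, hr1, hA⟩ := Area5.area hn hv
      have hrj0 : ∀ j : ℕ, 0 < r1 / ((j : ℝ) + 2) := fun j => by positivity
      have hlim : Tendsto (fun j : ℕ => r1 / ((j : ℝ) + 2)) atTop (𝓝 0) := by
        apply Tendsto.div_atTop tendsto_const_nhds
        exact tendsto_atTop_add_const_right _ _ tendsto_natCast_atTop_atTop
      have h4 := dom_one (dh_of hF) k (h0k k) hrj0 hlim
      obtain ⟨j, hj⟩ := (h4.eventually (gt_mem_nhds hc)).exists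
      have hr := hrj0 j
      have hlt : r1 / ((j : ℝ) + 2) < r1 := by
        rw [div_lt_iff₀ (by positivity)]
        have : (0 : ℝ) ≤ j := Nat.cast_nonneg j
        nlinarith
      have b1 : ∫ x in Vk v k (r1 / ((j : ℝ) + 2)), qf (FS v S) x =
          ∫ x in Vk v k (r1 / ((j : ℝ) + 2)), (1 : ℝ) := by
        refine setIntegral_congr_ae (Vk_meas k _) ?_
        filter_upwards [h] with x hx hxV
        exact hx hxV.1
      rw [b1, setIntegral_const, smul_eq_mul, mul_one, Measure.real,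
        inv_mul_lt_iff₀ (by positivity)] at hj
      have b2 := hA k _ hr hlt
      have b3 : (volume (Vk v k (r1 / ((j : ℝ) + 2)))).toReal < (r1 / ((j : ℝ) + 2)) ^ 2 * c := hj
      have b4 : c * (r1 / ((j : ℝ) + 2)) ^ 2 ≤
        (volume (Vk v k (r1 / ((j : ℝ) + 2)))).toReal := b2
      linarith
  -- almost all points
  have h3 : ∀ᵐ x : ℂ, x ∈ PP v → ∀ᵐ w : ℂ, ‖w‖ < 1 → (w, cr w x) ∉ MM v \ S := by
    filter_upwards [h2] with x hx hxP
    have h4 := hx hxP
    have h5 : IntegrableOn (fun w => FS v S w (cr w x)) BV := by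
      refine intOn_ball (F_meas_x hF.lf x) (C := 1) (fun w _ => hF.lf.bd _ _)
    rw [setIntegral_eq_zero_iff_of_nonneg_ae
      (Eventually.of_forall (fun w => hF.nn _ _)) h5] at h4
    have h6 := (ae_restrict_iff' (measurableSet_ball)).1 h4
    filter_upwards [h6] with w hw hwb hmem
    have h7 := hw (by rw [Metric.mem_ball, dist_zero_right]; exact hwb)
    simp only [Pi.zero_apply, FS] at h7
    rw [indicator_of_mem hmem] at h7
    exact one_ne_zero h7
  have hL : XL v (MM v \ S) := by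
    obtain ⟨-, -, h3, -⟩ := BTop.stmtE n hn v hv
    exact h3 S hS
  have h4 : ∀ᵐ x : ℂ, x ∈ PP v → ∀ᵐ w : ℂ, (w, cr w x) ∉ MM v \ S := by
    filter_upwards [h3] with x hx hxP
    refine ae_of_ae_ball (D := fun w => (w, cr w x) ∉ MM v \ S) (fun z r hr => ?_) (hx hxP)
    have := hL.cone r hr (z, cr z x)
    simp only at this
    rw [← cr_smul_left] at this
    exact not_congr this.symm
  have hMM : IsOpen (MM v) := (BTop.stmtE n hn v hv).2.1
  have hm : MeasurableSet {p : ℂ × ℂ | p ∈ Ph v → ln p ∈ S} := by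
    have h5 : MeasurableSet (Ph v) := by
      have : Ph v = PP v ×ˢ {0}ᶜ := by
        ext p; rfl
      rw [this]
      exact isOpen_PP.measurableSet.prod (measurableSet_singleton 0).compl
    have h6 : Measurable ln := by
      unfold ln
      exact measurable_snd.prodMk (continuous_cr.comp (continuous_snd.prodMk
        continuous_fst)).measurable
    have e : {p : ℂ × ℂ | p ∈ Ph v → ln p ∈ S} = (Ph v)ᶜ ∪ ln ⁻¹' S := by
      ext p
      simp only [mem_ofPred_eq, mem_union, mem_compl_iff, mem_preimage]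
      tauto
    rw [e]
    exact h5.compl.union (h6 ho.measurableSet)
  have h7 : ∀ᵐ x : ℂ, ∀ᵐ w : ℂ, (x, w) ∈ Ph v → ln (x, w) ∈ S := by
    filter_upwards [h4] with x hx
    by_cases hxP : x ∈ PP v
    · filter_upwards [hx hxP] with w hw hPh
      by_contra hcon
      exact hw ⟨⟨hPh.2, x, hxP, rfl⟩, hcon⟩
    · exact Eventually.of_forall (fun w hPh => absurd hPh.1 hxP)
  exact (Measure.ae_prod_mem_iff_ae_ae_mem hm).2 h7

end Pool.Agent.Lib.BilD.DomNull85
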