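import Pool.Agent.Lib.MP_7bc51d_an_dense.Basic

set_option autoImplicit false

namespace Pool.Agent.Lib.BilD.Tel74

open Complex MeasureTheory Set Filter Topology
open scoped ComplexConjugate
open Pool.Agent.Lib.Bil Pool.Agent.Lib.BilD

variable {n : ℕ} {v : Fin n → ℂ} {F : ℂ → ℝ → ℝ} {C e0 ε : ℝ}

theorem dz_cont {u : ℂ → ℂ} (hu : ContDiff ℝ 2 u) : Continuous (dz u) := by
  have h : Continuous (fderiv ℝ u) := hu.continuous_fderiv (by norm_num)
  unfold dz
  have h1 : Continuous (fun x => fderiv ℝ u x 1) := h.clm_apply continuous_const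
  have h2 : Continuous (fun x => fderiv ℝ u x I) := h.clm_apply continuous_const
  fun_prop

theorem dzb_cont {u : ℂ → ℂ} (hu : ContDiff ℝ 2 u) : Continuous (dzb u) := by
  have h : Continuous (fderiv ℝ u) := hu.continuous_fderiv (by norm_num)
  unfold dzb
  have h1 : Continuous (fun x => fderiv ℝ u x 1) := h.clm_apply continuous_const
  have h2 : Continuous (fun x => fderiv ℝ u x I) := h.clm_apply continuous_const
  fun_prop

theorem dz_le {u : ℂ → ℂ} (x : ℂ) : ‖dz u x‖ ≤ ‖fderiv ℝ u x‖ := by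
  unfold dz
  have h1 : ‖fderiv ℝ u x 1‖ ≤ ‖fderiv ℝ u x‖ := by
    have := (fderiv ℝ u x).le_opNorm 1
    simpa using this
  have h2 : ‖fderiv ℝ u x I‖ ≤ ‖fderiv ℝ u x‖ := by
    have := (fderiv ℝ u x).le_opNorm I
    simpa using this
  have h3 : ‖fderiv ℝ u x 1 - I * fderiv ℝ u x I‖ ≤ ‖fderiv ℝ u x 1‖ + ‖fderiv ℝ u x I‖ := by
    refine (norm_sub_le _ _).trans ?_
    rw [norm_mul, norm_I, one_mul]
  rw [norm_div]
  simp only [RCLike.norm_ofNat]
  linarith

theorem intOn_cont {g : ℂ → ℝ} (hg : Continuous g) : IntegrableOn g (PP v) := by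
  have h1 : IntegrableOn g (KK v) := hg.continuousOn.integrableOn_compact isCompact_KK
  exact h1.mono_set PP_sub_KK

theorem Jf_cont {W : ℂ → ℝ} {u : ℂ → ℂ} (hu : ContDiff ℝ 2 u) (hW : ContDiff ℝ 2 W) :
    Continuous (Jf W u) := by
  have h : Continuous (fderiv ℝ u) := hu.continuous_fderiv (by norm_num)
  have hW' : Continuous (fderiv ℝ W) := hW.continuous_fderiv (by norm_num)
  have h1 : Continuous (fun x => fderiv ℝ u x 1) := h.clm_apply continuous_const
  have h2 : Continuous (fun x => fderiv ℝ u x I) := h.clm_apply continuous_const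
  have h3 : Continuous (fun x => fderiv ℝ W x 1) := hW'.clm_apply continuous_const
  have h4 : Continuous (fun x => fderiv ℝ W x I) := hW'.clm_apply continuous_const
  have h5 : Continuous u := hu.continuous
  have h6 : Continuous (fun x => (conj (u x) * fderiv ℝ u x 1).im) :=
    continuous_im.comp ((continuous_conj.comp h5).mul h1)
  have h7 : Continuous (fun x => (conj (u x) * fderiv ℝ u x I).im) :=
    continuous_im.comp ((continuous_conj.comp h5).mul h2)
  unfold Jf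
  exact (h4.mul h6).sub (h3.mul h7)

theorem row (hSmo : StSmo) (hMode : StMode) (hBes : StBes) (hEI : StEI) (hSide : StSide)
    (hWP : StWP) (hFold : StFold) : StTel := by
  intro n v C e0 hn hv hG
  obtain ⟨C2, hC2, hB⟩ := hBes n v C e0 hG
  obtain ⟨C5, e1, hC5, he1, he10, hFo⟩ := hFold n v C e0 hG
  obtain ⟨hW, C3, hC3, hJ⟩ := hWP n v C e0 hG
  refine ⟨C5 + C3 * C2 * C5, e1, ?_, he1, he10, ?_⟩
  · have : 0 < C3 * C2 * C5 := by positivity
    linarith
  intro F hF ε hε hεe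
  have hεe0 : ε < e0 := hεe.trans_le he10
  have hC5p : 0 < C5 := lt_of_lt_of_le one_pos hC5
  obtain ⟨hWs, hW01, hWne, hW1⟩ := hW ε hε
  set W := WW v C ε with hWdef
  set u : ℕ → ℂ → ℂ := fun j => um v F (2 * j) ε with hu
  have hus : ∀ j, ContDiff ℝ 2 (u j) := fun j => (hSmo n v C e0 hG F hF ε hε (2 * j)).1
  set D : ℕ → ℝ := fun j => ∫ x in PP v, W x * ‖dz (u j) x‖ ^ 2 with hD
  set E : ℕ → ℝ := fun j => ∫ x in PP v, W x * ‖dzb (u j) x‖ ^ 2 with hE
  set R : ℕ → ℝ := fun j => 2⁻¹ * ∫ x in PP v, Jf W (u j) x with hR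
  have hWc : Continuous W := hWs.continuous
  -- (1) the ladder
  have h1 : ∀ j, D j = E (j + 1) := by
    intro j
    apply setIntegral_congr_fun meas_PP
    intro x hx
    simp only
    by_cases hw : W x = 0
    · rw [hw]; ring
    · have hGd : x ∈ Gd v C ε := ⟨fun s hs => ((hG.pp x).1 hx s hs).le, hWne x hw⟩
      have hm := hMode n v C e0 hG F hF ε hε hεe0 x hGd (2 * j)
      have hm2 : dz (u j) x = - dzb (u (j + 1)) x := by
        have : (2 * (j + 1)) = 2 * j + 2 := by ring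
        simp only [hu, this]
        exact eq_neg_of_add_eq_zero_left hm
      rw [hm2, norm_neg]
  -- (2) energy identity
  have h2 : ∀ j, D j - E j = R j := by
    intro j
    exact hEI n hn v hv (u j) W (hus j) (hWs.of_le (by norm_num))
      (fun s hs t ht => hSide n v C e0 hG hv F hF ε hε hεe0 s hs t ht (2 * j))
  -- (3) telescope
  have h3 : ∀ N, D 0 = D N - ∑ j ∈ Finset.range N, R (j + 1) := by
    intro N
    induction N with
    | zero => simp
    | succ N ih =>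
      rw [Finset.sum_range_succ, ih]
      have e1 := h1 N
      have e2 := h2 (N + 1)
      linarith
  -- the sets and majorants
  set Z : Set ℂ := {x | (∃ k, ‖x - v k‖ ≤ 2 * C * ε) ∧ ∀ k, C * ε ≤ ‖x - v k‖} with hZ
  set Z1 : Set ℂ := {x | ∃ k, ‖x - v k‖ ≤ 2 * C * ε} with hZ1
  have hZ1eq : Z1 = ⋃ k, Metric.closedBall (v k) (2 * C * ε) := by
    ext x
    simp only [hZ1, mem_ofPred_eq, mem_iUnion, Metric.mem_closedBall, dist_eq_norm]
  have hZm1 : MeasurableSet Z1 := by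
    rw [hZ1eq]
    exact MeasurableSet.iUnion (fun k => measurableSet_closedBall)
  have hZm2 : MeasurableSet {x : ℂ | ∀ k, C * ε ≤ ‖x - v k‖} := by
    have : {x : ℂ | ∀ k, C * ε ≤ ‖x - v k‖} = ⋂ k, {x : ℂ | C * ε ≤ ‖x - v k‖} := by
      ext x; simp
    rw [this]
    exact MeasurableSet.iInter (fun k =>
      (isClosed_le continuous_const (by fun_prop)).measurableSet)
  have hZm : MeasurableSet Z := by
    have : Z = Z1 ∩ {x : ℂ | ∀ k, C * ε ≤ ‖x - v k‖} := rfl
    rw [this]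
    exact hZm1.inter hZm2
  have hZv : volume Z1 < ⊤ := by
    have hcomp : IsCompact Z1 := by
      rw [hZ1eq]
      exact isCompact_iUnion (fun k => isCompact_closedBall _ _)
    exact hcomp.measure_lt_top
  have hNn0 : ∀ x, 0 ≤ Nn v F ε x := Nn_nonneg hF ε
  have hNnZ : IntegrableOn (Nn v F ε) Z1 := Nn_intOn hF ε hZv
  have hNnP : IntegrableOn (Nn v F ε) (PP v) := Nn_intOn hF ε vol_PP_lt
  -- (4) the boundary term
  have h4 : ∀ N, ∑ j ∈ Finset.range N, |R (j + 1)| ≤
      2⁻¹ * (C3 / ε) * (C2 / ε * (C5 * Mm v F (C5 * ε))) := by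
    intro N
    have ha : ∀ j, |R j| ≤ 2⁻¹ * ∫ x in PP v, |Jf W (u j) x| := by
      intro j
      rw [hR, abs_mul, abs_of_pos (by norm_num : (0 : ℝ) < 2⁻¹)]
      exact mul_le_mul_of_nonneg_left abs_integral_le_integral_abs (by norm_num)
    have hb : ∑ j ∈ Finset.range N, |R (j + 1)| ≤
        2⁻¹ * ∫ x in PP v, ∑ j ∈ Finset.range N, |Jf W (u (j + 1)) x| := by
      rw [integral_finsetSum _ (fun j _ => intOn_cont (Jf_cont (hus _) hWs).abs), Finset.mul_sum]
      exact Finset.sum_le_sum (fun j _ => ha (j + 1))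
    have hc : ∀ x ∈ PP v, ∑ j ∈ Finset.range N, |Jf W (u (j + 1)) x| ≤
        (C3 / ε) * (Z.indicator (fun x => C2 / ε * Nn v F ε x) x) := by
      intro x hxP
      have hd : ∑ j ∈ Finset.range N, |Jf W (u (j + 1)) x| ≤ ∑ j ∈ Finset.range N,
          (C3 / ε) * (Z.indicator (fun x => ‖u (j + 1) x‖ * ‖fderiv ℝ (u (j + 1)) x‖) x) :=
        Finset.sum_le_sum (fun j _ => hJ ε hε (u (j + 1)) x)
      refine hd.trans ?_
      rw [← Finset.mul_sum]
      apply mul_le_mul_of_nonneg_left _ (by positivity)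
      by_cases hx : x ∈ Z
      · simp only [indicator_of_mem hx]
        have hGd : x ∈ Gd v C ε := ⟨fun s hs => ((hG.pp x).1 hxP s hs).le, hx.2⟩
        obtain ⟨b3, b4⟩ := hB F hF ε hε hεe0 x hGd N
        have b5 : ∑ j ∈ Finset.range N, ‖u (j + 1) x‖ * ‖fderiv ℝ (u (j + 1)) x‖ ≤
            ∑ j ∈ Finset.range N, (2⁻¹ * ε⁻¹ * ‖u (j + 1) x‖ ^ 2 +
              2⁻¹ * ε * ‖fderiv ℝ (u (j + 1)) x‖ ^ 2) := by
          apply Finset.sum_le_sum
          intro j _
          have e1 : 2⁻¹ * ε⁻¹ * ‖u (j + 1) x‖ ^ 2 +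
              2⁻¹ * ε * ‖fderiv ℝ (u (j + 1)) x‖ ^ 2 - ‖u (j + 1) x‖ * ‖fderiv ℝ (u (j + 1)) x‖ =
              2⁻¹ * ε⁻¹ * (‖u (j + 1) x‖ - ε * ‖fderiv ℝ (u (j + 1)) x‖) ^ 2 := by
            field_simp
            ring
          have e2 : 0 ≤ 2⁻¹ * ε⁻¹ * (‖u (j + 1) x‖ - ε * ‖fderiv ℝ (u (j + 1)) x‖) ^ 2 := by
            positivity
          linarith
        rw [Finset.sum_add_distrib, ← Finset.mul_sum, ← Finset.mul_sum] at b5
        have b6 : 2⁻¹ * ε⁻¹ * ∑ j ∈ Finset.range N, ‖u (j + 1) x‖ ^ 2 ≤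
            2⁻¹ * ε⁻¹ * (C2 * Nn v F ε x) := mul_le_mul_of_nonneg_left b3 (by positivity)
        have b7 : 2⁻¹ * ε * ∑ j ∈ Finset.range N, ‖fderiv ℝ (u (j + 1)) x‖ ^ 2 ≤
            2⁻¹ * ε * (C2 / ε ^ 2 * Nn v F ε x) := mul_le_mul_of_nonneg_left b4 (by positivity)
        have b8 : 2⁻¹ * ε⁻¹ * (C2 * Nn v F ε x) + 2⁻¹ * ε * (C2 / ε ^ 2 * Nn v F ε x) =
            C2 / ε * Nn v F ε x := by
          field_simp
          ring
        linarith
      · simp only [indicator_of_notMem hx]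
        simp
    have hi1 : IntegrableOn (fun x => (C3 / ε) * (Z.indicator (fun x => C2 / ε * Nn v F ε x) x))
        (PP v) := ((hNnP.const_mul (C2 / ε)).indicator hZm).const_mul (C3 / ε)
    have hd : ∫ x in PP v, ∑ j ∈ Finset.range N, |Jf W (u (j + 1)) x| ≤
        ∫ x in PP v, (C3 / ε) * (Z.indicator (fun x => C2 / ε * Nn v F ε x) x) := by
      apply setIntegral_mono_on _ hi1 meas_PP hc
      exact integrable_finsetSum _ (fun j _ => intOn_cont (Jf_cont (hus _) hWs).abs)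
    have he : ∫ x in PP v, (C3 / ε) * (Z.indicator (fun x => C2 / ε * Nn v F ε x) x) ≤
        (C3 / ε) * (C2 / ε * (C5 * Mm v F (C5 * ε))) := by
      rw [integral_const_mul]
      apply mul_le_mul_of_nonneg_left _ (by positivity)
      rw [setIntegral_indicator hZm, integral_const_mul]
      apply mul_le_mul_of_nonneg_left _ (by positivity)
      calc ∫ x in PP v ∩ Z, Nn v F ε x ≤ ∫ x in Z1, Nn v F ε x := by
            apply setIntegral_mono_set hNnZ
            · exact Eventually.of_forall (fun x => hNn0 x)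
            · exact LE.le.eventuallyLE (fun x hx => hx.2.1)
        _ ≤ _ := hFo F hF ε hε hεe
    calc ∑ j ∈ Finset.range N, |R (j + 1)| ≤ _ := hb
      _ ≤ 2⁻¹ * ((C3 / ε) * (C2 / ε * (C5 * Mm v F (C5 * ε)))) :=
          mul_le_mul_of_nonneg_left (hd.trans he) (by norm_num)
      _ = _ := by ring
  -- (5) the energies tend to zero
  have h5 : ∀ N, ∑ j ∈ Finset.range N, D (j + 1) ≤ ∫ x in PP v, C2 / ε ^ 2 * Nn v F ε x := by
    intro N
    have hiD : ∀ j, IntegrableOn (fun x => W x * ‖dz (u (j + 1)) x‖ ^ 2) (PP v) := fun j =>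
      intOn_cont (hWc.mul ((dz_cont (hus (j + 1))).norm.pow 2))
    rw [← integral_finsetSum _ (fun j _ => hiD j)]
    apply setIntegral_mono_on (integrable_finsetSum _ (fun j _ => hiD j))
      (hNnP.const_mul _) meas_PP
    intro x hxP
    by_cases hw : W x = 0
    · simp only [hw, zero_mul, Finset.sum_const_zero]
      exact mul_nonneg (by positivity) (hNn0 x)
    have hGd : x ∈ Gd v C ε := ⟨fun s hs => ((hG.pp x).1 hxP s hs).le, hWne x hw⟩
    obtain ⟨_, b2⟩ := hB F hF ε hε hεe0 x hGd N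
    refine le_trans (Finset.sum_le_sum (fun j _ => ?_)) b2
    have := (hW01 x).2
    have h0 := (hW01 x).1
    calc W x * ‖dz (u (j + 1)) x‖ ^ 2 ≤ 1 * ‖fderiv ℝ (u (j + 1)) x‖ ^ 2 :=
          mul_le_mul this (pow_le_pow_left₀ (norm_nonneg _) (dz_le x) 2) (by positivity)
            zero_le_one
      _ = _ := one_mul _
  have hD0 : ∀ j, 0 ≤ D j := fun j =>
    integral_nonneg (fun x => mul_nonneg (hW01 x).1 (by positivity))
  have h6 : Tendsto D atTop (𝓝 0) := by
    have : Summable (fun j => D (j + 1)) := summable_of_sum_range_le (fun j => hD0 (j + 1)) h5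
    exact (tendsto_add_atTop_iff_nat 1).1 this.tendsto_atTop_zero
  -- conclusion
  set B : ℝ := 2⁻¹ * (C3 / ε) * (C2 / ε * (C5 * Mm v F (C5 * ε))) with hBdef
  have h7 : D 0 ≤ B := by
    have h8 : ∀ N, D 0 ≤ D N + B := by
      intro N
      have e1 := h3 N
      have e2 : |∑ j ∈ Finset.range N, R (j + 1)| ≤ ∑ j ∈ Finset.range N, |R (j + 1)| :=
        Finset.abs_sum_le_sum_abs _ _
      have e3 := h4 N
      have e4 := neg_abs_le (∑ j ∈ Finset.range N, R (j + 1))
      linarith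
    have h9 : Tendsto (fun N => D N + B) atTop (𝓝 (0 + B)) := h6.add_const B
    have := ge_of_tendsto h9 (Eventually.of_forall h8)
    simpa using this
  have hM0 : 0 ≤ Mm v F (C5 * ε) := Mm_nonneg hF _
  have hMm : Mm v F (C5 * ε) ≤ Mm v F ((C5 + C3 * C2 * C5) * ε) := by
    apply Mm_mono hF
    apply mul_le_mul_of_nonneg_right _ hε.le
    have : 0 < C3 * C2 * C5 := by positivity
    linarith
  have h10 : B ≤ (C5 + C3 * C2 * C5) / ε ^ 2 * Mm v F (C5 * ε) := by
    have e1 : (C5 + C3 * C2 * C5) / ε ^ 2 * Mm v F (C5 * ε) - B =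
        (C5 / ε ^ 2 + 2⁻¹ * (C3 * C2 * C5 / ε ^ 2)) * Mm v F (C5 * ε) := by
      rw [hBdef]
      field_simp
      ring
    have e2 : 0 ≤ (C5 / ε ^ 2 + 2⁻¹ * (C3 * C2 * C5 / ε ^ 2)) * Mm v F (C5 * ε) := by positivity
    linarith
  calc ∫ x in PP v, WW v C ε x * ‖dz (um v F 0 ε) x‖ ^ 2 = D 0 := by simp [hD, hu, hWdef]
    _ ≤ B := h7
    _ ≤ _ := h10
    _ ≤ _ := mul_le_mul_of_nonneg_left hMm (by positivity)

end Pool.Agent.Lib.BilD.Tel74
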