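import Pool.Agent.Lib.MP_7bc51d_an_dense.Bes85
import Pool.Agent.Lib.MP_7bc51d_an_dense.Tel

/-!
# Vertex energy bounded by the oscillation of the invariant function in annuli at the vertices
-/

set_option autoImplicit false

namespace Pool.Agent.Lib.BilD.Erg45

open Complex MeasureTheory Set Filter Topology
open scoped ComplexConjugate ENNReal
open Pool.Agent.Lib.Bil Pool.Agent.Lib.BilH Pool.Agent.Lib.BilD

variable {n : ℕ} {v : Fin n → ℂ} {F : ℂ → ℝ → ℝ} {C e0 ε : ℝ}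

/-- Derivative in the position of the mollified function, the direction being kept fixed. -/
noncomputable def dg (v : Fin n → ℂ) (F : ℂ → ℝ → ℝ) (ε : ℝ) (x w h : ℂ) : ℝ :=
  ∫ y, gx v F y w * fderiv ℝ (et ε) (x - y) h

/-- Squared length of the position gradient. -/
noncomputable def hq (v : Fin n → ℂ) (F : ℂ → ℝ → ℝ) (ε : ℝ) (x w : ℂ) : ℝ :=
  dg v F ε x w 1 ^ 2 + dg v F ε x w I ^ 2

/-- Annuli at the vertices. -/
def Zc (v : Fin n → ℂ) (C ε : ℝ) : Set ℂ :=
  {x | x ∈ PP v ∧ (∃ k, ‖x - v k‖ ≤ 2 * C * ε) ∧ ∀ k, C * ε ≤ ‖x - v k‖}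

/-- Gradient energy in the annuli. -/
noncomputable def GE (v : Fin n → ℂ) (F : ℂ → ℝ → ℝ) (C ε : ℝ) : ℝ :=
  ∫ x in Zc v C ε, ∫ w in BV, hq v F ε x w

/-- Weighted moments of the extended function against a kernel supported in a ball. -/
theorem fub (hF : LFS v F) {ψ : ℂ → ℝ} (hψ : Measurable ψ) {c : ℝ} (hb : ∀ y, |ψ y| ≤ c)
    {x : ℂ} (h0 : ∀ y, y ∉ Metric.ball x ε → ψ y = 0) (m : ℕ) :
    ∫ y, (ψ y : ℂ) * am v F m y = ∫ w in BV, ((∫ y, gx v F y w * ψ y : ℝ) : ℂ) * em m w := by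
  have hc : 0 ≤ c := (abs_nonneg _).trans (hb 0)
  have e1 : ∫ y, (ψ y : ℂ) * am v F m y = ∫ y in Metric.ball x ε, (ψ y : ℂ) * am v F m y := by
    rw [← integral_indicator measurableSet_ball]
    refine integral_congr_ae (Eventually.of_forall (fun y => ?_))
    by_cases hy : y ∈ Metric.ball x ε
    · simp only [indicator_of_mem hy]
    · simp only [indicator_of_notMem hy, h0 y hy, ofReal_zero, zero_mul]
  have e2 : ∀ w, (∫ y, gx v F y w * ψ y) = ∫ y in Metric.ball x ε, gx v F y w * ψ y := by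
    intro w
    rw [← integral_indicator measurableSet_ball]
    refine integral_congr_ae (Eventually.of_forall (fun y => ?_))
    by_cases hy : y ∈ Metric.ball x ε
    · simp only [indicator_of_mem hy]
    · simp only [indicator_of_notMem hy, h0 y hy, mul_zero]
  have : IsFiniteMeasure ((volume : Measure ℂ).restrict (Metric.ball x ε)) :=
    ⟨by rw [Measure.restrict_apply_univ]; exact measure_ball_lt_top⟩
  have : IsFiniteMeasure ((volume : Measure ℂ).restrict BV) :=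
    ⟨by rw [Measure.restrict_apply_univ]; exact vol_BV⟩
  have hm : Measurable (fun p : ℂ × ℂ => (ψ p.1 : ℂ) * ((gx v F p.1 p.2 : ℂ) * em m p.2)) :=
    (measurable_ofReal.comp (hψ.comp measurable_fst)).mul
      ((measurable_ofReal.comp (gx_meas hF.lf)).mul ((em_meas m).comp measurable_snd))
  have hi : Integrable (Function.uncurry fun (y w : ℂ) => (ψ y : ℂ) * ((gx v F y w : ℂ) * em m w))
      (((volume : Measure ℂ).restrict (Metric.ball x ε)).prod
        ((volume : Measure ℂ).restrict BV)) := by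
    refine Integrable.of_bound hm.aestronglyMeasurable (c * (((n : ℝ) ^ 2 + 1) * 1))
      (Eventually.of_forall (fun p => ?_))
    simp only [Function.uncurry]
    rw [norm_mul, norm_mul, norm_real, norm_real, Real.norm_eq_abs, Real.norm_eq_abs,
      abs_of_nonneg (gx_nonneg hF p.1 p.2)]
    exact mul_le_mul (hb _) (mul_le_mul (gx_le hF _ _) (em_norm m _) (norm_nonneg _)
      (by positivity)) (mul_nonneg (gx_nonneg hF _ _) (norm_nonneg _)) hc
  rw [e1]
  have e3 : ∫ y in Metric.ball x ε, (ψ y : ℂ) * am v F m y =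
      ∫ y in Metric.ball x ε, ∫ w in BV, (ψ y : ℂ) * ((gx v F y w : ℂ) * em m w) := by
    refine integral_congr_ae (Eventually.of_forall (fun y => ?_))
    simp only [am]
    rw [integral_const_mul]
  rw [e3, integral_integral_swap hi]
  refine integral_congr_ae (Eventually.of_forall (fun w => ?_))
  simp only
  rw [e2 w]
  have e4 : (((∫ y in Metric.ball x ε, gx v F y w * ψ y : ℝ)) : ℂ) =
      ∫ y in Metric.ball x ε, ((gx v F y w * ψ y : ℝ) : ℂ) := integral_ofReal.symm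
  rw [e4, ← integral_mul_const]
  refine integral_congr_ae (Eventually.of_forall (fun y => ?_))
  simp only
  push_cast
  ring

theorem mom_meas (hF : LFS v F) {ψ : ℂ → ℝ} (hψ : Measurable ψ) :
    Measurable (fun w => ∫ y, gx v F y w * ψ y) := by
  have h1 : Measurable (fun p : ℂ × ℂ => gx v F p.2 p.1 * ψ p.2) :=
    ((gx_meas hF.lf).comp measurable_swap).mul (hψ.comp measurable_snd)
  have h2 : StronglyMeasurable (Function.uncurry (fun (w y : ℂ) => gx v F y w * ψ y)) :=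
    h1.stronglyMeasurable
  exact h2.integral_prod_right.measurable

theorem mom_bound (hF : LFS v F) {ψ : ℂ → ℝ} {c : ℝ} (hb : ∀ y, |ψ y| ≤ c) (hε : 0 < ε)
    {x : ℂ} (h0 : ∀ y, y ∉ Metric.ball x ε → ψ y = 0) (w : ℂ) :
    |∫ y, gx v F y w * ψ y| ≤ ((n : ℝ) ^ 2 + 1) * c * (Real.pi * ε ^ 2) := by
  have e2 : (∫ y, gx v F y w * ψ y) = ∫ y in Metric.ball x ε, gx v F y w * ψ y := by
    rw [← integral_indicator measurableSet_ball]
    refine integral_congr_ae (Eventually.of_forall (fun y => ?_))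
    by_cases hy : y ∈ Metric.ball x ε
    · simp only [indicator_of_mem hy]
    · simp only [indicator_of_notMem hy, h0 y hy, mul_zero]
  have hvol : (volume : Measure ℂ).real (Metric.ball x ε) = Real.pi * ε ^ 2 := by
    rw [Measure.real, Complex.volume_ball, ENNReal.toReal_mul, ENNReal.toReal_pow,
      ENNReal.toReal_ofReal hε.le, mul_comm]
    rfl
  rw [e2, ← Real.norm_eq_abs]
  have h := norm_setIntegral_le_of_norm_le_const (μ := volume) (s := Metric.ball x ε)
    (f := fun y => gx v F y w * ψ y) (C := ((n : ℝ) ^ 2 + 1) * c) measure_ball_lt_top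
    (fun y _ => by
      rw [Real.norm_eq_abs, abs_mul, abs_of_nonneg (gx_nonneg hF y w)]
      exact mul_le_mul (gx_le hF y w) (hb y) (abs_nonneg _) (by positivity))
  rw [hvol] at h
  exact h

theorem et_meas (ε : ℝ) (x : ℂ) : Measurable (fun y => et ε (x - y)) :=
  ((et_contDiff ε).continuous.comp (continuous_const.sub continuous_id)).measurable

theorem det_cont (ε : ℝ) (h : ℂ) : Continuous (fun z => fderiv ℝ (et ε) z h) :=
  ((et_contDiff ε).continuous_fderiv (by simp)).clm_apply continuous_const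

theorem det_meas (ε : ℝ) (x h : ℂ) : Measurable (fun y => fderiv ℝ (et ε) (x - y) h) :=
  ((det_cont ε h).comp (continuous_const.sub continuous_id)).measurable

theorem et_out (hε : 0 < ε) {x y : ℂ} (hy : y ∉ Metric.ball x ε) : et ε (x - y) = 0 := by
  rw [Metric.mem_ball, dist_comm, dist_eq_norm, not_lt] at hy
  exact et_zero hε hy

theorem det_out (hε : 0 < ε) {x y : ℂ} (hy : y ∉ Metric.ball x ε) (h : ℂ) :
    fderiv ℝ (et ε) (x - y) h = 0 := by
  rw [Metric.mem_ball, dist_comm, dist_eq_norm, not_lt] at hy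
  rw [Bes85.fderiv_et_zero' hε hy]
  rfl

theorem dg_meas (hF : LFS v F) (x h : ℂ) : Measurable (fun w => dg v F ε x w h) :=
  mom_meas hF (det_meas ε x h)

theorem dg_bound : ∃ K : ℝ, 0 < K ∧ ∀ (F : ℂ → ℝ → ℝ), LFS v F → ∀ ε : ℝ, 0 < ε →
    ∀ x w h : ℂ, |dg v F ε x w h| ≤ K / ε * ‖h‖ := by
  obtain ⟨K, hK, hKb⟩ := exists_fderiv_et_bound
  have hpi := Real.pi_pos
  refine ⟨((n : ℝ) ^ 2 + 1) * K * Real.pi, by positivity, fun F hF ε hε x w h => ?_⟩
  have h1 := mom_bound (v := v) hF (ψ := fun y => fderiv ℝ (et ε) (x - y) h)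
    (c := K / ε ^ 3 * ‖h‖) (fun y => hKb ε hε _ _) hε (fun y hy => det_out hε hy h) w
  refine h1.trans (le_of_eq ?_)
  field_simp

/-- (BES3) -/
theorem bes3 (hS : StSmo) (G : Geo v C e0) (hF : LFS v F) (hε : 0 < ε) (x : ℂ) (S : Finset ℕ) :
    (∑ k ∈ S, ‖um v F k ε x‖ ^ 2 ≤ Real.pi ^ 4 * ((n : ℝ) ^ 2 + 1) ^ 2) ∧
    (∑ k ∈ S, ‖fderiv ℝ (um v F k ε) x‖ ^ 2 ≤ 2 * Real.pi * ∫ w in BV, hq v F ε x w) := by
  have hpi := Real.pi_pos
  obtain ⟨K, hK, hKb⟩ := dg_bound (v := v)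
  constructor
  · have h1 : ∀ k, um v F k ε x = ∫ w in BV, ((∫ y, gx v F y w * et ε (x - y) : ℝ) : ℂ) *
        Bes85.ps k w := by
      intro k
      exact fub (v := v) hF (ψ := fun y => et ε (x - y)) (et_meas ε x) (c := (ε ^ 2)⁻¹)
        (fun y => by rw [abs_of_nonneg (et_nonneg _ _)]; exact et_le _ _)
        (fun y hy => et_out hε hy) k
    have hb : ∀ w, |∫ y, gx v F y w * et ε (x - y)| ≤ ((n : ℝ) ^ 2 + 1) * Real.pi := by
      intro w
      have h2 := mom_bound (v := v) hF (ψ := fun y => et ε (x - y)) (c := (ε ^ 2)⁻¹)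
        (fun y => by rw [abs_of_nonneg (et_nonneg _ _)]; exact et_le _ _) hε
        (fun y hy => et_out hε hy) w
      refine h2.trans (le_of_eq ?_)
      field_simp
    have h3 := Bes85.bessel (mom_meas hF (et_meas ε x)) (B := ((n : ℝ) ^ 2 + 1) * Real.pi)
      (fun w _ => hb w) S
    have h4 : ∫ w in BV, (∫ y, gx v F y w * et ε (x - y)) ^ 2 ≤
        (((n : ℝ) ^ 2 + 1) * Real.pi) ^ 2 * Real.pi := by
      have h5 := norm_setIntegral_le_of_norm_le_const (μ := volume) (s := BV)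
        (f := fun w => (∫ y, gx v F y w * et ε (x - y)) ^ 2)
        (C := (((n : ℝ) ^ 2 + 1) * Real.pi) ^ 2) vol_BV
        (fun w _ => by
          rw [Real.norm_eq_abs, abs_of_nonneg (by positivity), ← sq_abs]
          exact pow_le_pow_left₀ (abs_nonneg _) (hb w) 2)
      rw [Bes85.real_vol_BV] at h5
      exact (le_abs_self _).trans h5
    calc ∑ k ∈ S, ‖um v F k ε x‖ ^ 2 = ∑ k ∈ S, ‖∫ w in BV,
          ((∫ y, gx v F y w * et ε (x - y) : ℝ) : ℂ) * Bes85.ps k w‖ ^ 2 := by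
          refine Finset.sum_congr rfl (fun k _ => ?_)
          rw [h1 k]
      _ ≤ _ := h3
      _ ≤ Real.pi * ((((n : ℝ) ^ 2 + 1) * Real.pi) ^ 2 * Real.pi) :=
          mul_le_mul_of_nonneg_left h4 hpi.le
      _ = _ := by ring
  · have h1 : ∀ k (h : ℂ), fderiv ℝ (um v F k ε) x h =
        ∫ w in BV, ((dg v F ε x w h : ℝ) : ℂ) * Bes85.ps k w := by
      intro k h
      rw [(hS n v C e0 G F hF ε hε k).2 x h]
      exact fub (v := v) hF (ψ := fun y => fderiv ℝ (et ε) (x - y) h) (det_meas ε x h)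
        (c := |(K + 1) / ε * ‖h‖| + ((Classical.choose exists_fderiv_et_bound) / ε ^ 3 * ‖h‖))
        (fun y => by
          have := (Classical.choose_spec exists_fderiv_et_bound).2 ε hε (x - y) h
          have h0 := abs_nonneg ((K + 1) / ε * ‖h‖)
          linarith)
        (fun y hy => det_out hε hy h) k
    have h2 : ∀ h : ℂ, ∑ k ∈ S, ‖fderiv ℝ (um v F k ε) x h‖ ^ 2 ≤
        Real.pi * ∫ w in BV, dg v F ε x w h ^ 2 := by
      intro h
      have h3 := Bes85.bessel (dg_meas (ε := ε) hF x h) (B := K / ε * ‖h‖)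
        (fun w _ => hKb F hF ε hε x w h) S
      refine le_trans (le_of_eq ?_) h3
      refine Finset.sum_congr rfl (fun k _ => ?_)
      rw [h1 k h]
    have hi : ∀ h : ℂ, IntegrableOn (fun w => dg v F ε x w h ^ 2) BV := by
      intro h
      refine Measure.integrableOn_of_bounded (M := (K / ε * ‖h‖) ^ 2) vol_BV.ne
        ((dg_meas hF x h).pow_const 2).aestronglyMeasurable (Eventually.of_forall (fun w => ?_))
      rw [Real.norm_eq_abs, abs_of_nonneg (by positivity), ← sq_abs]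
      exact pow_le_pow_left₀ (abs_nonneg _) (hKb F hF ε hε x w h) 2
    have h3 : ∫ w in BV, hq v F ε x w = (∫ w in BV, dg v F ε x w 1 ^ 2) +
        ∫ w in BV, dg v F ε x w I ^ 2 := integral_add (hi 1) (hi I)
    have h4 : ∀ k, ‖fderiv ℝ (um v F k ε) x‖ ^ 2 ≤ 2 * ‖fderiv ℝ (um v F k ε) x 1‖ ^ 2 +
        2 * ‖fderiv ℝ (um v F k ε) x I‖ ^ 2 := by
      intro k
      have h5 := Bes85.norm_clm_le (fderiv ℝ (um v F k ε) x)
      have h6 : ‖fderiv ℝ (um v F k ε) x‖ ^ 2 ≤ (‖fderiv ℝ (um v F k ε) x 1‖ +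
        ‖fderiv ℝ (um v F k ε) x I‖) ^ 2 := pow_le_pow_left₀ (norm_nonneg _) h5 2
      nlinarith [sq_nonneg (‖fderiv ℝ (um v F k ε) x 1‖ - ‖fderiv ℝ (um v F k ε) x I‖)]
    calc ∑ k ∈ S, ‖fderiv ℝ (um v F k ε) x‖ ^ 2 ≤ ∑ k ∈ S, (2 * ‖fderiv ℝ (um v F k ε) x 1‖ ^ 2 +
        2 * ‖fderiv ℝ (um v F k ε) x I‖ ^ 2) := Finset.sum_le_sum (fun k _ => h4 k)
      _ = 2 * ∑ k ∈ S, ‖fderiv ℝ (um v F k ε) x 1‖ ^ 2 +
          2 * ∑ k ∈ S, ‖fderiv ℝ (um v F k ε) x I‖ ^ 2 := by
          rw [Finset.sum_add_distrib, Finset.mul_sum, Finset.mul_sum]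
      _ ≤ 2 * (Real.pi * ∫ w in BV, dg v F ε x w 1 ^ 2) +
          2 * (Real.pi * ∫ w in BV, dg v F ε x w I ^ 2) := by
          have a1 := h2 1
          have a2 := h2 I
          linarith
      _ = _ := by rw [h3]; ring

theorem Zc_meas : MeasurableSet (Zc v C ε) := by
  have h1 : MeasurableSet {x : ℂ | ∃ k, ‖x - v k‖ ≤ 2 * C * ε} := by
    have : {x : ℂ | ∃ k, ‖x - v k‖ ≤ 2 * C * ε} = ⋃ k, Metric.closedBall (v k) (2 * C * ε) := by
      ext x
      simp only [mem_ofPred_eq, mem_iUnion, Metric.mem_closedBall, dist_eq_norm]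
    rw [this]
    exact MeasurableSet.iUnion (fun k => measurableSet_closedBall)
  have h2 : MeasurableSet {x : ℂ | ∀ k, C * ε ≤ ‖x - v k‖} := by
    have : {x : ℂ | ∀ k, C * ε ≤ ‖x - v k‖} = ⋂ k, {x : ℂ | C * ε ≤ ‖x - v k‖} := by
      ext x; simp
    rw [this]
    exact MeasurableSet.iInter (fun k =>
      (isClosed_le continuous_const (by fun_prop)).measurableSet)
  exact meas_PP.inter (h1.inter h2)

theorem Zc_sub : Zc v C ε ⊆ PP v := fun _ hx => hx.1

theorem Zc_vol_lt : volume (Zc v C ε) < ⊤ := (measure_mono Zc_sub).trans_lt vol_PP_lt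

theorem Zc_vol (hC : 0 ≤ C) (hε : 0 < ε) :
    (volume (Zc v C ε)).toReal ≤ n * (Real.pi * (2 * C * ε) ^ 2) := by
  have hpi := Real.pi_pos
  have h1 : Zc v C ε ⊆ ⋃ k, Metric.closedBall (v k) (2 * C * ε) := by
    rintro x ⟨-, ⟨k, hk⟩, -⟩
    exact mem_iUnion.2 ⟨k, by rwa [Metric.mem_closedBall, dist_eq_norm]⟩
  have h2 : volume (Zc v C ε) ≤ ∑ k : Fin n, volume (Metric.closedBall (v k) (2 * C * ε)) :=
    (measure_mono h1).trans (measure_iUnion_fintype_le _ _)
  have h4 : ∀ k : Fin n, (volume (Metric.closedBall (v k) (2 * C * ε))).toReal =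
      Real.pi * (2 * C * ε) ^ 2 := by
    intro k
    rw [Complex.volume_closedBall, ENNReal.toReal_mul, ENNReal.toReal_pow,
      ENNReal.toReal_ofReal (by positivity), mul_comm]
    rfl
  have h5 : (volume (Zc v C ε)).toReal ≤
      (∑ k : Fin n, volume (Metric.closedBall (v k) (2 * C * ε))).toReal := by
    apply ENNReal.toReal_mono _ h2
    exact (ENNReal.sum_lt_top.2 (fun k _ => measure_closedBall_lt_top)).ne
  rw [ENNReal.toReal_sum (fun k _ => measure_closedBall_lt_top.ne)] at h5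
  refine h5.trans (le_of_eq ?_)
  rw [Finset.sum_congr rfl (fun k _ => h4 k)]
  simp

theorem hq_nonneg (x w : ℂ) : 0 ≤ hq v F ε x w := by unfold hq; positivity

theorem hq_bound : ∃ K : ℝ, 0 < K ∧ ∀ (F : ℂ → ℝ → ℝ), LFS v F → ∀ ε : ℝ, 0 < ε →
    ∀ x w : ℂ, hq v F ε x w ≤ K / ε ^ 2 := by
  obtain ⟨K, hK, hKb⟩ := dg_bound (v := v)
  refine ⟨2 * K ^ 2, by positivity, fun F hF ε hε x w => ?_⟩
  have h1 := hKb F hF ε hε x w 1
  have h2 := hKb F hF ε hε x w I
  rw [norm_one, mul_one] at h1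
  rw [norm_I, mul_one] at h2
  have h3 : dg v F ε x w 1 ^ 2 ≤ (K / ε) ^ 2 := by
    rw [← sq_abs]; exact pow_le_pow_left₀ (abs_nonneg _) h1 2
  have h4 : dg v F ε x w I ^ 2 ≤ (K / ε) ^ 2 := by
    rw [← sq_abs]; exact pow_le_pow_left₀ (abs_nonneg _) h2 2
  unfold hq
  calc _ ≤ (K / ε) ^ 2 + (K / ε) ^ 2 := add_le_add h3 h4
    _ = _ := by ring

theorem dg_meas2 (hF : LFS v F) (h : ℂ) : Measurable (fun p : ℂ × ℂ => dg v F ε p.1 p.2 h) := by
  have h1 : Measurable (fun p : (ℂ × ℂ) × ℂ => gx v F p.2 p.1.2 *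
      fderiv ℝ (et ε) (p.1.1 - p.2) h) :=
    ((gx_meas hF.lf).comp (measurable_snd.prodMk measurable_fst.snd)).mul
      ((det_cont ε h).measurable.comp (measurable_fst.fst.sub measurable_snd))
  have h2 : StronglyMeasurable (Function.uncurry (fun (p : ℂ × ℂ) (y : ℂ) => gx v F y p.2 *
      fderiv ℝ (et ε) (p.1 - y) h)) := h1.stronglyMeasurable
  exact h2.integral_prod_right.measurable

theorem hq_meas2 (hF : LFS v F) : Measurable (fun p : ℂ × ℂ => hq v F ε p.1 p.2) :=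
  ((dg_meas2 hF 1).pow_const 2).add ((dg_meas2 hF I).pow_const 2)

theorem ihq_meas (hF : LFS v F) : Measurable (fun x => ∫ w in BV, hq v F ε x w) := by
  have h2 : StronglyMeasurable (Function.uncurry (fun (x w : ℂ) => hq v F ε x w)) :=
    (hq_meas2 hF).stronglyMeasurable
  exact h2.integral_prod_right.measurable

theorem ihq_nonneg (x : ℂ) : 0 ≤ ∫ w in BV, hq v F ε x w :=
  integral_nonneg (fun w => hq_nonneg x w)

theorem ihq_intOn (hF : LFS v F) (hε : 0 < ε) {Z : Set ℂ} (hZ : volume Z < ⊤) :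
    IntegrableOn (fun x => ∫ w in BV, hq v F ε x w) Z := by
  obtain ⟨K, hK, hKb⟩ := hq_bound (v := v)
  refine Measure.integrableOn_of_bounded (M := K / ε ^ 2 * (volume : Measure ℂ).real BV) hZ.ne
    (ihq_meas hF).aestronglyMeasurable (Eventually.of_forall (fun x => ?_))
  exact norm_setIntegral_le_of_norm_le_const vol_BV (fun w _ => by
    rw [Real.norm_eq_abs, abs_of_nonneg (hq_nonneg x w)]
    exact hKb F hF ε hε x w)

theorem dzb_le {u : ℂ → ℂ} (x : ℂ) : ‖dzb u x‖ ≤ ‖fderiv ℝ u x‖ := by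
  unfold dzb
  have h1 : ‖fderiv ℝ u x 1‖ ≤ ‖fderiv ℝ u x‖ := by
    have := (fderiv ℝ u x).le_opNorm 1
    simpa using this
  have h2 : ‖fderiv ℝ u x I‖ ≤ ‖fderiv ℝ u x‖ := by
    have := (fderiv ℝ u x).le_opNorm I
    simpa using this
  have h3 : ‖fderiv ℝ u x 1 + I * fderiv ℝ u x I‖ ≤ ‖fderiv ℝ u x 1‖ + ‖fderiv ℝ u x I‖ := by
    refine (norm_add_le _ _).trans ?_
    rw [norm_mul, norm_I, one_mul]
  rw [norm_div]
  simp only [RCLike.norm_ofNat]
  linarith

/-- (TEL3) the energies of the modes `0` and `1` are controlled by the gradient energy of the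
mollified function in the annuli at the vertices. -/
theorem tel3 (hSmo : StSmo) (hMode : StMode) (hEI : StEI) (hSide : StSide) (hWP : StWP)
    (hn : 3 ≤ n) (hv : ConvexIndependent ℝ v) (hG : Geo v C e0) :
    ∃ C6 : ℝ, 0 < C6 ∧ ∀ F, LFS v F → ∀ ε, 0 < ε → ε < e0 → ∀ τ, 0 < τ →
      (∀ m, ∫ x in PP v, WW v C ε x * ‖dz (um v F m ε) x‖ ^ 2 ≤ C6 * (τ + GE v F C ε / τ)) ∧
      (∀ m, 1 ≤ m →
        ∫ x in PP v, WW v C ε x * ‖dzb (um v F m ε) x‖ ^ 2 ≤ C6 * (τ + GE v F C ε / τ)) := by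
  obtain ⟨hW, C3, hC3, hJ⟩ := hWP n v C e0 hG
  have hpi := Real.pi_pos
  have hC1 := hG.C1
  set A1 : ℝ := Real.pi ^ 4 * ((n : ℝ) ^ 2 + 1) ^ 2 with hA1
  have hA1p : 0 < A1 := by positivity
  refine ⟨C3 * (A1 * (n * (Real.pi * (2 * C) ^ 2)) + 2 * Real.pi + 1), ?_, ?_⟩
  · have : (0 : ℝ) ≤ n := Nat.cast_nonneg n
    positivity
  intro F hF ε hε hεe0 τ hτ
  obtain ⟨hWs, hW01, hWne, hW1⟩ := hW ε hε
  set W := WW v C ε with hWdef
  set u : ℕ → ℂ → ℂ := fun j => um v F j ε with hu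
  have hus : ∀ j, ContDiff ℝ 2 (u j) := fun j => (hSmo n v C e0 hG F hF ε hε j).1
  set D : ℕ → ℝ := fun j => ∫ x in PP v, W x * ‖dz (u j) x‖ ^ 2 with hD
  set E : ℕ → ℝ := fun j => ∫ x in PP v, W x * ‖dzb (u j) x‖ ^ 2 with hE
  set R : ℕ → ℝ := fun j => 2⁻¹ * ∫ x in PP v, Jf W (u j) x with hR
  have hWc : Continuous W := hWs.continuous
  -- (1) the ladder
  have h1 : ∀ j, D j = E (j + 2) := by
    intro j
    apply setIntegral_congr_fun meas_PP
    intro x hx
    simp only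
    by_cases hw : W x = 0
    · rw [hw]; ring
    · have hGd : x ∈ Gd v C ε := ⟨fun s hs => ((hG.pp x).1 hx s hs).le, hWne x hw⟩
      have hm := hMode n v C e0 hG F hF ε hε hεe0 x hGd j
      have hm2 : dz (u j) x = - dzb (u (j + 2)) x := eq_neg_of_add_eq_zero_left hm
      rw [hm2, norm_neg]
  -- (2) energy identity
  have h2 : ∀ j, D j - E j = R j := by
    intro j
    exact hEI n hn v hv (u j) W (hus j) (hWs.of_le (by norm_num))
      (fun s hs t ht => hSide n v C e0 hG hv F hF ε hε hεe0 s hs t ht j)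
  -- (3) telescope
  have h3 : ∀ m N, D m = D (m + 2 * N) - ∑ j ∈ Finset.range N, R (m + 2 * (j + 1)) := by
    intro m N
    induction N with
    | zero => simp
    | succ N ih =>
      rw [Finset.sum_range_succ, ih]
      have e1 := h1 (m + 2 * N)
      have e2 := h2 (m + 2 * (N + 1))
      have e3 : m + 2 * N + 2 = m + 2 * (N + 1) := by ring
      rw [e3] at e1
      linarith
  -- (4) the boundary terms
  set Z := Zc v C ε with hZ
  have hZm : MeasurableSet Z := Zc_meas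
  set B : ℝ := 2⁻¹ * (C3 / ε) * ((τ / (2 * ε)⁻¹)⁻¹ * 0 + (τ / ε) * (A1 * (volume Z).toReal) +
    (ε / τ) * (2 * Real.pi * GE v F C ε)) with hB
  have hGE0 : 0 ≤ GE v F C ε := integral_nonneg (fun x => ihq_nonneg x)
  have h4 : ∀ S : Finset ℕ, ∑ j ∈ S, |R j| ≤ B := by
    intro S
    have ha : ∀ j, |R j| ≤ 2⁻¹ * ∫ x in PP v, |Jf W (u j) x| := by
      intro j
      rw [hR, abs_mul, abs_of_pos (by norm_num : (0 : ℝ) < 2⁻¹)]
      exact mul_le_mul_of_nonneg_left abs_integral_le_integral_abs (by norm_num)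
    have hb : ∑ j ∈ S, |R j| ≤ 2⁻¹ * ∫ x in PP v, ∑ j ∈ S, |Jf W (u j) x| := by
      rw [integral_finsetSum _ (fun j _ => Tel74.intOn_cont (Tel74.Jf_cont (hus _) hWs).abs),
        Finset.mul_sum]
      exact Finset.sum_le_sum (fun j _ => ha j)
    have hc : ∀ x ∈ PP v, ∑ j ∈ S, |Jf W (u j) x| ≤
        (C3 / ε) * (Z.indicator (fun x => (τ / ε) * A1 +
          (ε / τ) * (2 * Real.pi * ∫ w in BV, hq v F ε x w)) x) := by
      intro x hxP
      have hd : ∑ j ∈ S, |Jf W (u j) x| ≤ ∑ j ∈ S, (C3 / ε) *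
          ({x | (∃ k, ‖x - v k‖ ≤ 2 * C * ε) ∧ ∀ k, C * ε ≤ ‖x - v k‖}.indicator
            (fun x => ‖u j x‖ * ‖fderiv ℝ (u j) x‖) x) :=
        Finset.sum_le_sum (fun j _ => hJ ε hε (u j) x)
      refine hd.trans ?_
      rw [← Finset.mul_sum]
      apply mul_le_mul_of_nonneg_left _ (by positivity)
      by_cases hx : x ∈ Z
      · have hx' : x ∈ {x | (∃ k, ‖x - v k‖ ≤ 2 * C * ε) ∧ ∀ k, C * ε ≤ ‖x - v k‖} := hx.2
        simp only [indicator_of_mem hx, indicator_of_mem hx']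
        obtain ⟨b3, b4⟩ := bes3 hSmo hG hF hε x S
        have b5 : ∑ j ∈ S, ‖u j x‖ * ‖fderiv ℝ (u j) x‖ ≤
            ∑ j ∈ S, ((τ / ε) * ‖u j x‖ ^ 2 + (ε / τ) * ‖fderiv ℝ (u j) x‖ ^ 2) := by
          apply Finset.sum_le_sum
          intro j _
          have e0' : 0 ≤ ‖u j x‖ * ‖fderiv ℝ (u j) x‖ := by positivity
          have e1 : (τ / ε) * ‖u j x‖ ^ 2 + (ε / τ) * ‖fderiv ℝ (u j) x‖ ^ 2 -
              2 * (‖u j x‖ * ‖fderiv ℝ (u j) x‖) =
              (ε / τ) * ((τ / ε) * ‖u j x‖ - ‖fderiv ℝ (u j) x‖) ^ 2 := by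
            field_simp
            ring
          have e2 : 0 ≤ (ε / τ) * ((τ / ε) * ‖u j x‖ - ‖fderiv ℝ (u j) x‖) ^ 2 := by
            positivity
          linarith
        rw [Finset.sum_add_distrib, ← Finset.mul_sum, ← Finset.mul_sum] at b5
        have b6 : (τ / ε) * ∑ j ∈ S, ‖u j x‖ ^ 2 ≤ (τ / ε) * A1 :=
          mul_le_mul_of_nonneg_left b3 (by positivity)
        have b7 : (ε / τ) * ∑ j ∈ S, ‖fderiv ℝ (u j) x‖ ^ 2 ≤
            (ε / τ) * (2 * Real.pi * ∫ w in BV, hq v F ε x w) :=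
          mul_le_mul_of_nonneg_left b4 (by positivity)
        linarith
      · have hx' : x ∉ {x | (∃ k, ‖x - v k‖ ≤ 2 * C * ε) ∧ ∀ k, C * ε ≤ ‖x - v k‖} :=
          fun h => hx ⟨hxP, h⟩
        simp only [indicator_of_notMem hx, indicator_of_notMem hx']
        simp
    have hig : IntegrableOn (fun x => (τ / ε) * A1 +
          (ε / τ) * (2 * Real.pi * ∫ w in BV, hq v F ε x w)) (PP v) :=
      (integrableOn_const vol_PP_lt.ne).add
        (((ihq_intOn hF hε vol_PP_lt).const_mul _).const_mul _)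
    have hd : ∫ x in PP v, ∑ j ∈ S, |Jf W (u j) x| ≤
        ∫ x in PP v, (C3 / ε) * (Z.indicator (fun x => (τ / ε) * A1 +
          (ε / τ) * (2 * Real.pi * ∫ w in BV, hq v F ε x w)) x) := by
      apply setIntegral_mono_on _ ((hig.indicator hZm).const_mul _) meas_PP hc
      exact integrable_finsetSum _ (fun j _ => Tel74.intOn_cont (Tel74.Jf_cont (hus _) hWs).abs)
    have he : ∫ x in PP v, (C3 / ε) * (Z.indicator (fun x => (τ / ε) * A1 +
          (ε / τ) * (2 * Real.pi * ∫ w in BV, hq v F ε x w)) x) =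
        (C3 / ε) * ((τ / ε) * (A1 * (volume Z).toReal) +
          (ε / τ) * (2 * Real.pi * GE v F C ε)) := by
      have hi1 : IntegrableOn (fun _ : ℂ => (τ / ε) * A1) (Zc v C ε) :=
        integrableOn_const Zc_vol_lt.ne
      have hi2 : IntegrableOn (fun x : ℂ => (ε / τ) * (2 * Real.pi * ∫ w in BV, hq v F ε x w))
        (Zc v C ε) := ((ihq_intOn hF hε Zc_vol_lt).const_mul _).const_mul _
      rw [integral_const_mul, setIntegral_indicator hZm, inter_eq_right.2 (Zc_sub (v := v)),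
        integral_add hi1 hi2,
        setIntegral_const, integral_const_mul, integral_const_mul, smul_eq_mul]
      unfold GE
      rw [Measure.real]
      ring
    calc ∑ j ∈ S, |R j| ≤ _ := hb
      _ ≤ 2⁻¹ * ((C3 / ε) * ((τ / ε) * (A1 * (volume Z).toReal) +
          (ε / τ) * (2 * Real.pi * GE v F C ε))) :=
          mul_le_mul_of_nonneg_left (hd.trans he.le) (by norm_num)
      _ = _ := by rw [hB]; ring
  -- (5) the energies tend to zero
  have h5 : ∀ N, ∑ j ∈ Finset.range N, D j ≤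
      ∫ x in PP v, 2 * Real.pi * ∫ w in BV, hq v F ε x w := by
    intro N
    have hiD : ∀ j, IntegrableOn (fun x => W x * ‖dz (u j) x‖ ^ 2) (PP v) := fun j =>
      Tel74.intOn_cont (hWc.mul ((Tel74.dz_cont (hus j)).norm.pow 2))
    rw [← integral_finsetSum _ (fun j _ => hiD j)]
    apply setIntegral_mono_on (integrable_finsetSum _ (fun j _ => hiD j))
      ((ihq_intOn hF hε vol_PP_lt).const_mul _) meas_PP
    intro x hxP
    obtain ⟨_, b2⟩ := bes3 hSmo hG hF hε x (Finset.range N)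
    refine le_trans (Finset.sum_le_sum (fun j _ => ?_)) b2
    have := (hW01 x).2
    have h0 := (hW01 x).1
    calc W x * ‖dz (u j) x‖ ^ 2 ≤ 1 * ‖fderiv ℝ (u j) x‖ ^ 2 :=
          mul_le_mul this (pow_le_pow_left₀ (norm_nonneg _) (Tel74.dz_le x) 2) (by positivity)
            zero_le_one
      _ = _ := one_mul _
  have hD0 : ∀ j, 0 ≤ D j := fun j =>
    integral_nonneg (fun x => mul_nonneg (hW01 x).1 (by positivity))
  have h6 : Tendsto D atTop (𝓝 0) := (summable_of_sum_range_le hD0 h5).tendsto_atTop_zero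
  have h6' : ∀ m, Tendsto (fun N => D (m + 2 * N)) atTop (𝓝 0) := by
    intro m
    refine h6.comp ?_
    exact tendsto_atTop_mono (fun N => by omega : ∀ N : ℕ, N ≤ m + 2 * N) tendsto_id
  have hinj : ∀ m N (f : ℕ → ℝ), ∑ j ∈ Finset.range N, f (m + 2 * (j + 1)) =
      ∑ k ∈ (Finset.range N).image (fun j => m + 2 * (j + 1)), f k := by
    intro m N f
    rw [Finset.sum_image]
    intro a _ b _ h
    simp only at h
    omega
  -- conclusion
  have hBb : B ≤ C3 * (A1 * (n * (Real.pi * (2 * C) ^ 2)) + 2 * Real.pi + 1) *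
      (τ + GE v F C ε / τ) := by
    have hv1 : (volume Z).toReal ≤ n * (Real.pi * (2 * C * ε) ^ 2) :=
      Zc_vol (by linarith) hε
    have hn0 : (0 : ℝ) ≤ n := Nat.cast_nonneg n
    have e1 : 2⁻¹ * (C3 / ε) * ((τ / ε) * (A1 * (volume Z).toReal)) ≤
        2⁻¹ * (C3 / ε) * ((τ / ε) * (A1 * (n * (Real.pi * (2 * C * ε) ^ 2)))) := by
      gcongr
    have e2 : 2⁻¹ * (C3 / ε) * ((τ / ε) * (A1 * (n * (Real.pi * (2 * C * ε) ^ 2)))) =
        2⁻¹ * C3 * (A1 * (n * (Real.pi * (2 * C) ^ 2))) * τ := by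
      field_simp
    have e3 : 2⁻¹ * (C3 / ε) * ((ε / τ) * (2 * Real.pi * GE v F C ε)) =
        2⁻¹ * C3 * (2 * Real.pi) * (GE v F C ε / τ) := by
      field_simp
    have e4 : B = 2⁻¹ * (C3 / ε) * ((τ / ε) * (A1 * (volume Z).toReal)) +
        2⁻¹ * (C3 / ε) * ((ε / τ) * (2 * Real.pi * GE v F C ε)) := by
      rw [hB]; ring
    rw [e4, e3]
    rw [e2] at e1
    have g0 : 0 ≤ GE v F C ε / τ := by positivity
    have a1 : 0 ≤ C3 * (A1 * (n * (Real.pi * (2 * C) ^ 2))) * τ := by positivity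
    have a2 : 0 ≤ C3 * (2 * Real.pi) * τ := by positivity
    have a3 : 0 ≤ C3 * (A1 * (n * (Real.pi * (2 * C) ^ 2))) * (GE v F C ε / τ) := by positivity
    have a4 : 0 ≤ C3 * (2 * Real.pi) * (GE v F C ε / τ) := by positivity
    have a5 : 0 ≤ C3 * (τ + GE v F C ε / τ) := by positivity
    have e5 : C3 * (A1 * (n * (Real.pi * (2 * C) ^ 2)) + 2 * Real.pi + 1) *
      (τ + GE v F C ε / τ) = C3 * (A1 * (n * (Real.pi * (2 * C) ^ 2))) * τ +
        C3 * (2 * Real.pi) * τ + C3 * (A1 * (n * (Real.pi * (2 * C) ^ 2))) * (GE v F C ε / τ) +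
        C3 * (2 * Real.pi) * (GE v F C ε / τ) + C3 * (τ + GE v F C ε / τ) := by ring
    linarith
  have hDB : ∀ m, D m ≤ B := by
    intro m
    have h8 : ∀ N, D m ≤ D (m + 2 * N) + B := by
      intro N
      have e1 := h3 m N
      have e2 : |∑ j ∈ Finset.range N, R (m + 2 * (j + 1))| ≤
          ∑ j ∈ Finset.range N, |R (m + 2 * (j + 1))| := Finset.abs_sum_le_sum_abs _ _
      rw [hinj m N (fun k => |R k|)] at e2
      have e3 := h4 ((Finset.range N).image (fun j => m + 2 * (j + 1)))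
      have e4 := neg_abs_le (∑ j ∈ Finset.range N, R (m + 2 * (j + 1)))
      linarith
    have h9 : Tendsto (fun N => D (m + 2 * N) + B) atTop (𝓝 (0 + B)) := (h6' m).add_const B
    have := ge_of_tendsto h9 (Eventually.of_forall h8)
    simpa using this
  have hEB : ∀ m, 1 ≤ m → E m ≤ B := by
    intro m _
    have h8 : ∀ N, E m ≤ D (m + 2 * N) + B := by
      intro N
      have e1 := h3 m N
      have e0 := h2 m
      have e2 : |R m + ∑ j ∈ Finset.range N, R (m + 2 * (j + 1))| ≤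
          |R m| + ∑ j ∈ Finset.range N, |R (m + 2 * (j + 1))| :=
        (abs_add_le _ _).trans (add_le_add le_rfl (Finset.abs_sum_le_sum_abs _ _))
      rw [hinj m N (fun k => |R k|)] at e2
      have hnot : m ∉ (Finset.range N).image (fun j => m + 2 * (j + 1)) := by
        simp only [Finset.mem_image, Finset.mem_range, not_exists, not_and]
        intro j _
        omega
      have e3 := h4 (insert m ((Finset.range N).image (fun j => m + 2 * (j + 1))))
      rw [Finset.sum_insert hnot] at e3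
      have e4 := neg_abs_le (R m + ∑ j ∈ Finset.range N, R (m + 2 * (j + 1)))
      linarith
    have h9 : Tendsto (fun N => D (m + 2 * N) + B) atTop (𝓝 (0 + B)) := (h6' m).add_const B
    have := ge_of_tendsto h9 (Eventually.of_forall h8)
    simpa using this
  exact ⟨fun m => (hDB m).trans hBb, fun m hm => (hEB m hm).trans hBb⟩

end Pool.Agent.Lib.BilD.Erg45
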