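import Pool.Agent.Lib.MP_7bc51d_an_dense.Basic
import Pool.Agent.Lib.MP_7bc51d_an_dense.Refl5

/-!
# Mixture near the vertices (row FOLD)
-/

set_option autoImplicit false

namespace Pool.Agent.Lib.BilD.Fold17

open Complex MeasureTheory Set Filter Topology
open scoped ComplexConjugate
open Pool.Agent.Lib.Bil Pool.Agent.Lib.BilD Pool.Agent.Lib.BilD.Refl5

variable {n : ℕ} {v : Fin n → ℂ} {F : ℂ → ℝ → ℝ} {C e0 ε : ℝ}

/-- Points at distance `< r` from the vertices. -/
def Zr (v : Fin n → ℂ) (r : ℝ) : Set ℂ := {x | ∃ k, ‖x - v k‖ < r}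

theorem Zr_eq (r : ℝ) : Zr v r = ⋃ k, Metric.ball (v k) r := by
  ext x
  simp only [Zr, mem_ofPred_eq, mem_iUnion, Metric.mem_ball, dist_eq_norm]

theorem Zr_meas (r : ℝ) : MeasurableSet (Zr v r) := by
  rw [Zr_eq]; exact MeasurableSet.iUnion (fun k => measurableSet_ball)

theorem Zr_fin (r : ℝ) : volume (Zr v r) < ⊤ := by
  rw [Zr_eq]
  exact (Bornology.IsBounded.measure_lt_top (Bornology.isBounded_iUnion.2
    (fun k => Metric.isBounded_ball)))

theorem Zc_meas (r : ℝ) : MeasurableSet {x : ℂ | ∃ k, ‖x - v k‖ ≤ r} := by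
  have : {x : ℂ | ∃ k, ‖x - v k‖ ≤ r} = ⋃ k, Metric.closedBall (v k) r := by
    ext x
    simp only [mem_ofPred_eq, mem_iUnion, Metric.mem_closedBall, dist_eq_norm]
  rw [this]; exact MeasurableSet.iUnion (fun k => measurableSet_closedBall)

theorem card_SD_le (v : Fin n → ℂ) : ((SD v).card : ℝ) ≤ (n : ℝ) ^ 2 := by
  have : (SD v).card ≤ n ^ 2 := by
    calc (SD v).card ≤ Fintype.card (Fin n × Fin n) := Finset.card_le_univ _
      _ = n ^ 2 := by simp [sq]
  exact_mod_cast this

theorem Rs_emb {s : Fin n × Fin n} (h : ed v s ≠ 0) : MeasurableEmbedding (Rs v s) := by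
  refine (cont_Rs s).measurableEmbedding ?_
  intro x y hxy
  rw [← Rs_Rs h x, hxy, Rs_Rs h]

theorem key1 (G : Geo v C e0) (hF : LFS v F) (hε : 0 < ε) (hε0 : ε < e0) :
    ∫ x in Zr v ((2 * C + 1) * ε), qx v F x ≤
      ((n : ℝ) ^ 2 + 1) * Mm v F ((2 * C + 1) * ε) := by
  set r := (2 * C + 1) * ε with hr
  have hC := G.C1
  have i1 : IntegrableOn (fun x => (PP v).indicator (qd F) x) (Zr v r) :=
    (qd_intOn hF (Zr_fin r)).indicator meas_PP
  have i2 : ∀ s ∈ SD v, IntegrableOn
      (fun x => (OO v s).indicator (fun y => qd F (Rs v s y)) x) (Zr v r) := by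
    intro s _
    refine Integrable.indicator ?_ (meas_OO s)
    refine Measure.integrableOn_of_bounded (M := 1) (Zr_fin r).ne
      ((qd_meas hF.lf).comp (cont_Rs s).measurable).aestronglyMeasurable ?_
    refine Eventually.of_forall (fun x => ?_)
    rw [Real.norm_eq_abs, abs_of_nonneg (qd_nonneg hF _)]
    exact qd_le hF _
  have e1 : ∫ x in Zr v r, (PP v).indicator (qd F) x = Mm v F r := by
    rw [← integral_indicator (Zr_meas r), Mm, ← integral_indicator (Vr_meas r)]
    congr 1
    funext x
    by_cases h1 : x ∈ PP v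
    · by_cases h2 : x ∈ Zr v r
      · rw [indicator_of_mem h2, indicator_of_mem h1, indicator_of_mem (show x ∈ Vr v r from ⟨h1, h2⟩)]
      · rw [indicator_of_notMem h2, indicator_of_notMem (fun h => h2 h.2)]
    · rw [indicator_of_notMem (fun h : x ∈ Vr v r => h1 h.1)]
      by_cases h2 : x ∈ Zr v r
      · rw [indicator_of_mem h2, indicator_of_notMem h1]
      · rw [indicator_of_notMem h2]
  have e2 : ∀ s ∈ SD v, ∫ x in Zr v r, (OO v s).indicator (fun y => qd F (Rs v s y)) x ≤
      Mm v F r := by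
    intro s hs
    have hes := G.edn s hs
    rw [← integral_indicator (Zr_meas r), Mm, ← integral_indicator (Vr_meas r),
      ← (mp_Rs hes).integral_comp (Rs_emb hes) ((Vr v r).indicator (qd F))]
    apply integral_mono
    · rw [integrable_indicator_iff (Zr_meas r)]
      exact i2 s hs
    · exact (mp_Rs hes).integrable_comp_emb (Rs_emb hes) |>.2
        ((integrable_indicator_iff (Vr_meas r)).2 (qd_intOn hF (vol_Vr_lt r)))
    · intro x
      simp only
      by_cases h1 : x ∈ OO v s
      · by_cases h2 : x ∈ Zr v r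
        · rw [indicator_of_mem h2, indicator_of_mem h1]
          have h3 : Rs v s x ∈ Vr v r := by
            refine ⟨h1, ?_⟩
            obtain ⟨k, hk⟩ := h2
            refine ⟨k, ?_⟩
            have h4 : 0 < ds v s (Rs v s x) := (G.pp _).1 h1 s hs
            rw [ds_Rs hes] at h4
            have hks : k = s.1 ∨ k = s.2 := by
              by_contra hcon
              push Not at hcon
              have h5 := G.far ε hε hε0 s hs k hcon.1 hcon.2 x (by linarith)
              have : r ≤ 4 * C * ε := by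
                rw [hr]
                have : (2 * C + 1) ≤ 4 * C := by linarith
                exact mul_le_mul_of_nonneg_right this hε.le
              linarith
            have h6 : Rs v s (v k) = v k := by
              rcases hks with rfl | rfl
              · exact RR_left v s.1 s.2
              · exact RR_right v hes
            rw [← h6, norm_Rs_sub hes]
            exact hk
          rw [indicator_of_mem h3]
        · rw [indicator_of_notMem h2]
          exact indicator_nonneg (fun _ _ => qd_nonneg hF _) _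
      · by_cases h2 : x ∈ Zr v r
        · rw [indicator_of_mem h2, indicator_of_notMem h1]
          exact indicator_nonneg (fun _ _ => qd_nonneg hF _) _
        · rw [indicator_of_notMem h2]
          exact indicator_nonneg (fun _ _ => qd_nonneg hF _) _
  have e3 : ∫ x in Zr v r, qx v F x = (∫ x in Zr v r, (PP v).indicator (qd F) x) +
      ∑ s ∈ SD v, ∫ x in Zr v r, (OO v s).indicator (fun y => qd F (Rs v s y)) x := by
    unfold qx
    rw [integral_add i1 (integrable_finset_sum _ i2), integral_finsetSum _ i2]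
  rw [e3, e1]
  have e4 : ∑ s ∈ SD v, ∫ x in Zr v r, (OO v s).indicator (fun y => qd F (Rs v s y)) x ≤
      (n : ℝ) ^ 2 * Mm v F r := by
    calc _ ≤ ∑ s ∈ SD v, Mm v F r := Finset.sum_le_sum e2
      _ = ((SD v).card : ℝ) * Mm v F r := by rw [Finset.sum_const, nsmul_eq_mul]
      _ ≤ _ := mul_le_mul_of_nonneg_right (card_SD_le v) (Mm_nonneg hF r)
  linarith

theorem key2 (hC : 1 ≤ C) (hF : LFS v F) (hε : 0 < ε) :
    ∫ x in {x | ∃ k, ‖x - v k‖ ≤ 2 * C * ε}, Nn v F ε x ≤
      4 * ∫ x in Zr v ((2 * C + 1) * ε), qx v F x := by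
  set r := (2 * C + 1) * ε with hr
  set Z : Set ℂ := {x | ∃ k, ‖x - v k‖ ≤ 2 * C * ε} with hZ
  have hZm : MeasurableSet Z := Zc_meas _
  have hsub : ∀ h ∈ Metric.ball (0 : ℂ) ε, ∀ x ∈ Z, x + h ∈ Zr v r := by
    intro h hh x hx
    rw [mem_ball_zero_iff] at hh
    obtain ⟨k, hk⟩ := hx
    refine ⟨k, ?_⟩
    have : x + h - v k = (x - v k) + h := by ring
    rw [this]
    calc ‖(x - v k) + h‖ ≤ ‖x - v k‖ + ‖h‖ := norm_add_le _ _
      _ < 2 * C * ε + ε := by linarith
      _ = r := by rw [hr]; ring
  have hZfin : volume Z < ⊤ := by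
    refine (measure_mono ?_).trans_lt (Zr_fin (v := v) r)
    intro x hx
    have := hsub 0 (Metric.mem_ball_self hε) x hx
    rwa [add_zero] at this
  have h1 : ∀ x, Nn v F ε x = (ε ^ 2)⁻¹ * ∫ h in Metric.ball (0 : ℂ) ε, qx v F (x + h) := by
    intro x
    unfold Nn
    congr 1
    rw [← integral_indicator measurableSet_ball, ← integral_indicator measurableSet_ball,
      ← integral_add_left_eq_self _ x]
    congr 1
    funext h
    by_cases hh : h ∈ Metric.ball (0 : ℂ) ε
    · rw [indicator_of_mem hh, indicator_of_mem]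
      rw [Metric.mem_ball, dist_eq_norm, add_sub_cancel_left]
      exact mem_ball_zero_iff.1 hh
    · rw [indicator_of_notMem hh, indicator_of_notMem]
      intro h2
      apply hh
      rw [Metric.mem_ball, dist_eq_norm, add_sub_cancel_left] at h2
      exact mem_ball_zero_iff.2 h2
  have hfm : IsFiniteMeasure ((volume : Measure ℂ).restrict Z) :=
    ⟨by rw [Measure.restrict_apply_univ]; exact hZfin⟩
  have hfm2 : IsFiniteMeasure ((volume : Measure ℂ).restrict (Metric.ball (0 : ℂ) ε)) :=
    ⟨by rw [Measure.restrict_apply_univ]; exact measure_ball_lt_top⟩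
  have hint : Integrable (Function.uncurry (fun x h : ℂ => qx v F (x + h)))
      (((volume : Measure ℂ).restrict Z).prod
        ((volume : Measure ℂ).restrict (Metric.ball (0 : ℂ) ε))) := by
    refine Integrable.of_bound (C := (n : ℝ) ^ 2 + 1) ?_ ?_
    · exact ((qx_meas hF.lf).comp (measurable_fst.add measurable_snd)).aestronglyMeasurable
    · refine Eventually.of_forall (fun p => ?_)
      rw [Real.norm_eq_abs, Function.uncurry, abs_of_nonneg (qx_nonneg hF _)]
      exact qx_le hF _
  simp_rw [h1]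
  rw [integral_const_mul, integral_integral_swap hint]
  have h2 : ∀ h ∈ Metric.ball (0 : ℂ) ε, ∫ x in Z, qx v F (x + h) ≤ ∫ x in Zr v r, qx v F x := by
    intro h hh
    rw [← integral_indicator hZm, ← integral_indicator (Zr_meas r),
      ← integral_add_right_eq_self ((Zr v r).indicator (qx v F)) h]
    apply integral_mono
    · rw [integrable_indicator_iff hZm]
      refine Measure.integrableOn_of_bounded (M := (n : ℝ) ^ 2 + 1) hZfin.ne
        ((qx_meas hF.lf).comp (measurable_id.add_const h)).aestronglyMeasurable ?_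
      refine Eventually.of_forall (fun x => ?_)
      rw [Real.norm_eq_abs, abs_of_nonneg (qx_nonneg hF _)]
      exact qx_le hF _
    · exact (((integrable_indicator_iff (Zr_meas r)).2 (qx_intOn hF (Zr_fin r)))).comp_add_right h
    · intro x
      simp only
      by_cases hx : x ∈ Z
      · rw [indicator_of_mem hx, indicator_of_mem (hsub h hh x hx)]
      · rw [indicator_of_notMem hx]
        exact indicator_nonneg (fun _ _ => qx_nonneg hF _) _
  have h3 : ∫ h in Metric.ball (0 : ℂ) ε, ∫ x in Z, qx v F (x + h) ≤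
      ∫ h in Metric.ball (0 : ℂ) ε, ∫ x in Zr v r, qx v F x := by
    apply setIntegral_mono_on
    · exact hint.integral_prod_right
    · exact integrableOn_const measure_ball_lt_top.ne
    · exact measurableSet_ball
    · exact h2
  have h4 : ∫ _ in Metric.ball (0 : ℂ) ε, ∫ x in Zr v r, qx v F x =
      Real.pi * ε ^ 2 * ∫ x in Zr v r, qx v F x := by
    rw [setIntegral_const, smul_eq_mul]
    congr 1
    rw [Measure.real, Complex.volume_ball, ENNReal.toReal_mul, ENNReal.toReal_pow,
      ENNReal.toReal_ofReal hε.le]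
    simp [mul_comm]
  have h5 : 0 ≤ ∫ x in Zr v r, qx v F x := integral_nonneg (fun x => qx_nonneg hF x)
  calc (ε ^ 2)⁻¹ * _ ≤ (ε ^ 2)⁻¹ * (Real.pi * ε ^ 2 * ∫ x in Zr v r, qx v F x) := by
        rw [← h4]
        exact mul_le_mul_of_nonneg_left h3 (by positivity)
    _ = Real.pi * ∫ x in Zr v r, qx v F x := by field_simp
    _ ≤ 4 * _ := mul_le_mul_of_nonneg_right Real.pi_le_four h5

theorem row : StFold := by
  intro n v C e0 G
  have hC := G.C1
  have hn2 : (0 : ℝ) ≤ (n : ℝ) ^ 2 := sq_nonneg _
  refine ⟨4 * ((n : ℝ) ^ 2 + 1) * (2 * C + 1), e0, ?_, G.e0p, le_rfl, ?_⟩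
  · nlinarith
  intro F hF ε hε hε0
  have k1 := key1 G hF hε hε0
  have k2 := key2 (v := v) hC hF hε
  have k3 : Mm v F ((2 * C + 1) * ε) ≤ Mm v F (4 * ((n : ℝ) ^ 2 + 1) * (2 * C + 1) * ε) := by
    apply Mm_mono hF
    apply mul_le_mul_of_nonneg_right _ hε.le
    nlinarith
  have k4 := Mm_nonneg hF (4 * ((n : ℝ) ^ 2 + 1) * (2 * C + 1) * ε)
  calc _ ≤ 4 * (((n : ℝ) ^ 2 + 1) * Mm v F ((2 * C + 1) * ε)) := k2.trans (by linarith)
    _ ≤ 4 * (((n : ℝ) ^ 2 + 1) * Mm v F (4 * ((n : ℝ) ^ 2 + 1) * (2 * C + 1) * ε)) := by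
        apply mul_le_mul_of_nonneg_left _ (by norm_num)
        exact mul_le_mul_of_nonneg_left k3 (by positivity)
    _ ≤ _ := by
        rw [← mul_assoc]
        apply mul_le_mul_of_nonneg_right _ k4
        nlinarith

end Pool.Agent.Lib.BilD.Fold17
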