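import Pool.Agent.Lib.MP_7bc51d_an_top.Stmts

/-!
# The isosceles triangle obtained by doubling a right triangle
-/

set_option autoImplicit false

namespace Pool.Agent.Lib.BilD.Geo73

open Complex MeasureTheory Set Filter Topology
open scoped ComplexConjugate
open Pool.Agent.Lib.Bil Pool.Agent.Lib.BTop

/-- Three points which are not collinear are convexly independent. -/
theorem ci3 {u : Fin 3 → ℂ} (h : cr (u 1 - u 0) (u 2 - u 0) ≠ 0) : ConvexIndependent ℝ u := by
  rw [convexIndependent_iff_notMem_convexHull_sdiff]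
  intro i s hi
  have h1 : ∃ j k, u '' (s \ {i}) ⊆ {u j, u k} ∧ cr (u j - u i) (u k - u i) ≠ 0 := by
    have key : ∀ j k : Fin 3, (∀ l : Fin 3, l ≠ i → l = j ∨ l = k) →
        u '' (s \ {i}) ⊆ {u j, u k} := by
      rintro j k hjk _ ⟨l, hl, rfl⟩
      rcases hjk l (fun e => hl.2 e) with rfl | rfl
      · exact Or.inl rfl
      · exact Or.inr rfl
    fin_cases i
    · exact ⟨1, 2, key 1 2 (by decide), h⟩
    · refine ⟨2, 0, key 2 0 (by decide), ?_⟩
      intro h0
      apply h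
      rw [← h0]
      simp only [cr, sub_re, sub_im]
      simp
      ring
    · refine ⟨0, 1, key 0 1 (by decide), ?_⟩
      intro h0
      apply h
      rw [← h0]
      simp only [cr, sub_re, sub_im]
      simp
      ring
  obtain ⟨j, k, hsub, hne⟩ := h1
  have h2 : u i ∈ segment ℝ (u j) (u k) := by
    rw [← convexHull_pair]
    exact convexHull_mono hsub hi
  obtain ⟨a, b, _, _, hab, e⟩ := h2
  apply hne
  have ha : a = 1 - b := by linarith
  subst ha
  rw [← e]
  simp only [cr, sub_re, sub_im, add_re, add_im, real_smul, mul_re, mul_im, ofReal_re, ofReal_im]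
  ring

/-- No power is real. -/
def R (z : ℂ) : Prop := ∀ m : ℕ, 0 < m → (z ^ m).im ≠ 0

theorem R_real {z : ℂ} {c : ℝ} (h : R z) (hc : c ≠ 0) : R ((c : ℂ) * z) := by
  intro m hm
  rw [mul_pow, ← ofReal_pow, re_ofReal_mul_im]
  exact mul_ne_zero (pow_ne_zero m hc) (h m hm)
  where re_ofReal_mul_im {c : ℝ} {z : ℂ} : ((c : ℂ) * z).im = c * z.im := by
          rw [mul_im, ofReal_re, ofReal_im, zero_mul, add_zero]

theorem R_sq {z : ℂ} (h : R z) : R (z ^ 2) := by
  intro m hm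
  rw [← pow_mul]
  exact h _ (by omega)

theorem R_of_sq {z : ℂ} (h : R (z ^ 2)) : R z := by
  intro m hm h0
  apply h m hm
  rw [← pow_mul, mul_comm 2 m, pow_mul, pow_two, mul_im, h0]
  ring

theorem R_conj {z : ℂ} (h : R z) : R (conj z) := by
  intro m hm
  rw [← map_pow, conj_im]
  exact neg_ne_zero.2 (h m hm)

theorem R_inv {z : ℂ} (h : R z) : R z⁻¹ := by
  intro m hm
  have h1 := h m hm
  rw [inv_pow, inv_im]
  refine div_ne_zero (neg_ne_zero.2 h1) ?_
  rw [Ne, normSq_eq_zero]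
  intro h2
  rw [h2] at h1
  exact h1 rfl

/-- In a triangle it is enough to look at the three angles. -/
theorem irr3 {u : Fin 3 → ℂ} (h0 : R ((u 1 - u 0) / (u 2 - u 0)))
    (h1 : R ((u 2 - u 1) / (u 0 - u 1))) (h2 : R ((u 0 - u 2) / (u 1 - u 2))) : Irr u := by
  have key : ∀ p k q : Fin 3, k ≠ q → p ≠ k → p ≠ q → R ((u q - u k) / (u p - u k)) := by
    have h0' : R ((u 2 - u 0) / (u 1 - u 0)) := by rw [← inv_div]; exact R_inv h0
    have h1' : R ((u 0 - u 1) / (u 2 - u 1)) := by rw [← inv_div]; exact R_inv h1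
    have h2' : R ((u 1 - u 2) / (u 0 - u 2)) := by rw [← inv_div]; exact R_inv h2
    intro p k q hkq hpk hpq
    fin_cases p <;> fin_cases k <;> fin_cases q <;> first
      | exact absurd rfl hkq
      | exact absurd rfl hpk
      | exact absurd rfl hpq
      | assumption
  intro p k q hkq hpk m hm
  refine key p k q hkq.1 hpk.1 ?_ m hm
  intro hpq
  subst hpq
  -- the sides `(p, k)` and `(k, p)` have the polygon on both sides
  obtain ⟨l, hl1, hl2⟩ : ∃ l : Fin 3, l ≠ p ∧ l ≠ k := by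
    have : ∀ p k : Fin 3, ∃ l : Fin 3, l ≠ p ∧ l ≠ k := by decide
    exact this p k
  have a1 := hkq.2 l hl2 hl1
  have a2 := hpk.2 l hl1 hl2
  simp only [cr, sub_re, sub_im] at a1 a2
  nlinarith

/-- The doubled right triangle. -/
theorem geo73 (v : Fin 3 → ℂ) (hv : ConvexIndependent ℝ v)
    (hr : ((v 1 - v 0) * conj (v 2 - v 0)).re = 0)
    (hirr : ∀ m : ℕ, 0 < m → (((v 0 - v 1) / (v 2 - v 1)) ^ m).im ≠ 0) :
    ConvexIndependent ℝ ![v 1, v 2, 2 * v 0 - v 2] ∧ Irr ![v 1, v 2, 2 * v 0 - v 2] := by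
  have hne : cr (v 1 - v 0) (v 2 - v 0) ≠ 0 := noncol hv (by decide) (by decide) (by decide)
  have ha : v 1 - v 0 ≠ 0 := v_sub_ne hv (by decide)
  have hb : v 2 - v 0 ≠ 0 := v_sub_ne hv (by decide)
  -- `b = i t a`
  obtain ⟨t, ht0, ht⟩ : ∃ t : ℝ, t ≠ 0 ∧ v 2 - v 0 = (t : ℂ) * I * (v 1 - v 0) := by
    set a := v 1 - v 0 with hadef
    set b := v 2 - v 0 with hbdef
    have hn : normSq a ≠ 0 := fun h => ha (normSq_eq_zero.1 h)
    refine ⟨cr a b / normSq a, div_ne_zero hne hn, ?_⟩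
    have h1 : b * conj a = (cr a b : ℝ) * I := by
      apply Complex.ext
      · have h2 : (b * conj a).re = (a * conj b).re := by
          simp only [mul_re, conj_re, conj_im]; ring
        rw [h2, hr]
        simp [mul_re]
      · simp only [cr, mul_im, conj_re, conj_im, ofReal_re, ofReal_im, I_re, I_im]
        ring
    have h2 : b * (normSq a : ℂ) = (cr a b : ℝ) * I * a := by
      rw [← mul_conj a, ← h1]
      ring
    have hn' : (normSq a : ℂ) ≠ 0 := by exact_mod_cast hn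
    push_cast
    field_simp
    linear_combination h2
  set a := v 1 - v 0 with hadef
  set z : ℂ := 1 - (t : ℂ) * I with hz
  have hzre : z.re = 1 := by simp [hz]
  have hz0 : z ≠ 0 := by
    intro h
    rw [h] at hzre
    simp at hzre
  have hcz : conj z = 1 + (t : ℂ) * I := by
    simp [hz]
  have hcz0 : conj z ≠ 0 := by
    intro h
    exact hz0 ((map_eq_zero _).1 h)
  have hv1 : v 1 = v 0 + a := by rw [hadef]; ring
  have hv2 : v 2 = v 0 + (t : ℂ) * I * a := by rw [← ht]; ring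
  have hRz : R z := by
    have h1 : (v 0 - v 1) / (v 2 - v 1) = z⁻¹ := by
      have h2 : v 2 - v 1 = - (z * a) := by rw [hv1, hv2, hz]; ring
      have h3 : v 0 - v 1 = - a := by rw [hv1]; ring
      rw [h2, h3]
      field_simp
    have h2 : R z⁻¹ := by
      intro m hm
      rw [← h1]
      exact hirr m hm
    have := R_inv h2
    rwa [inv_inv] at this
  have e10 : v 2 - v 1 = - (z * a) := by rw [hv1, hv2, hz]; ring
  have e20 : 2 * v 0 - v 2 - v 1 = - (conj z * a) := by rw [hv1, hv2, hcz]; ring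
  have e21 : 2 * v 0 - v 2 - v 2 = - (2 * (t : ℂ) * I * a) := by rw [hv2]; ring
  have ht0' : (t : ℂ) ≠ 0 := by exact_mod_cast ht0
  have hn : normSq z ≠ 0 := fun h => hz0 (normSq_eq_zero.1 h)
  have hn' : (normSq z : ℂ) ≠ 0 := by exact_mod_cast hn
  have hmc : z * conj z = (normSq z : ℂ) := mul_conj z
  refine ⟨ci3 ?_, irr3 ?_ ?_ ?_⟩
  · show cr (v 2 - v 1) (2 * v 0 - v 2 - v 1) ≠ 0
    intro h
    apply hne
    have h1 : cr (v 1 - v 0) (v 2 - v 0) = t * normSq a := by
      rw [ht]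
      simp only [cr, normSq_apply, mul_re, mul_im, ofReal_re, ofReal_im, I_re, I_im]
      ring
    have h2 : cr (v 2 - v 1) (2 * v 0 - v 2 - v 1) = 2 * t * normSq a := by
      rw [e10, e20, hcz, hz]
      simp only [cr, normSq_apply, neg_re, neg_im, mul_re, mul_im, sub_re, sub_im, add_re, add_im,
        one_re, one_im, ofReal_re, ofReal_im, I_re, I_im]
      ring
    rw [h1]
    rw [h2] at h
    linarith
  · show R ((v 2 - v 1) / (2 * v 0 - v 2 - v 1))
    have h1 : (v 2 - v 1) / (2 * v 0 - v 2 - v 1) = (((normSq z)⁻¹ : ℝ) : ℂ) * z ^ 2 := by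
      rw [e10, e20, ofReal_inv, ← hmc]
      field_simp
    rw [h1]
    exact R_real (R_sq hRz) (inv_ne_zero hn)
  · show R ((2 * v 0 - v 2 - v 2) / (v 1 - v 2))
    have h1 : (2 * v 0 - v 2 - v 2) / (v 1 - v 2) = (2 * (t : ℂ) * I) * -z⁻¹ := by
      have h2 : v 1 - v 2 = z * a := by rw [← neg_sub, e10]; ring
      rw [e21, h2]
      field_simp
    rw [h1]
    apply R_of_sq
    have h2 : ((2 * (t : ℂ) * I) * -z⁻¹) ^ 2 = ((-(4 * t ^ 2) : ℝ) : ℂ) * (z⁻¹) ^ 2 := by
      have : I ^ 2 = -1 := I_sq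
      push_cast
      linear_combination (4 * (t : ℂ) ^ 2 * (z⁻¹) ^ 2) * this
    rw [h2]
    refine R_real (R_sq (R_inv hRz)) ?_
    have : 0 < 4 * t ^ 2 := by positivity
    linarith
  · show R ((v 1 - (2 * v 0 - v 2)) / (v 2 - (2 * v 0 - v 2)))
    have h1 : (v 1 - (2 * v 0 - v 2)) / (v 2 - (2 * v 0 - v 2)) = conj z * (2 * (t : ℂ) * I)⁻¹ := by
      have h2 : v 1 - (2 * v 0 - v 2) = conj z * a := by rw [← neg_sub, e20]; ring
      have h3 : v 2 - (2 * v 0 - v 2) = 2 * (t : ℂ) * I * a := by rw [← neg_sub, e21]; ring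
      rw [h2, h3]
      have hI : I ≠ 0 := I_ne_zero
      field_simp
    rw [h1]
    apply R_of_sq
    have h2 : (conj z * (2 * (t : ℂ) * I)⁻¹) ^ 2 = (((-(4 * t ^ 2))⁻¹ : ℝ) : ℂ) * (conj z) ^ 2 := by
      have : (2 * (t : ℂ) * I) ^ 2 = -(4 * (t : ℂ) ^ 2) := by
        rw [mul_pow, mul_pow, I_sq]; ring
      rw [mul_pow, inv_pow, this]
      push_cast
      ring
    rw [h2]
    refine R_real (R_sq (R_conj hRz)) (inv_ne_zero ?_)
    have : 0 < 4 * t ^ 2 := by positivity
    linarith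

end Pool.Agent.Lib.BilD.Geo73
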