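import Pool.Agent.Lib.MP_7bc51d_an_dense.Defs
import Pool.Agent.Lib.MP_7bc51d_an.Line
import Pool.Agent.Lib.MP_7bc51d_an.Traj

/-!
# Weak invariance of the extended function at good points (row TI)
-/

set_option autoImplicit false

namespace Pool.Agent.Lib.BilD.TI33

open Complex MeasureTheory Set Filter Topology
open scoped ComplexConjugate ContDiff
open Pool.Agent.Lib.Bil Pool.Agent.Lib.BilD

variable {n : ℕ} {v : Fin n → ℂ}

/-! ### The bump -/

theorem contDiff_et33 (ε : ℝ) : ContDiff ℝ 2 (et ε) := by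
  have h1 : ContDiff ℝ 2 (fun h : ℂ => 1 - ‖h‖ ^ 2 / ε ^ 2) :=
    contDiff_const.sub ((contDiff_norm_sq ℝ).div_const _)
  have h2 : ContDiff ℝ 2 Real.smoothTransition := Real.smoothTransition.contDiff (n := 2)
  exact contDiff_const.mul (h2.comp h1)

theorem et_zero33 {ε : ℝ} (hε : 0 < ε) {h : ℂ} (hh : ε ≤ ‖h‖) : et ε h = 0 := by
  unfold et
  rw [Real.smoothTransition.zero_of_nonpos, mul_zero]
  have h1 : (1 : ℝ) ≤ ‖h‖ ^ 2 / ε ^ 2 := by
    rw [le_div_iff₀ (by positivity), one_mul]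
    exact pow_le_pow_left₀ hε.le hh 2
  linarith

theorem fderiv_et_zero33 {ε : ℝ} (hε : 0 < ε) {h : ℂ} (hh : ε < ‖h‖) :
    fderiv ℝ (et ε) h = 0 := by
  have h1 : et ε =ᶠ[𝓝 h] fun _ => (0 : ℝ) := by
    have : {z : ℂ | ε < ‖z‖} ∈ 𝓝 h := (isOpen_lt continuous_const continuous_norm).mem_nhds hh
    filter_upwards [this] with z hz
    exact et_zero33 hε (le_of_lt hz)
  rw [h1.fderiv_eq]
  simp

theorem continuous_fderiv_et33 (ε : ℝ) (w : ℂ) : Continuous (fun h => fderiv ℝ (et ε) h w) :=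
  ((contDiff_et33 ε).continuous_fderiv (by norm_num)).clm_apply continuous_const

/-! ### Integrals along lines -/

theorem continuous_chi33 (w : ℂ) (Q : ℝ) : Continuous (fun s : ℝ => chi w (Q, s)) := by
  change Continuous (fun s : ℝ => bs w Q + (s : ℂ) * w)
  fun_prop

theorem hasCompactSupport_line33 {w : ℂ} (hw : w ≠ 0) (x : ℂ) (Q ε : ℝ) {f : ℂ → ℝ}
    (hf : ∀ h : ℂ, ε < ‖h‖ → f h = 0) :
    HasCompactSupport (fun s : ℝ => f (x - chi w (Q, s))) := by
  have hnw : 0 < ‖w‖ := norm_pos_iff.2 hw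
  set R : ℝ := (|ε| + ‖x - bs w Q‖ + 1) / ‖w‖ with hR
  refine HasCompactSupport.intro (K := Icc (-R) R) isCompact_Icc ?_
  intro s hs
  apply hf
  have h1 : R < |s| := by
    by_contra hcon
    exact hs (abs_le.1 (not_lt.1 hcon))
  have h2 : |ε| + ‖x - bs w Q‖ + 1 < |s| * ‖w‖ := by
    rw [hR, div_lt_iff₀ hnw] at h1
    exact h1
  have h3 : x - chi w (Q, s) = (x - bs w Q) - (s : ℂ) * w := by
    unfold chi; ring
  rw [h3]
  have h4 : ‖(s : ℂ) * w‖ = |s| * ‖w‖ := by
    rw [norm_mul, norm_real, Real.norm_eq_abs]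
  have h5 : ‖(s : ℂ) * w‖ - ‖x - bs w Q‖ ≤ ‖(x - bs w Q) - (s : ℂ) * w‖ :=
    (norm_sub_norm_le ((s : ℂ) * w) (x - bs w Q)).trans (le_of_eq (norm_sub_rev _ _))
  rw [h4] at h5
  have h6 := le_abs_self ε
  linarith

theorem int_line33 {w : ℂ} (hw : w ≠ 0) (x : ℂ) (Q : ℝ) {ε : ℝ} (hε : 0 < ε) :
    ∫ s : ℝ, fderiv ℝ (et ε) (x - chi w (Q, s)) w = 0 := by
  have hd : ∀ s : ℝ, HasDerivAt (fun s : ℝ => et ε (x - chi w (Q, s)))
      (-(fderiv ℝ (et ε) (x - chi w (Q, s)) w)) s := by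
    intro s
    have h1 : HasDerivAt (fun s : ℝ => x - chi w (Q, s)) (-w) s := by
      have h2 : HasDerivAt (fun s : ℝ => (s : ℂ) * w) w s := by
        have := (Complex.ofRealCLM.hasDerivAt (x := s)).mul_const w
        simpa using this
      have h3 := (h2.const_add (bs w Q)).const_sub x
      exact h3
    have h4 : HasFDerivAt (et ε) (fderiv ℝ (et ε) (x - chi w (Q, s))) (x - chi w (Q, s)) :=
      ((contDiff_et33 ε).differentiable (by norm_num) _).hasFDerivAt
    have h5 := h4.comp_hasDerivAt s h1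
    rw [map_neg] at h5
    exact h5
  have hc1 : Continuous (fun s : ℝ => et ε (x - chi w (Q, s))) :=
    (contDiff_et33 ε).continuous.comp (continuous_const.sub (continuous_chi33 w Q))
  have hc2 : Continuous (fun s : ℝ => -(fderiv ℝ (et ε) (x - chi w (Q, s)) w)) :=
    ((continuous_fderiv_et33 ε w).comp (continuous_const.sub (continuous_chi33 w Q))).neg
  have hs1 := hasCompactSupport_line33 hw x Q ε (f := et ε) (fun h hh => et_zero33 hε hh.le)
  have hs2 := hasCompactSupport_line33 hw x Q ε (f := fun h => -(fderiv ℝ (et ε) h w))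
    (fun h hh => by rw [fderiv_et_zero33 hε hh]; simp)
  have key := integral_eq_zero_of_hasDerivAt_of_integrable hd
    (hc2.integrable_of_hasCompactSupport hs2) (hc1.integrable_of_hasCompactSupport hs1)
  rw [integral_neg] at key
  linarith

theorem line_const33 {w : ℂ} (hw : w ≠ 0) (x : ℂ) (Q : ℝ) {ε : ℝ} (hε : 0 < ε) {g : ℂ → ℝ}
    {c : ℝ} (h : ∀ᵐ s : ℝ, ‖x - chi w (Q, s)‖ ≤ ε → g (chi w (Q, s)) = c) :
    ∫ s : ℝ, g (chi w (Q, s)) * fderiv ℝ (et ε) (x - chi w (Q, s)) w = 0 := by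
  have h1 : (fun s : ℝ => g (chi w (Q, s)) * fderiv ℝ (et ε) (x - chi w (Q, s)) w) =ᵐ[volume]
      fun s : ℝ => c * fderiv ℝ (et ε) (x - chi w (Q, s)) w := by
    filter_upwards [h] with s hs
    rcases le_or_gt ‖x - chi w (Q, s)‖ ε with h2 | h2
    · rw [hs h2]
    · rw [fderiv_et_zero33 hε h2]; simp
  rw [integral_congr_ae h1, integral_const_mul, int_line33 hw x Q hε, mul_zero]

theorem int_lines33 {w : ℂ} (hw : w ≠ 0) {f : ℂ → ℝ}
    (h : ∀ᵐ Q : ℝ, ∫ s : ℝ, f (chi w (Q, s)) = 0) : ∫ y, f y = 0 := by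
  by_cases hf : Integrable f
  · have h1 := (mp_chi hw).integral_comp (chi_emb hw) f
    have h2 : Integrable (fun z : ℝ × ℝ => f (chi w z))
        ((volume : Measure ℝ).prod (volume : Measure ℝ)) :=
      ((mp_chi hw).integrable_comp_emb (chi_emb hw)).2 hf
    rw [← h1, Measure.volume_eq_prod, integral_prod _ h2]
    exact integral_eq_zero_of_ae h
  · exact integral_undef hf

/-! ### Geometry -/

theorem abs_cr_le33 (a b : ℂ) : |cr a b| ≤ ‖a‖ * ‖b‖ := by
  rw [cr_eq_im]
  refine (abs_im_le_norm _).trans ?_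
  rw [norm_mul, RCLike.norm_conj]

theorem ds_lip33 {s : Fin n × Fin n} (he : ed v s ≠ 0) (x y : ℂ) :
    |ds v s x - ds v s y| ≤ ‖x - y‖ := by
  have hn : 0 < ‖ed v s‖ := norm_pos_iff.2 he
  unfold ds
  rw [← sub_div, abs_div, abs_norm, div_le_iff₀ hn, ← cr_sub_right]
  have : x - v s.1 - (y - v s.1) = x - y := by ring
  rw [this, mul_comm]
  exact abs_cr_le33 _ _

theorem ds_Rs33 {s : Fin n × Fin n} (he : ed v s ≠ 0) (x : ℂ) :
    ds v s (Rs v s x) = - ds v s x := by
  unfold ds Rs RR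
  rw [add_sub_cancel_left]
  have h := cr_rl he (ed v s) (x - v s.1)
  rw [rl_self he] at h
  change cr (ed v s) (rl (ed v s) (x - v s.1)) / ‖ed v s‖ = _
  rw [h, neg_div]

theorem norm_Rs_sub33 {s : Fin n × Fin n} (he : ed v s ≠ 0) (x : ℂ) :
    ‖Rs v s x - x‖ = 2 * |ds v s x| := by
  have hc : conj (ed v s) ≠ 0 := by simpa using he
  have hn : 0 < ‖ed v s‖ := norm_pos_iff.2 he
  have h1 : Rs v s x - x = (-2 * I * (cr (ed v s) (x - v s.1) : ℂ)) / conj (ed v s) := by
    change v s.1 + rl (ed v s) (x - v s.1) - x = _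
    rw [eq_div_iff hc]
    have h2 : v s.1 + rl (ed v s) (x - v s.1) - x =
        ed v s / conj (ed v s) * conj (x - v s.1) - (x - v s.1) := by
      unfold rl; ring
    rw [h2, sub_mul, mul_comm (ed v s / conj (ed v s)) _, mul_assoc, div_mul_cancel₀ _ hc]
    apply Complex.ext
    · simp only [cr, mul_re, mul_im, sub_re, sub_im, conj_re, conj_im, neg_re, neg_im, ofReal_re,
        ofReal_im, I_re, I_im, re_ofNat, im_ofNat]
      ring
    · simp only [cr, mul_re, mul_im, sub_re, sub_im, conj_re, conj_im, neg_re, neg_im, ofReal_re,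
        ofReal_im, I_re, I_im, re_ofNat, im_ofNat]
      ring
  rw [h1, norm_div, RCLike.norm_conj]
  unfold ds
  rw [abs_div, abs_norm, norm_mul, norm_mul, norm_neg, norm_real, norm_I, Real.norm_eq_abs]
  simp only [Complex.norm_ofNat, mul_one]
  ring

theorem ds_comb33 (s : Fin n × Fin n) {a b : ℝ} (hab : a + b = 1) (x y : ℂ) :
    ds v s ((a : ℂ) * x + (b : ℂ) * y) = a * ds v s x + b * ds v s y := by
  unfold ds
  have h : (a : ℂ) * x + (b : ℂ) * y - v s.1 =
      (a : ℂ) * (x - v s.1) + (b : ℂ) * (y - v s.1) := by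
    have : (a : ℂ) + (b : ℂ) = 1 := by exact_mod_cast hab
    linear_combination (v s.1) * this
  rw [h, cr_add_right, cr_smul_right, cr_smul_right]
  ring

theorem not_mem_OO33 {C e0 : ℝ} (hg : Geo v C e0) {t : Fin n × Fin n} (ht : t ∈ SD v) {y : ℂ}
    (hy : 0 < ds v t y) : y ∉ OO v t := by
  intro h
  have h1 := (hg.pp _).1 h t ht
  rw [ds_Rs33 (hg.edn t ht)] at h1
  linarith

/-- The value on the positive side. -/
theorem gx_pos33 {C e0 : ℝ} (hg : Geo v C e0) (F : ℂ → ℝ → ℝ) {y : ℂ}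
    (hy : ∀ t ∈ SD v, 0 < ds v t y) (w : ℂ) : gx v F y w = F w (cr w y) := by
  unfold gx
  rw [indicator_of_mem ((hg.pp y).2 hy), Finset.sum_eq_zero, add_zero]
  intro t ht
  exact indicator_of_notMem (not_mem_OO33 hg ht (hy t ht)) _

/-- The value on the negative side. -/
theorem gx_neg33 {C e0 : ℝ} (hg : Geo v C e0) (F : ℂ → ℝ → ℝ) {s : Fin n × Fin n} (hs : s ∈ SD v)
    {y : ℂ} (hy0 : ds v s y < 0) (hy1 : ∀ t ∈ SD v, t ≠ s → 0 < ds v t y)
    (hy2 : Rs v s y ∈ PP v) (w : ℂ) :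
    gx v F y w = F (rl (ed v s) w) (rfh v s w (cr w y)) := by
  unfold gx
  have h1 : y ∉ PP v := fun h => by
    have := (hg.pp y).1 h s hs
    linarith
  rw [indicator_of_notMem h1, zero_add, Finset.sum_eq_single s]
  · have h2 : y ∈ OO v s := hy2
    rw [indicator_of_mem h2]
    have h3 := rfh_eq (v := v) s (hg.edn s hs) w y
    change F (rl (ed v s) w) (cr (rl (ed v s) w) (RR v s.1 s.2 y)) = _
    rw [← h3]
    rfl
  · intro t ht hts
    exact indicator_of_notMem (not_mem_OO33 hg ht (hy1 t ht hts)) _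
  · intro h
    exact absurd hs h

theorem norm_lt_of33 {C e0 : ℝ} (hg : Geo v C e0) {ε : ℝ} {x y : ℂ} (hxy : ‖x - y‖ ≤ ε)
    {t : Fin n × Fin n} (ht : t ∈ SD v) : ds v t x - ε ≤ ds v t y := by
  have h := ds_lip33 (hg.edn t ht) x y
  have h2 := (abs_le.1 h).2
  linarith

/-- Interior case. -/
theorem ti_int33 {C e0 : ℝ} (hg : Geo v C e0) (F : ℂ → ℝ → ℝ) {ε : ℝ} (hε : 0 < ε) {x : ℂ}
    (hx : x ∈ Int1 v ε) {w : ℂ} (hw : w ≠ 0) :
    ∫ y, gx v F y w * fderiv ℝ (et ε) (x - y) w = 0 := by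
  apply int_lines33 hw
  refine Eventually.of_forall (fun Q => ?_)
  apply line_const33 hw x Q hε (g := fun y => gx v F y w) (c := F w Q)
  refine Eventually.of_forall (fun s hs => ?_)
  have h1 : ∀ t ∈ SD v, 0 < ds v t (chi w (Q, s)) := by
    intro t ht
    have := norm_lt_of33 hg hs ht
    have := hx t ht
    linarith
  change gx v F (chi w (Q, s)) w = F w Q
  rw [gx_pos33 hg F h1, cr_chi hw]

theorem ae_ds_ne33 {C e0 : ℝ} (hg : Geo v C e0) {s : Fin n × Fin n} (hs : s ∈ SD v) {w : ℂ}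
    (hc : cr (ed v s) w ≠ 0) (Q : ℝ) : ∀ᵐ r : ℝ, ds v s (chi w (Q, r)) ≠ 0 := by
  have hn : ‖ed v s‖ ≠ 0 := norm_ne_zero_iff.2 (hg.edn s hs)
  have h1 : ({r : ℝ | ¬ ds v s (chi w (Q, r)) ≠ 0}).Subsingleton := by
    intro a ha b hb
    simp only [ne_eq, not_not, mem_ofPred_eq] at ha hb
    unfold ds at ha hb
    rw [div_eq_zero_iff] at ha hb
    have ha' := ha.resolve_right hn
    have hb' := hb.resolve_right hn
    unfold chi at ha' hb'
    rw [cr_sub_right, cr_add_right, cr_smul_right] at ha' hb'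
    have h2 : (a - b) * cr (ed v s) w = 0 := by
      simp only at ha' hb'
      linarith
    have h3 := (mul_eq_zero.1 h2).resolve_right hc
    linarith
  exact h1.measure_zero volume

/-- Near a side. -/
theorem ti_side33 {C e0 : ℝ} (hg : Geo v C e0) {F : ℂ → ℝ → ℝ} {ε : ℝ} (hε : 0 < ε)
    {x : ℂ} {s : Fin n × Fin n} (hs : s ∈ SD v) (hx : x ∈ Nr v ε s) {w : ℂ} (hw : w ≠ 0)
    (hc : cr (ed v s) w ≠ 0)
    (hsym : ∀ᵐ τ : ℝ, τ ∈ Ioo (0 : ℝ) 1 →
      F (rl (ed v s) w) (cr (rl (ed v s) w) (v s.1 + (τ : ℂ) * ed v s)) =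
        F w (cr w (v s.1 + (τ : ℂ) * ed v s))) :
    ∫ y, gx v F y w * fderiv ℝ (et ε) (x - y) w = 0 := by
  have he := hg.edn s hs
  have hc' : cr w (ed v s) ≠ 0 := by rw [cr_swap]; exact neg_ne_zero.2 hc
  apply int_lines33 hw
  have hq : Measure.QuasiMeasurePreserving (fun q : ℝ => (q - cr w (v s.1)) / cr w (ed v s))
      volume volume := by
    have g1 : Measure.QuasiMeasurePreserving (fun q : ℝ => q - cr w (v s.1)) volume volume :=
      (measurePreserving_sub_right volume (cr w (v s.1))).quasiMeasurePreserving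
    have g2 : Measure.QuasiMeasurePreserving (fun q : ℝ => (cr w (ed v s))⁻¹ * q)
        volume volume := by
      refine ⟨by fun_prop, ?_⟩
      rw [Real.map_volume_mul_left (inv_ne_zero hc')]
      exact Measure.smul_absolutelyContinuous
    have g3 := g2.comp g1
    have g4 : (fun q : ℝ => (q - cr w (v s.1)) / cr w (ed v s)) =
        (fun q : ℝ => (cr w (ed v s))⁻¹ * q) ∘ (fun q : ℝ => q - cr w (v s.1)) := by
      funext q
      simp only [Function.comp]
      rw [div_eq_inv_mul]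
    rw [g4]
    exact g3
  filter_upwards [hq.ae hsym] with Q hQ
  -- other sides are far away
  have hoth : ∀ y : ℂ, ‖x - y‖ ≤ ε → ∀ t ∈ SD v, t ≠ s → 8 * ε < ds v t y := by
    intro y hy t ht hts
    have h1 := norm_lt_of33 hg hy ht
    have h2 := hx.2 t ht hts
    linarith
  have hsmall : ∀ y : ℂ, ‖x - y‖ ≤ ε → |ds v s y| < 3 * ε := by
    intro y hy
    have h1 := abs_le.1 (ds_lip33 he x y)
    have h2 := abs_lt.1 hx.1
    rw [abs_lt]
    constructor <;> linarith [h1.1, h1.2, h2.1, h2.2]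
  have hpos : ∀ y : ℂ, ‖x - y‖ ≤ ε → 0 < ds v s y → gx v F y w = F w (cr w y) := by
    intro y hy h0
    apply gx_pos33 hg
    intro t ht
    by_cases hts : t = s
    · rw [hts]; exact h0
    · have := hoth y hy t ht hts
      linarith
  have hneg : ∀ y : ℂ, ‖x - y‖ ≤ ε → ds v s y < 0 →
      gx v F y w = F (rl (ed v s) w) (rfh v s w (cr w y)) := by
    intro y hy h0
    apply gx_neg33 hg F hs h0
    · intro t ht hts
      have := hoth y hy t ht hts
      linarith
    · rw [hg.pp]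
      intro t ht
      by_cases hts : t = s
      · rw [hts, ds_Rs33 he]; linarith
      · have h1 := abs_le.1 (ds_lip33 (hg.edn t ht) (Rs v s y) y)
        rw [norm_Rs_sub33 he] at h1
        have h2 := hsmall y hy
        have h3 := hoth y hy t ht hts
        linarith [h1.1]
  classical
  by_cases hex : ∃ r : ℝ, ‖x - chi w (Q, r)‖ ≤ ε ∧ 0 < ds v s (chi w (Q, r))
  · obtain ⟨r2, hr2, hd2⟩ := hex
    apply line_const33 hw x Q hε (g := fun y => gx v F y w) (c := F w Q)
    filter_upwards [ae_ds_ne33 hg hs hc Q] with r hr hr1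
    rcases lt_or_gt_of_ne hr with h0 | h0
    · rw [hneg _ hr1 h0, cr_chi hw]
      -- the crossing point
      set y1 := chi w (Q, r) with hy1
      set y2 := chi w (Q, r2) with hy2
      set d1 := ds v s y1 with hd1'
      set d2 := ds v s y2 with hd2'
      have hd : 0 < d2 - d1 := by linarith
      set a : ℝ := d2 / (d2 - d1) with ha
      set b : ℝ := -d1 / (d2 - d1) with hb
      have hab : a + b = 1 := by
        rw [ha, hb]; field_simp; ring
      have ha0 : 0 ≤ a := by rw [ha]; exact div_nonneg hd2.le hd.le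
      have hb0 : 0 ≤ b := by rw [hb]; exact div_nonneg (by linarith) hd.le
      set z : ℂ := (a : ℂ) * y1 + (b : ℂ) * y2 with hz
      have hz0 : ds v s z = 0 := by
        rw [hz, ds_comb33 s hab, ← hd1', ← hd2', ha, hb]
        field_simp
        ring
      have hzx : ‖x - z‖ ≤ ε := by
        have h1 : x - z = (a : ℂ) * (x - y1) + (b : ℂ) * (x - y2) := by
          have : (a : ℂ) + (b : ℂ) = 1 := by exact_mod_cast hab
          rw [hz]
          linear_combination (-x) * this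
        rw [h1]
        refine (norm_add_le _ _).trans ?_
        rw [norm_mul, norm_mul, norm_real, norm_real, Real.norm_of_nonneg ha0,
          Real.norm_of_nonneg hb0]
        have h2 := mul_le_mul_of_nonneg_left hr1 ha0
        have h3 := mul_le_mul_of_nonneg_left hr2 hb0
        calc a * ‖x - y1‖ + b * ‖x - y2‖ ≤ a * ε + b * ε := add_le_add h2 h3
          _ = ε := by rw [← add_mul, hab, one_mul]
      have hzQ : cr w z = Q := by
        rw [hz, cr_add_right, cr_smul_right, cr_smul_right, hy1, hy2, cr_chi hw, cr_chi hw]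
        simp only
        rw [← add_mul, hab, one_mul]
      obtain ⟨τ, hτ, hτz⟩ := hg.onside s hs z hz0 (fun t ht hts => by
        have := hoth z hzx t ht hts
        linarith)
      have hτQ : (Q - cr w (v s.1)) / cr w (ed v s) = τ := by
        rw [← hzQ, hτz, cr_add_right, cr_smul_right, add_sub_cancel_left]
        field_simp
      rw [hτQ] at hQ
      have h5 := hQ hτ
      rw [← hτz, hzQ] at h5
      rw [← h5]
      congr 1
      have h6 := rfh_eq (v := v) s he w z
      rw [hzQ] at h6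
      rw [← h6]
      have h7 : RR v s.1 s.2 z = z := by
        rw [hτz]
        exact RR_line he τ
      rw [h7]
      rfl
    · rw [hpos _ hr1 h0, cr_chi hw]
  · push Not at hex
    apply line_const33 hw x Q hε (g := fun y => gx v F y w)
      (c := F (rl (ed v s) w) (rfh v s w Q))
    filter_upwards [ae_ds_ne33 hg hs hc Q] with r hr hr1
    have h0 : ds v s (chi w (Q, r)) < 0 := lt_of_le_of_ne (hex r hr1) hr
    rw [hneg _ hr1 h0, cr_chi hw]

theorem row : StTI := by
  intro n v C e0 hg F hF ε hε hε0 x hx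
  have hw0 : ∀ᵐ w : ℂ, w ≠ 0 := by simp [ae_iff, measure_singleton]
  rcases hg.dic ε hε hε0 x hx with h | ⟨s, hs, h⟩
  · filter_upwards [hw0] with w hw
    exact ti_int33 hg F hε h hw
  · have he := hg.edn s hs
    have hsym := hF.sym s hs
    unfold SymAt at hsym
    filter_upwards [hw0, hsym, ae_not_mem_line (ed v s)] with w hw h1 h2
    refine ti_side33 hg hε hs h hw ?_ h1
    intro h3
    apply h2
    obtain ⟨t, ht⟩ := (cr_eq_zero_iff he).1 h3
    rw [Submodule.mem_span_singleton]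
    exact ⟨t, by rw [real_smul]; exact ht.symm⟩

end Pool.Agent.Lib.BilD.TI33
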