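import Pool.Agent.Lib.MP_7bc51d_an_dense.Erg45
import Pool.Agent.Lib.MP_7bc51d_an_dense.TI33
import Pool.Agent.Lib.MP_7bc51d_an.Global

/-!
# The position gradient of the mollified function is constant along the billiard flow
-/

set_option autoImplicit false

namespace Pool.Agent.Lib.BilD.Inv45

open Complex MeasureTheory Set Filter Topology
open scoped ComplexConjugate ENNReal
open Pool.Agent.Lib.Bil Pool.Agent.Lib.BilD Pool.Agent.Lib.BilD.TI33 Pool.Agent.Lib.BilD.Erg45

variable {n : ℕ} {v : Fin n → ℂ} {F : ℂ → ℝ → ℝ} {C e0 ε : ℝ}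

theorem chi_shift (w : ℂ) (Q s t : ℝ) : chi w (Q, s) - (t : ℂ) * w = chi w (Q, s - t) := by
  unfold chi
  push_cast
  ring

theorem line_shift {w : ℂ} (hw : w ≠ 0) (x k : ℂ) (Q : ℝ) {ε : ℝ} (hε : 0 < ε) {g : ℂ → ℝ}
    {c : ℝ} (h : ∀ᵐ s : ℝ, ‖x - chi w (Q, s)‖ ≤ 5 / 4 * ε → g (chi w (Q, s)) = c) {t : ℝ}
    (ht : ‖(t : ℂ) * w‖ ≤ ε / 4) :
    ∫ s : ℝ, g (chi w (Q, s)) * (fderiv ℝ (et ε) (x + (t : ℂ) * w - chi w (Q, s)) k -
      fderiv ℝ (et ε) (x - chi w (Q, s)) k) = 0 := by
  set D : ℝ → ℝ := fun s => fderiv ℝ (et ε) (x - chi w (Q, s)) k with hD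
  have hDt : ∀ s, fderiv ℝ (et ε) (x + (t : ℂ) * w - chi w (Q, s)) k = D (s - t) := by
    intro s
    rw [hD]
    simp only
    rw [← chi_shift]
    congr 2
    ring
  have hDc : Continuous D :=
    (continuous_fderiv_et33 ε k).comp (continuous_const.sub (continuous_chi33 w Q))
  have hDs : HasCompactSupport D :=
    hasCompactSupport_line33 hw x Q ε (f := fun h => fderiv ℝ (et ε) h k)
      (fun h hh => by rw [fderiv_et_zero33 hε hh]; simp)
  have hDi : Integrable D := hDc.integrable_of_hasCompactSupport hDs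
  have h1 : (fun s : ℝ => g (chi w (Q, s)) *
      (fderiv ℝ (et ε) (x + (t : ℂ) * w - chi w (Q, s)) k -
        fderiv ℝ (et ε) (x - chi w (Q, s)) k)) =ᵐ[volume] fun s : ℝ => c * (D (s - t) - D s) := by
    filter_upwards [h] with s hs
    rw [hDt s]
    change g (chi w (Q, s)) * (D (s - t) - D s) = _
    rcases le_or_gt ‖x - chi w (Q, s)‖ (5 / 4 * ε) with h2 | h2
    · rw [hs h2]
    · have h3 : D s = 0 := by
        rw [hD]; simp only
        rw [fderiv_et_zero33 hε (by linarith)]; rfl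
      have h4 : D (s - t) = 0 := by
        rw [← hDt s, fderiv_et_zero33 hε]
        · rfl
        · have h5 : x + (t : ℂ) * w - chi w (Q, s) = (x - chi w (Q, s)) + (t : ℂ) * w := by ring
          have h6 := norm_sub_le (x - chi w (Q, s) + (t : ℂ) * w) ((t : ℂ) * w)
          rw [add_sub_cancel_right] at h6
          rw [h5]
          linarith
      rw [h3, h4]; ring
  rw [integral_congr_ae h1, integral_const_mul, integral_sub (hDi.comp_sub_right t) hDi,
    integral_sub_right_eq_self, sub_self, mul_zero]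

theorem const_int (hg : Geo v C e0) (F : ℂ → ℝ → ℝ) (hε : 0 < ε) {x : ℂ}
    (hx : x ∈ Int1 v ε) {w : ℂ} (hw : w ≠ 0) (Q : ℝ) :
    ∃ c : ℝ, ∀ᵐ s : ℝ, ‖x - chi w (Q, s)‖ ≤ 5 / 4 * ε → gx v F (chi w (Q, s)) w = c := by
  refine ⟨F w Q, Eventually.of_forall (fun s hs => ?_)⟩
  have h1 : ∀ t ∈ SD v, 0 < ds v t (chi w (Q, s)) := by
    intro t ht
    have := norm_lt_of33 hg hs ht
    have := hx t ht
    linarith
  rw [gx_pos33 hg F h1, cr_chi hw]

theorem const_side (hg : Geo v C e0) {F : ℂ → ℝ → ℝ} {ε : ℝ} (hε : 0 < ε)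
    {x : ℂ} {s : Fin n × Fin n} (hs : s ∈ SD v) (hx : x ∈ Nr v ε s) {w : ℂ} (hw : w ≠ 0)
    (hc : cr (ed v s) w ≠ 0)
    (hsym : ∀ᵐ τ : ℝ, τ ∈ Ioo (0 : ℝ) 1 →
      F (rl (ed v s) w) (cr (rl (ed v s) w) (v s.1 + (τ : ℂ) * ed v s)) =
        F w (cr w (v s.1 + (τ : ℂ) * ed v s))) :
    ∀ᵐ Q : ℝ, ∃ c : ℝ, ∀ᵐ r : ℝ, ‖x - chi w (Q, r)‖ ≤ 5 / 4 * ε →
      gx v F (chi w (Q, r)) w = c := by
  have he := hg.edn s hs
  have hc' : cr w (ed v s) ≠ 0 := by rw [cr_swap]; exact neg_ne_zero.2 hc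
  have hq : Measure.QuasiMeasurePreserving (fun q : ℝ => (q - cr w (v s.1)) / cr w (ed v s))
      volume volume := by
    have g1 : Measure.QuasiMeasurePreserving (fun q : ℝ => q - cr w (v s.1)) volume volume :=
      (measurePreserving_sub_right volume (cr w (v s.1))).quasiMeasurePreserving
    have g2 : Measure.QuasiMeasurePreserving (fun q : ℝ => (cr w (ed v s))⁻¹ * q)
        volume volume := by
      refine ⟨by fun_prop, ?_⟩
      rw [Real.map_volume_mul_left (inv_ne_zero hc')]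
      exact Measure.smul_absolutelyContinuous
    have g3 := g2.comp g1
    have g4 : (fun q : ℝ => (q - cr w (v s.1)) / cr w (ed v s)) =
        (fun q : ℝ => (cr w (ed v s))⁻¹ * q) ∘ (fun q : ℝ => q - cr w (v s.1)) := by
      funext q
      simp only [Function.comp]
      rw [div_eq_inv_mul]
    rw [g4]
    exact g3
  filter_upwards [hq.ae hsym] with Q hQ
  -- other sides are far away
  have hoth : ∀ y : ℂ, ‖x - y‖ ≤ 5 / 4 * ε → ∀ t ∈ SD v, t ≠ s → 31 / 4 * ε < ds v t y := by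
    intro y hy t ht hts
    have h1 := norm_lt_of33 hg hy ht
    have h2 := hx.2 t ht hts
    linarith
  have hsmall : ∀ y : ℂ, ‖x - y‖ ≤ 5 / 4 * ε → |ds v s y| < 13 / 4 * ε := by
    intro y hy
    have h1 := abs_le.1 (ds_lip33 he x y)
    have h2 := abs_lt.1 hx.1
    rw [abs_lt]
    constructor <;> linarith [h1.1, h1.2, h2.1, h2.2]
  have hpos : ∀ y : ℂ, ‖x - y‖ ≤ 5 / 4 * ε → 0 < ds v s y → gx v F y w = F w (cr w y) := by
    intro y hy h0
    apply gx_pos33 hg
    intro t ht
    by_cases hts : t = s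
    · rw [hts]; exact h0
    · have := hoth y hy t ht hts
      linarith
  have hneg : ∀ y : ℂ, ‖x - y‖ ≤ 5 / 4 * ε → ds v s y < 0 →
      gx v F y w = F (rl (ed v s) w) (rfh v s w (cr w y)) := by
    intro y hy h0
    apply gx_neg33 hg F hs h0
    · intro t ht hts
      have := hoth y hy t ht hts
      linarith
    · rw [hg.pp]
      intro t ht
      by_cases hts : t = s
      · rw [hts, ds_Rs33 he]; linarith
      · have h1 := abs_le.1 (ds_lip33 (hg.edn t ht) (Rs v s y) y)
        rw [norm_Rs_sub33 he] at h1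
        have h2 := hsmall y hy
        have h3 := hoth y hy t ht hts
        linarith [h1.1]
  classical
  by_cases hex : ∃ r : ℝ, ‖x - chi w (Q, r)‖ ≤ 5 / 4 * ε ∧ 0 < ds v s (chi w (Q, r))
  · obtain ⟨r2, hr2, hd2⟩ := hex
    refine ⟨F w Q, ?_⟩
    filter_upwards [ae_ds_ne33 hg hs hc Q] with r hr hr1
    rcases lt_or_gt_of_ne hr with h0 | h0
    · rw [hneg _ hr1 h0, cr_chi hw]
      -- the crossing point
      set y1 := chi w (Q, r) with hy1
      set y2 := chi w (Q, r2) with hy2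
      set d1 := ds v s y1 with hd1'
      set d2 := ds v s y2 with hd2'
      have hd : 0 < d2 - d1 := by linarith
      set a : ℝ := d2 / (d2 - d1) with ha
      set b : ℝ := -d1 / (d2 - d1) with hb
      have hab : a + b = 1 := by
        rw [ha, hb]; field_simp; ring
      have ha0 : 0 ≤ a := by rw [ha]; exact div_nonneg hd2.le hd.le
      have hb0 : 0 ≤ b := by rw [hb]; exact div_nonneg (by linarith) hd.le
      set z : ℂ := (a : ℂ) * y1 + (b : ℂ) * y2 with hz
      have hz0 : ds v s z = 0 := by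
        rw [hz, ds_comb33 s hab, ← hd1', ← hd2', ha, hb]
        field_simp
        ring
      have hzx : ‖x - z‖ ≤ 5 / 4 * ε := by
        have h1 : x - z = (a : ℂ) * (x - y1) + (b : ℂ) * (x - y2) := by
          have : (a : ℂ) + (b : ℂ) = 1 := by exact_mod_cast hab
          rw [hz]
          linear_combination (-x) * this
        rw [h1]
        refine (norm_add_le _ _).trans ?_
        rw [norm_mul, norm_mul, norm_real, norm_real, Real.norm_of_nonneg ha0,
          Real.norm_of_nonneg hb0]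
        have h2 := mul_le_mul_of_nonneg_left hr1 ha0
        have h3 := mul_le_mul_of_nonneg_left hr2 hb0
        calc a * ‖x - y1‖ + b * ‖x - y2‖ ≤ a * (5 / 4 * ε) + b * (5 / 4 * ε) :=
              add_le_add h2 h3
          _ = 5 / 4 * ε := by rw [← add_mul, hab, one_mul]
      have hzQ : cr w z = Q := by
        rw [hz, cr_add_right, cr_smul_right, cr_smul_right, hy1, hy2, cr_chi hw, cr_chi hw]
        simp only
        rw [← add_mul, hab, one_mul]
      obtain ⟨τ, hτ, hτz⟩ := hg.onside s hs z hz0 (fun t ht hts => by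
        have := hoth z hzx t ht hts
        linarith)
      have hτQ : (Q - cr w (v s.1)) / cr w (ed v s) = τ := by
        rw [← hzQ, hτz, cr_add_right, cr_smul_right, add_sub_cancel_left]
        field_simp
      rw [hτQ] at hQ
      have h5 := hQ hτ
      rw [← hτz, hzQ] at h5
      rw [← h5]
      congr 1
      have h6 := rfh_eq (v := v) s he w z
      rw [hzQ] at h6
      rw [← h6]
      have h7 : RR v s.1 s.2 z = z := by
        rw [hτz]
        exact RR_line he τ
      rw [h7]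
      rfl
    · rw [hpos _ hr1 h0, cr_chi hw]
  · push Not at hex
    refine ⟨F (rl (ed v s) w) (rfh v s w Q), ?_⟩
    filter_upwards [ae_ds_ne33 hg hs hc Q] with r hr hr1
    have h0 : ds v s (chi w (Q, r)) < 0 := lt_of_le_of_ne (hex r hr1) hr
    rw [hneg _ hr1 h0, cr_chi hw]

/-- The kernel integrals are integrable. -/
theorem int_ker (hF : LFS v F) (hε : 0 < ε) (x w k : ℂ) :
    Integrable (fun y => gx v F y w * fderiv ℝ (et ε) (x - y) k) := by
  obtain ⟨K, hK, hKb⟩ := exists_fderiv_et_bound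
  have h1 : IntegrableOn (fun y => gx v F y w * fderiv ℝ (et ε) (x - y) k)
      (Metric.closedBall x ε) := by
    refine Measure.integrableOn_of_bounded (M := ((n : ℝ) ^ 2 + 1) * (K / ε ^ 3 * ‖k‖))
      measure_closedBall_lt_top.ne
      ((gx_meas_x hF.lf w).mul (det_meas ε x k)).aestronglyMeasurable
      (Eventually.of_forall (fun y => ?_))
    rw [Real.norm_eq_abs, abs_mul, abs_of_nonneg (gx_nonneg hF y w)]
    exact mul_le_mul (gx_le hF y w) (hKb ε hε _ _) (abs_nonneg _) (by positivity)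
  refine (integrableOn_iff_integrable_of_support_subset ?_).1 h1
  intro y hy
  by_contra hcon
  rw [Metric.mem_closedBall, dist_comm, dist_eq_norm, not_le] at hcon
  apply hy
  simp only
  rw [fderiv_et_zero33 hε hcon]
  simp

/-- Invariance of the position derivative under translation in the direction. -/
theorem dg_shift (hF : LFS v F) (hε : 0 < ε) {x w : ℂ} (hw : w ≠ 0)
    (h : ∀ᵐ Q : ℝ, ∃ c : ℝ, ∀ᵐ r : ℝ, ‖x - chi w (Q, r)‖ ≤ 5 / 4 * ε →
      gx v F (chi w (Q, r)) w = c) {t : ℝ} (ht : ‖(t : ℂ) * w‖ ≤ ε / 4) (k : ℂ) :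
    dg v F ε (x + (t : ℂ) * w) w k = dg v F ε x w k := by
  have h1 : ∫ y, gx v F y w * (fderiv ℝ (et ε) (x + (t : ℂ) * w - y) k -
      fderiv ℝ (et ε) (x - y) k) = 0 := by
    apply int_lines33 hw
    filter_upwards [h] with Q hQ
    obtain ⟨c, hc⟩ := hQ
    exact line_shift hw x k Q hε (g := fun y => gx v F y w) hc ht
  have h2 : dg v F ε (x + (t : ℂ) * w) w k - dg v F ε x w k = 0 := by
    unfold dg
    rw [← integral_sub (int_ker hF hε _ w k) (int_ker hF hε _ w k), ← h1]
    refine integral_congr_ae (Eventually.of_forall (fun y => ?_))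
    simp only
    ring
  linarith

/-- Good directions at a point. -/
theorem dg_shift_ae (hg : Geo v C e0) (hF : LFS v F) (hε : 0 < ε) (hε0 : ε < e0) {x : ℂ}
    (hx : x ∈ Gd v C ε) : ∀ᵐ w : ℂ, ∀ t : ℝ, ‖(t : ℂ) * w‖ ≤ ε / 4 → ∀ k : ℂ,
      dg v F ε (x + (t : ℂ) * w) w k = dg v F ε x w k := by
  have hw0 : ∀ᵐ w : ℂ, w ≠ 0 := by simp [ae_iff, measure_singleton]
  rcases hg.dic ε hε hε0 x hx with h | ⟨s, hs, h⟩
  · filter_upwards [hw0] with w hw t ht k
    exact dg_shift hF hε hw (Eventually.of_forall (fun Q => const_int hg F hε h hw Q)) ht k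
  · have he := hg.edn s hs
    have hsym := hF.sym s hs
    unfold SymAt at hsym
    filter_upwards [hw0, hsym, ae_not_mem_line (ed v s)] with w hw h1 h2 t ht k
    refine dg_shift hF hε hw (const_side hg hε hs h hw ?_ h1) ht k
    intro h3
    apply h2
    obtain ⟨t, ht⟩ := (cr_eq_zero_iff he).1 h3
    rw [Submodule.mem_span_singleton]
    exact ⟨t, by rw [real_smul]; exact ht.symm⟩

theorem Rs_emb {s : Fin n × Fin n} (he : ed v s ≠ 0) : MeasurableEmbedding (Rs v s) := by
  have hc : Continuous (Rs v s) := by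
    have : Rs v s = fun x => v s.1 + rl (ed v s) (x - v s.1) := rfl
    rw [this]
    exact continuous_const.add ((continuous_rl _).comp (continuous_id.sub continuous_const))
  let E : ℂ ≃ₜ ℂ :=
    { toFun := Rs v s, invFun := Rs v s, left_inv := Refl5.Rs_Rs he
      right_inv := Refl5.Rs_Rs he
      continuous_toFun := hc, continuous_invFun := hc }
  exact E.measurableEmbedding

theorem Rs_sub {s : Fin n × Fin n} (x y : ℂ) :
    Rs v s x - Rs v s y = rl (ed v s) (x - y) := RR_sub_RR v s.1 s.2 x y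

theorem det_rl {a : ℂ} (ha : a ≠ 0) (ε : ℝ) (h k : ℂ) :
    fderiv ℝ (et ε) (rl a h) (rl a k) = fderiv ℝ (et ε) h k := by
  have h1 : et ε ∘ (rlEquiv a ha).toContinuousLinearEquiv = et ε := by
    funext z
    change et ε (rl a z) = et ε z
    exact et_norm ε (norm_rl ha z)
  have h2 := (rlEquiv a ha).toContinuousLinearEquiv.comp_right_fderiv (f := et ε) (x := h)
  rw [h1] at h2
  rw [h2]
  rfl

/-- The ball of radius `ε` at `z` meets no other side, nor its mirror image. -/
def Nb (v : Fin n → ℂ) (ε : ℝ) (s : Fin n × Fin n) (z : ℂ) : Prop :=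
  ∀ y, ‖z - y‖ < ε → (∀ t ∈ SD v, t ≠ s → 0 < ds v t y) ∧
    (∀ t ∈ SD v, t ≠ s → 0 < ds v t (Rs v s y))

theorem dg_refl (hg : Geo v C e0) (hε : 0 < ε) {s : Fin n × Fin n} (hs : s ∈ SD v)
    {z : ℂ} (hz : Nb v ε s z) (w k : ℂ) :
    dg v F ε (Rs v s z) (rl (ed v s) w) (rl (ed v s) k) = dg v F ε z w k := by
  have he := hg.edn s hs
  unfold dg
  have e1 := (Refl5.mp_Rs he).integral_comp (Rs_emb he)
    (fun y => gx v F y (rl (ed v s) w) * fderiv ℝ (et ε) (Rs v s z - y) (rl (ed v s) k))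
  rw [← e1]
  refine integral_congr_ae (Eventually.of_forall (fun y => ?_))
  simp only
  rw [Rs_sub, det_rl he]
  by_cases hy : ‖z - y‖ < ε
  · obtain ⟨h1, h2⟩ := hz y hy
    rw [Refl5.gx_refl hg hs h1 h2]
  · rw [Bes85.fderiv_et_zero' hε (not_lt.1 hy)]
    simp

theorem dg_lin (hF : LFS v F) (hε : 0 < ε) (x w : ℂ) (a b : ℝ) :
    dg v F ε x w ((a : ℂ) + (b : ℂ) * I) = a * dg v F ε x w 1 + b * dg v F ε x w I := by
  unfold dg
  rw [← integral_const_mul, ← integral_const_mul,
    ← integral_add ((int_ker hF hε x w 1).const_mul a) ((int_ker hF hε x w I).const_mul b)]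
  refine integral_congr_ae (Eventually.of_forall (fun y => ?_))
  simp only
  have h1 : (a : ℂ) + (b : ℂ) * I = a • (1 : ℂ) + b • I := by
    simp [real_smul]
  rw [h1, map_add, map_smul, map_smul, smul_eq_mul, smul_eq_mul]
  ring

theorem hq_refl (hg : Geo v C e0) (hF : LFS v F) (hε : 0 < ε) {s : Fin n × Fin n}
    (hs : s ∈ SD v) {z : ℂ} (hz : Nb v ε s z) (w : ℂ) :
    hq v F ε (Rs v s z) (rl (ed v s) w) = hq v F ε z w := by
  have he := hg.edn s hs
  have hc : conj (ed v s) ≠ 0 := by simpa using he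
  set u : ℂ := ed v s / conj (ed v s) with hu
  have hu1 : ‖u‖ = 1 := by
    rw [hu, norm_div, RCLike.norm_conj, div_self (norm_ne_zero_iff.2 he)]
  have hsq : u.re ^ 2 + u.im ^ 2 = 1 := by
    have h1 := Complex.sq_norm u
    rw [hu1, normSq_apply] at h1
    nlinarith
  have r1 : rl (ed v s) 1 = (u.re : ℂ) + (u.im : ℂ) * I := by
    rw [re_add_im]; unfold rl; rw [map_one, mul_one]
  have r2 : rl (ed v s) I = (u.im : ℂ) + ((-u.re : ℝ) : ℂ) * I := by
    have h1 : rl (ed v s) I = - (u * I) := by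
      unfold rl
      rw [conj_I, hu]; ring
    rw [h1]
    apply Complex.ext
    · simp
    · simp
  have d1 := dg_refl (F := F) hg hε hs hz w 1
  have d2 := dg_refl (F := F) hg hε hs hz w I
  rw [r1, dg_lin hF hε] at d1
  rw [r2, dg_lin hF hε] at d2
  unfold hq
  rw [← d1, ← d2]
  set X := dg v F ε (Rs v s z) (rl (ed v s) w) 1
  set Y := dg v F ε (Rs v s z) (rl (ed v s) w) I
  have : (u.re * X + u.im * Y) ^ 2 + (u.im * X + -u.re * Y) ^ 2 =
      (u.re ^ 2 + u.im ^ 2) * (X ^ 2 + Y ^ 2) := by ring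
  rw [this, hsq, one_mul]

theorem step_none {p : ℂ × ℂ} {h : ℝ} : stepMap v h none p = (p.1 + (h : ℂ) * p.2, p.2) := rfl

theorem norm_step {w : ℂ} (hε : 0 < ε) (hw : ‖w‖ < 1) : ‖((ε / 4 : ℝ) : ℂ) * w‖ < ε / 4 := by
  rw [norm_mul, norm_real, Real.norm_of_nonneg (by positivity)]
  nlinarith

/-- One step of the flow, at a good point and for a good direction. -/
theorem hq_step (hg : Geo v C e0) (hF : LFS v F) (hε : 0 < ε) (hε0 : ε < e0) {x w : ℂ}
    (hxP : x ∈ PP v) (hx : x ∈ Gd v C ε) (hw1 : ‖w‖ < 1) (σ : ℝ) (hσ : σ = 1 ∨ σ = -1)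
    (hsh : ∀ t : ℝ, ‖(t : ℂ) * ((σ : ℂ) * w)‖ ≤ ε / 4 → ∀ k : ℂ,
      dg v F ε (x + (t : ℂ) * ((σ : ℂ) * w)) ((σ : ℂ) * w) k = dg v F ε x ((σ : ℂ) * w) k)
    (c : Option (Fin n × Fin n)) (hc : (x, w) ∈ stepSet v (ε / 4) c) :
    hq v F ε (stepMap v (ε / 4) c (x, w)).1 ((σ : ℂ) * (stepMap v (ε / 4) c (x, w)).2) =
      hq v F ε x ((σ : ℂ) * w) := by
  have hσ2 : (σ : ℂ) * σ = 1 := by
    rcases hσ with rfl | rfl <;> simp
  have hσn : ‖(σ : ℂ)‖ = 1 := by
    rcases hσ with rfl | rfl <;> simp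
  have hmove : ∀ k, dg v F ε (x + ((ε / 4 : ℝ) : ℂ) * w) ((σ : ℂ) * w) k =
      dg v F ε x ((σ : ℂ) * w) k := by
    intro k
    have h1 := hsh (ε / 4 * σ) (by
      have h2 : ((ε / 4 * σ : ℝ) : ℂ) * ((σ : ℂ) * w) = ((ε / 4 : ℝ) : ℂ) * w := by
        push_cast
        linear_combination ((ε : ℂ) / 4 * w) * hσ2
      rw [h2]
      exact (norm_step hε hw1).le) k
    have h2 : ((ε / 4 * σ : ℝ) : ℂ) * ((σ : ℂ) * w) = ((ε / 4 : ℝ) : ℂ) * w := by
      push_cast
      linear_combination ((ε : ℂ) / 4 * w) * hσ2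
    rw [h2] at h1
    exact h1
  have hq1 : hq v F ε (x + ((ε / 4 : ℝ) : ℂ) * w) ((σ : ℂ) * w) = hq v F ε x ((σ : ℂ) * w) := by
    unfold hq
    rw [hmove 1, hmove I]
  match c with
  | none => exact hq1
  | some (i, j) =>
    obtain ⟨hij, -, h1, h2, h3⟩ := hc
    change 0 < cr w (v j - x) at h2
    change cr w (v i - x) < 0 at h1
    set s : Fin n × Fin n := (i, j) with hs'
    have hs : s ∈ SD v := mem_SD.2 hij
    have he := hg.edn s hs
    set z := x + ((ε / 4 : ℝ) : ℂ) * w with hz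
    have hzx : ‖x - z‖ < ε / 4 := by
      rw [hz, sub_add_cancel_left, norm_neg]
      exact norm_step hε hw1
    have h3' : Rs v s z ∈ PP v := h3
    have hdz : ds v s z < 0 := by
      have := (hg.pp _).1 h3' s hs
      rw [Refl5.ds_Rs he] at this
      linarith
    have hdx : 0 < ds v s x := (hg.pp _).1 hxP s hs
    have hd1 := abs_le.1 (Refl5.ds_sub_le (v := v) (s := s) x z)
    have hdx2 : ds v s x < ε / 4 := by linarith [hd1.2]
    have hNr : x ∈ Nr v ε s := by
      rcases hg.dic ε hε hε0 x hx with h | ⟨s', hs'', h⟩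
      · have := h s hs
        linarith
      · by_cases hss : s = s'
        · rw [hss]; exact h
        · have := h.2 s hs hss
          linarith
    have hNb : Nb v ε s z := by
      intro y hy
      have key : ∀ t ∈ SD v, t ≠ s → 31 / 4 * ε < ds v t y := by
        intro t ht hts
        have a1 := hNr.2 t ht hts
        have a2 := (abs_le.1 (Refl5.ds_sub_le (v := v) (s := t) x y)).2
        have a3 : ‖x - y‖ ≤ ‖x - z‖ + ‖z - y‖ := by
          have : x - y = (x - z) + (z - y) := by ring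
          rw [this]; exact norm_add_le _ _
        linarith
      refine ⟨fun t ht hts => by have := key t ht hts; linarith, fun t ht hts => ?_⟩
      have a1 := key t ht hts
      have a2 := (abs_le.1 (Refl5.ds_sub_le (v := v) (s := t) y (Rs v s y))).2
      have a3 := Refl5.sub_Rs he y
      have a4 : |ds v s y| < 3 / 2 * ε := by
        have a5 := abs_le.1 (Refl5.ds_sub_le (v := v) (s := s) x y)
        have a6 : ‖x - y‖ ≤ ‖x - z‖ + ‖z - y‖ := by
          have : x - y = (x - z) + (z - y) := by ring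
          rw [this]; exact norm_add_le _ _
        rw [abs_lt]
        constructor <;> linarith [a5.1, a5.2]
      linarith
    have e1 : (stepMap v (ε / 4) (some (i, j)) (x, w)).1 = Rs v s z := rfl
    have e2 : (σ : ℂ) * (stepMap v (ε / 4) (some (i, j)) (x, w)).2 =
        rl (ed v s) ((σ : ℂ) * w) := by
      change (σ : ℂ) * rl (v j - v i) w = rl (v j - v i) ((σ : ℂ) * w)
      rw [rl_smul]
    rw [e1, e2, hq_refl hg hF hε hs hNb, hq1]

/-- (INV) the squared position gradient is invariant under the steps of the flow, in both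
orientations. -/
theorem inv_ae (hg : Geo v C e0) (hF : LFS v F) (hε : 0 < ε) (hε0 : ε < e0)
    (σ : ℝ) (hσ : σ = 1 ∨ σ = -1) :
    ∀ᵐ p : ℂ × ℂ, p.1 ∈ PP v → (∀ k, C * ε ≤ ‖p.1 - v k‖) → ‖p.2‖ < 1 →
      ∀ c, p ∈ stepSet v (ε / 4) c →
        hq v F ε (stepMap v (ε / 4) c p).1 ((σ : ℂ) * (stepMap v (ε / 4) c p).2) =
          hq v F ε p.1 ((σ : ℂ) * p.2) := by
  have hxw : ∀ x ∈ Gd v C ε, ∀ᵐ w : ℂ, ∀ t : ℝ, ‖(t : ℂ) * ((σ : ℂ) * w)‖ ≤ ε / 4 → ∀ k : ℂ,
      dg v F ε (x + (t : ℂ) * ((σ : ℂ) * w)) ((σ : ℂ) * w) k = dg v F ε x ((σ : ℂ) * w) k := by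
    intro x hx
    have h := dg_shift_ae hg hF hε hε0 hx
    rcases hσ with rfl | rfl
    · simpa using h
    · filter_upwards [ae_neg h] with w hw
      have e : ((-1 : ℝ) : ℂ) * w = -w := by push_cast; ring
      rw [e]
      exact hw
  have main : ∀ c : Option (Fin n × Fin n), ∀ᵐ p : ℂ × ℂ, p.1 ∈ PP v →
      (∀ k, C * ε ≤ ‖p.1 - v k‖) → ‖p.2‖ < 1 → p ∈ stepSet v (ε / 4) c →
        hq v F ε (stepMap v (ε / 4) c p).1 ((σ : ℂ) * (stepMap v (ε / 4) c p).2) =
          hq v F ε p.1 ((σ : ℂ) * p.2) := by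
    intro c
    set f : ℂ × ℂ → ℝ := fun p =>
      hq v F ε (stepMap v (ε / 4) c p).1 ((σ : ℂ) * (stepMap v (ε / 4) c p).2) with hf
    set g : ℂ × ℂ → ℝ := fun p => hq v F ε p.1 ((σ : ℂ) * p.2) with hgd
    have hgm : Measurable g :=
      (hq_meas2 hF).comp (measurable_fst.prodMk (measurable_const.mul measurable_snd))
    have hfm : Measurable f := hgm.comp (continuous_stepMap (v := v) (ε / 4) c).measurable
    set S : Set (ℂ × ℂ) := {p | p.1 ∈ PP v ∧ (∀ k, C * ε ≤ ‖p.1 - v k‖) ∧ ‖p.2‖ < 1 ∧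
      p ∈ stepSet v (ε / 4) c ∧ f p ≠ g p} with hS
    have hSm : MeasurableSet S := by
      have e1 : S = {p | p.1 ∈ PP v} ∩ ((⋂ k, {p : ℂ × ℂ | C * ε ≤ ‖p.1 - v k‖}) ∩
          ({p | ‖p.2‖ < 1} ∩ (stepSet v (ε / 4) c ∩ {p | f p = g p}ᶜ))) := by
        ext p
        simp only [hS, mem_ofPred_eq, mem_inter_iff, mem_iInter, mem_compl_iff, ne_eq]
      rw [e1]
      exact (measurable_fst meas_PP).inter ((MeasurableSet.iInter (fun k =>
        (isClosed_le continuous_const (by fun_prop)).measurableSet)).inter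
        ((isOpen_lt (by fun_prop) continuous_const).measurableSet.inter
          ((isOpen_stepSet _ _).measurableSet.inter (measurableSet_eq_fun hfm hgm).compl)))
    have hS0 : volume S = 0 := by
      rw [Measure.volume_eq_prod, Measure.measure_prod_null hSm]
      refine Eventually.of_forall (fun x => ?_)
      simp only [Pi.zero_apply]
      by_cases hx : x ∈ PP v ∧ ∀ k, C * ε ≤ ‖x - v k‖
      · have hGd : x ∈ Gd v C ε := ⟨fun s hs => ((hg.pp x).1 hx.1 s hs).le, hx.2⟩
        have h1 := hxw x hGd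
        rw [ae_iff] at h1
        refine measure_mono_null ?_ h1
        intro w hw hcon
        obtain ⟨-, -, w1, w2, w3⟩ := hw
        exact w3 (hq_step hg hF hε hε0 hx.1 hGd w1 σ hσ hcon c w2)
      · have : Prod.mk x ⁻¹' S = ∅ := by
          ext w
          simp only [mem_preimage, hS, mem_ofPred_eq, mem_empty_iff_false, iff_false]
          exact fun hw => hx ⟨hw.1, hw.2.1⟩
        rw [this, measure_empty]
    rw [ae_iff]
    refine measure_mono_null ?_ hS0
    intro p hp
    simp only [mem_ofPred_eq, not_forall] at hp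
    obtain ⟨a1, a2, a3, a4, a5⟩ := hp
    exact ⟨a1, a2, a3, a4, a5⟩
  have h2 := ae_all_iff.2 main
  filter_upwards [h2] with p hp a1 a2 a3 c hc
  exact hp c a1 a2 a3 hc

/-- (COV) almost every point away from the vertices lies in the domain of a step. -/
theorem cov_ae (hg : Geo v C e0) (hε : 0 < ε) (hε0 : ε < e0) :
    ∀ᵐ p : ℂ × ℂ, p.1 ∈ PP v → (∀ k, C * ε ≤ ‖p.1 - v k‖) → ‖p.2‖ < 1 →
      ∃ c, p ∈ stepSet v (ε / 4) c := by
  have h0 : ∀ s ∈ SD v, ∀ᵐ p : ℂ × ℂ, ds v s (p.1 + ((ε / 4 : ℝ) : ℂ) * p.2) ≠ 0 := by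
    intro s hs
    have he := hg.edn s hs
    have h1 : ∀ᵐ y : ℂ, ds v s y ≠ 0 := by
      have h2 := ae_not_mem_line (ed v s)
      have h3 := (measurePreserving_sub_right (volume : Measure ℂ)
        (v s.1)).quasiMeasurePreserving.ae h2
      filter_upwards [h3] with y hy h4
      apply hy
      unfold ds at h4
      rw [div_eq_zero_iff] at h4
      have h5 := h4.resolve_right (norm_ne_zero_iff.2 he)
      obtain ⟨t, ht⟩ := (cr_eq_zero_iff he).1 h5
      rw [Submodule.mem_span_singleton]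
      exact ⟨t, by rw [real_smul, ← ht]⟩
    have h2 := (mp_shear ((ε / 4 : ℝ) : ℂ)).quasiMeasurePreserving.ae
      (Measure.quasiMeasurePreserving_fst.ae h1)
    exact h2
  have h1 : ∀ᵐ p : ℂ × ℂ, ∀ s ∈ SD v, ds v s (p.1 + ((ε / 4 : ℝ) : ℂ) * p.2) ≠ 0 := by
    exact (MeasureTheory.ae_ball_iff (Set.to_countable {s | s ∈ SD v})).2 h0
  filter_upwards [h1] with p hp hP hk hw
  have hGd : p.1 ∈ Gd v C ε := ⟨fun s hs => ((hg.pp p.1).1 hP s hs).le, hk⟩
  set z := p.1 + ((ε / 4 : ℝ) : ℂ) * p.2 with hz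
  have hzx : ‖p.1 - z‖ < ε / 4 := by
    rw [hz, sub_add_cancel_left, norm_neg]
    exact norm_step hε hw
  by_cases hzP : z ∈ PP v
  · exact ⟨none, hP, hzP⟩
  · have hex : ∃ s ∈ SD v, ds v s z < 0 := by
      by_contra hcon
      push Not at hcon
      exact hzP ((hg.pp z).2 (fun s hs => lt_of_le_of_ne (hcon s hs) (hp s hs).symm))
    obtain ⟨s, hs, hd⟩ := hex
    have he := hg.edn s hs
    have hdx : 0 < ds v s p.1 := (hg.pp _).1 hP s hs
    have hd1 := abs_le.1 (Refl5.ds_sub_le (v := v) (s := s) p.1 z)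
    have hdx2 : ds v s p.1 < ε / 4 := by linarith [hd1.2]
    have hNr : p.1 ∈ Nr v ε s := by
      rcases hg.dic ε hε hε0 p.1 hGd with h | ⟨s', hs'', h⟩
      · have := h s hs
        linarith
      · by_cases hss : s = s'
        · rw [hss]; exact h
        · have := h.2 s hs hss
          linarith
    have hfar : ∀ y, ‖p.1 - y‖ ≤ ε → ∀ t ∈ SD v, t ≠ s → 8 * ε ≤ ds v t y := by
      intro y hy t ht hts
      have a1 := hNr.2 t ht hts
      have a2 := (abs_le.1 (Refl5.ds_sub_le (v := v) (s := t) p.1 y)).2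
      linarith
    -- the crossing point
    set a : ℝ := ds v s p.1 with ha
    set b : ℝ := ds v s z with hb
    set τ : ℝ := a / (a - b) * (ε / 4) with hτ
    have hab : 0 < a - b := by linarith
    have hτ0 : 0 < τ := by positivity
    set y := p.1 + (τ : ℂ) * p.2 with hy
    have hye : y = ((1 - a / (a - b) : ℝ) : ℂ) * p.1 + ((a / (a - b) : ℝ) : ℂ) * z := by
      rw [hy, hz, hτ]
      push_cast
      ring
    have hdy : ds v s y = 0 := by
      rw [hye, ds_comb33 s (by ring), ← ha, ← hb]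
      field_simp
      ring
    have hyx : ‖p.1 - y‖ ≤ ε := by
      have h3 : p.1 - y = ((a / (a - b) : ℝ) : ℂ) * (p.1 - z) := by
        rw [hye]; push_cast; ring
      rw [h3, norm_mul, norm_real, Real.norm_of_nonneg (by positivity)]
      have h4 : a / (a - b) ≤ 1 := by rw [div_le_one hab]; linarith
      have h5 : 0 ≤ a / (a - b) := by positivity
      nlinarith [norm_nonneg (p.1 - z)]
    obtain ⟨r, hr, hry⟩ := hg.onside s hs y hdy (fun t ht hts => by
      have := hfar y hyx t ht hts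
      linarith)
    have hcw : cr (ed v s) p.2 < 0 := by
      have hn : 0 < ‖ed v s‖ := norm_pos_iff.2 he
      have h3 : b - a = (ε / 4) * (cr (ed v s) p.2 / ‖ed v s‖) := by
        rw [hb, ha, hz]
        unfold ds
        have h4 : p.1 + ((ε / 4 : ℝ) : ℂ) * p.2 - v s.1 =
            (p.1 - v s.1) + ((ε / 4 : ℝ) : ℂ) * p.2 := by ring
        rw [h4, cr_add_right, cr_smul_right]
        ring
      have h5 : (ε / 4) * (cr (ed v s) p.2 / ‖ed v s‖) < 0 := by rw [← h3]; linarith
      have h6 : cr (ed v s) p.2 / ‖ed v s‖ < 0 := by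
        by_contra hcon
        push Not at hcon
        have : 0 ≤ (ε / 4) * (cr (ed v s) p.2 / ‖ed v s‖) := by positivity
        linarith
      by_contra hcon
      push Not at hcon
      have : 0 ≤ cr (ed v s) p.2 / ‖ed v s‖ := div_nonneg hcon hn.le
      linarith
    have hcw' : 0 < cr p.2 (ed v s) := by rw [cr_swap]; linarith
    refine ⟨some (s.1, s.2), mem_SD.1 hs, hP, ?_, ?_, ?_⟩
    · have h3 : v s.1 - p.1 = (τ : ℂ) * p.2 - (r : ℂ) * ed v s := by
        have : p.1 + (τ : ℂ) * p.2 = v s.1 + (r : ℂ) * ed v s := hry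
        linear_combination (-1 : ℂ) * this
      rw [h3, cr_sub_right, cr_smul_right, cr_smul_right, cr_self]
      have := mul_pos hr.1 hcw'
      linarith
    · have h3 : v s.2 - p.1 = (τ : ℂ) * p.2 + ((1 - r : ℝ) : ℂ) * ed v s := by
        have h4 : p.1 + (τ : ℂ) * p.2 = v s.1 + (r : ℂ) * ed v s := hry
        have h5 : v s.2 = v s.1 + ed v s := by unfold ed; ring
        rw [h5]
        push_cast
        linear_combination (-1 : ℂ) * h4
      rw [h3, cr_add_right, cr_smul_right, cr_smul_right, cr_self]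
      have := mul_pos (by linarith [hr.2] : (0 : ℝ) < 1 - r) hcw'
      linarith
    · change Rs v s z ∈ PP v
      rw [hg.pp]
      intro t ht
      by_cases hts : t = s
      · rw [hts, Refl5.ds_Rs he]; linarith
      · have a1 := hfar z (by linarith) t ht hts
        have a2 := (abs_le.1 (Refl5.ds_sub_le (v := v) (s := t) z (Rs v s z))).2
        have a3 := Refl5.sub_Rs he z
        have a4 : |ds v s z| < ε / 4 := by
          rw [abs_lt]
          constructor <;> linarith [hd1.2]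
        linarith

end Pool.Agent.Lib.BilD.Inv45
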