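import Pool.Agent.Lib.MP_7bc51d_an_dense.Basic

set_option autoImplicit false

namespace Pool.Agent.Lib.BilD.Lim89

open Complex MeasureTheory Set Filter Topology
open scoped ComplexConjugate
open Pool.Agent.Lib.Bil Pool.Agent.Lib.BilD

variable {n : ℕ} {v : Fin n → ℂ} {F : ℂ → ℝ → ℝ} {C e0 ε : ℝ}

/-! ### the bump -/

/-- total mass of the bump -/
noncomputable def Z0 : ℝ := ∫ y, et 1 y

theorem et_cont (ε : ℝ) : Continuous (et ε) := (et_contDiff ε).continuous

theorem et_int (hε : 0 < ε) : Integrable (et ε) :=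
  (et_cont ε).integrable_of_hasCompactSupport (et_compact hε)

theorem Z0_pos : 0 < Z0 := by
  unfold Z0
  rw [integral_pos_iff_support_of_nonneg (et_nonneg 1) (et_int one_pos), et_supp one_pos]
  exact Metric.measure_ball_pos _ _ one_pos

theorem et_total (hε : 0 < ε) : ∫ y, et ε y = Z0 := by
  have h1 : ∫ y, et ε y = ∫ y, (ε ^ 2)⁻¹ * et 1 ((ε⁻¹ : ℝ) • y) :=
    integral_congr_ae (Eventually.of_forall (fun y => et_scale hε y))
  rw [h1, integral_const_mul, Measure.integral_comp_inv_smul, Complex.finrank_real_complex,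
    abs_of_pos (by positivity), smul_eq_mul, ← mul_assoc, inv_mul_cancel₀ (by positivity), one_mul]
  rfl

theorem et_total_sub (hε : 0 < ε) (z : ℂ) : ∫ y, et ε (y - z) = Z0 := by
  rw [integral_sub_right_eq_self (et ε) z, et_total hε]

theorem et_sub_comm (ε : ℝ) (y z : ℂ) : et ε (y - z) = et ε (z - y) := by
  rw [← et_neg, neg_sub]

theorem et_int_sub (hε : 0 < ε) (z : ℂ) : Integrable (fun y => et ε (y - z)) :=
  (et_int hε).comp_sub_right z

theorem et_total_sub' (hε : 0 < ε) (z : ℂ) : ∫ y, et ε (z - y) = Z0 := by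
  rw [← et_total_sub hε z]
  exact integral_congr_ae (Eventually.of_forall (fun y => et_sub_comm ε z y))

/-! ### test functions -/

/-- the mollification tends to a multiple of the function, tested against a continuous function -/
theorem K1 {g ψ : ℂ → ℝ} (hg : Integrable g) (hψ : Continuous ψ) (hψc : HasCompactSupport ψ)
    {ω : ℝ} (hε : 0 < ε) (hω : ∀ y z, ‖y - z‖ ≤ ε → |ψ y - ψ z| ≤ ω) :
    |(∫ y, ψ y * ∫ z, et ε (y - z) * g z) - Z0 * ∫ z, ψ z * g z| ≤ Z0 * ω * ∫ z, |g z| := by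
  have hω0 : 0 ≤ ω := (abs_nonneg _).trans (hω 0 0 (by simpa using hε.le))
  have hψi : Integrable ψ := hψ.integrable_of_hasCompactSupport hψc
  have hG : Integrable (fun p : ℂ × ℂ => ψ p.1 * (et ε (p.1 - p.2) * g p.2))
      ((volume : Measure ℂ).prod volume) := by
    have h1 : Integrable (fun p : ℂ × ℂ => (ε ^ 2)⁻¹ * (ψ p.1 * g p.2))
      ((volume : Measure ℂ).prod volume) := (hψi.mul_prod hg).const_mul _
    refine Integrable.mono h1 ?_ (Eventually.of_forall (fun p => ?_))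
    · have h2 : AEStronglyMeasurable (fun p : ℂ × ℂ => ψ p.1 * g p.2)
        ((volume : Measure ℂ).prod volume) := (hψi.mul_prod hg).aestronglyMeasurable
      have h3 : Continuous (fun p : ℂ × ℂ => et ε (p.1 - p.2)) :=
        (et_cont ε).comp (continuous_fst.sub continuous_snd)
      refine (h3.aestronglyMeasurable.mul h2).congr (Eventually.of_forall (fun p => ?_))
      simp only [Pi.mul_apply]
      ring
    · rw [Real.norm_eq_abs, Real.norm_eq_abs, abs_mul, abs_mul, abs_mul, abs_mul,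
        abs_of_nonneg (et_nonneg ε _), abs_of_nonneg (show 0 ≤ (ε ^ 2)⁻¹ by positivity)]
      have h2 := et_le ε (p.1 - p.2)
      calc |ψ p.1| * (et ε (p.1 - p.2) * |g p.2|) = et ε (p.1 - p.2) * (|ψ p.1| * |g p.2|) := by
            ring
        _ ≤ _ := mul_le_mul_of_nonneg_right h2 (by positivity)
  have e1 : (∫ y, ψ y * ∫ z, et ε (y - z) * g z) = ∫ z, g z * ∫ y, ψ y * et ε (y - z) := by
    have h1 : (∫ y, ψ y * ∫ z, et ε (y - z) * g z) = ∫ y, ∫ z, ψ y * (et ε (y - z) * g z) :=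
      integral_congr_ae (Eventually.of_forall (fun y => (integral_const_mul _ _).symm))
    rw [h1, integral_integral_swap hG]
    refine integral_congr_ae (Eventually.of_forall (fun z => ?_))
    simp only
    rw [← integral_const_mul]
    refine integral_congr_ae (Eventually.of_forall (fun y => ?_))
    simp only
    ring
  have e2 : Z0 * ∫ z, ψ z * g z = ∫ z, g z * ∫ y, ψ z * et ε (y - z) := by
    rw [← integral_const_mul]
    refine integral_congr_ae (Eventually.of_forall (fun z => ?_))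
    simp only
    rw [integral_const_mul, et_total_sub hε]
    ring
  have hi1 : ∀ z, Integrable (fun y => ψ y * et ε (y - z)) := by
    intro z
    have hc : Continuous (fun y => ψ y * et ε (y - z)) :=
      hψ.mul ((et_cont ε).comp (continuous_id.sub continuous_const))
    exact hc.integrable_of_hasCompactSupport hψc.mul_right
  have hi2 : ∀ z, Integrable (fun y => ψ z * et ε (y - z)) := fun z =>
    (et_int_sub hε z).const_mul _
  have hin : ∀ z, |(∫ y, ψ y * et ε (y - z)) - ∫ y, ψ z * et ε (y - z)| ≤ Z0 * ω := by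
    intro z
    rw [← integral_sub (hi1 z) (hi2 z)]
    have h1 : |∫ y, (ψ y * et ε (y - z) - ψ z * et ε (y - z))| ≤ ∫ y, ω * et ε (y - z) := by
      rw [← Real.norm_eq_abs]
      refine norm_integral_le_of_norm_le ((et_int_sub hε z).const_mul _)
        (Eventually.of_forall (fun y => ?_))
      rw [← sub_mul, norm_mul, Real.norm_eq_abs, Real.norm_eq_abs,
        abs_of_nonneg (et_nonneg ε (y - z))]
      by_cases hy : ‖y - z‖ ≤ ε
      · exact mul_le_mul_of_nonneg_right (hω y z hy) (et_nonneg _ _)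
      · rw [et_zero hε (not_le.1 hy).le, mul_zero, mul_zero]
    rw [integral_const_mul, et_total_sub hε] at h1
    linarith
  have hgi1 : Integrable (fun z => g z * ∫ y, ψ y * et ε (y - z)) := by
    have h1 := hG.integral_prod_right
    refine h1.congr (Eventually.of_forall (fun z => ?_))
    simp only
    rw [← integral_const_mul]
    refine integral_congr_ae (Eventually.of_forall (fun y => ?_))
    simp only
    ring
  have hψg : Integrable (fun z => ψ z * g z) := by
    obtain ⟨M, hM⟩ := hψ.bounded_above_of_compact_support hψc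
    refine Integrable.mono (hg.const_mul M) (hψ.aestronglyMeasurable.mul hg.aestronglyMeasurable)
      (Eventually.of_forall (fun z => ?_))
    rw [norm_mul, norm_mul]
    exact mul_le_mul_of_nonneg_right ((hM z).trans (le_abs_self _)) (norm_nonneg _)
  have hgi2 : Integrable (fun z => g z * ∫ y, ψ z * et ε (y - z)) := by
    refine (hψg.const_mul Z0).congr (Eventually.of_forall (fun z => ?_))
    simp only
    rw [integral_const_mul, et_total_sub hε]
    ring
  rw [e1, e2, ← integral_sub hgi1 hgi2, ← Real.norm_eq_abs]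
  have h2 : ∫ z, (Z0 * ω) * |g z| = Z0 * ω * ∫ z, |g z| := integral_const_mul _ _
  rw [← h2]
  refine norm_integral_le_of_norm_le (hg.abs.const_mul _) (Eventually.of_forall (fun z => ?_))
  rw [← mul_sub, norm_mul, Real.norm_eq_abs, Real.norm_eq_abs, mul_comm]
  exact mul_le_mul_of_nonneg_right (hin z) (abs_nonneg _)

/-- integration by parts -/
theorem K2 {φ u : ℂ → ℝ} (hφ : ContDiff ℝ 1 φ) (hφc : HasCompactSupport φ) (hu : ContDiff ℝ 1 u)
    (h : ℂ) : ∫ y, fderiv ℝ φ y h * u y = - ∫ y, fderiv ℝ u y h * φ y := by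
  have h1 : ∫ y, u y * fderiv ℝ φ y h = - ∫ y, fderiv ℝ u y h * φ y := by
    have c1 : Continuous (fun y => fderiv ℝ φ y h) :=
      (hφ.continuous_fderiv one_ne_zero).clm_apply continuous_const
    have c2 : Continuous (fun y => fderiv ℝ u y h) :=
      (hu.continuous_fderiv one_ne_zero).clm_apply continuous_const
    have s1 : HasCompactSupport (fun y => fderiv ℝ φ y h) := hφc.fderiv_apply ℝ h
    apply integral_mul_fderiv_eq_neg_fderiv_mul_of_integrable
    · exact (c2.mul hφ.continuous).integrable_of_hasCompactSupport hφc.mul_left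
    · exact (hu.continuous.mul c1).integrable_of_hasCompactSupport s1.mul_left
    · exact (hu.continuous.mul hφ.continuous).integrable_of_hasCompactSupport hφc.mul_left
    · exact fun x _ => hu.differentiable one_ne_zero x
    · exact fun x _ => hφ.differentiable one_ne_zero x
  rw [← h1]
  exact integral_congr_ae (Eventually.of_forall (fun y => mul_comm _ _))

/-! ### the mode 0 -/

/-- the mode 0, a real function -/
noncomputable def a0 (v : Fin n → ℂ) (F : ℂ → ℝ → ℝ) (x : ℂ) : ℝ := ∫ w in BV, gx v F x w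

theorem am_zero (x : ℂ) : am v F 0 x = (a0 v F x : ℂ) := by
  unfold am a0
  rw [← integral_complex_ofReal]
  refine integral_congr_ae (Eventually.of_forall (fun w => ?_))
  simp [em]

theorem a0_eq : a0 v F = fun x => (am v F 0 x).re := by
  funext x
  rw [am_zero, ofReal_re]

theorem a0_meas (hF : LF F) : Measurable (a0 v F) := by
  rw [a0_eq]
  exact measurable_re.comp (am_meas hF 0)

theorem a0_nonneg (hF : LFS v F) (x : ℂ) : 0 ≤ a0 v F x :=
  integral_nonneg (fun w => gx_nonneg hF x w)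

theorem a0_int (hG : Geo v C e0) (hF : LFS v F) : Integrable (a0 v F) := by
  obtain ⟨M, hM0, hM⟩ := exists_bound hG.edn
  have h1 : IntegrableOn (a0 v F) (Metric.closedBall 0 M) := by
    refine Measure.integrableOn_of_bounded (M := ((n : ℝ) ^ 2 + 1) * (volume BV).toReal)
      (isCompact_closedBall (0 : ℂ) M).measure_lt_top.ne (a0_meas hF.lf).aestronglyMeasurable
      (Eventually.of_forall (fun x => ?_))
    have := am_bound hF 0 x
    rw [am_zero, norm_real] at this
    exact this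
  have h2 : Function.support (a0 v F) ⊆ Metric.closedBall 0 M := by
    intro x hx
    by_contra hcon
    rw [mem_closedBall_zero_iff, not_le] at hcon
    have := am_supp (F := F) hM 0 hcon
    rw [am_zero] at this
    exact hx (by exact_mod_cast this)
  rwa [integrableOn_iff_integrable_of_support_subset h2] at h1

/-- the mollified mode 0, a real function -/
noncomputable def U (v : Fin n → ℂ) (F : ℂ → ℝ → ℝ) (ε : ℝ) (x : ℂ) : ℝ :=
  ∫ z, et ε (x - z) * a0 v F z

theorem um_zero (ε : ℝ) (x : ℂ) : um v F 0 ε x = (U v F ε x : ℂ) := by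
  unfold um U
  rw [← integral_complex_ofReal]
  refine integral_congr_ae (Eventually.of_forall (fun w => ?_))
  simp only
  rw [am_zero, ofReal_mul]

theorem um_eq (ε : ℝ) : um v F 0 ε = fun x => (U v F ε x : ℂ) := funext (um_zero ε)

theorem U_eq (ε : ℝ) : U v F ε = fun x => (um v F 0 ε x).re := by
  funext x
  rw [um_zero, ofReal_re]

theorem U_contDiff (hSmo : StSmo) (hG : Geo v C e0) (hF : LFS v F) (hε : 0 < ε) :
    ContDiff ℝ 1 (U v F ε) := by
  rw [U_eq]
  exact (reCLM.contDiff.comp ((hSmo n v C e0 hG F hF ε hε 0).1)).of_le (by norm_num)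

theorem fderiv_um (hSmo : StSmo) (hG : Geo v C e0) (hF : LFS v F) (hε : 0 < ε) (x h : ℂ) :
    fderiv ℝ (um v F 0 ε) x h = (fderiv ℝ (U v F ε) x h : ℂ) := by
  have h1 : HasFDerivAt (U v F ε) (fderiv ℝ (U v F ε) x) x :=
    ((U_contDiff hSmo hG hF hε).differentiable one_ne_zero x).hasFDerivAt
  have h2 := (ofRealCLM.hasFDerivAt (x := U v F ε x)).comp x h1
  have h3 : fderiv ℝ (um v F 0 ε) x = ofRealCLM.comp (fderiv ℝ (U v F ε) x) := by
    rw [um_eq]
    exact h2.fderiv
  rw [h3]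
  rfl

theorem fderiv_U (hSmo : StSmo) (hG : Geo v C e0) (hF : LFS v F) (hε : 0 < ε) (x h : ℂ) :
    fderiv ℝ (U v F ε) x h = ∫ y, fderiv ℝ (et ε) (x - y) h * a0 v F y := by
  have h1 := (hSmo n v C e0 hG F hF ε hε 0).2 x h
  rw [fderiv_um hSmo hG hF hε] at h1
  have h2 : ∫ y, (fderiv ℝ (et ε) (x - y) h : ℂ) * am v F 0 y =
      ((∫ y, fderiv ℝ (et ε) (x - y) h * a0 v F y : ℝ) : ℂ) := by
    rw [← integral_complex_ofReal]
    refine integral_congr_ae (Eventually.of_forall (fun w => ?_))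
    simp only
    rw [am_zero, ofReal_mul]
  rw [h2] at h1
  exact_mod_cast h1

theorem U_le_dz (hSmo : StSmo) (hG : Geo v C e0) (hF : LFS v F) (hε : 0 < ε) (x : ℂ) {h : ℂ}
    (hh : h = 1 ∨ h = I) : |fderiv ℝ (U v F ε) x h| ≤ 2 * ‖dz (um v F 0 ε) x‖ := by
  unfold dz
  rw [fderiv_um hSmo hG hF hε, fderiv_um hSmo hG hF hε]
  set a := fderiv ℝ (U v F ε) x 1
  set b := fderiv ℝ (U v F ε) x I
  have e1 : (((a : ℂ) - I * (b : ℂ)) / 2).re = a / 2 := by simp
  have e2 : (((a : ℂ) - I * (b : ℂ)) / 2).im = - b / 2 := by simp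
  rcases hh with rfl | rfl
  · have := abs_re_le_norm (((a : ℂ) - I * (b : ℂ)) / 2)
    rw [e1, abs_div, abs_two] at this
    change |a| ≤ _
    linarith
  · have := abs_im_le_norm (((a : ℂ) - I * (b : ℂ)) / 2)
    rw [e2, abs_div, abs_two, abs_neg] at this
    change |b| ≤ _
    linarith

/-! ### the derivative of the mollification vanishes -/

/-- hypotheses of the limit -/
structure HL (v : Fin n → ℂ) (F : ℂ → ℝ → ℝ) (C e0 C5 e1 : ℝ) : Prop where
  C5p : 1 ≤ C5
  e1p : 0 < e1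
  en : ∀ ε, 0 < ε → ε < e1 →
      ∫ x in PP v, WW v C ε x * ‖dz (um v F 0 ε) x‖ ^ 2 ≤ C5 / ε ^ 2 * Mm v F (C5 * ε)
  lo : ∀ η > 0, ∀ r0 > 0, ∃ r, 0 < r ∧ r < r0 ∧ Mm v F r ≤ η * r ^ 2

theorem small_energy {C5 e1 : ℝ} (h : HL v F C e0 C5 e1) {η r0 : ℝ} (hη : 0 < η) (hr0 : 0 < r0) :
    ∃ ε, 0 < ε ∧ ε < r0 ∧ ∫ x in PP v, WW v C ε x * ‖dz (um v F 0 ε) x‖ ^ 2 ≤ η := by
  have hC5 : 0 < C5 := lt_of_lt_of_le one_pos h.C5p
  obtain ⟨r, hr, hr1, hr2⟩ := h.lo (η / C5 ^ 3) (by positivity) (C5 * min r0 e1)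
    (mul_pos hC5 (lt_min hr0 h.e1p))
  have h1 : r / C5 < min r0 e1 := by rwa [div_lt_iff₀ hC5, mul_comm]
  refine ⟨r / C5, by positivity, h1.trans_le (min_le_left _ _), ?_⟩
  refine (h.en (r / C5) (by positivity) (h1.trans_le (min_le_right _ _))).trans ?_
  rw [mul_div_cancel₀ r hC5.ne']
  have h2 : 0 ≤ C5 / (r / C5) ^ 2 := by positivity
  calc C5 / (r / C5) ^ 2 * Mm v F r ≤ C5 / (r / C5) ^ 2 * (η / C5 ^ 3 * r ^ 2) :=
        mul_le_mul_of_nonneg_left hr2 h2
    _ = η := by field_simp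

theorem vertex_notMem (hn : 3 ≤ n) (hv : ConvexIndependent ℝ v) (hG : Geo v C e0) (k : Fin n) :
    v k ∉ PP v := by
  intro hk
  have h1 := (hG.pp (v k)).1 hk (k, nxt hn hv k) (mem_SD.2 (nxt_side hn hv k))
  simp [ds, cr_zero_right] at h1

/-- the test function -/
noncomputable def ph (d : ℝ) (x0 y : ℂ) : ℝ := et d (x0 - y)

theorem ph_contDiff (d : ℝ) (x0 : ℂ) : ContDiff ℝ 2 (ph d x0) :=
  ((et_contDiff d).of_le (WithTop.coe_le_coe.2 le_top)).comp
    (contDiff_const.sub contDiff_id)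

theorem ph_zero {d : ℝ} (hd : 0 < d) {x0 y : ℂ} (hy : y ∉ Metric.closedBall x0 d) :
    ph d x0 y = 0 := by
  rw [Metric.mem_closedBall, dist_eq_norm, not_le, ← norm_neg, neg_sub] at hy
  exact et_zero hd hy.le

theorem ph_compact {d : ℝ} (hd : 0 < d) (x0 : ℂ) : HasCompactSupport (ph d x0) :=
  HasCompactSupport.intro (isCompact_closedBall x0 d) (fun _ hy => ph_zero hd hy)

theorem ph_nonneg (d : ℝ) (x0 y : ℂ) : 0 ≤ ph d x0 y := et_nonneg _ _

theorem ph_le (d : ℝ) (x0 y : ℂ) : ph d x0 y ≤ (d ^ 2)⁻¹ := et_le _ _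

theorem fderiv_ph (d : ℝ) (x0 y h : ℂ) :
    fderiv ℝ (ph d x0) y h = - fderiv ℝ (et d) (x0 - y) h := by
  have h1 : HasFDerivAt (fun y : ℂ => x0 - y) (-(ContinuousLinearMap.id ℝ ℂ)) y :=
    (hasFDerivAt_id y).const_sub x0
  have h2 : HasFDerivAt (et d) (fderiv ℝ (et d) (x0 - y)) (x0 - y) :=
    ((et_contDiff d).differentiable (by simp) _).hasFDerivAt
  have h3 := (h2.comp y h1).fderiv
  have h4 : fderiv ℝ (ph d x0) y = (fderiv ℝ (et d) (x0 - y)).comp
      (-(ContinuousLinearMap.id ℝ ℂ)) := h3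
  rw [h4]
  simp

theorem amgm {a p D t : ℝ} (ha : |a| ≤ 2 * D) (hp : 0 ≤ p) (ht : 0 < t) :
    |a| * p ≤ t * p ^ 2 + 1 / t * D ^ 2 := by
  have h3 : |a| * p ≤ 2 * D * p := mul_le_mul_of_nonneg_right ha hp
  have h4 : t * p ^ 2 + 1 / t * D ^ 2 - 2 * D * p = (t * p - D) ^ 2 / t := by
    field_simp
    ring
  have h5 : 0 ≤ (t * p - D) ^ 2 / t := by positivity
  linarith

theorem dz_cont (hSmo : StSmo) (hG : Geo v C e0) (hF : LFS v F) (hε : 0 < ε) :
    Continuous (dz (um v F 0 ε)) := by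
  have h1 := (hSmo n v C e0 hG F hF ε hε 0).1
  have h2 : Continuous (fderiv ℝ (um v F 0 ε)) := h1.continuous_fderiv (by norm_num)
  unfold dz
  exact ((h2.clm_apply continuous_const).sub
    (continuous_const.mul (h2.clm_apply continuous_const))).div_const 2

theorem K3a (hSmo : StSmo) (hWP : StWP) (hG : Geo v C e0) (hF : LFS v F) {x0 : ℂ} {d ρ t : ℝ}
    (hd : 0 < d) (hsub : Metric.closedBall x0 d ⊆ PP v)
    (hρ1 : ∀ y ∈ Metric.closedBall x0 d, ∀ k, ρ ≤ ‖y - v k‖) {h : ℂ} (hh : h = 1 ∨ h = I)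
    (hε : 0 < ε) (hε1 : 2 * C * ε ≤ ρ) (ht : 0 < t) (y : ℂ) :
    ‖fderiv ℝ (U v F ε) y h * ph d x0 y‖ ≤ (PP v).indicator
      (fun y => t * ph d x0 y ^ 2 + (1 / t) * (WW v C ε y * ‖dz (um v F 0 ε) y‖ ^ 2)) y := by
  obtain ⟨w1, w2, w3, w4⟩ := (hWP n v C e0 hG).1 ε hε
  by_cases hy : y ∈ Metric.closedBall x0 d
  · rw [indicator_of_mem (hsub hy), Real.norm_eq_abs, abs_mul, abs_of_nonneg (ph_nonneg d x0 y),
      w4 y (fun k => hε1.trans (hρ1 y hy k)), one_mul]
    exact amgm (U_le_dz hSmo hG hF hε y hh) (ph_nonneg d x0 y) ht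
  · rw [ph_zero hd hy, mul_zero, norm_zero]
    refine indicator_nonneg (fun z _ => ?_) y
    have h1 := (w2 z).1
    exact add_nonneg (mul_nonneg ht.le (sq_nonneg _))
      (mul_nonneg (by positivity) (mul_nonneg h1 (sq_nonneg _)))

theorem K3b (hSmo : StSmo) (hWP : StWP) (hG : Geo v C e0) (hF : LFS v F) {x0 : ℂ} {d ρ t : ℝ}
    (hd : 0 < d) (hsub : Metric.closedBall x0 d ⊆ PP v)
    (hρ1 : ∀ y ∈ Metric.closedBall x0 d, ∀ k, ρ ≤ ‖y - v k‖) {h : ℂ} (hh : h = 1 ∨ h = I)
    (hε : 0 < ε) (hε1 : 2 * C * ε ≤ ρ) (ht : 0 < t) :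
    |∫ y, fderiv ℝ (U v F ε) y h * ph d x0 y| ≤ t * (∫ y in PP v, ph d x0 y ^ 2) +
      (1 / t) * ∫ y in PP v, WW v C ε y * ‖dz (um v F 0 ε) y‖ ^ 2 := by
  obtain ⟨w1, w2, w3, w4⟩ := (hWP n v C e0 hG).1 ε hε
  have hint : ∀ q : ℂ → ℝ, Continuous q → IntegrableOn q (PP v) := fun q hq =>
    (hq.continuousOn.integrableOn_compact isCompact_KK).mono_set PP_sub_KK
  have hi1 : IntegrableOn (fun y => t * ph d x0 y ^ 2) (PP v) :=
    hint _ (continuous_const.mul (((ph_contDiff d x0).continuous).pow 2))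
  have hi2 : IntegrableOn (fun y => (1 / t) * (WW v C ε y * ‖dz (um v F 0 ε) y‖ ^ 2)) (PP v) :=
    hint _ (continuous_const.mul (w1.continuous.mul ((dz_cont hSmo hG hF hε).norm.pow 2)))
  have h1 : |∫ y, fderiv ℝ (U v F ε) y h * ph d x0 y| ≤
      ∫ y, (PP v).indicator (fun y => t * ph d x0 y ^ 2 +
        (1 / t) * (WW v C ε y * ‖dz (um v F 0 ε) y‖ ^ 2)) y := by
    rw [← Real.norm_eq_abs]
    exact norm_integral_le_of_norm_le ((hi1.add hi2).integrable_indicator meas_PP)
      (Eventually.of_forall (K3a hSmo hWP hG hF hd hsub hρ1 hh hε hε1 ht))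
  rw [integral_indicator meas_PP, integral_add hi1 hi2, integral_const_mul,
    integral_const_mul] at h1
  exact h1

theorem vertex_dist (hn : 3 ≤ n) (hv : ConvexIndependent ℝ v) (hG : Geo v C e0) {x0 : ℂ} {d : ℝ}
    (hsub : Metric.closedBall x0 d ⊆ PP v) :
    ∃ ρ > 0, ∀ y ∈ Metric.closedBall x0 d, ∀ k, ρ ≤ ‖y - v k‖ := by
  obtain ⟨ρ, hρ, hρ1⟩ :=
    (isCompact_closedBall x0 d).exists_thickening_subset_open isOpen_PP hsub
  refine ⟨ρ, hρ, fun y hy k => ?_⟩
  by_contra hcon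
  push Not at hcon
  refine vertex_notMem hn hv hG k (hρ1 ?_)
  rw [Metric.mem_thickening_iff]
  exact ⟨y, hy, by rw [dist_comm, dist_eq_norm]; exact hcon⟩

theorem K3 (hSmo : StSmo) (hWP : StWP) (hn : 3 ≤ n) (hv : ConvexIndependent ℝ v)
    (hG : Geo v C e0) (hF : LFS v F) {C5 e1 : ℝ} (hL : HL v F C e0 C5 e1) {x0 : ℂ} {d : ℝ}
    (hd : 0 < d) (hsub : Metric.closedBall x0 d ⊆ PP v) {h : ℂ} (hh : h = 1 ∨ h = I) {δ r0 : ℝ}
    (hδ : 0 < δ) (hr0 : 0 < r0) :
    ∃ ε, 0 < ε ∧ ε < r0 ∧ |∫ y, fderiv ℝ (U v F ε) y h * ph d x0 y| ≤ δ := by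
  have hC : 0 < C := lt_of_lt_of_le one_pos hG.C1
  obtain ⟨ρ, hρ, hρ1⟩ := vertex_dist hn hv hG hsub
  obtain ⟨S, hS⟩ : ∃ S : ℝ, S = ∫ y in PP v, ph d x0 y ^ 2 := ⟨_, rfl⟩
  have hS0 : 0 ≤ S := by
    rw [hS]; exact integral_nonneg (fun y => sq_nonneg _)
  obtain ⟨t, ht⟩ : ∃ t : ℝ, t = δ / (2 * (S + 1)) := ⟨_, rfl⟩
  have ht0 : 0 < t := by rw [ht]; positivity
  obtain ⟨ε, hε, hε1, hε2⟩ := small_energy hL (η := t * δ / 2) (by positivity)
    (r0 := min r0 (ρ / (2 * C))) (lt_min hr0 (by positivity))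
  refine ⟨ε, hε, hε1.trans_le (min_le_left _ _), ?_⟩
  have h2 : ε < ρ / (2 * C) := hε1.trans_le (min_le_right _ _)
  rw [lt_div_iff₀ (by positivity)] at h2
  have h1 := K3b hSmo hWP hG hF hd hsub hρ1 hh hε (by linarith) ht0
  rw [← hS] at h1
  have h3 : t * S ≤ δ / 2 := by
    rw [ht, div_mul_eq_mul_div, div_le_div_iff₀ (by positivity) (by positivity)]
    nlinarith
  have h4 : 1 / t * ∫ y in PP v, WW v C ε y * ‖dz (um v F 0 ε) y‖ ^ 2 ≤ δ / 2 := by
    calc 1 / t * ∫ y in PP v, WW v C ε y * ‖dz (um v F 0 ε) y‖ ^ 2 ≤ 1 / t * (t * δ / 2) :=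
          mul_le_mul_of_nonneg_left hε2 (by positivity)
      _ = δ / 2 := by field_simp
  linarith

/-- the derivative of the mollification of the mode 0 vanishes -/
theorem D0 (hSmo : StSmo) (hWP : StWP) (hn : 3 ≤ n) (hv : ConvexIndependent ℝ v)
    (hG : Geo v C e0) (hF : LFS v F) {C5 e1 : ℝ} (hL : HL v F C e0 C5 e1) {x0 : ℂ} {d : ℝ}
    (hd : 0 < d) (hsub : Metric.closedBall x0 d ⊆ PP v) {h : ℂ} (hh : h = 1 ∨ h = I) :
    fderiv ℝ (U v F d) x0 h = 0 := by
  have hcd : Continuous (fderiv ℝ (ph d x0)) := (ph_contDiff d x0).continuous_fderiv (by norm_num)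
  set ψ : ℂ → ℝ := fun y => fderiv ℝ (ph d x0) y h with hψ
  have hψc : Continuous ψ := hcd.clm_apply continuous_const
  have hψs : HasCompactSupport ψ := (ph_compact hd x0).fderiv_apply ℝ h
  have hgi := a0_int hG hF
  have hval : fderiv ℝ (U v F d) x0 h = - ∫ y, ψ y * a0 v F y := by
    rw [fderiv_U hSmo hG hF hd, ← integral_neg]
    refine integral_congr_ae (Eventually.of_forall (fun y => ?_))
    simp only [hψ, fderiv_ph]
    ring
  have hkey : Z0 * ∫ y, ψ y * a0 v F y = 0 := by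
    by_contra hne
    have hpos : 0 < |Z0 * ∫ y, ψ y * a0 v F y| := abs_pos.2 hne
    set A : ℝ := ∫ z, |a0 v F z| with hA
    have hA0 : 0 ≤ A := integral_nonneg (fun z => abs_nonneg _)
    set P : ℝ := |Z0 * ∫ y, ψ y * a0 v F y| with hP
    have hZ := Z0_pos
    -- uniform continuity
    have huc : UniformContinuous ψ := hψs.uniformContinuous_of_continuous hψc
    obtain ⟨r0, hr0, hr1⟩ := Metric.uniformContinuous_iff.1 huc (P / (4 * Z0 * (A + 1)))
      (by positivity)
    obtain ⟨ε, hε, hε1, hε2⟩ := K3 hSmo hWP hn hv hG hF hL hd hsub hh (δ := P / 4) (r0 := r0)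
      (by positivity) hr0
    have hω : ∀ y z, ‖y - z‖ ≤ ε → |ψ y - ψ z| ≤ P / (4 * Z0 * (A + 1)) := by
      intro y z hyz
      have := hr1 (a := y) (b := z) (by rw [dist_eq_norm]; linarith)
      rw [Real.dist_eq] at this
      exact this.le
    have h1 := K1 hgi hψc hψs hε hω
    have h2 : (∫ y, ψ y * ∫ z, et ε (y - z) * a0 v F z) =
        - ∫ y, fderiv ℝ (U v F ε) y h * ph d x0 y :=
      K2 ((ph_contDiff d x0).of_le (by norm_num)) (ph_compact hd x0) (U_contDiff hSmo hG hF hε) h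
    rw [h2] at h1
    have h3 : Z0 * (P / (4 * Z0 * (A + 1))) * A ≤ P / 4 := by
      have e : Z0 * (P / (4 * Z0 * (A + 1))) * A = P / 4 * (A / (A + 1)) := by
        field_simp
      rw [e]
      have h4 : A / (A + 1) ≤ 1 := by
        rw [div_le_one (by positivity)]; linarith
      calc P / 4 * (A / (A + 1)) ≤ P / 4 * 1 := mul_le_mul_of_nonneg_left h4 (by positivity)
        _ = P / 4 := mul_one _
    have h5 : P ≤ |(-∫ y, fderiv ℝ (U v F ε) y h * ph d x0 y) - Z0 * ∫ y, ψ y * a0 v F y| +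
        |∫ y, fderiv ℝ (U v F ε) y h * ph d x0 y| := by
      rw [hP]
      set a := ∫ y, fderiv ℝ (U v F ε) y h * ph d x0 y
      set b := Z0 * ∫ y, ψ y * a0 v F y
      have : b = -((-a) - b) - a := by ring
      calc |b| = |-((-a) - b) - a| := by rw [← this]
        _ ≤ |-((-a) - b)| + |a| := abs_sub _ _
        _ = _ := by rw [abs_neg]
    linarith
  rw [hval]
  rcases mul_eq_zero.1 hkey with h0 | h0
  · exact absurd h0 Z0_pos.ne'
  · rw [h0, neg_zero]

/-! ### the mode 0 is constant -/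

theorem ds_Rs (hG : Geo v C e0) {s : Fin n × Fin n} (hs : s ∈ SD v) (x : ℂ) :
    ds v s (Rs v s x) = - ds v s x := by
  have he : ed v s ≠ 0 := hG.edn s hs
  have h1 : Rs v s x - v s.1 = rl (ed v s) (x - v s.1) := by
    have : Rs v s x = v s.1 + rl (v s.2 - v s.1) (x - v s.1) := rfl
    rw [this]
    change v s.1 + rl (ed v s) (x - v s.1) - v s.1 = _
    ring
  have h2 := cr_rl he (ed v s) (x - v s.1)
  rw [rl_self he] at h2
  unfold ds
  rw [h1, h2, neg_div]

theorem gx_PP (hG : Geo v C e0) {x : ℂ} (hx : x ∈ PP v) (w : ℂ) :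
    gx v F x w = F w (cr w x) := by
  unfold gx
  rw [indicator_of_mem hx, Finset.sum_eq_zero, add_zero]
  intro s hs
  apply indicator_of_notMem
  intro h
  have h1 := (hG.pp x).1 hx s hs
  have h2 := (hG.pp (Rs v s x)).1 h s hs
  rw [ds_Rs hG hs] at h2
  linarith

theorem a0_PP (hG : Geo v C e0) {x : ℂ} (hx : x ∈ PP v) :
    a0 v F x = (volume BV).toReal * qf F x := by
  unfold a0 qf
  rw [← mul_assoc, mul_inv_cancel₀ vol_BV_pos.ne', one_mul]
  exact integral_congr_ae (Eventually.of_forall (fun w => gx_PP hG hx w))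

/-- difference of the mollification and the value -/
theorem leb_est {g : ℂ → ℝ} (hg : Integrable g) (x : ℂ) {d : ℝ} (hd : 0 < d) :
    |(∫ z, et d (x - z) * g z) - Z0 * g x| ≤
      Real.pi * ⨍ y in Metric.closedBall x d, ‖g y - g x‖ := by
  have hb : (volume (Metric.closedBall x d)).toReal = Real.pi * d ^ 2 := by
    rw [Complex.volume_closedBall]
    simp [ENNReal.toReal_mul, hd.le, mul_comm]
  have hlt : volume (Metric.closedBall x d) ≠ ⊤ := (isCompact_closedBall x d).measure_lt_top.ne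
  have hi1 : Integrable (fun z => et d (x - z) * g z) := by
    refine Integrable.mono (hg.const_mul ((d ^ 2)⁻¹)) ?_ (Eventually.of_forall (fun z => ?_))
    · exact (((et_cont d).comp (continuous_const.sub continuous_id)).aestronglyMeasurable).mul
        hg.aestronglyMeasurable
    · rw [norm_mul, norm_mul, Real.norm_eq_abs, Real.norm_eq_abs, abs_of_nonneg (et_nonneg d _),
        Real.norm_eq_abs, abs_of_nonneg (show 0 ≤ (d ^ 2)⁻¹ by positivity)]
      exact mul_le_mul_of_nonneg_right (et_le d _) (abs_nonneg _)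
  have hi2 : Integrable (fun z => et d (x - z) * g x) := by
    have h1 : Integrable (fun z => et d (z - x) * g x) := (et_int_sub hd x).mul_const _
    refine h1.congr (Eventually.of_forall (fun z => ?_))
    simp only
    rw [et_sub_comm]
  have e1 : Z0 * g x = ∫ z, et d (x - z) * g x := by
    rw [integral_mul_const, et_total_sub' hd]
  have hi3 : IntegrableOn (fun y => ‖g y - g x‖) (Metric.closedBall x d) :=
    (hg.integrableOn.sub (integrableOn_const hlt)).norm
  have hi4 : IntegrableOn (fun y => (d ^ 2)⁻¹ * ‖g y - g x‖) (Metric.closedBall x d) :=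
    hi3.const_mul _
  rw [e1, ← integral_sub hi1 hi2]
  have h1 : |∫ z, (et d (x - z) * g z - et d (x - z) * g x)| ≤
      ∫ z, (Metric.closedBall x d).indicator (fun y => (d ^ 2)⁻¹ * ‖g y - g x‖) z := by
    rw [← Real.norm_eq_abs]
    refine norm_integral_le_of_norm_le (hi4.integrable_indicator
      Metric.isClosed_closedBall.measurableSet) (Eventually.of_forall (fun z => ?_))
    rw [← mul_sub, norm_mul, Real.norm_eq_abs, abs_of_nonneg (et_nonneg d _)]
    by_cases hz : z ∈ Metric.closedBall x d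
    · rw [indicator_of_mem hz]
      exact mul_le_mul_of_nonneg_right (et_le d _) (norm_nonneg _)
    · rw [indicator_of_notMem hz]
      rw [Metric.mem_closedBall, dist_eq_norm, not_le, ← norm_neg, neg_sub] at hz
      rw [et_zero hd hz.le, zero_mul]
  rw [integral_indicator Metric.isClosed_closedBall.measurableSet, integral_const_mul] at h1
  refine h1.trans (le_of_eq ?_)
  rw [setAverage_eq, Measure.real, hb, smul_eq_mul]
  field_simp

theorem convex_PPd (d : ℝ) : Convex ℝ {x : ℂ | Metric.closedBall x d ⊆ PP v} := by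
  intro x hx y hy a b ha hb hab z hz
  have hz' : ‖z - (a • x + b • y)‖ ≤ d := by
    rw [← dist_eq_norm]; exact hz
  have h1 : x + (z - (a • x + b • y)) ∈ PP v := hx (by
    rw [Metric.mem_closedBall, dist_eq_norm]; simpa using hz')
  have h2 : y + (z - (a • x + b • y)) ∈ PP v := hy (by
    rw [Metric.mem_closedBall, dist_eq_norm]; simpa using hz')
  have h3 := convex_PP h1 h2 ha hb hab
  have h4 : a • (x + (z - (a • x + b • y))) + b • (y + (z - (a • x + b • y))) = z := by
    rw [smul_add, smul_add]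
    have : a • (z - (a • x + b • y)) + b • (z - (a • x + b • y)) = z - (a • x + b • y) := by
      rw [← add_smul, hab, one_smul]
    calc _ = a • x + b • y + (a • (z - (a • x + b • y)) + b • (z - (a • x + b • y))) := by abel
      _ = z := by rw [this]; abel
  rwa [h4] at h3

theorem fderiv_zero (hSmo : StSmo) (hWP : StWP) (hn : 3 ≤ n) (hv : ConvexIndependent ℝ v)
    (hG : Geo v C e0) (hF : LFS v F) {C5 e1 : ℝ} (hL : HL v F C e0 C5 e1) {x0 : ℂ} {d : ℝ}
    (hd : 0 < d) (hsub : Metric.closedBall x0 d ⊆ PP v) : fderiv ℝ (U v F d) x0 = 0 := by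
  have h1 := D0 hSmo hWP hn hv hG hF hL hd hsub (h := 1) (Or.inl rfl)
  have h2 := D0 hSmo hWP hn hv hG hF hL hd hsub (h := I) (Or.inr rfl)
  ext w
  have hw : w = w.re • (1 : ℂ) + w.im • I := by
    rw [real_smul, real_smul, mul_one]
    exact (re_add_im w).symm
  rw [hw, map_add, map_smul, map_smul, h1, h2]
  simp

theorem U_const (hSmo : StSmo) (hWP : StWP) (hn : 3 ≤ n) (hv : ConvexIndependent ℝ v)
    (hG : Geo v C e0) (hF : LFS v F) {C5 e1 : ℝ} (hL : HL v F C e0 C5 e1) {x y : ℂ} {d : ℝ}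
    (hd : 0 < d) (hx : Metric.closedBall x d ⊆ PP v) (hy : Metric.closedBall y d ⊆ PP v) :
    U v F d x = U v F d y := by
  have h1 := (convex_PPd (v := v) d).norm_image_sub_le_of_norm_fderiv_le (f := U v F d) (C := 0)
    (fun z _ => (U_contDiff hSmo hG hF hd).differentiable one_ne_zero z)
    (fun z hz => by rw [fderiv_zero hSmo hWP hn hv hG hF hL hd hz, norm_zero]) hy hx
  rw [zero_mul] at h1
  exact sub_eq_zero.1 (norm_le_zero_iff.1 h1)

theorem a0_const (hSmo : StSmo) (hWP : StWP) (hn : 3 ≤ n) (hv : ConvexIndependent ℝ v)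
    (hG : Geo v C e0) (hF : LFS v F) {C5 e1 : ℝ} (hL : HL v F C e0 C5 e1) :
    ∃ c : ℝ, ∀ᵐ x, x ∈ PP v → a0 v F x = c := by
  have hgi := a0_int hG hF
  have hleb : ∀ᵐ x : ℂ, Tendsto (fun d => U v F d x) (𝓝[>] 0) (𝓝 (Z0 * a0 v F x)) := by
    filter_upwards [IsUnifLocDoublingMeasure.ae_tendsto_average_norm_sub
      (μ := (volume : Measure ℂ)) hgi.locallyIntegrable 1] with x hx
    have h1 := hx (fun _ : ℝ => x) (fun d : ℝ => d) (l := 𝓝[>] 0) tendsto_id (by
      filter_upwards [self_mem_nhdsWithin] with d hd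
      rw [one_mul]
      exact Metric.mem_closedBall_self (le_of_lt hd))
    have h2 := h1.const_mul Real.pi
    rw [mul_zero] at h2
    rw [tendsto_iff_norm_sub_tendsto_zero]
    refine squeeze_zero' (Eventually.of_forall (fun d => norm_nonneg _)) ?_ h2
    filter_upwards [self_mem_nhdsWithin] with d hd
    rw [Real.norm_eq_abs]
    exact leb_est hgi x hd
  have hne : (volume (PP v)) ≠ 0 :=
    (isOpen_PP.measure_pos volume (PP_nonempty hn hv)).ne'
  obtain ⟨x1, hx1, hx1P⟩ : ∃ x1, Tendsto (fun d => U v F d x1) (𝓝[>] 0) (𝓝 (Z0 * a0 v F x1)) ∧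
      x1 ∈ PP v := by
    by_contra hcon
    push Not at hcon
    apply hne
    have h3 : volume {x | ¬ Tendsto (fun d => U v F d x) (𝓝[>] 0) (𝓝 (Z0 * a0 v F x))} = 0 :=
      hleb
    exact measure_mono_null (fun x hx h => hcon x h hx) h3
  refine ⟨a0 v F x1, ?_⟩
  filter_upwards [hleb] with x hx hxP
  obtain ⟨d1, hd1, hd1s⟩ := Metric.nhds_basis_closedBall.mem_iff.1 (isOpen_PP.mem_nhds hxP)
  obtain ⟨d2, hd2, hd2s⟩ := Metric.nhds_basis_closedBall.mem_iff.1 (isOpen_PP.mem_nhds hx1P)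
  have h4 : ∀ᶠ d in 𝓝[>] (0 : ℝ), U v F d x = U v F d x1 := by
    have h5 : Ioo (0 : ℝ) (min d1 d2) ∈ 𝓝[>] (0 : ℝ) := Ioo_mem_nhdsGT (lt_min hd1 hd2)
    filter_upwards [h5] with d hd
    have a1 : d ≤ d1 := (hd.2.trans_le (min_le_left _ _)).le
    have a2 : d ≤ d2 := (hd.2.trans_le (min_le_right _ _)).le
    exact U_const hSmo hWP hn hv hG hF hL hd.1
      ((Metric.closedBall_subset_closedBall a1).trans hd1s)
      ((Metric.closedBall_subset_closedBall a2).trans hd2s)
  have h6 : Z0 * a0 v F x = Z0 * a0 v F x1 :=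
    tendsto_nhds_unique (hx.congr' h4) hx1
  exact mul_left_cancel₀ Z0_pos.ne' h6

/-- (LIM) -/
theorem row (hWP : StWP) (hSmo : StSmo) (hArea : StArea) : StLim := by
  intro n v C e0 hn hv hG F hF C5 e1 hC5 he1 he10 hen hlo
  have hL : HL v F C e0 C5 e1 := ⟨hC5, he1, hen, hlo⟩
  obtain ⟨c, hc⟩ := a0_const hSmo hWP hn hv hG hF hL
  obtain ⟨B, hB⟩ : ∃ B : ℝ, B = (volume BV).toReal := ⟨_, rfl⟩
  have hB0 : 0 < B := by rw [hB]; exact vol_BV_pos
  have hq : ∀ᵐ x, x ∈ PP v → qf F x = c / B := by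
    filter_upwards [hc] with x hx hxP
    have h1 := hx hxP
    rw [a0_PP hG hxP, ← hB] at h1
    rw [← h1]
    field_simp
  obtain ⟨q, hqd⟩ : ∃ q : ℝ, q = c / B := ⟨_, rfl⟩
  rw [← hqd] at hq
  obtain ⟨c', r1, hc', hr1, har⟩ := hArea n v hn hv
  -- the value of the mass
  have hM : ∀ r, Mm v F r = q * (1 - q) * (volume (Vr v r)).toReal := by
    intro r
    have h1 : Mm v F r = ∫ x in Vr v r, q * (1 - q) := by
      unfold Mm
      apply setIntegral_congr_ae (Vr_meas r)
      filter_upwards [hq] with x hx hxV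
      unfold qd
      rw [hx hxV.1]
    rw [h1, setIntegral_const, smul_eq_mul, mul_comm]
    rfl
  have hne : (volume (PP v)) ≠ 0 :=
    (isOpen_PP.measure_pos volume (PP_nonempty hn hv)).ne'
  obtain ⟨x1, hx1, hx1P⟩ : ∃ x1, qf F x1 = q ∧ x1 ∈ PP v := by
    by_contra hcon
    push Not at hcon
    apply hne
    have h3 : volume {x | ¬ (x ∈ PP v → qf F x = q)} = 0 := hq
    exact measure_mono_null
      (fun x hx (h : x ∈ PP v → qf F x = q) => hcon x (h hx) hx) h3
  have hq0 : 0 ≤ q := by rw [← hx1]; exact qf_nonneg hF x1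
  have hq1 : q ≤ 1 := by rw [← hx1]; exact qf_le hF x1
  have hz : q * (1 - q) = 0 := by
    by_contra hne2
    have hpos : 0 < q * (1 - q) :=
      lt_of_le_of_ne (mul_nonneg hq0 (by linarith)) (Ne.symm hne2)
    obtain ⟨r, hr, hrr, hMr⟩ := hlo (q * (1 - q) * c' / 2) (by positivity) r1 hr1
    rw [hM] at hMr
    have h1 := har r hr hrr
    have h2 : q * (1 - q) * (c' * r ^ 2) ≤ q * (1 - q) * (volume (Vr v r)).toReal :=
      mul_le_mul_of_nonneg_left h1 hpos.le
    have h3 : 0 < q * (1 - q) * c' * r ^ 2 := by positivity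
    linarith
  rcases mul_eq_zero.1 hz with h0 | h0
  · left
    filter_upwards [hq] with x hx hxP
    rw [hx hxP, h0]
  · right
    filter_upwards [hq] with x hx hxP
    rw [hx hxP]
    linarith

end Pool.Agent.Lib.BilD.Lim89
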