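import Pool.Agent.Lib.MP_7bc51d_an_dense.Erg45
import Mathlib.MeasureTheory.Function.LpSpace.ContinuousCompMeasurePreserving

/-!
# Total mass of the position gradient of the mollified function
-/

set_option autoImplicit false

namespace Pool.Agent.Lib.BilD.Mass5

open Complex MeasureTheory Set Filter Topology
open scoped ComplexConjugate ENNReal
open Pool.Agent.Lib.Bil Pool.Agent.Lib.BilD Pool.Agent.Lib.BilD.Erg45

variable {n : ℕ} {v : Fin n → ℂ} {F : ℂ → ℝ → ℝ} {C e0 ε : ℝ}

/-- `L¹` distance of the extended function to its translate by `z` (in the position). -/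
noncomputable def Dl (v : Fin n → ℂ) (F : ℂ → ℝ → ℝ) (z : ℂ) : ℝ≥0∞ :=
  ∫⁻ x, ∫⁻ w in BV, ENNReal.ofReal |gx v F (x + z) w - gx v F x w|

theorem diff_meas (hF : LF F) : Measurable (fun p : (ℂ × ℂ) × ℂ =>
    ENNReal.ofReal |gx v F (p.1.1 + p.2) p.1.2 - gx v F p.1.1 p.1.2|) := by
  have h1 : Measurable (fun p : (ℂ × ℂ) × ℂ => gx v F (p.1.1 + p.2) p.1.2) :=
    (gx_meas hF).comp ((((measurable_fst.comp measurable_fst).add measurable_snd)).prodMk
      (measurable_snd.comp measurable_fst))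
  have h2 : Measurable (fun p : (ℂ × ℂ) × ℂ => gx v F p.1.1 p.1.2) :=
    (gx_meas hF).comp (((measurable_fst.comp measurable_fst)).prodMk
      (measurable_snd.comp measurable_fst))
  exact ENNReal.measurable_ofReal.comp (continuous_abs.measurable.comp (h1.sub h2))

theorem det_odd (ε : ℝ) (z h : ℂ) : fderiv ℝ (et ε) (-z) h = - fderiv ℝ (et ε) z h := by
  have h1 : (et ε) = fun x => et ε (-x) := by
    funext x; exact (et_neg ε x).symm
  have h2 : DifferentiableAt ℝ (et ε) z := (et_contDiff ε).differentiable (by simp) z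
  have h3 : HasFDerivAt (et ε) (fderiv ℝ (et ε) z) z := h2.hasFDerivAt
  have h4 : HasFDerivAt (fun x => et ε (-x)) ((fderiv ℝ (et ε) z).comp
      (-(ContinuousLinearMap.id ℝ ℂ))) (-z) := by
    have h5 : HasFDerivAt (fun x : ℂ => -x) (-(ContinuousLinearMap.id ℝ ℂ)) (-z) :=
      (hasFDerivAt_id (-z)).neg
    have h6 : HasFDerivAt (et ε) (fderiv ℝ (et ε) z) (- (-z)) := by rw [neg_neg]; exact h3
    exact h6.comp (-z) h5
  rw [← h1] at h4
  rw [h4.fderiv]
  simp

theorem det_int (hε : 0 < ε) (h : ℂ) : Integrable (fun z => fderiv ℝ (et ε) z h) := by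
  refine (det_cont ε h).integrable_of_hasCompactSupport ?_
  refine HasCompactSupport.of_support_subset_isCompact (isCompact_closedBall (0 : ℂ) ε) ?_
  intro z hz
  rw [Function.mem_support] at hz
  by_contra hc
  apply hz
  have : z ∉ Metric.ball (0 : ℂ) ε := fun h' => hc (Metric.ball_subset_closedBall h')
  rw [Metric.mem_ball, dist_zero_right, not_lt] at this
  rw [Bes85.fderiv_et_zero' hε this]
  rfl

theorem det_zero (ε : ℝ) (h : ℂ) : ∫ z, fderiv ℝ (et ε) z h = 0 := by
  have h1 := integral_neg_eq_self (fun z => fderiv ℝ (et ε) z h) (volume : Measure ℂ)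
  simp only [det_odd] at h1
  rw [integral_neg] at h1
  linarith

theorem dg_eq (hF : LFS v F) (hε : 0 < ε) (x w h : ℂ) :
    dg v F ε x w h = ∫ z, (gx v F (x - z) w - gx v F x w) * fderiv ℝ (et ε) z h := by
  have h1 : dg v F ε x w h = ∫ z, gx v F (x - z) w * fderiv ℝ (et ε) z h := by
    unfold dg
    have := integral_sub_left_eq_self (fun y => gx v F y w * fderiv ℝ (et ε) (x - y) h)
      (volume : Measure ℂ) x
    rw [← this]
    refine integral_congr_ae (Eventually.of_forall (fun z => ?_))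
    simp only [sub_sub_cancel]
  rw [h1]
  have hi := det_int hε h
  have h2 : Integrable (fun z => gx v F x w * fderiv ℝ (et ε) z h) := hi.const_mul _
  have hm : Measurable (fun z => gx v F (x - z) w) :=
    (gx_meas_x hF.lf w).comp (measurable_const.sub measurable_id)
  have h3 : Integrable (fun z => gx v F (x - z) w * fderiv ℝ (et ε) z h) := by
    refine hi.bdd_mul (c := (n : ℝ) ^ 2 + 1) hm.aestronglyMeasurable (Eventually.of_forall (fun z => ?_))
    rw [Real.norm_eq_abs, abs_of_nonneg (gx_nonneg hF _ _)]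
    exact gx_le hF _ _
  have h4 : ∫ z, (gx v F (x - z) w - gx v F x w) * fderiv ℝ (et ε) z h =
      ∫ z, (gx v F (x - z) w * fderiv ℝ (et ε) z h - gx v F x w * fderiv ℝ (et ε) z h) := by
    refine integral_congr_ae (Eventually.of_forall (fun z => ?_))
    simp only
    ring
  rw [h4, integral_sub h3 h2, integral_const_mul, det_zero ε, mul_zero, sub_zero]

/-- Local `L¹` oscillation bound. -/
theorem dg_osc (hF : LFS v F) (hε : 0 < ε) {K : ℝ} (hK : ∀ h k : ℂ, |fderiv ℝ (et ε) h k| ≤ K * ‖k‖)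
    (x w h : ℂ) :
    ENNReal.ofReal |dg v F ε x w h| ≤ ENNReal.ofReal (K * ‖h‖) *
      ∫⁻ z in Metric.ball (0 : ℂ) ε, ENNReal.ofReal |gx v F (x - z) w - gx v F x w| := by
  rw [dg_eq hF hε]
  have h1 : ENNReal.ofReal |∫ z, (gx v F (x - z) w - gx v F x w) * fderiv ℝ (et ε) z h| ≤
      ∫⁻ z, ENNReal.ofReal |(gx v F (x - z) w - gx v F x w) * fderiv ℝ (et ε) z h| := by
    have := enorm_integral_le_lintegral_enorm (μ := (volume : Measure ℂ))
      (fun z => (gx v F (x - z) w - gx v F x w) * fderiv ℝ (et ε) z h)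
    simp only [Real.enorm_eq_ofReal_abs] at this
    exact this
  refine h1.trans ?_
  have h2 : ∀ z, ENNReal.ofReal |(gx v F (x - z) w - gx v F x w) * fderiv ℝ (et ε) z h| ≤
      (Metric.ball (0 : ℂ) ε).indicator (fun z => ENNReal.ofReal (K * ‖h‖) *
        ENNReal.ofReal |gx v F (x - z) w - gx v F x w|) z := by
    intro z
    by_cases hz : z ∈ Metric.ball (0 : ℂ) ε
    · rw [indicator_of_mem hz, abs_mul, mul_comm, ENNReal.ofReal_mul (abs_nonneg _)]
      gcongr
      exact hK z h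
    · rw [Metric.mem_ball, dist_zero_right, not_lt] at hz
      have : fderiv ℝ (et ε) z h = 0 := by rw [Bes85.fderiv_et_zero' hε hz]; rfl
      rw [this, mul_zero, abs_zero, ENNReal.ofReal_zero]
      exact zero_le
  refine (lintegral_mono h2).trans ?_
  rw [lintegral_indicator measurableSet_ball, lintegral_const_mul']
  exact ENNReal.ofReal_ne_top

theorem fub3 {g : ℂ → ℂ → ℂ → ℝ≥0∞}
    (hg : Measurable (fun p : (ℂ × ℂ) × ℂ => g p.1.1 p.1.2 p.2)) (B : Set ℂ) :
    ∫⁻ x, ∫⁻ w in BV, ∫⁻ z in B, g x w z = ∫⁻ z in B, ∫⁻ x, ∫⁻ w in BV, g x w z := by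
  have e1 : ∀ x, ∫⁻ w in BV, ∫⁻ z in B, g x w z = ∫⁻ z in B, ∫⁻ w in BV, g x w z := by
    intro x
    refine lintegral_lintegral_swap ?_
    exact (hg.comp ((measurable_const.prodMk measurable_fst).prodMk measurable_snd)).aemeasurable
  rw [lintegral_congr e1]
  refine lintegral_lintegral_swap ?_
  have h1 : Measurable (fun p : (ℂ × ℂ) × ℂ => g p.1.1 p.2 p.1.2) :=
    hg.comp (((measurable_fst.comp measurable_fst).prodMk measurable_snd).prodMk
      (measurable_snd.comp measurable_fst))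
  exact (h1.lintegral_prod_right').aemeasurable

/-- (MASS) -/
theorem mass (v : Fin n → ℂ) : ∃ K : ℝ, 0 < K ∧ ∀ (F : ℂ → ℝ → ℝ), LFS v F → ∀ ε : ℝ, 0 < ε →
    ∀ D : ℝ≥0∞, (∀ z : ℂ, ‖z‖ < ε → Dl v F z ≤ D) →
      ∫⁻ x, ∫⁻ w in BV, ENNReal.ofReal (hq v F ε x w) ≤ ENNReal.ofReal (K / ε ^ 2) * D := by
  obtain ⟨K1, hK1, hKb1⟩ := dg_bound (v := v)
  obtain ⟨K2, hK2, hKb2⟩ := exists_fderiv_et_bound
  have hpi := Real.pi_pos
  refine ⟨2 * K1 * K2 * Real.pi, by positivity, fun F hF ε hε D hD => ?_⟩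
  set O : ℂ → ℂ → ℝ≥0∞ := fun x w =>
    ∫⁻ z in Metric.ball (0 : ℂ) ε, ENNReal.ofReal |gx v F (x - z) w - gx v F x w| with hO
  have hm3 : Measurable (fun p : (ℂ × ℂ) × ℂ =>
      ENNReal.ofReal |gx v F (p.1.1 - p.2) p.1.2 - gx v F p.1.1 p.1.2|) := by
    have h1 : Measurable (fun p : (ℂ × ℂ) × ℂ => gx v F (p.1.1 - p.2) p.1.2) :=
      (gx_meas hF.lf).comp ((((measurable_fst.comp measurable_fst).sub measurable_snd)).prodMk
        (measurable_snd.comp measurable_fst))
    have h2 : Measurable (fun p : (ℂ × ℂ) × ℂ => gx v F p.1.1 p.1.2) :=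
      (gx_meas hF.lf).comp (((measurable_fst.comp measurable_fst)).prodMk
        (measurable_snd.comp measurable_fst))
    exact ENNReal.measurable_ofReal.comp (continuous_abs.measurable.comp (h1.sub h2))
  have h1 : ∀ x w, ENNReal.ofReal (hq v F ε x w) ≤
      ENNReal.ofReal (2 * K1 * K2 / ε ^ 4) * O x w := by
    intro x w
    have a1 : ∀ h : ℂ, ‖h‖ = 1 → ENNReal.ofReal (dg v F ε x w h ^ 2) ≤
        ENNReal.ofReal (K1 * K2 / ε ^ 4) * O x w := by
      intro h hh
      have b1 := hKb1 F hF ε hε x w h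
      rw [hh, mul_one] at b1
      have b2 := dg_osc (v := v) (K := K2 / ε ^ 3) hF hε (fun h k => hKb2 ε hε h k) x w h
      rw [hh, mul_one] at b2
      calc ENNReal.ofReal (dg v F ε x w h ^ 2)
          = ENNReal.ofReal |dg v F ε x w h| * ENNReal.ofReal |dg v F ε x w h| := by
            rw [← ENNReal.ofReal_mul (abs_nonneg _), ← sq, sq_abs]
        _ ≤ ENNReal.ofReal (K1 / ε) * (ENNReal.ofReal (K2 / ε ^ 3) * O x w) :=
            mul_le_mul' (ENNReal.ofReal_le_ofReal b1) b2
        _ = ENNReal.ofReal (K1 * K2 / ε ^ 4) * O x w := by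
            rw [← mul_assoc, ← ENNReal.ofReal_mul (by positivity)]
            congr 2
            field_simp
    calc ENNReal.ofReal (hq v F ε x w)
        = ENNReal.ofReal (dg v F ε x w 1 ^ 2) + ENNReal.ofReal (dg v F ε x w I ^ 2) := by
          unfold hq
          rw [ENNReal.ofReal_add (by positivity) (by positivity)]
      _ ≤ ENNReal.ofReal (K1 * K2 / ε ^ 4) * O x w + ENNReal.ofReal (K1 * K2 / ε ^ 4) * O x w :=
          add_le_add (a1 1 norm_one) (a1 I norm_I)
      _ = ENNReal.ofReal (2 * K1 * K2 / ε ^ 4) * O x w := by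
          rw [← add_mul, ← ENNReal.ofReal_add (by positivity) (by positivity)]
          congr 2
          ring
  have hOm : Measurable (fun p : ℂ × ℂ => O p.1 p.2) := hm3.lintegral_prod_right'
  have h2 : ∫⁻ x, ∫⁻ w in BV, ENNReal.ofReal (hq v F ε x w) ≤
      ENNReal.ofReal (2 * K1 * K2 / ε ^ 4) * ∫⁻ x, ∫⁻ w in BV, O x w := by
    rw [← lintegral_const_mul' _ _ ENNReal.ofReal_ne_top]
    refine lintegral_mono (fun x => ?_)
    rw [← lintegral_const_mul' _ _ ENNReal.ofReal_ne_top]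
    exact lintegral_mono (fun w => h1 x w)
  have h3 : ∫⁻ x, ∫⁻ w in BV, O x w = ∫⁻ z in Metric.ball (0 : ℂ) ε, Dl v F (-z) := by
    have e1 := fub3 (g := fun x w z => ENNReal.ofReal |gx v F (x - z) w - gx v F x w|) hm3
      (Metric.ball (0 : ℂ) ε)
    refine e1.trans (lintegral_congr (fun z => ?_))
    unfold Dl
    simp only [sub_eq_add_neg]
  have h4 : ∫⁻ z in Metric.ball (0 : ℂ) ε, Dl v F (-z) ≤ D * ENNReal.ofReal (Real.pi * ε ^ 2) := by
    calc ∫⁻ z in Metric.ball (0 : ℂ) ε, Dl v F (-z) ≤ ∫⁻ _ in Metric.ball (0 : ℂ) ε, D := by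
          refine setLIntegral_mono measurable_const (fun z hz => hD _ ?_)
          rw [norm_neg]
          rwa [Metric.mem_ball, dist_zero_right] at hz
      _ = D * volume (Metric.ball (0 : ℂ) ε) := by rw [setLIntegral_const]
      _ = D * ENNReal.ofReal (Real.pi * ε ^ 2) := by
          rw [Complex.volume_ball, mul_comm Real.pi, ENNReal.ofReal_mul (by positivity),
            ENNReal.ofReal_pow hε.le]
          congr 2
          rw [← NNReal.coe_real_pi, ENNReal.ofReal_coe_nnreal]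
  calc ∫⁻ x, ∫⁻ w in BV, ENNReal.ofReal (hq v F ε x w)
      ≤ ENNReal.ofReal (2 * K1 * K2 / ε ^ 4) * (D * ENNReal.ofReal (Real.pi * ε ^ 2)) := by
        refine h2.trans ?_
        rw [h3]
        gcongr
    _ = ENNReal.ofReal (2 * K1 * K2 * Real.pi / ε ^ 2) * D := by
        rw [mul_comm D, ← mul_assoc, ← ENNReal.ofReal_mul (by positivity)]
        congr 2
        field_simp

/-- The extended function on `ℂ × BV`. -/
noncomputable def gB (v : Fin n → ℂ) (F : ℂ → ℝ → ℝ) (p : ℂ × ℂ) : ℝ :=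
  ((univ : Set ℂ) ×ˢ BV).indicator (fun p : ℂ × ℂ => gx v F p.1 p.2) p

theorem gB_int (hn : ∀ s ∈ SD v, ed v s ≠ 0) (hF : LFS v F) : Integrable (gB v F) := by
  obtain ⟨M, hM, hb⟩ := exists_bound (v := v) hn
  have hm : Measurable (gB v F) := (gx_meas hF.lf).indicator
    (MeasurableSet.univ.prod measurableSet_ball)
  have hs : gB v F = ((Metric.closedBall (0 : ℂ) M) ×ˢ BV).indicator
      (fun p : ℂ × ℂ => gx v F p.1 p.2) := by
    funext p
    unfold gB
    by_cases h1 : p ∈ (Metric.closedBall (0 : ℂ) M) ×ˢ BV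
    · rw [indicator_of_mem h1,
        indicator_of_mem (show p ∈ (univ : Set ℂ) ×ˢ BV from ⟨mem_univ _, h1.2⟩)]
    · rw [indicator_of_notMem h1]
      by_cases h2 : p.2 ∈ BV
      · rw [indicator_of_mem (show p ∈ (univ : Set ℂ) ×ˢ BV from ⟨mem_univ _, h2⟩)]
        by_contra hc
        exact h1 ⟨by rw [mem_closedBall_zero_iff]; exact hb F _ _ hc, h2⟩
      · exact indicator_of_notMem (fun h => h2 h.2) _
  rw [hs, integrable_indicator_iff (measurableSet_closedBall.prod measurableSet_ball)]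
  refine Measure.integrableOn_of_bounded (M := (n : ℝ) ^ 2 + 1) ?_
    (gx_meas hF.lf).aestronglyMeasurable (Eventually.of_forall (fun p => ?_))
  · rw [Measure.volume_eq_prod, Measure.prod_prod]
    exact (ENNReal.mul_lt_top measure_closedBall_lt_top vol_BV).ne
  · rw [Real.norm_eq_abs, abs_of_nonneg (gx_nonneg hF _ _)]
    exact gx_le hF _ _

/-- Translation of the position. -/
def tr (z : ℂ) : C(ℂ × ℂ, ℂ × ℂ) := ⟨fun p => (p.1 + z, p.2), by fun_prop⟩

theorem tr_mp (z : ℂ) : MeasurePreserving (tr z) volume volume := by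
  rw [Measure.volume_eq_prod]
  exact (measurePreserving_add_right (volume : Measure ℂ) z).prod (MeasurePreserving.id _)

theorem tr_cont : Continuous tr := by
  refine ContinuousMap.continuous_of_continuous_uncurry _ ?_
  change Continuous (fun q : ℂ × (ℂ × ℂ) => (q.2.1 + q.1, q.2.2))
  fun_prop

theorem Dl_eq (hF : LFS v F) (z : ℂ) :
    Dl v F z = ∫⁻ p : ℂ × ℂ, ENNReal.ofReal |gB v F (tr z p) - gB v F p| := by
  have hm : Measurable (gB v F) := (gx_meas hF.lf).indicator
    (MeasurableSet.univ.prod measurableSet_ball)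
  have hm2 : Measurable (fun p : ℂ × ℂ => ENNReal.ofReal |gB v F (tr z p) - gB v F p|) :=
    ENNReal.measurable_ofReal.comp (continuous_abs.measurable.comp
      ((hm.comp (tr_mp z).measurable).sub hm))
  rw [Measure.volume_eq_prod, lintegral_prod _ hm2.aemeasurable]
  unfold Dl
  refine lintegral_congr (fun x => ?_)
  rw [← lintegral_indicator measurableSet_ball]
  refine lintegral_congr (fun w => ?_)
  by_cases hw : w ∈ BV
  · rw [indicator_of_mem hw]
    unfold gB
    rw [indicator_of_mem (show (tr z (x, w)) ∈ (univ : Set ℂ) ×ˢ BV from ⟨mem_univ _, hw⟩),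
      indicator_of_mem (show (x, w) ∈ (univ : Set ℂ) ×ˢ BV from ⟨mem_univ _, hw⟩)]
    rfl
  · rw [indicator_of_notMem hw]
    unfold gB
    rw [indicator_of_notMem (show (tr z (x, w)) ∉ (univ : Set ℂ) ×ˢ BV from fun h => hw h.2),
      indicator_of_notMem (show (x, w) ∉ (univ : Set ℂ) ×ˢ BV from fun h => hw h.2)]
    simp

/-- (DELTA0) -/
theorem delta0 (hn : ∀ s ∈ SD v, ed v s ≠ 0) (hF : LFS v F) :
    Tendsto (Dl v F) (𝓝 0) (𝓝 0) := by
  have hi := gB_int hn hF
  set f : Lp ℝ 1 (volume : Measure (ℂ × ℂ)) := hi.toL1 (gB v F) with hf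
  have h1 : Tendsto (fun z : ℂ => Lp.compMeasurePreserving (tr z) (tr_mp z) f) (𝓝 0)
      (𝓝 (Lp.compMeasurePreserving (tr 0) (tr_mp 0) f)) :=
    Filter.Tendsto.compMeasurePreservingLp tendsto_const_nhds (tr_cont.tendsto 0) tr_mp (tr_mp 0)
      ENNReal.one_ne_top
  have h2 : ∀ z, edist (Lp.compMeasurePreserving (tr z) (tr_mp z) f)
      (Lp.compMeasurePreserving (tr 0) (tr_mp 0) f) = Dl v F z := by
    intro z
    have e0 : ⇑f =ᵐ[volume] gB v F := hi.coeFn_toL1
    have e1 : ⇑(Lp.compMeasurePreserving (tr z) (tr_mp z) f) =ᵐ[volume] gB v F ∘ tr z :=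
      (Lp.coeFn_compMeasurePreserving f (tr_mp z)).trans
        ((tr_mp z).quasiMeasurePreserving.ae_eq_comp e0)
    have e2 : ⇑(Lp.compMeasurePreserving (tr 0) (tr_mp 0) f) =ᵐ[volume] gB v F := by
      refine (Lp.coeFn_compMeasurePreserving f (tr_mp 0)).trans
        (((tr_mp 0).quasiMeasurePreserving.ae_eq_comp e0).trans ?_)
      refine Eventually.of_forall (fun p => ?_)
      simp [tr]
    rw [Dl_eq hF, L1.edist_def]
    refine lintegral_congr_ae ?_
    filter_upwards [e1, e2] with p h1 h2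
    rw [h1, h2, edist_dist, Real.dist_eq]
    rfl
  have h3 := (tendsto_iff_edist_tendsto_0.1 h1)
  simpa only [h2] using h3

theorem delta0' (hn : ∀ s ∈ SD v, ed v s ≠ 0) (hF : LFS v F) {η : ℝ≥0∞} (hη : 0 < η) :
    ∃ d : ℝ, 0 < d ∧ ∀ z : ℂ, ‖z‖ < d → Dl v F z ≤ η := by
  have h := (delta0 hn hF).eventually (ge_mem_nhds hη)
  obtain ⟨d, hd, h⟩ := Metric.eventually_nhds_iff.1 h
  exact ⟨d, hd, fun z hz => h (by rwa [dist_zero_right])⟩

end Pool.Agent.Lib.BilD.Mass5
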