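import Pool.Agent.Lib.MP_7bc51d_an_dense.Defs2
import Pool.Agent.Lib.MP_7bc51d_an_dense.Basic

/-!
# Row NULL: an open invariant set of lines containing the rays of all vertices is conull
-/

set_option autoImplicit false

namespace Pool.Agent.Lib.BilD.Null40

open Complex MeasureTheory Set Filter Topology
open scoped ComplexConjugate ENNReal
open Pool.Agent.Lib.Bil Pool.Agent.Lib.BTop Pool.Agent.Lib.BilD

variable {n : ℕ} {v : Fin n → ℂ}

/-- Indicator of a set of lines. -/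
noncomputable def ind (L : Set (ℂ × ℝ)) (w : ℂ) (q : ℝ) : ℝ := L.indicator (fun _ => (1 : ℝ)) (w, q)

theorem ind_of_mem {L : Set (ℂ × ℝ)} {w : ℂ} {q : ℝ} (h : (w, q) ∈ L) : ind L w q = 1 :=
  indicator_of_mem h _

theorem ind_of_notMem {L : Set (ℂ × ℝ)} {w : ℂ} {q : ℝ} (h : (w, q) ∉ L) : ind L w q = 0 :=
  indicator_of_notMem h _

theorem ind_congr {L : Set (ℂ × ℝ)} {w w' : ℂ} {q q' : ℝ} (h : (w, q) ∈ L ↔ (w', q') ∈ L) :
    ind L w q = ind L w' q' := by
  by_cases h1 : (w, q) ∈ L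
  · rw [ind_of_mem h1, ind_of_mem (h.1 h1)]
  · rw [ind_of_notMem h1, ind_of_notMem (fun h2 => h1 (h.2 h2))]

theorem mem_of_ind {L : Set (ℂ × ℝ)} {w : ℂ} {q : ℝ} (h : ind L w q ≠ 0) : (w, q) ∈ L := by
  by_contra h1
  exact h (ind_of_notMem h1)

theorem notMem_of_ind {L : Set (ℂ × ℝ)} {w : ℂ} {q : ℝ} (h : ind L w q = 0) : (w, q) ∉ L := by
  intro h1
  rw [ind_of_mem h1] at h
  exact one_ne_zero h

/-- The reflection of a line function at a point of the side. -/
theorem sym_mem (hv : ConvexIndependent ℝ v) {L : Set (ℂ × ℝ)} (hL : XL v L)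
    {s : Fin n × Fin n} (hs : IsSide v s.1 s.2) (w : ℂ) {τ : ℝ} (hτ : τ ∈ Ioo (0 : ℝ) 1) :
    ((rl (ed v s) w, cr (rl (ed v s) w) (v s.1 + (τ : ℂ) * ed v s)) ∈ L ↔
      (w, cr w (v s.1 + (τ : ℂ) * ed v s)) ∈ L) := by
  have hne : v s.2 - v s.1 ≠ 0 := by
    rw [sub_ne_zero]
    intro h
    exact hs.1 (hv.injective h.symm)
  have he : ed v s ≠ 0 := hne
  have hR : ∀ w : ℂ, RL v s (w, cr w (v s.1 + (τ : ℂ) * ed v s)) =
      (rl (ed v s) w, cr (rl (ed v s) w) (v s.1 + (τ : ℂ) * ed v s)) := by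
    intro w
    unfold RL
    rw [← rfh_eq s hne]
    have h1 : RR v s.1 s.2 (v s.1 + (τ : ℂ) * ed v s) = v s.1 + (τ : ℂ) * ed v s := by
      unfold RR ed
      rw [add_sub_cancel_left]
      congr 1
      unfold rl
      have h2 : conj (v s.2 - v s.1) ≠ 0 := (map_ne_zero _).2 hne
      rw [map_mul, conj_ofReal]
      field_simp
    rw [h1]
    rfl
  have hEX : ∀ w : ℂ, 0 < cr w (ed v s) → (w, cr w (v s.1 + (τ : ℂ) * ed v s)) ∈ EX v s := by
    intro w hw
    have h2 : cr w (v s.2) = cr w (v s.1) + cr w (ed v s) := by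
      unfold ed; rw [cr_sub_right]; ring
    constructor
    · show cr w (v s.1) < cr w (v s.1 + (τ : ℂ) * ed v s)
      rw [cr_add_right, cr_smul_right]
      nlinarith [mul_pos hτ.1 hw]
    · show cr w (v s.1 + (τ : ℂ) * ed v s) < cr w (v s.2)
      rw [cr_add_right, cr_smul_right, h2]
      nlinarith [mul_pos (sub_pos.2 hτ.2) hw]
  rcases lt_trichotomy 0 (cr w (ed v s)) with h | h | h
  · have := hL.sym s hs _ (hEX w h)
    rw [hR w] at this
    exact this
  · have h3 : rl (ed v s) w = w := by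
      have h4 : cr (ed v s) w = 0 := by rw [cr_swap, ← h, neg_zero]
      obtain ⟨t, ht⟩ := (cr_eq_zero_iff he).1 h4
      rw [ht]
      unfold rl
      have h2 : conj (ed v s) ≠ 0 := (map_ne_zero _).2 he
      rw [map_mul, conj_ofReal]
      field_simp
    rw [h3]
  · have hw' : 0 < cr (rl (ed v s) w) (ed v s) := by
      rw [cr_rl_left he]; linarith
    have := hL.sym s hs _ (hEX _ hw')
    rw [hR (rl (ed v s) w), rl_rl he] at this
    exact this.symm

/-- Exactly invariant measurable sets of lines give admissible line functions. -/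
theorem lfs_ind (hv : ConvexIndependent ℝ v) {L : Set (ℂ × ℝ)} (hL : XL v L)
    (hm : MeasurableSet L) : LFS v (ind L) where
  lf :=
    { meas := by
        have : (fun p : ℂ × ℝ => ind L p.1 p.2) = L.indicator (fun _ => (1 : ℝ)) := rfl
        rw [this]
        exact measurable_const.indicator hm
      bd := fun w q => by
        by_cases h : (w, q) ∈ L
        · rw [ind_of_mem h, abs_one]
        · rw [ind_of_notMem h, abs_zero]; exact zero_le_one }
  nn := fun w q => indicator_nonneg (fun _ _ => zero_le_one) _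
  sym := fun s hs => by
    refine Eventually.of_forall (fun w => Eventually.of_forall (fun τ hτ => ?_))
    exact ind_congr (sym_mem hv hL (mem_SD.1 hs) w hτ)

theorem int_F {F : ℂ → ℝ → ℝ} (hF : LFS v F) (x : ℂ) :
    IntegrableOn (fun w => F w (cr w x)) BV := by
  have hcr : Measurable (fun w : ℂ => cr w x) := meas_cr_left x
  have h1 : Measurable (fun w : ℂ => F w (cr w x)) :=
    hF.lf.meas.comp (measurable_id.prodMk hcr)
  refine Measure.integrableOn_of_bounded (M := 1) vol_BV.ne h1.aestronglyMeasurable ?_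
  exact Eventually.of_forall (fun w => by rw [Real.norm_eq_abs]; exact hF.lf.bd _ _)

theorem ae_zero {F : ℂ → ℝ → ℝ} (hF : LFS v F) {x : ℂ} (h : qf F x = 0) :
    ∀ᵐ w : ℂ, ‖w‖ < 1 → F w (cr w x) = 0 := by
  have h1 : ∫ w in BV, F w (cr w x) = 0 := by
    unfold qf at h
    rcases mul_eq_zero.1 h with h2 | h2
    · exact absurd h2 (inv_ne_zero vol_BV_pos.ne')
    · exact h2
  have h2 := (setIntegral_eq_zero_iff_of_nonneg_ae
    (Eventually.of_forall (fun w => hF.nn w (cr w x))) (int_F hF x)).1 h1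
  have h3 := (ae_restrict_iff' (measurableSet_ball)).1 h2
  filter_upwards [h3] with w hw hw1
  exact hw (mem_ball_zero_iff.2 hw1)

theorem ae_one {F : ℂ → ℝ → ℝ} (hF : LFS v F) {x : ℂ} (h : qf F x = 1) :
    ∀ᵐ w : ℂ, ‖w‖ < 1 → F w (cr w x) = 1 := by
  have h1 : ∫ w in BV, F w (cr w x) = (volume BV).toReal := by
    unfold qf at h
    rw [inv_mul_eq_iff_eq_mul₀ vol_BV_pos.ne', mul_one] at h
    exact h
  have hc : IntegrableOn (fun _ : ℂ => (1 : ℝ)) BV :=
    integrableOn_const vol_BV.ne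
  have h4 : ∫ w in BV, (1 - F w (cr w x)) = 0 := by
    rw [integral_sub hc (int_F hF x), h1, setIntegral_const, smul_eq_mul, mul_one]
    simp [Measure.real]
  have h2 := (setIntegral_eq_zero_iff_of_nonneg_ae
    (Eventually.of_forall (fun w => by
      have := (le_abs_self _).trans (hF.lf.bd w (cr w x))
      simp only [Pi.zero_apply, Pi.sub_apply]
      linarith)) (hc.sub (int_F hF x))).1 h4
  have h3 := (ae_restrict_iff' (measurableSet_ball)).1 h2
  filter_upwards [h3] with w hw hw1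
  have := hw (mem_ball_zero_iff.2 hw1)
  simp only [Pi.zero_apply, Pi.sub_apply] at this
  linarith

/-- Fubini for properties of pairs, with the roles exchanged. -/
theorem ae_swap {P : ℂ → ℂ → Prop} (hP : MeasurableSet {p : ℂ × ℂ | P p.1 p.2})
    (h : ∀ᵐ x : ℂ, ∀ᵐ w : ℂ, P x w) :
    (∀ᵐ p : ℂ × ℂ, P p.1 p.2) ∧ ∀ᵐ w : ℂ, ∀ᵐ x : ℂ, P x w := by
  have h1 : ∀ᵐ p : ℂ × ℂ ∂((volume : Measure ℂ).prod (volume : Measure ℂ)), P p.1 p.2 :=
    (Measure.ae_prod_iff_ae_ae hP).2 h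
  refine ⟨h1, ?_⟩
  have h2 : ∀ᵐ p : ℂ × ℂ ∂((volume : Measure ℂ).prod (volume : Measure ℂ)), P p.swap.1 p.swap.2 :=
    (Measure.measurePreserving_swap (μ := (volume : Measure ℂ))
      (ν := (volume : Measure ℂ))).quasiMeasurePreserving.ae h1
  exact Measure.ae_ae_of_ae_prod h2

/-- Points of the polygon close to a vertex form a set of positive measure. -/
theorem near_pos (hn : 3 ≤ n) (hv : ConvexIndependent ℝ v) (k : Fin n) {δ : ℝ} (hδ : 0 < δ) :
    0 < volume {x | x ∈ PP v ∧ ‖x - v k‖ < δ} := by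
  have h1 : {x | x ∈ PP v ∧ ‖x - v k‖ < δ} = PP v ∩ Metric.ball (v k) δ := by
    ext x
    simp only [mem_ofPred_eq, mem_inter_iff, Metric.mem_ball, dist_eq_norm]
  rw [h1]
  refine (isOpen_PP.inter Metric.isOpen_ball).measure_pos volume ?_
  obtain ⟨x, hx⟩ := PP_nonempty hn hv
  obtain ⟨ε, hε, h2⟩ := BTop.out_of_mem k hx
  set t : ℝ := min ε (δ / (2 * (‖x - v k‖ + 1))) with ht
  have hp : 0 < ‖x - v k‖ + 1 := by positivity
  have ht0 : 0 < t := lt_min hε (by positivity)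
  refine ⟨v k + (t : ℂ) * (x - v k), h2 t ht0 (min_le_left _ _), ?_⟩
  rw [Metric.mem_ball, dist_eq_norm, add_sub_cancel_left, norm_mul, norm_real, Real.norm_eq_abs,
    abs_of_pos ht0]
  have h3 : t ≤ δ / (2 * (‖x - v k‖ + 1)) := min_le_right _ _
  calc t * ‖x - v k‖ ≤ δ / (2 * (‖x - v k‖ + 1)) * (‖x - v k‖ + 1) := by
        apply mul_le_mul h3 (by linarith) (norm_nonneg _) (by positivity)
    _ = δ / 2 := by field_simp
    _ < δ := by linarith

/-- An invariant function which vanishes near one vertex and is not mixed is zero. -/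
theorem zero_alt (hn : 3 ≤ n) (hv : ConvexIndependent ℝ v) {F : ℂ → ℝ → ℝ} (hF : LFS v F)
    (k : Fin n)
    (hk : ∀ᵐ w : ℂ, ∃ δ > 0, ∀ x ∈ PP v, ‖x - v k‖ < δ → F w (cr w x) = 0) :
    ¬ (∀ᵐ x, x ∈ PP v → qf F x = 1) := by
  intro h
  have hcr : Measurable (fun p : ℂ × ℂ => cr p.1 p.2) := continuous_cr.measurable
  have hM : Measurable (fun p : ℂ × ℂ => F p.2 (cr p.2 p.1)) :=
    hF.lf.meas.comp (measurable_snd.prodMk (hcr.comp (measurable_snd.prodMk measurable_fst)))
  have hmeas : MeasurableSet {p : ℂ × ℂ | p.1 ∈ PP v → ‖p.2‖ < 1 → F p.2 (cr p.2 p.1) = 1} := by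
    have h1 : MeasurableSet {p : ℂ × ℂ | p.1 ∈ PP v} := meas_PP.preimage measurable_fst
    have h2 : MeasurableSet {p : ℂ × ℂ | ‖p.2‖ < 1} :=
      measurableSet_lt measurable_snd.norm measurable_const
    have h3 : MeasurableSet {p : ℂ × ℂ | F p.2 (cr p.2 p.1) = 1} :=
      measurableSet_eq_fun hM measurable_const
    exact h1.imp (h2.imp h3)
  have h1 : ∀ᵐ x : ℂ, ∀ᵐ w : ℂ, x ∈ PP v → ‖w‖ < 1 → F w (cr w x) = 1 := by
    filter_upwards [h] with x hx
    by_cases hxP : x ∈ PP v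
    · filter_upwards [ae_one hF (hx hxP)] with w hw _
      exact hw
    · exact Eventually.of_forall (fun w h2 => absurd h2 hxP)
  have h2 := (ae_swap (P := fun x w => x ∈ PP v → ‖w‖ < 1 → F w (cr w x) = 1) hmeas h1).2
  have h3 : ∀ᵐ w : ℂ, ¬ (‖w‖ < 1) := by
    filter_upwards [h2, hk] with w hw hw2 hw3
    obtain ⟨δ, hδ, hd⟩ := hw2
    have h4 : volume {x | x ∈ PP v ∧ ‖x - v k‖ < δ} = 0 := by
      have h5 : ∀ᵐ x : ℂ, x ∉ {x | x ∈ PP v ∧ ‖x - v k‖ < δ} := by
        filter_upwards [hw] with x hx hx2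
        have h6 := hx hx2.1 hw3
        rw [hd x hx2.1 hx2.2] at h6
        exact zero_ne_one h6
      exact measure_eq_zero_iff_ae_notMem.2 h5
    exact (near_pos hn hv k hδ).ne' h4
  have h4 : volume (Metric.ball (0 : ℂ) 1) = 0 := by
    apply measure_eq_zero_iff_ae_notMem.2
    filter_upwards [h3] with w hw hw2
    exact hw (mem_ball_zero_iff.1 hw2)
  exact (Metric.measure_ball_pos volume (0 : ℂ) one_pos).ne' h4

/-- A set of lines with `qf = 0` is null. -/
theorem ae_not (hv : ConvexIndependent ℝ v) {L : Set (ℂ × ℝ)} (hL : XL v L)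
    (hm : MeasurableSet L) (h : ∀ᵐ x, x ∈ PP v → qf (ind L) x = 0) :
    ∀ᵐ p : ℂ × ℂ, p ∈ Ph v → ln p ∉ L := by
  have hF := lfs_ind hv hL hm
  have hmeas : MeasurableSet {p : ℂ × ℂ | p ∈ Ph v → ln p ∉ L} := by
    have h1 : MeasurableSet {p : ℂ × ℂ | p ∈ Ph v} := GpAux.isOpen_Ph.measurableSet
    have h2 : MeasurableSet {p : ℂ × ℂ | ln p ∉ L} :=
      (hm.preimage GpAux.continuous_ln.measurable).compl
    exact h1.imp h2
  have h1 : ∀ᵐ x : ℂ, ∀ᵐ w : ℂ, (x, w) ∈ Ph v → ln (x, w) ∉ L := by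
    filter_upwards [h] with x hx
    by_cases hxP : x ∈ PP v
    · have h2 := ae_zero hF (hx hxP)
      have h3 : ∀ᵐ w : ℂ, (w, cr w x) ∉ L := by
        refine ae_of_ae_ball (D := fun w => (w, cr w x) ∉ L) (fun z r hr => ?_) ?_
        · have h4 := hL.cone r hr (z, cr z x)
          simp only at h4
          rw [cr_smul_left, h4]
        · filter_upwards [h2] with w hw hw1
          exact notMem_of_ind (hw hw1)
      filter_upwards [h3] with w hw _
      exact hw
    · exact Eventually.of_forall (fun w h2 => absurd h2.1 hxP)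
  exact (ae_swap (P := fun x w => (x, w) ∈ Ph v → ln (x, w) ∉ L) hmeas h1).1

/-- Row NULL. -/
theorem row (hV : StV) (hC : StCor) (hD : StDom) : StNull := by
  intro n hn v hv S hS hSo hk
  have hL : XL v (MM v \ S) := EAux.xl_diff hn hv hS
  have hm : MeasurableSet (MM v \ S) := EAux.isOpen_MM.measurableSet.diff hSo.measurableSet
  have hF := lfs_ind hv hL hm
  have hnear : ∀ k : Fin n, ∀ᵐ w : ℂ, ∃ δ > 0, ∀ x ∈ PP v, ‖x - v k‖ < δ →
      ind (MM v \ S) w (cr w x) = 0 := by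
    intro k
    filter_upwards [hC n hn v hv S hS hSo k (hk k)] with w hw
    obtain ⟨δ, hδ, hd⟩ := hw
    refine ⟨δ, hδ, fun x hx hx2 => ?_⟩
    exact ind_of_notMem (fun h => h.2 (hd x hx hx2))
  have hmix := hD n hn v hv (ind (MM v \ S)) hF (fun k => Or.inl (hnear k))
  rcases hV n v hn hv (ind (MM v \ S)) hF hmix with h | h
  · filter_upwards [ae_not hv hL hm h] with p hp hpP
    by_contra h2
    exact hp hpP ⟨GpAux.ln_mem_MM hpP, h2⟩
  · exact absurd h (zero_alt hn hv hF ⟨0, by omega⟩ (hnear _))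

end Pool.Agent.Lib.BilD.Null40
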