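import Pool.Agent.Lib.MP_7bc51d_an_dense.Refl5

/-!
Row SIDE: the mollified modes satisfy the boundary condition of the energy identity.
-/

set_option autoImplicit false

namespace Pool.Agent.Lib.BilD.Side5

open Complex MeasureTheory Set Filter Topology
open scoped ComplexConjugate
open Pool.Agent.Lib.Bil Pool.Agent.Lib.BilD Pool.Agent.Lib.BilD.Refl5

variable {n : ℕ} {v : Fin n → ℂ}

theorem Nr_open (ε : ℝ) (s : Fin n × Fin n) : IsOpen (Nr v ε s) := by
  have hds : ∀ t : Fin n × Fin n, Continuous (ds v t) := by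
    intro t
    unfold ds cr
    fun_prop
  have h1 : IsOpen {x | |ds v s x| < 2 * ε} := isOpen_lt (hds s).abs continuous_const
  have h2 : IsOpen (⋂ t ∈ (SD v).filter (fun t => t ≠ s), {x | 9 * ε < ds v t x}) :=
    isOpen_biInter_finset (fun t _ => isOpen_lt continuous_const (hds t))
  have h3 : Nr v ε s = {x | |ds v s x| < 2 * ε} ∩
      ⋂ t ∈ (SD v).filter (fun t => t ≠ s), {x | 9 * ε < ds v t x} := by
    ext x
    simp only [Nr, mem_ofPred_eq, mem_inter_iff, mem_iInter, Finset.mem_filter, and_imp]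
  rw [h3]
  exact h1.inter h2

/-- The boundary condition from the reflection symmetry. -/
theorem im_zero {u : ℂ → ℂ} {x e c : ℂ} (hu : DifferentiableAt ℝ u x) (hc : ‖c‖ = 1)
    (h : ∀ᶠ t : ℝ in 𝓝 0, u (x + (t : ℂ) * e) = c * conj (u (x + (t : ℂ) * e))) :
    (conj (u x) * fderiv ℝ u x e).im = 0 := by
  have h0 : u x = c * conj (u x) := by
    have := h.self_of_nhds
    simpa using this
  have hd : HasDerivAt (fun t : ℝ => u (x + (t : ℂ) * e)) (fderiv ℝ u x e) 0 := by
    have h1 : HasDerivAt (fun t : ℝ => x + (t : ℂ) * e) e 0 := by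
      have := ((hasDerivAt_id (0 : ℝ)).ofReal_comp.mul_const e).const_add x
      simpa using this
    have h2 : HasFDerivAt u (fderiv ℝ u x) (x + ((0 : ℝ) : ℂ) * e) := by
      simpa using hu.hasFDerivAt
    exact h2.comp_hasDerivAt 0 h1
  have hd2 : HasDerivAt (fun t : ℝ => c * conj (u (x + (t : ℂ) * e)))
      (c * conj (fderiv ℝ u x e)) 0 := by
    have h1 : HasDerivAt (fun t : ℝ => conj (u (x + (t : ℂ) * e))) (conj (fderiv ℝ u x e)) 0 :=
      hd.star
    exact h1.const_mul c
  have heq : fderiv ℝ u x e = c * conj (fderiv ℝ u x e) := by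
    have h3 := hd2.congr_of_eventuallyEq h
    exact hd.unique h3
  set D := fderiv ℝ u x e with hD
  have hcc : conj c * c = 1 := by
    rw [← Complex.normSq_eq_conj_mul_self, Complex.normSq_eq_norm_sq, hc]; simp
  have h5 : conj (u x) * D = conj (conj (u x) * D) := by
    calc conj (u x) * D = conj (c * conj (u x)) * (c * conj D) := by rw [← h0, ← heq]
      _ = (conj c * c) * conj (conj (u x) * D) := by
        simp only [map_mul, conj_conj]; ring
      _ = conj (conj (u x) * D) := by rw [hcc, one_mul]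
  exact Complex.conj_eq_iff_im.1 h5.symm

theorem row (hR : StRefl) (hS : StSmo) (hW : StWP) : StSide := by
  intro n v C e0 G hv F hF ε hε hε0 s hs t ht m
  have he := G.edn s hs
  set x := v s.1 + (t : ℂ) * ed v s with hx
  by_cases hW0 : WW v C ε x = 0
  · rw [hW0, zero_mul]
  obtain ⟨⟨-, -, h3, -⟩, -⟩ := hW n v C e0 G |>.imp (fun h => h ε hε) id
  have hk := h3 x hW0
  have hgd : x ∈ Gd v C ε := by
    refine ⟨fun s' hs' => ?_, hk⟩
    have hside := mem_SD.1 hs'
    have hnn : ∀ k, 0 ≤ ds v s' (v k) := fun k =>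
      div_nonneg (hside.cr_nonneg_vert k) (norm_nonneg _)
    have hx2 : x - v s'.1 = ((1 - t : ℝ) : ℂ) * (v s.1 - v s'.1) + (t : ℂ) * (v s.2 - v s'.1) := by
      rw [hx, ed]; push_cast; ring
    have : ds v s' x = (1 - t) * ds v s' (v s.1) + t * ds v s' (v s.2) := by
      unfold ds
      rw [hx2, cr_add_right, cr_smul_right, cr_smul_right]
      ring
    rw [this]
    exact add_nonneg (mul_nonneg (by linarith [ht.2]) (hnn _)) (mul_nonneg ht.1.le (hnn _))
  have hds0 : ds v s x = 0 := by
    unfold ds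
    rw [hx, add_sub_cancel_left, cr_smul_right, cr_self, mul_zero, zero_div]
  have hNr : x ∈ Nr v ε s := by
    rcases G.dic ε hε hε0 x hgd with h | ⟨s', hs', h⟩
    · have := h s hs
      rw [hds0] at this
      linarith
    · by_cases hss : s = s'
      · rw [hss]; exact h
      · have := h.2 s hs hss
        rw [hds0] at this
        linarith
  rw [im_zero (c := (conj (ed v s) / ed v s) ^ m) ?_ ?_ ?_, mul_zero]
  · exact ((hS n v C e0 G F hF ε hε m).1.differentiable (by norm_num)).differentiableAt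
  · rw [norm_pow, norm_div, RCLike.norm_conj, div_self (norm_ne_zero_iff.2 he), one_pow]
  · have hcont : Continuous (fun t' : ℝ => x + (t' : ℂ) * ed v s) := by fun_prop
    have hnh : ∀ᶠ t' : ℝ in 𝓝 0, x + (t' : ℂ) * ed v s ∈ Nr v ε s := by
      apply hcont.continuousAt.eventually_mem
      apply (Nr_open ε s).mem_nhds
      simpa using hNr
    filter_upwards [hnh] with t' ht'
    have h5 := hR n v C e0 G F hF ε hε hε0 s hs _ ht' m
    have h6 : Rs v s (x + (t' : ℂ) * ed v s) = x + (t' : ℂ) * ed v s := by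
      rw [Rs_def, hx]
      have : v s.1 + (t : ℂ) * ed v s + (t' : ℂ) * ed v s - v s.1 =
          ((t + t' : ℝ) : ℂ) * ed v s := by push_cast; ring
      rw [this, rl_smul, rl_self he]
      push_cast; ring
    rw [h6] at h5
    exact h5

end Pool.Agent.Lib.BilD.Side5
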