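import Pool.Agent.Lib.MP_7bc51d_an_dense.Basic

set_option autoImplicit false

namespace Pool.Agent.Lib.BilD.Smo74

open Complex MeasureTheory Set Filter Topology
open scoped ComplexConjugate Convolution
open Pool.Agent.Lib.Bil Pool.Agent.Lib.BilD

variable {n : ℕ} {v : Fin n → ℂ} {F : ℂ → ℝ → ℝ} {C e0 ε : ℝ}

/-- scalar multiplication, flipped -/
noncomputable def LL : ℂ →L[ℝ] ℝ →L[ℝ] ℂ := (ContinuousLinearMap.lsmul ℝ ℝ (E := ℂ)).flip

theorem LL_apply (z : ℂ) (r : ℝ) : LL z r = (r : ℂ) * z := by
  simp [LL]

theorem um_eq (m : ℕ) (x : ℂ) : um v F m ε x = (am v F m ⋆[LL, volume] et ε) x := by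
  unfold um
  rw [convolution_def]
  apply integral_congr_ae
  exact Eventually.of_forall (fun y => by simp only [LL_apply])

theorem am_locInt (hF : LFS v F) (m : ℕ) : LocallyIntegrable (am v F m) volume := by
  have h1 : LocallyIntegrable (fun _ : ℂ => (((n : ℝ) ^ 2 + 1) * (volume BV).toReal)) volume :=
    locallyIntegrable_const _
  refine h1.mono (am_meas hF.lf m).aestronglyMeasurable ?_
  refine Eventually.of_forall (fun x => ?_)
  have h := am_bound hF m x
  exact h.trans (le_abs_self _)

theorem row : StSmo := by
  intro n v C e0 _ F hF ε hε m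
  have hfun : um v F m ε = am v F m ⋆[LL, volume] et ε := funext (um_eq m)
  have hc : HasCompactSupport (et ε) := et_compact hε
  have hl := am_locInt hF m
  have hs2 : ContDiff ℝ 2 (et ε) :=
    (et_contDiff ε).of_le (WithTop.coe_le_coe.2 (le_top : (2 : ℕ∞) ≤ ⊤))
  have hs1 : ContDiff ℝ 1 (et ε) := hs2.of_le (by norm_num)
  refine ⟨?_, ?_⟩
  · rw [hfun]
    exact hc.contDiff_convolution_right LL hl hs2
  · intro x h
    have hd := hc.hasFDerivAt_convolution_right LL hl hs1 x
    rw [hfun, hd.fderiv, convolution_def]
    have hex : ConvolutionExistsAt (am v F m) (fderiv ℝ (et ε)) x (LL.precompR ℂ) volume := by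
      apply HasCompactSupport.convolutionExists_right
      · exact hc.fderiv ℝ
      · exact hl
      · exact hs1.continuous_fderiv (by norm_num)
    rw [ContinuousLinearMap.integral_apply hex]
    apply integral_congr_ae
    refine Eventually.of_forall (fun y => ?_)
    simp only [ContinuousLinearMap.precompR_apply, ContinuousLinearMap.compL_apply,
      ContinuousLinearMap.comp_apply]
    rw [LL_apply]

theorem mode (hTI : StTI) (hSmo : StSmo) : StMode := by
  intro n v C e0 hG F hF ε hε hεe x hx m
  have hT := hTI n v C e0 hG F hF ε hε hεe x hx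
  have hS := fun m => (hSmo n v C e0 hG F hF ε hε m).2 x
  obtain ⟨M, hM0, hM⟩ := exists_bound (v := v) hG.edn
  obtain ⟨B, hB0, hB⟩ := exists_fderiv_et_bound
  -- integrability in y
  have hcf : Continuous (fun y : ℂ => fderiv ℝ (et ε) (x - y)) :=
    ((et_contDiff ε).continuous_fderiv (by simp)).comp (by fun_prop)
  have hm : Measurable (fun p : ℂ × ℂ => (gx v F p.1 p.2 : ℝ)) := gx_meas hF.lf
  -- the joint function
  set K : ℂ → ℂ → ℂ → ℂ := fun h y w =>
    ((fderiv ℝ (et ε) (x - y) h : ℝ) : ℂ) * ((gx v F y w : ℂ) * (0 + 1)) with hK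
  have key : ∀ (k : ℕ) (h : ℂ), fderiv ℝ (um v F k ε) x h =
      ∫ w in BV, (∫ y, ((gx v F y w * fderiv ℝ (et ε) (x - y) h : ℝ) : ℂ)) * em k w := by
    intro k h
    rw [hS k h]
    have hint : Integrable (fun p : ℂ × ℂ =>
        ((fderiv ℝ (et ε) (x - p.1) h : ℝ) : ℂ) * ((gx v F p.1 p.2 : ℂ) * em k p.2))
        ((volume : Measure ℂ).prod (volume.restrict BV)) := by
      have hball : IntegrableOn (fun _ : ℂ × ℂ => (B / ε ^ 3 * ‖h‖ * ((n : ℝ) ^ 2 + 1)))
          (Metric.closedBall x ε ×ˢ univ) ((volume : Measure ℂ).prod (volume.restrict BV)) := by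
        have hfin : ((volume : Measure ℂ).prod (volume.restrict BV))
            (Metric.closedBall x ε ×ˢ univ) ≠ ⊤ := by
          rw [Measure.prod_prod]
          apply ENNReal.mul_ne_top (isCompact_closedBall x ε).measure_ne_top
          rw [Measure.restrict_apply_univ]
          exact vol_BV.ne
        exact integrableOn_const hfin
      have hb2 := hball.integrable_indicator
        ((Metric.isClosed_closedBall.measurableSet).prod MeasurableSet.univ)
      refine hb2.mono' ?_ ?_
      · apply Measurable.aestronglyMeasurable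
        have h1 : Measurable (fun p : ℂ × ℂ => ((fderiv ℝ (et ε) (x - p.1) h : ℝ) : ℂ)) := by
          apply measurable_ofReal.comp
          have : Continuous (fun p : ℂ × ℂ => fderiv ℝ (et ε) (x - p.1) h) :=
            (hcf.comp continuous_fst).clm_apply continuous_const
          exact this.measurable
        exact h1.mul ((measurable_ofReal.comp hm).mul ((em_meas k).comp measurable_snd))
      · refine Eventually.of_forall (fun p => ?_)
        by_cases hp : p ∈ Metric.closedBall x ε ×ˢ (univ : Set ℂ)
        · rw [indicator_of_mem hp]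
          rw [norm_mul, norm_mul, norm_real, norm_real, Real.norm_eq_abs, Real.norm_eq_abs,
            abs_of_nonneg (gx_nonneg hF p.1 p.2)]
          have e1 := hB ε hε (x - p.1) h
          have e2 := gx_le hF p.1 p.2
          have e3 := em_norm k p.2
          have e4 := gx_nonneg hF p.1 p.2
          have e5 : gx v F p.1 p.2 * ‖em k p.2‖ ≤ ((n : ℝ) ^ 2 + 1) * 1 :=
            mul_le_mul e2 e3 (norm_nonneg _) (by positivity)
          calc |fderiv ℝ (et ε) (x - p.1) h| * (gx v F p.1 p.2 * ‖em k p.2‖) ≤
              (B / ε ^ 3 * ‖h‖) * (((n : ℝ) ^ 2 + 1) * 1) :=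
                mul_le_mul e1 e5 (by positivity) (by positivity)
            _ = _ := by ring
        · rw [indicator_of_notMem hp]
          have hp1 : ε < ‖x - p.1‖ := by
            by_contra hcon
            apply hp
            refine ⟨?_, mem_univ _⟩
            rw [Metric.mem_closedBall, dist_eq_norm, norm_sub_rev]
            exact not_lt.1 hcon
          rw [fderiv_et_zero hε hp1]
          simp
    have e1 : ∫ y, ((fderiv ℝ (et ε) (x - y) h : ℝ) : ℂ) * am v F k y =
        ∫ y, ∫ w in BV, ((fderiv ℝ (et ε) (x - y) h : ℝ) : ℂ) * ((gx v F y w : ℂ) * em k w) := by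
      apply integral_congr_ae
      refine Eventually.of_forall (fun y => ?_)
      simp only
      unfold am
      rw [integral_const_mul]
    rw [e1, integral_integral_swap hint]
    apply integral_congr_ae
    refine Eventually.of_forall (fun w => ?_)
    simp only
    rw [← integral_mul_const]
    apply integral_congr_ae
    refine Eventually.of_forall (fun y => ?_)
    simp only
    push_cast
    ring
  -- integrability in w of the inner integrals
  set P : ℂ → ℂ → ℂ := fun h w => ∫ y, ((gx v F y w * fderiv ℝ (et ε) (x - y) h : ℝ) : ℂ) with hP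
  have hPi : ∀ (k : ℕ) (h : ℂ), IntegrableOn (fun w => P h w * em k w) BV := by
    intro k h
    have hmeas : Measurable (fun w => P h w) := by
      have h1 : Measurable (fun p : ℂ × ℂ =>
          ((gx v F p.2 p.1 * fderiv ℝ (et ε) (x - p.2) h : ℝ) : ℂ)) := by
        apply measurable_ofReal.comp
        have h2 : Continuous (fun p : ℂ × ℂ => fderiv ℝ (et ε) (x - p.2) h) :=
          (hcf.comp continuous_snd).clm_apply continuous_const
        exact (hm.comp (measurable_snd.prodMk measurable_fst)).mul h2.measurable
      have h3 : StronglyMeasurable (Function.uncurry (fun (w y : ℂ) =>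
          ((gx v F y w * fderiv ℝ (et ε) (x - y) h : ℝ) : ℂ))) := h1.stronglyMeasurable
      exact h3.integral_prod_right.measurable
    have hbd : ∀ w, ‖P h w‖ ≤ ((n : ℝ) ^ 2 + 1) * (B / ε ^ 3 * ‖h‖) *
        (volume (Metric.closedBall x ε)).toReal := by
      intro w
      have e1 : P h w = ∫ y in Metric.closedBall x ε,
          ((gx v F y w * fderiv ℝ (et ε) (x - y) h : ℝ) : ℂ) := by
        rw [hP]
        rw [setIntegral_eq_integral_of_forall_compl_eq_zero]
        intro y hy
        have hp1 : ε < ‖x - y‖ := by
          by_contra hcon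
          apply hy
          rw [Metric.mem_closedBall, dist_eq_norm, norm_sub_rev]
          exact not_lt.1 hcon
        rw [fderiv_et_zero hε hp1]
        simp
      rw [e1]
      refine norm_setIntegral_le_of_norm_le_const
        (isCompact_closedBall x ε).measure_lt_top ?_
      intro y _
      rw [norm_real, Real.norm_eq_abs, abs_mul, abs_of_nonneg (gx_nonneg hF y w)]
      exact mul_le_mul (gx_le hF y w) (hB ε hε (x - y) h) (abs_nonneg _) (by positivity)
    refine Measure.integrableOn_of_bounded (M := ((n : ℝ) ^ 2 + 1) * (B / ε ^ 3 * ‖h‖) *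
        (volume (Metric.closedBall x ε)).toReal) vol_BV.ne
        ((hmeas.mul (em_meas k)).aestronglyMeasurable) ?_
    refine Eventually.of_forall (fun w => ?_)
    rw [norm_mul]
    calc ‖P h w‖ * ‖em k w‖ ≤ ‖P h w‖ * 1 :=
          mul_le_mul_of_nonneg_left (em_norm k w) (norm_nonneg _)
      _ ≤ _ := by rw [mul_one]; exact hbd w
  -- linearity of P in h
  have hPlin : ∀ w, P w w = (w.re : ℂ) * P 1 w + (w.im : ℂ) * P I w := by
    intro w
    have hi : ∀ h : ℂ, Integrable (fun y => ((gx v F y w * fderiv ℝ (et ε) (x - y) h : ℝ) : ℂ)) := by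
      intro h
      have hball : IntegrableOn (fun _ : ℂ => (((n : ℝ) ^ 2 + 1) * (B / ε ^ 3 * ‖h‖)))
          (Metric.closedBall x ε) := integrableOn_const (isCompact_closedBall x ε).measure_ne_top
      have hb2 := hball.integrable_indicator Metric.isClosed_closedBall.measurableSet
      refine hb2.mono' ?_ ?_
      · apply Measurable.aestronglyMeasurable
        apply measurable_ofReal.comp
        exact (gx_meas_x hF.lf w).mul (hcf.clm_apply continuous_const).measurable
      · refine Eventually.of_forall (fun y => ?_)
        by_cases hy : y ∈ Metric.closedBall x ε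
        · rw [indicator_of_mem hy, norm_real, Real.norm_eq_abs, abs_mul,
            abs_of_nonneg (gx_nonneg hF y w)]
          exact mul_le_mul (gx_le hF y w) (hB ε hε (x - y) h) (abs_nonneg _) (by positivity)
        · rw [indicator_of_notMem hy]
          have hp1 : ε < ‖x - y‖ := by
            by_contra hcon
            apply hy
            rw [Metric.mem_closedBall, dist_eq_norm, norm_sub_rev]
            exact not_lt.1 hcon
          rw [fderiv_et_zero hε hp1]
          simp
    simp only [hP]
    rw [← integral_const_mul, ← integral_const_mul, ← integral_add ((hi 1).const_mul _)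
      ((hi I).const_mul _)]
    apply integral_congr_ae
    refine Eventually.of_forall (fun y => ?_)
    simp only
    have hw : w = w.re • (1 : ℂ) + w.im • I := by
      apply Complex.ext <;> simp
    have e : fderiv ℝ (et ε) (x - y) w = w.re * fderiv ℝ (et ε) (x - y) 1 +
        w.im * fderiv ℝ (et ε) (x - y) I := by
      conv_lhs => rw [hw]
      rw [map_add, map_smul, map_smul]
      rfl
    rw [e]
    push_cast
    ring
  -- conclusion
  unfold dz dzb
  rw [key m 1, key m I, key (m + 2) 1, key (m + 2) I]
  have e2 : ∀ᵐ w : ℂ, w ≠ 0 := by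
    rw [ae_iff]; simp
  have e3 : ∫ w in BV, (P 1 w * em m w - I * (P I w * em m w) +
      (P 1 w * em (m + 2) w + I * (P I w * em (m + 2) w))) = 0 := by
    have : ∀ᵐ w ∂(volume.restrict BV), (P 1 w * em m w - I * (P I w * em m w) +
      (P 1 w * em (m + 2) w + I * (P I w * em (m + 2) w))) = 0 := by
      filter_upwards [ae_restrict_of_ae hT, ae_restrict_of_ae e2] with w hw hw0
      have h0 : P w w = 0 := by
        have e := integral_ofReal (𝕜 := ℂ) (μ := (volume : Measure ℂ))
          (f := fun y => gx v F y w * fderiv ℝ (et ε) (x - y) w)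
        simp only [hP]
        refine e.trans ?_
        rw [hw]
        simp
      rw [hPlin w] at h0
      have hn : (‖w‖ : ℂ) ≠ 0 := by
        rw [Ne, ofReal_eq_zero, norm_eq_zero]; exact hw0
      set z : ℂ := conj w / (‖w‖ : ℂ) with hz
      have hem : em m w = z ^ m := rfl
      have hem2 : em (m + 2) w = z ^ m * z ^ 2 := by
        show z ^ (m + 2) = _
        rw [pow_add]
      have hwz : w * z = ‖w‖ := by
        rw [hz, mul_div_assoc', Complex.mul_conj, Complex.normSq_eq_norm_sq]
        push_cast
        field_simp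
      have hwc : conj w = z * ‖w‖ := by
        rw [hz]
        field_simp
      have hre : ((w.re : ℝ) : ℂ) = (w + conj w) / 2 := by
        rw [Complex.re_eq_add_conj]
      have him : ((w.im : ℝ) : ℂ) = (w - conj w) / (2 * I) := by
        rw [Complex.im_eq_sub_conj]
      -- multiply by z ^ (m+1) / ‖w‖
      have h1 : z * ((w.re : ℂ) * P 1 w + (w.im : ℂ) * P I w) = 0 := by rw [h0, mul_zero]
      rw [hre, him, hwc] at h1
      have h2 : (‖w‖ : ℂ) * ((P 1 w - I * P I w) + z ^ 2 * (P 1 w + I * P I w)) = 0 := by
        have hI : I ≠ 0 := I_ne_zero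
        have : (‖w‖ : ℂ) * ((P 1 w - I * P I w) + z ^ 2 * (P 1 w + I * P I w)) =
            2 * (z * ((w + z * ‖w‖) / 2 * P 1 w + (w - z * ‖w‖) / (2 * I) * P I w)) := by
          have hI2 : (w - z * ‖w‖) / (2 * I) = - I * (w - z * ‖w‖) / 2 := by
            rw [div_eq_iff (mul_ne_zero two_ne_zero hI)]
            have : I * I = -1 := I_mul_I
            linear_combination (w - z * ‖w‖) * this
          rw [hI2]
          linear_combination (-(P 1 w) + I * P I w) * hwz
        rw [this, h1, mul_zero]
      have h3 := (mul_eq_zero.1 h2).resolve_left hn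
      rw [hem, hem2]
      linear_combination (z ^ m) * h3
    rw [integral_congr_ae this]
    simp
  have i1 := hPi m 1
  have i2 := hPi m I
  have i3 := hPi (m + 2) 1
  have i4 := hPi (m + 2) I
  have j1 : ∫ w in BV, (P 1 w * em m w - I * (P I w * em m w) +
      (P 1 w * em (m + 2) w + I * (P I w * em (m + 2) w))) =
      (∫ w in BV, (P 1 w * em m w - I * (P I w * em m w))) +
      ∫ w in BV, (P 1 w * em (m + 2) w + I * (P I w * em (m + 2) w)) :=
    integral_add (i1.sub (i2.const_mul I)) (i3.add (i4.const_mul I))
  have j2 : ∫ w in BV, (P 1 w * em m w - I * (P I w * em m w)) =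
      (∫ w in BV, P 1 w * em m w) - ∫ w in BV, I * (P I w * em m w) :=
    integral_sub i1 (i2.const_mul I)
  have j3 : ∫ w in BV, (P 1 w * em (m + 2) w + I * (P I w * em (m + 2) w)) =
      (∫ w in BV, P 1 w * em (m + 2) w) + ∫ w in BV, I * (P I w * em (m + 2) w) :=
    integral_add i3 (i4.const_mul I)
  rw [j1, j2, j3, integral_const_mul, integral_const_mul] at e3
  simp only [hP] at e3
  linear_combination (1 / 2 : ℂ) * e3

end Pool.Agent.Lib.BilD.Smo74
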