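import Pool.Agent.Lib.MP_7bc51d_an_dense.Defs2

/-!
# Almost every orbit closure contains the generic orbit closure of some vertex
-/

set_option autoImplicit false

namespace Pool.Agent.Lib.BilD.Top89

open Complex MeasureTheory Set Filter Topology
open scoped ComplexConjugate
open Pool.Agent.Lib.Bil Pool.Agent.Lib.BTop

variable {n : ℕ} {v : Fin n → ℂ}

theorem VX_mono {L L' : Set (ℂ × ℝ)} (h : L ⊆ L') {k : Fin n} (hL : VX v L k) : VX v L' k := by
  unfold VX at *
  filter_upwards [hL] with θ h1 h2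
  exact h (h1 h2)

theorem sat_mono {U U' : Set (ℂ × ℝ)} (h : U ⊆ U') : sat v U ⊆ sat v U' := by
  rintro p ⟨h1, q, h2, h3⟩
  exact ⟨h1, q, h2, h h3⟩

/-- A set of lines contained in the closure of another one: phase points. -/
theorem closure_PA_sub (hn : 3 ≤ n) (hv : ConvexIndependent ℝ v) {L M : Set (ℂ × ℝ)}
    (h : L ⊆ closure M) : closure (PA v L) ⊆ closure (PA v M) := by
  obtain ⟨t1, t2, t3, -⟩ := stmtG' n hn v hv
  apply closure_minimal _ isClosed_closure
  intro p hp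
  have h2 : p ∈ Ph v ∩ closure (PA v M) := by
    rw [t3 M]
    exact ⟨hp.1, h hp.2⟩
  exact h2.2

theorem row (hN : StNull) : StTop := by
  intro n hn v hv _
  obtain ⟨e1, e2, e3, e4, e5, e6, e7, e8, e9, e10, e11⟩ := stmtE n hn v hv
  obtain ⟨-, -, g3⟩ := stmtG stmtE n hn v hv
  set B := TopologicalSpace.countableBasis (ℂ × ℝ) with hBdef
  have hBc : B.Countable := TopologicalSpace.countable_countableBasis _
  have hB : TopologicalSpace.IsTopologicalBasis B := TopologicalSpace.isBasis_countableBasis _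
  have : Countable B := hBc.to_subtype
  have key : ∀ᵐ p : ℂ × ℂ, ∀ U : Fin n → B,
      (∀ k, (CC v k ∩ (U k : Set (ℂ × ℝ))).Nonempty) → p ∈ Ph v →
        ln p ∈ sat v (⋃ k, (U k : Set (ℂ × ℝ))) := by
    rw [ae_all_iff]
    intro U
    by_cases hU : ∀ k, (CC v k ∩ (U k : Set (ℂ × ℝ))).Nonempty
    · have hop : ∀ k, IsOpen (U k : Set (ℂ × ℝ)) := fun k => hB.isOpen (U k).2
      have h1 : ∀ k, VX v (sat v (⋃ k, (U k : Set (ℂ × ℝ)))) k := by
        intro k
        obtain ⟨q, hq1, hq2⟩ := hU k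
        exact VX_mono (sat_mono (subset_iUnion (fun k => (U k : Set (ℂ × ℝ))) k))
          (hq1.2 _ (hop k) hq2)
      filter_upwards [hN n hn v hv (sat v (⋃ k, (U k : Set (ℂ × ℝ)))) (e9 _).1
        (e10 _ (isOpen_iUnion hop)) h1] with p hp _ hpP
      exact hp hpP
    · exact ae_of_all _ fun p h => absurd h hU
  filter_upwards [key] with p hp hpP
  by_contra hcon
  push Not at hcon
  have hbad : ∀ k, ∃ W : B, (CC v k ∩ (W : Set (ℂ × ℝ))).Nonempty ∧
      lorb v (ln p) ∩ (W : Set (ℂ × ℝ)) = ∅ := by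
    intro k
    have h1 : ¬ (CC v k ⊆ closure (lorb v (ln p))) := by
      intro h2
      apply hcon k
      rw [g3 p hpP]
      exact closure_PA_sub hn hv h2
    obtain ⟨q, hq1, hq2⟩ := not_subset.1 h1
    obtain ⟨W, hW1, hW2, hW3⟩ := hB.exists_subset_of_mem_open (a := q)
      (u := (closure (lorb v (ln p)))ᶜ) hq2 isClosed_closure.isOpen_compl
    refine ⟨⟨W, hW1⟩, ⟨q, hq1, hW2⟩, ?_⟩
    rw [← disjoint_iff_inter_eq_empty, disjoint_left]
    intro z hz1 hz2
    exact hW3 hz2 (subset_closure hz1)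
  choose W hW1 hW2 using hbad
  obtain ⟨-, q, hq1, hq2⟩ := hp W hW1 hpP
  obtain ⟨k, hk⟩ := mem_iUnion.1 hq2
  have : q ∈ lorb v (ln p) ∩ (W k : Set (ℂ × ℝ)) := ⟨hq1, hk⟩
  rw [hW2 k] at this
  exact this

end Pool.Agent.Lib.BilD.Top89
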