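import Pool.Agent.Lib.MP_7bc51d_an_dense.DefsT
import Pool.Agent.Lib.MP_7bc51d_an_dense.Top89
import Pool.Agent.Lib.MP_7bc51d_an_dense.Tra57

set_option autoImplicit false

/-!
Consequences of Theorem T and of transitivity.
-/

namespace Pool.Agent.Lib.BilD.Trans57

open Complex MeasureTheory Set Filter Topology
open scoped ComplexConjugate
open Pool.Agent.Lib.Bil Pool.Agent.Lib.BTop Pool.Agent.Lib.BTop.GpAux Pool.Agent.Lib.BilU
  Pool.Agent.Lib.BilD

variable {n : ℕ} {v : Fin n → ℂ}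

/-- If all sets `CC v k` have interior points, they are everything. -/
theorem alt (hT : StT) (hn : 3 ≤ n) (hv : ConvexIndependent ℝ v) (hirr : Irr v)
    (hint : ∀ k, (interior (CC v k)).Nonempty) : ∀ k, MM v ⊆ CC v k := by
  obtain ⟨e1, e2, e3, e4, e5, e6, e7, e8, e9, e10, e11⟩ := stmtE n hn v hv
  obtain ⟨f1, f2, f3, -⟩ := stmtF (stmtB stmtA stmtD) stmtC stmtD stmtV stmtE n hn v hv hirr
  -- an open invariant set meeting `CC v k` has the vertex `k`
  have hsat : ∀ (V : Set (ℂ × ℝ)) (k : Fin n), XL v V → IsOpen V → (V ∩ CC v k).Nonempty →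
      VX v V k := by
    intro V k hV hVo ⟨p, hp1, hp2⟩
    have h1 := hp2.2 V hVo hp1
    exact Top89.VX_mono (e11 V V hV inter_subset_left) h1
  intro i
  by_contra hcon
  obtain ⟨c1, c2, -⟩ := f1 i
  have hW : MM v \ CC v i = MM v \ closure (CC v i) := by
    ext z
    constructor
    · rintro ⟨z1, z2⟩
      exact ⟨z1, fun z3 => z2 (c2 ⟨z1, z3⟩)⟩
    · rintro ⟨z1, z2⟩
      exact ⟨z1, fun z3 => z2 (subset_closure z3)⟩
  have hWo : IsOpen (MM v \ CC v i) := by
    rw [hW]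
    exact e2.sdiff isClosed_closure
  have hWn : (MM v \ CC v i).Nonempty := by
    obtain ⟨q, hq1, hq2⟩ := not_subset.1 hcon
    exact ⟨q, hq1, hq2⟩
  have hdis : Disjoint (interior (CC v i)) (MM v \ CC v i) := by
    rw [Set.disjoint_left]
    intro p hp hp2
    exact hp2.2 (interior_subset hp)
  obtain ⟨k, hk1, hk2⟩ := hT n hn v hv _ _ (e5 _ c1) (e3 _ c1) isOpen_interior hWo (hint i) hWn hdis
  obtain ⟨d1, -⟩ := f1 k
  obtain ⟨q, hq⟩ := hint k
  have hVk : VX v (interior (CC v k)) k :=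
    hsat _ k (e5 _ d1) isOpen_interior ⟨q, hq, interior_subset hq⟩
  by_cases h1 : (interior (CC v k) ∩ interior (CC v i)).Nonempty
  · have h2 := f3 k i h1
    rw [h2] at hVk
    exact hk1 hVk
  · by_cases h2 : (interior (CC v k) ∩ CC v i).Nonempty
    · have h3 := hsat _ i (e5 _ d1) isOpen_interior h2
      obtain ⟨r, hr⟩ := hint i
      have h4 := hsat _ i (e5 _ c1) isOpen_interior ⟨r, hr, interior_subset hr⟩
      obtain ⟨v1, v2, -⟩ := stmtV n hn v hv i
      exact h1 (v2 _ ((v1 _ _).2 ⟨h3, h4⟩))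
    · apply hk2
      refine Top89.VX_mono ?_ hVk
      intro p hp
      refine ⟨d1.sub (interior_subset hp), fun hp2 => h2 ⟨p, hp, hp2⟩⟩

/-- Transitivity and dense orbits, without hypotheses on the angles. -/
def TransQ {n : ℕ} (v : Fin n → ℂ) : Prop :=
  (∀ A B : Set (ℂ × ℂ), EI v A → EI v B → IsOpen (A ∩ Ph v) → IsOpen (B ∩ Ph v) →
    (A ∩ Ph v).Nonempty → (B ∩ Ph v).Nonempty → (A ∩ B ∩ Ph v).Nonempty) ∧
  (∃ G : Set (ℂ × ℂ), IsGδ G ∧ Ph v ⊆ closure G ∧ ∀ p ∈ G, p ∈ Ph v →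
    Ph v ⊆ closure (orb v p))

theorem transQ (hn : 3 ≤ n) (hv : ConvexIndependent ℝ v) (hT : TransL v) : TransQ v := by
  obtain ⟨e1, e2, e3, e4, e5, e6, e7, e8, e9, e10, e11⟩ := stmtE n hn v hv
  obtain ⟨g1, g2, g3⟩ := stmtG stmtE n hn v hv
  obtain ⟨t1, t2, t3, t4, t5, -⟩ := stmtG' n hn v hv
  constructor
  · intro A B hA hB hAo hBo hAn hBn
    obtain ⟨a1, a2⟩ := g1 A hA
    obtain ⟨b1, b2⟩ := g1 B hB
    have hA2 : (LA v A).Nonempty := by
      obtain ⟨p, hp1, hp2⟩ := hAn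
      exact ⟨ln p, p, hp2, hp1, rfl⟩
    have hB2 : (LA v B).Nonempty := by
      obtain ⟨p, hp1, hp2⟩ := hBn
      exact ⟨ln p, p, hp2, hp1, rfl⟩
    obtain ⟨l, hl1, hl2⟩ :=
      hT _ _ a1 b1 (Tra57.isOpen_LA hAo) (Tra57.isOpen_LA hBo) hA2 hB2
    obtain ⟨p, hp1, hp2, rfl⟩ := hl1
    exact ⟨p, ⟨hp2, (b2 p hp1).2 hl2⟩, hp1⟩
  · set B := TopologicalSpace.countableBasis (ℂ × ℝ) with hBdef
    have hBc : B.Countable := TopologicalSpace.countable_countableBasis _
    have hB : TopologicalSpace.IsTopologicalBasis B :=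
      TopologicalSpace.isBasis_countableBasis _
    have : Countable B := hBc.to_subtype
    -- saturations are dense
    have hden : ∀ U : B, ((U : Set (ℂ × ℝ)) ∩ MM v).Nonempty →
        MM v ⊆ closure (sat v (U : Set (ℂ × ℝ))) := by
      intro U hU
      obtain ⟨s1, s2⟩ := e9 (U : Set (ℂ × ℝ))
      have s3 := e10 _ (hB.isOpen U.2)
      by_contra hcon
      obtain ⟨q, hq1, hq2⟩ := not_subset.1 hcon
      have h1 : XL v (MM v \ closure (sat v (U : Set (ℂ × ℝ)))) := by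
        have h2 := e3 _ (e6 _ s1)
        have h3 : MM v \ (MM v ∩ closure (sat v (U : Set (ℂ × ℝ)))) =
            MM v \ closure (sat v (U : Set (ℂ × ℝ))) := by
          ext z
          constructor
          · rintro ⟨z1, z2⟩
            exact ⟨z1, fun z3 => z2 ⟨z1, z3⟩⟩
          · rintro ⟨z1, z2⟩
            exact ⟨z1, fun z3 => z2 z3.2⟩
        rwa [h3] at h2
      obtain ⟨z, hz1, hz2⟩ := hT _ _ s1 h1 s3 (e2.sdiff isClosed_closure) (hU.mono s2) ⟨q, hq1, hq2⟩
      exact hz2.2 (subset_closure hz1)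
    set O : B → Set (ℂ × ℝ) := fun U =>
      {z | ((U : Set (ℂ × ℝ)) ∩ MM v).Nonempty → z ∈ sat v (U : Set (ℂ × ℝ)) ∪ (closure (MM v))ᶜ}
      with hO
    have hOo : ∀ U, IsOpen (O U) := by
      intro U
      by_cases hU : ((U : Set (ℂ × ℝ)) ∩ MM v).Nonempty
      · have : O U = sat v (U : Set (ℂ × ℝ)) ∪ (closure (MM v))ᶜ := by
          ext z
          exact ⟨fun h => h hU, fun h _ => h⟩
        rw [this]
        exact (e10 _ (hB.isOpen U.2)).union isClosed_closure.isOpen_compl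
      · have : O U = Set.univ := by
          ext z
          exact ⟨fun _ => trivial, fun _ h => absurd h hU⟩
        rw [this]
        exact isOpen_univ
    have hOd : ∀ U, Dense (O U) := by
      intro U
      by_cases hU : ((U : Set (ℂ × ℝ)) ∩ MM v).Nonempty
      · intro z
        by_cases hz : z ∈ closure (MM v)
        · have h1 : z ∈ closure (sat v (U : Set (ℂ × ℝ))) :=
            (closure_minimal (hden U hU) isClosed_closure) hz
          have h2 : sat v (U : Set (ℂ × ℝ)) ⊆ O U := fun y hy _ => Or.inl hy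
          exact closure_mono h2 h1
        · exact subset_closure (fun _ => Or.inr hz)
      · intro z
        exact subset_closure (fun h => absurd h hU)
    have hGd : Dense (⋂ U, O U) := dense_iInter_of_isOpen hOo hOd
    have hGδ : IsGδ (⋂ U, O U) := IsGδ.iInter_of_isOpen hOo
    obtain ⟨u1, u2⟩ := t5 _ hGδ (fun z _ => hGd z)
    refine ⟨PA v (⋂ U, O U), u1, u2, fun p hp hpP => ?_⟩
    have h1 : MM v ⊆ closure (lorb v (ln p)) := by
      intro q hq
      rw [hB.mem_closure_iff]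
      intro U hU hqU
      have h2 := mem_iInter.1 hp.2 ⟨U, hU⟩ ⟨q, hqU, hq⟩
      rcases h2 with h2 | h2
      · obtain ⟨-, z, hz1, hz2⟩ := h2
        exact ⟨z, hz2, hz1⟩
      · exact absurd (subset_closure (ln_mem_MM hpP)) h2
    rw [g3 p hpP]
    intro q hq
    have h3 := Top89.closure_PA_sub hn hv h1
    exact h3 (subset_closure ⟨hq, ln_mem_MM hq⟩)

end Pool.Agent.Lib.BilD.Trans57
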