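import Pool.Agent.Lib.MP_7bc51d_an_dense.Basic

/-!
# Row WP: the weight
-/

set_option autoImplicit false

namespace Pool.Agent.Lib.BilD.WP12

open Complex MeasureTheory Set Filter Topology
open scoped ComplexConjugate
open Pool.Agent.Lib.Bil Pool.Agent.Lib.BilD

variable {n : ℕ} {v : Fin n → ℂ} {C e0 ε : ℝ}

/-- The profile of the vertex factor. -/
noncomputable def Th (y : ℂ) : ℝ := Real.smoothTransition (‖y‖ ^ 2 - 1)

theorem Th_contDiff : ContDiff ℝ (⊤ : ℕ∞) Th := by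
  unfold Th
  exact Real.smoothTransition.contDiff.comp ((contDiff_norm_sq ℝ).sub contDiff_const)

theorem Th_one {y : ℂ} (hy : 2 < ‖y‖) : Th y = 1 := by
  unfold Th
  apply Real.smoothTransition.one_of_one_le
  nlinarith

theorem fderiv_Th_zero {y : ℂ} (hy : 2 < ‖y‖) : fderiv ℝ Th y = 0 := by
  have : Th =ᶠ[𝓝 y] fun _ => 1 := by
    have hopen : IsOpen {y : ℂ | 2 < ‖y‖} := isOpen_lt continuous_const continuous_norm
    filter_upwards [hopen.mem_nhds hy] with z hz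
    exact Th_one hz
  rw [this.fderiv_eq]
  simp

theorem exists_Th_bound : ∃ B : ℝ, 0 < B ∧ ∀ y, ‖fderiv ℝ Th y‖ ≤ B := by
  have hc : Continuous (fderiv ℝ Th) := Th_contDiff.continuous_fderiv (by simp)
  have hs : HasCompactSupport (fderiv ℝ Th) := by
    apply HasCompactSupport.of_support_subset_isCompact (isCompact_closedBall (0 : ℂ) 2)
    intro y hy
    rw [mem_closedBall_zero_iff]
    by_contra h
    exact hy (fderiv_Th_zero (not_le.mp h))
  obtain ⟨B, hB⟩ := hc.bounded_above_of_compact_support hs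
  have hB0 : 0 ≤ B := (norm_nonneg _).trans (hB 0)
  exact ⟨B + 1, by linarith, fun y => (hB y).trans (by linarith)⟩

theorem qv_eq (v : Fin n → ℂ) (C ε : ℝ) (k : Fin n) (x : ℂ) :
    qv v C ε k x = Th (((C * ε)⁻¹ : ℝ) • (x - v k)) := by
  have h : ‖((C * ε)⁻¹ : ℝ) • (x - v k)‖ ^ 2 = ‖x - v k‖ ^ 2 / (C * ε) ^ 2 := by
    rw [norm_smul, mul_pow, Real.norm_eq_abs, sq_abs, inv_pow, div_eq_mul_inv, mul_comm]
  unfold qv Th
  rw [h]

theorem qv_contDiff (v : Fin n → ℂ) (C ε : ℝ) (k : Fin n) :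
    ContDiff ℝ (⊤ : ℕ∞) (qv v C ε k) := by
  have : qv v C ε k = fun x => Th (((C * ε)⁻¹ : ℝ) • (x - v k)) := funext (qv_eq v C ε k)
  rw [this]
  have h2 : ContDiff ℝ (⊤ : ℕ∞) (fun x : ℂ => ((C * ε)⁻¹ : ℝ) • (x - v k)) :=
    (contDiff_id.sub contDiff_const).const_smul _
  exact Th_contDiff.comp h2

theorem qv_nonneg (v : Fin n → ℂ) (C ε : ℝ) (k : Fin n) (x : ℂ) : 0 ≤ qv v C ε k x :=
  Real.smoothTransition.nonneg _

theorem qv_le_one (v : Fin n → ℂ) (C ε : ℝ) (k : Fin n) (x : ℂ) : qv v C ε k x ≤ 1 :=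
  Real.smoothTransition.le_one _

theorem qv_zero (hC : 0 < C) (hε : 0 < ε) {k : Fin n} {x : ℂ} (h : ‖x - v k‖ ≤ C * ε) :
    qv v C ε k x = 0 := by
  have hp : 0 < C * ε := mul_pos hC hε
  unfold qv
  apply Real.smoothTransition.zero_of_nonpos
  have : ‖x - v k‖ ^ 2 / (C * ε) ^ 2 ≤ 1 := by
    rw [div_le_one (by positivity)]
    exact pow_le_pow_left₀ (norm_nonneg _) h 2
  linarith

theorem qv_one (hC : 0 < C) (hε : 0 < ε) {k : Fin n} {x : ℂ} (h : 2 * C * ε ≤ ‖x - v k‖) :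
    qv v C ε k x = 1 := by
  have hp : 0 < C * ε := mul_pos hC hε
  unfold qv
  apply Real.smoothTransition.one_of_one_le
  have h1 : (2 * C * ε) ^ 2 ≤ ‖x - v k‖ ^ 2 := pow_le_pow_left₀ (by positivity) h 2
  have : 2 ≤ ‖x - v k‖ ^ 2 / (C * ε) ^ 2 := by
    rw [le_div_iff₀ (by positivity)]
    nlinarith [sq_nonneg (C * ε)]
  linarith

theorem hasFDerivAt_qv (v : Fin n → ℂ) (C ε : ℝ) (k : Fin n) (x : ℂ) :
    HasFDerivAt (qv v C ε k) ((fderiv ℝ Th (((C * ε)⁻¹ : ℝ) • (x - v k))).comp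
      (((C * ε)⁻¹ : ℝ) • ContinuousLinearMap.id ℝ ℂ)) x := by
  have h1 : HasFDerivAt (fun x : ℂ => ((C * ε)⁻¹ : ℝ) • (x - v k))
      (((C * ε)⁻¹ : ℝ) • ContinuousLinearMap.id ℝ ℂ) x := by
    have h0 : HasFDerivAt (fun x : ℂ => x - v k) (ContinuousLinearMap.id ℝ ℂ) x :=
      (hasFDerivAt_id x).sub_const (v k)
    exact h0.const_smul ((C * ε)⁻¹ : ℝ)
  have h2 : HasFDerivAt Th (fderiv ℝ Th (((C * ε)⁻¹ : ℝ) • (x - v k)))
      (((C * ε)⁻¹ : ℝ) • (x - v k)) :=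
    (Th_contDiff.differentiable (by simp)).differentiableAt.hasFDerivAt
  have h3 := h2.comp x h1
  have : qv v C ε k = Th ∘ fun x => (((C * ε)⁻¹ : ℝ) • (x - v k)) := funext (qv_eq v C ε k)
  rw [this]
  exact h3

theorem fderiv_qv_bound {B : ℝ} (hB : ∀ y, ‖fderiv ℝ Th y‖ ≤ B) (hC : 0 < C) (hε : 0 < ε)
    (k : Fin n) (x : ℂ) : ‖fderiv ℝ (qv v C ε k) x‖ ≤ B / (C * ε) := by
  have hp : 0 < C * ε := mul_pos hC hε
  have hB0 : 0 ≤ B := (norm_nonneg _).trans (hB 0)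
  rw [(hasFDerivAt_qv v C ε k x).fderiv]
  refine (ContinuousLinearMap.opNorm_comp_le _ _).trans ?_
  have h1 : ‖(((C * ε)⁻¹ : ℝ) • ContinuousLinearMap.id ℝ ℂ)‖ ≤ (C * ε)⁻¹ := by
    rw [norm_smul, Real.norm_eq_abs, abs_of_pos (inv_pos.mpr hp)]
    calc (C * ε)⁻¹ * ‖ContinuousLinearMap.id ℝ ℂ‖ ≤ (C * ε)⁻¹ * 1 :=
          mul_le_mul_of_nonneg_left ContinuousLinearMap.norm_id_le (inv_pos.mpr hp).le
      _ = _ := mul_one _
  calc _ ≤ B * (C * ε)⁻¹ := mul_le_mul (hB _) h1 (norm_nonneg _) hB0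
    _ = _ := by rw [div_eq_mul_inv]

theorem WW_contDiff (v : Fin n → ℂ) (C ε : ℝ) : ContDiff ℝ (⊤ : ℕ∞) (WW v C ε) := by
  unfold WW
  exact contDiff_prod (fun k _ => qv_contDiff v C ε k)

theorem WW_nonneg (v : Fin n → ℂ) (C ε : ℝ) (x : ℂ) : 0 ≤ WW v C ε x :=
  Finset.prod_nonneg (fun k _ => qv_nonneg v C ε k x)

theorem WW_le_one (v : Fin n → ℂ) (C ε : ℝ) (x : ℂ) : WW v C ε x ≤ 1 :=
  Finset.prod_le_one (fun k _ => qv_nonneg v C ε k x) (fun k _ => qv_le_one v C ε k x)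

theorem WW_zero (hC : 0 < C) (hε : 0 < ε) {k : Fin n} {x : ℂ} (h : ‖x - v k‖ ≤ C * ε) :
    WW v C ε x = 0 :=
  Finset.prod_eq_zero (Finset.mem_univ k) (qv_zero hC hε h)

theorem WW_one (hC : 0 < C) (hε : 0 < ε) {x : ℂ} (h : ∀ k, 2 * C * ε ≤ ‖x - v k‖) :
    WW v C ε x = 1 :=
  Finset.prod_eq_one (fun k _ => qv_one hC hε (h k))

theorem fderiv_WW_bound {B : ℝ} (hB : ∀ y, ‖fderiv ℝ Th y‖ ≤ B) (hC : 0 < C) (hε : 0 < ε)
    (x : ℂ) : ‖fderiv ℝ (WW v C ε) x‖ ≤ n * (B / (C * ε)) := by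
  classical
  have h1 : HasFDerivAt (WW v C ε)
      (∑ k, (∏ j ∈ Finset.univ.erase k, qv v C ε j x) • fderiv ℝ (qv v C ε k) x) x := by
    have := HasFDerivAt.finsetProd (𝕜 := ℝ) (u := (Finset.univ : Finset (Fin n)))
      (g := fun k => qv v C ε k) (g' := fun k => fderiv ℝ (qv v C ε k) x) (x := x)
      (fun k _ => (hasFDerivAt_qv v C ε k x).differentiableAt.hasFDerivAt)
    exact this
  rw [h1.fderiv]
  refine (norm_sum_le _ _).trans ?_
  have h2 : ∀ k ∈ (Finset.univ : Finset (Fin n)),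
      ‖(∏ j ∈ Finset.univ.erase k, qv v C ε j x) • fderiv ℝ (qv v C ε k) x‖ ≤ B / (C * ε) := by
    intro k _
    rw [norm_smul, Real.norm_eq_abs,
      abs_of_nonneg (Finset.prod_nonneg (fun j _ => qv_nonneg v C ε j x))]
    calc _ ≤ 1 * ‖fderiv ℝ (qv v C ε k) x‖ :=
          mul_le_mul_of_nonneg_right
            (Finset.prod_le_one (fun j _ => qv_nonneg v C ε j x) (fun j _ => qv_le_one v C ε j x))
            (norm_nonneg _)
      _ ≤ _ := by rw [one_mul]; exact fderiv_qv_bound hB hC hε k x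
  refine (Finset.sum_le_sum h2).trans ?_
  simp

theorem fderiv_WW_zero_near (hC : 0 < C) (hε : 0 < ε) {k : Fin n} {x : ℂ}
    (h : ‖x - v k‖ < C * ε) : fderiv ℝ (WW v C ε) x = 0 := by
  have : WW v C ε =ᶠ[𝓝 x] fun _ => 0 := by
    have hopen : IsOpen {y : ℂ | ‖y - v k‖ < C * ε} :=
      isOpen_lt (continuous_id.sub continuous_const).norm continuous_const
    filter_upwards [hopen.mem_nhds h] with z hz
    exact WW_zero hC hε (le_of_lt hz)
  rw [this.fderiv_eq]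
  simp

theorem fderiv_WW_zero_far (hC : 0 < C) (hε : 0 < ε) {x : ℂ}
    (h : ∀ k, 2 * C * ε < ‖x - v k‖) : fderiv ℝ (WW v C ε) x = 0 := by
  have : WW v C ε =ᶠ[𝓝 x] fun _ => 1 := by
    have hopen : IsOpen {y : ℂ | ∀ k, 2 * C * ε < ‖y - v k‖} := by
      rw [ofPred_forall]
      exact isOpen_iInter_of_finite (fun k =>
        isOpen_lt continuous_const (continuous_id.sub continuous_const).norm)
    filter_upwards [hopen.mem_nhds h] with z hz
    exact WW_one hC hε (fun k => (hz k).le)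
  rw [this.fderiv_eq]
  simp

theorem Jf_le {W : ℂ → ℝ} (u : ℂ → ℂ) (x : ℂ) {D : ℝ} (hD : ‖fderiv ℝ W x‖ ≤ D) :
    |Jf W u x| ≤ 2 * D * (‖u x‖ * ‖fderiv ℝ u x‖) := by
  have hD0 : 0 ≤ D := (norm_nonneg _).trans hD
  have hI : |fderiv ℝ W x I| ≤ D := by
    rw [← Real.norm_eq_abs]
    refine ((fderiv ℝ W x).le_opNorm I).trans ?_
    rw [Complex.norm_I, mul_one]; exact hD
  have h1 : |fderiv ℝ W x 1| ≤ D := by
    rw [← Real.norm_eq_abs]
    refine ((fderiv ℝ W x).le_opNorm 1).trans ?_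
    rw [norm_one, mul_one]; exact hD
  have hz : ∀ h : ℂ, ‖h‖ = 1 → |(conj (u x) * fderiv ℝ u x h).im| ≤ ‖u x‖ * ‖fderiv ℝ u x‖ := by
    intro h hh
    refine (Complex.abs_im_le_norm _).trans ?_
    rw [norm_mul, Complex.norm_conj]
    refine mul_le_mul_of_nonneg_left ?_ (norm_nonneg _)
    refine ((fderiv ℝ u x).le_opNorm h).trans ?_
    rw [hh, mul_one]
  unfold Jf
  have ha := hz 1 norm_one
  have hb := hz I Complex.norm_I
  have hP : 0 ≤ ‖u x‖ * ‖fderiv ℝ u x‖ := by positivity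
  calc _ ≤ |fderiv ℝ W x I * (conj (u x) * fderiv ℝ u x 1).im| +
        |fderiv ℝ W x 1 * (conj (u x) * fderiv ℝ u x I).im| := abs_sub _ _
    _ ≤ D * (‖u x‖ * ‖fderiv ℝ u x‖) + D * (‖u x‖ * ‖fderiv ℝ u x‖) := by
        rw [abs_mul, abs_mul]
        exact add_le_add (mul_le_mul hI ha (abs_nonneg _) hD0)
          (mul_le_mul h1 hb (abs_nonneg _) hD0)
    _ = _ := by ring

/-- (WP) -/
theorem row : StWP := by
  intro n v C e0 hG
  have hC : 0 < C := lt_of_lt_of_le one_pos hG.C1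
  refine ⟨fun ε hε => ⟨(WW_contDiff v C ε).of_le (by norm_cast),
    fun x => ⟨WW_nonneg v C ε x, WW_le_one v C ε x⟩, ?_, fun x h => WW_one hC hε h⟩, ?_⟩
  · intro x hx k
    by_contra h
    exact hx (WW_zero hC hε (not_le.mp h).le)
  · obtain ⟨B, hB0, hB⟩ := exists_Th_bound
    refine ⟨2 * (n * (B / C)) + 1, by positivity, ?_⟩
    intro ε hε u x
    have hP : 0 ≤ ‖u x‖ * ‖fderiv ℝ u x‖ := by positivity
    by_cases hx : x ∈ {x : ℂ | (∃ k, ‖x - v k‖ ≤ 2 * C * ε) ∧ ∀ k, C * ε ≤ ‖x - v k‖}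
    · rw [indicator_of_mem hx]
      refine (Jf_le u x (fderiv_WW_bound hB hC hε x)).trans ?_
      apply mul_le_mul_of_nonneg_right _ hP
      rw [le_div_iff₀ hε]
      have : 2 * ((n : ℝ) * (B / (C * ε))) * ε = 2 * (n * (B / C)) := by
        field_simp
      rw [this]
      linarith
    · rw [indicator_of_notMem hx, mul_zero]
      have h0 : fderiv ℝ (WW v C ε) x = 0 := by
        by_cases h1 : ∀ k, C * ε ≤ ‖x - v k‖
        · have h2 : ∀ k, 2 * C * ε < ‖x - v k‖ := by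
            intro k
            by_contra h3
            exact hx ⟨⟨k, not_lt.mp h3⟩, h1⟩
          exact fderiv_WW_zero_far hC hε h2
        · push Not at h1
          obtain ⟨k, hk⟩ := h1
          exact fderiv_WW_zero_near hC hε hk
      unfold Jf
      rw [h0]
      simp

end Pool.Agent.Lib.BilD.WP12
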