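import Pool.Agent.Lib.MP_7bc51d_an_dense.Smo74
import Pool.Agent.Lib.MP_7bc51d_an_dense.Tel
import Pool.Agent.Lib.MP_7bc51d_an_dense.Refl5
import Pool.Agent.Lib.MP_7bc51d_an_dense.Side5
import Pool.Agent.Lib.MP_7bc51d_an_dense.Bes85
import Pool.Agent.Lib.MP_7bc51d_an_dense.Fold17
import Pool.Agent.Lib.MP_7bc51d_an_dense.Lim89
import Pool.Agent.Lib.MP_7bc51d_an_dense.WP12
import Pool.Agent.Lib.MP_7bc51d_an_dense.TI33
import Pool.Agent.Lib.MP_7bc51d_an_dense.EI17
import Pool.Agent.Lib.MP_7bc51d_an_dense.Geo40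
import Pool.Agent.Lib.MP_7bc51d_an_dense.Area5
import Pool.Agent.Lib.MP_7bc51d_an_dense.Cor57
import Pool.Agent.Lib.MP_7bc51d_an_dense.DomNull85
import Pool.Agent.Lib.MP_7bc51d_an_dense.Top89

set_option autoImplicit false

namespace Pool.Agent.Lib.BilD

open Complex MeasureTheory Set Filter Topology
open Pool.Agent.Lib.Bil

theorem rMode : StMode := Smo74.mode TI33.row Smo74.row

theorem rSide : StSide := Side5.row Refl5.row Smo74.row WP12.row

theorem rTel : StTel := Tel74.row Smo74.row rMode (Bes85.row Smo74.row) ei17 rSide WP12.row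
  Fold17.row

theorem rArea : StArea := by
  intro n v hn hv
  exact Area5.area_Vr hn hv

theorem rLim : StLim := Lim89.row WP12.row Smo74.row rArea

theorem rV : StV := by
  intro n v hn hv F hF h
  obtain ⟨C, e0, hG⟩ := Geo40.row n hn v hv
  obtain ⟨C5, e1, h1, h2, h3, h4⟩ := rTel n v C e0 hn hv hG
  exact rLim n v C e0 hn hv hG F hF C5 e1 h1 h2 h3 (h4 F hF) h

theorem rNull : StNull := DomNull85.null rV cor57 DomNull85.dom

theorem rTop : StTop := Top89.row rNull

end Pool.Agent.Lib.BilD
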